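import Mathlib

/-!
# Kernel checker for the jet certificate (project BJ)

Monomials in `c_1, c_2, ...` are coded by positive naturals (the exponent of the `k`-th prime is
the exponent of `c_k`), polynomials by lists of pairs (code, coefficient).
All recursions are written with recursors, which is much faster in the kernel.
-/

set_option autoImplicit false

namespace Pool.Agent.H58.BJ

/-- polynomials: lists of (code of a monomial, coefficient) -/
abbrev Pol := List (ℕ × ℤ)

/-- binary tries with integer leaves -/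
inductive Tr where
  | e : Tr
  | lf : ℤ → Tr
  | nd : Tr → Tr → Tr

/-- forcing a natural number -/
noncomputable def fN {A : Type} (n : ℕ) (k : ℕ → A) : A :=
  Nat.rec (motive := fun _ => A) (k (nat_lit 0)) (fun m _ => k (Nat.succ m)) n

/-- forcing an integer -/
noncomputable def fI {A : Type} (z : ℤ) (k : ℤ → A) : A :=
  Int.rec (motive := fun _ => A) (fun n => fN n fun n' => k (Int.ofNat n'))
    (fun n => fN n fun n' => k (Int.negSucc n')) z

/-- forcing the head of a trie -/
noncomputable def fT (t : Tr) (k : Tr → Tr) : Tr :=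
  Tr.rec (motive := fun _ => Tr) (k Tr.e) (fun z => k (Tr.lf z)) (fun l r _ _ => k (Tr.nd l r)) t

/-- add `z` at position `k` of a trie of depth `d` (lowest bit first); a misplaced leaf or node
stays, so that `good` detects every failure at the end -/
noncomputable def upd (d : ℕ) : ℕ → ℤ → Tr → Tr :=
  Nat.rec (motive := fun _ => ℕ → ℤ → Tr → Tr)
    (fun _ z t => Tr.rec (motive := fun _ => Tr) (Tr.lf z) (fun v => fI (Int.add v z) Tr.lf)
      (fun l r _ _ => Tr.nd l r) t)
    (fun _ ih k z t => Bool.rec (motive := fun _ => Tr)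
      (Tr.rec (motive := fun _ => Tr)
        (fT (ih (Nat.div k (nat_lit 2)) z Tr.e) fun r' => Tr.nd Tr.e r')
        (fun v => Tr.lf v)
        (fun l r _ _ => fT (ih (Nat.div k (nat_lit 2)) z r) fun r' => Tr.nd l r') t)
      (Tr.rec (motive := fun _ => Tr)
        (fT (ih (Nat.div k (nat_lit 2)) z Tr.e) fun l' => Tr.nd l' Tr.e)
        (fun v => Tr.lf v)
        (fun l r _ _ => fT (ih (Nat.div k (nat_lit 2)) z l) fun l' => Tr.nd l' r) t)
      (Nat.beq (Nat.mod k (nat_lit 2)) (nat_lit 0))) d

/-- all leaves are at depth `d` -/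
noncomputable def good (t : Tr) : ℕ → Bool :=
  Tr.rec (motive := fun _ => ℕ → Bool) (fun _ => true) (fun _ d => Nat.beq d (nat_lit 0))
    (fun _ _ il ir d => Nat.rec (motive := fun _ => Bool) false
      (fun d' _ => Bool.and (il d') (ir d')) d) t

/-- add `z` at the (unordered) pair `u, v`, both must be at most `255` -/
noncomputable def ins (u v : ℕ) (z : ℤ) (t : Tr) : Tr :=
  Bool.rec (motive := fun _ => Tr) (Tr.lf (Int.ofNat (nat_lit 0)))
    (Bool.rec (motive := fun _ => Tr)
      (upd (nat_lit 16) (Nat.add (Nat.mul v (nat_lit 256)) u) z t)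
      (upd (nat_lit 16) (Nat.add (Nat.mul u (nat_lit 256)) v) z t) (Nat.ble u v))
    (Bool.and (Nat.ble u (nat_lit 255)) (Nat.ble v (nat_lit 255)))

/-- scalar product of lists -/
noncomputable def dot (l : List ℤ) : List ℤ → ℤ :=
  List.rec (motive := fun _ => List ℤ → ℤ) (fun _ => Int.ofNat (nat_lit 0))
    (fun a _ ih m => List.rec (motive := fun _ => ℤ) (Int.ofNat (nat_lit 0))
      (fun b m' _ => Int.add (Int.mul a b) (ih m')) m) l

/-- insert `z * (u) * q (v *)` -/
noncomputable def insQ (u v : ℕ) (z : ℤ) (q : Pol) : Tr → Tr :=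
  List.rec (motive := fun _ => Tr → Tr) (fun t => t)
    (fun x _ ih t => fN (Nat.mul v x.1) fun v' => fI (Int.mul z x.2) fun z' =>
      fT (ins u v' z' t) ih) q

/-- insert the product terms of two polynomials, multiplied by monomials and a number -/
noncomputable def insO (u v : ℕ) (z : ℤ) (p q : Pol) : Tr → Tr :=
  List.rec (motive := fun _ => Tr → Tr) (fun t => t)
    (fun s _ ih t => fN (Nat.mul u s.1) fun u' => fI (Int.mul z s.2) fun z' =>
      fT (insQ u' v z' q t) ih) p

/-- a row of a block: codes `a`, `b` of monomials and a tag selecting one of two families -/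
abbrev Row := ℕ × ℕ × Bool

/-- selection by a tag -/
noncomputable def sel (p0 p1 : List Pol) (b : Bool) : List Pol :=
  Bool.rec (motive := fun _ => List Pol) p0 p1 b

/-- insert the terms of a pair of rows -/
noncomputable def insW (u v : ℕ) (z : ℤ) (ws : List ℤ) : List Pol → List Pol → Tr → Tr :=
  List.rec (motive := fun _ => List Pol → List Pol → Tr → Tr) (fun _ _ t => t)
    (fun w _ ih ps qs t => List.rec (motive := fun _ => Tr) t
      (fun p ps' _ => List.rec (motive := fun _ => Tr) t
        (fun q qs' _ => fT (insO u v (Int.mul z w) p q t) (ih ps' qs')) qs) ps) ws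

/-- pair of rows, factor `z` -/
noncomputable def insPair (ws : List ℤ) (p0 p1 : List Pol) (r c : Row) (z : ℤ) (t : Tr) : Tr :=
  fN (Nat.mul r.1 c.2.1) fun u => fN (Nat.mul r.2.1 c.1) fun v => fI z fun z' =>
    insW u v z' ws (sel p0 p1 r.2.2) (sel p0 p1 c.2.2) t

/-- insert the terms of row `r` against later rows -/
noncomputable def rowIns (ws : List ℤ) (p0 p1 : List Pol) (f : ℤ) (r : Row) (lr : List ℤ)
    (l : List (Row × List ℤ)) : Tr → Tr :=
  List.rec (motive := fun _ => Tr → Tr) (fun t => t)
    (fun c _ ih t => fT (insPair ws p0 p1 r c.1 (Int.mul f (Int.mul (Int.ofNat (nat_lit 2))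
      (dot lr c.2))) t) ih) l

/-- insert a block, factor `f` -/
noncomputable def blkIns (ws : List ℤ) (p0 p1 : List Pol) (f : ℤ) (l : List (Row × List ℤ)) :
    Tr → Tr :=
  List.rec (motive := fun _ => Tr → Tr) (fun t => t)
    (fun r l' ih t => fT (insPair ws p0 p1 r.1 r.1 (Int.mul f (dot r.2 r.2)) t) fun t1 =>
      fT (rowIns ws p0 p1 f r.1 r.2 l' t1) ih) l

/-! ### polynomials -/

/-- append -/
noncomputable def app (p q : Pol) : Pol :=
  List.rec (motive := fun _ => Pol) q (fun h _ ih => h :: ih) p

/-- insert a term into a sorted polynomial -/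
noncomputable def insP (k : ℕ) (z : ℤ) (p : Pol) : Pol :=
  List.rec (motive := fun _ => Pol) [(k, z)]
    (fun h t ih => Bool.rec (motive := fun _ => Pol)
      (Bool.rec (motive := fun _ => Pol) ((k, z) :: h :: t)
        ((h.1, Int.add h.2 z) :: t) (Nat.beq h.1 k)) (h :: ih)
      (Nat.ble (Nat.succ h.1) k)) p

/-- sort and collect -/
noncomputable def norP (p : Pol) : Pol :=
  List.rec (motive := fun _ => Pol) [] (fun h _ ih => insP h.1 h.2 ih) p

/-- monomial times polynomial -/
noncomputable def mon1 (k : ℕ) (z : ℤ) (q : Pol) : Pol :=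
  List.rec (motive := fun _ => Pol) []
    (fun t _ ih => (Nat.mul k t.1, Int.mul z t.2) :: ih) q

/-- product -/
noncomputable def mulP (p q : Pol) : Pol :=
  List.rec (motive := fun _ => Pol) [] (fun s _ ih => app (mon1 s.1 s.2 q) ih) p

/-- multiple -/
noncomputable def smulP (a : ℤ) (p : Pol) : Pol := mon1 (nat_lit 1) a p

/-- sum of `g 0, ..., g (n-1)` -/
noncomputable def sumP (n : ℕ) (g : ℕ → Pol) : Pol :=
  Nat.rec (motive := fun _ => Pol) [] (fun k ih => app (g k) ih) n

/-- entry of a list of polynomials -/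
noncomputable def nth (l : List Pol) : ℕ → Pol :=
  List.rec (motive := fun _ => ℕ → Pol) (fun _ => [])
    (fun h _ ih n => Nat.rec (motive := fun _ => Pol) h (fun m _ => ih m) n) l

/-- code of `c_n` (for `n ≤ 8`) -/
def ck (n : ℕ) : ℕ :=
  bif Nat.beq n 0 then 1 else bif Nat.beq n 1 then 2 else bif Nat.beq n 2 then 3 else
  bif Nat.beq n 3 then 5 else bif Nat.beq n 4 then 7 else bif Nat.beq n 5 then 11 else
  bif Nat.beq n 6 then 13 else bif Nat.beq n 7 then 17 else 19

/-- `c_n` -/
def cP (n : ℕ) : Pol := [(ck n, 1)]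

/-- `v_n = (1 - 2 n) c_n` -/
def vP (n : ℕ) : Pol := [(ck n, 1 - 2 * (n : ℤ))]

/-- `sum_{i+j=n} c_i v_j` -/
noncomputable def cvP (n : ℕ) : Pol := norP (sumP (n + 1) fun i => mulP (cP i) (vP (n - i)))

/-- `d_n = sum_{i+j+k=n} c_i c_j c_k` -/
noncomputable def dPol (n : ℕ) : Pol := norP (sumP (n + 1) fun i =>
  mulP (cP i) (sumP (n - i + 1) fun j => mulP (cP j) (cP (n - i - j))))

/-- right side of the recursion of `r_n` -/
noncomputable def rhP (n : ℕ) : Pol := norP (sumP (n + 1) fun i =>
  app (smulP (-3 * ((i : ℤ) + 1)) (mulP (cP (i + 1)) (vP (n - i))))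
    (smulP (((n - i : ℕ) : ℤ) + 1) (mulP (cP i) (vP (n - i + 1)))))

/-- recursion of `r_n` -/
noncomputable def rStep (rs : List Pol) (n : ℕ) : Pol :=
  norP (app (rhP n) (sumP n fun k => smulP (-1) (mulP (nth rs k) (cvP (n - k)))))

/-- recursion of `eta_n` -/
noncomputable def eStep (rs es : List Pol) (n : ℕ) : Pol :=
  norP (app (nth rs n) ((1, -2) :: sumP n fun k =>
    smulP (-(((n + 1).choose (k + 1) : ℕ) : ℤ)) (nth es k)))

/-- monomial in the `eta_k` -/
noncomputable def monP (es : List Pol) (m : List ℕ) : Pol :=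
  List.rec (motive := fun _ => Pol) [(1, 1)] (fun k _ ih => norP (mulP (nth es k) ih)) m

/-- derivation `delta eta_k = (k+1) eta_{k+1}` -/
noncomputable def dP (es : List Pol) (m : List ℕ) : Pol :=
  List.rec (motive := fun _ => Pol) [] (fun (k : ℕ) (m' : List ℕ) ih =>
    norP (app (mulP (smulP ((k : ℤ) + 1) (nth es (k + 1))) (monP es m')) (mulP (nth es k) ih))) m

/-- `D' X = - eta_0 X + delta X` -/
noncomputable def DP (es : List Pol) (m : List ℕ) : Pol :=
  norP (app (smulP (-1) (mulP (nth es 0) (monP es m))) (dP es m))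

/-- weight -/
noncomputable def wtL (m : List ℕ) : ℕ :=
  List.rec (motive := fun _ => ℕ) 0 (fun k _ ih => (k + 1) + ih) m

/-- entry of the table: `D' X`, `X`, weight -/
abbrev Ent := Pol × Pol × ℕ

/-- forcing the head of a list -/
noncomputable def fL {A B : Type} (l : List A) (k : List A → B) : B :=
  List.rec (motive := fun _ => B) (k []) (fun h t _ => k (h :: t)) l

/-- `a p + q` by merging -/
noncomputable def axpy (a : ℤ) (p : Pol) : Pol → Pol :=
  List.rec (motive := fun _ => Pol → Pol) (fun q => q)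
    (fun x _ ih q => List.rec (motive := fun _ => Pol)
      (fI (Int.mul a x.2) fun z => fL (ih []) fun r => (x.1, z) :: r)
      (fun y q' ihq => Bool.rec (motive := fun _ => Pol)
        (Bool.rec (motive := fun _ => Pol)
          (fI (Int.mul a x.2) fun z => fL (ih (y :: q')) fun r => (x.1, z) :: r)
          (fI (Int.add (Int.mul a x.2) y.2) fun z => fL (ih q') fun r => (y.1, z) :: r)
          (Nat.beq x.1 y.1))
        (fL ihq fun r => y :: r)
        (Nat.ble (Nat.succ y.1) x.1)) q) p

/-- the sum over `X` for one `Y` of weight `w` -/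
noncomputable def zP (bn bd : ℤ) (w : ℕ) (tab : List (List ℕ × Ent)) : List ℤ → Pol :=
  List.rec (motive := fun _ => List ℤ → Pol) (fun _ => [])
    (fun x _ ih mu => List.rec (motive := fun _ => Pol) []
      (fun a mu' _ => fL (ih mu') fun r =>
        fI (Int.mul a bd) fun a1 =>
        fI (Int.mul a (Int.add (Int.mul bd (Int.ofNat (Nat.add x.2.2.2 w))) bn)) fun a2 =>
        fL (axpy a2 x.2.2.1 r) fun r2 => axpy a1 x.2.1 r2) mu) tab

/-- a row of `G`: monomial `Y`, its polynomial, its weight, the numbers `mu` -/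
abbrev YRow := List ℕ × Pol × ℕ × List ℤ

/-- insert the terms of `-2 G` -/
noncomputable def gIns (bn bd : ℤ) (tab : List (List ℕ × Ent)) (l : List YRow) : Tr → Tr :=
  List.rec (motive := fun _ => Tr → Tr) (fun t => t)
    (fun y _ ih t => fT (insO (nat_lit 1) (nat_lit 1) (Int.negSucc (nat_lit 1))
      (zP bn bd y.2.2.1 tab y.2.2.2) y.2.1 t) ih) l

/-- the list `z, z - 2, z - 4, ...` of length `n` -/
noncomputable def wB (n : ℕ) : ℤ → List ℤ :=
  Nat.rec (motive := fun _ => ℤ → List ℤ) (fun _ => [])
    (fun _ ih z => fI z fun z' => fL (ih (Int.sub z' (Int.ofNat (nat_lit 2)))) fun r =>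
      z' :: r) n

/-- weights `3, 1, -1, ...` -/
noncomputable def wA (n : ℕ) : List ℤ := wB n (Int.ofNat (nat_lit 3))

/-- `0, c_0, c_1, ..., c_8` -/
def qc : List Pol :=
  [[], [(1, 1)], [(2, 1)], [(3, 1)], [(5, 1)], [(7, 1)], [(11, 1)], [(13, 1)], [(17, 1)], [(19, 1)]]

/-- the constant `1` -/
def q1 : List Pol := [[(1, 1)]]

/-- steps of the computation -/
inductive Cmd where
  | g : List YRow → Cmd
  | a : ℕ → ℕ → List (Row × List ℤ) → Cmd
  | m : ℕ → ℕ → List (Row × List ℤ) → Cmd

/-- one step -/
noncomputable def step (bn bd : ℤ) (tab : List (List ℕ × Ent)) (dd : List Pol) (c : Cmd)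
    (t : Tr) : Tr :=
  Cmd.rec (motive := fun _ => Tr) (fun l => gIns bn bd tab l t)
    (fun n f l => fL (wA n) fun ws => fI (Int.neg (Int.ofNat f)) fun f' =>
      blkIns ws qc dd f' l t)
    (fun w f l => fI (Int.neg (Int.ofNat f)) fun f' => blkIns [Int.ofNat w] q1 q1 f' l t) c

/-- all steps -/
noncomputable def run (bn bd : ℤ) (tab : List (List ℕ × Ent)) (dd : List Pol) (l : List Cmd) :
    Tr → Tr :=
  List.rec (motive := fun _ => Tr → Tr) (fun t => t)
    (fun c _ ih t => fT (step bn bd tab dd c t) ih) l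

/-! ### comparison and the final test -/

/-- equality of integers -/
noncomputable def eqI (a b : ℤ) : Bool :=
  Int.rec (motive := fun _ => Bool)
    (fun m => Int.rec (motive := fun _ => Bool) (fun n => Nat.beq m n) (fun _ => false) b)
    (fun m => Int.rec (motive := fun _ => Bool) (fun _ => false) (fun n => Nat.beq m n) b) a

/-- equality of polynomials as lists -/
noncomputable def eqP (p : Pol) : Pol → Bool :=
  List.rec (motive := fun _ => Pol → Bool)
    (fun q => List.rec (motive := fun _ => Bool) true (fun _ _ _ => false) q)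
    (fun x _ ih q => List.rec (motive := fun _ => Bool) false
      (fun y q' _ => Bool.and (Nat.beq x.1 y.1) (Bool.and (eqI x.2 y.2) (ih q'))) q) p

/-- all recursions below `n` -/
noncomputable def recOK (rs es : List Pol) (n : ℕ) : Bool :=
  Nat.rec (motive := fun _ => Bool) true (fun k ih => Bool.and ih
    (Bool.and (eqP (nth rs k) (rStep rs k)) (eqP (nth es k) (eStep rs es k)))) n

/-- all entries of a table; the monomials have weight less than `N` -/
noncomputable def tabOK (N : ℕ) (es : List Pol) (l : List (List ℕ × Ent)) : Bool :=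
  List.rec (motive := fun _ => Bool) true (fun x _ ih => Bool.and
    (Bool.and (Nat.ble (Nat.succ (wtL x.1)) N) (Bool.and (eqP x.2.1 (DP es x.1))
      (Bool.and (eqP x.2.2.1 (monP es x.1)) (Nat.beq x.2.2.2 (wtL x.1))))) ih) l

/-- all `Y`, of weight at most `N` -/
noncomputable def yOK (N : ℕ) (es : List Pol) (l : List YRow) : Bool :=
  List.rec (motive := fun _ => Bool) true (fun x _ ih => Bool.and
    (Bool.and (Nat.ble (wtL x.1) N) (Bool.and (eqP x.2.1 (monP es x.1))
      (Nat.beq x.2.2.1 (wtL x.1)))) ih) l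

/-- all `d_n` -/
noncomputable def dOK (dd : List Pol) (n : ℕ) : Bool :=
  Nat.rec (motive := fun _ => Bool) true (fun k ih => Bool.and ih
    (eqP (nth dd k) (dPol k))) n

/-- equality of tries -/
noncomputable def eqT (a : Tr) : Tr → Bool :=
  Tr.rec (motive := fun _ => Tr → Bool)
    (fun b => Tr.rec (motive := fun _ => Bool) true (fun _ => false) (fun _ _ _ _ => false) b)
    (fun z b => Tr.rec (motive := fun _ => Bool) false (fun z' => eqI z z')
      (fun _ _ _ _ => false) b)
    (fun _ _ il ir b => Tr.rec (motive := fun _ => Bool) false (fun _ => false)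
      (fun l r _ _ => Bool.and (il l) (ir r)) b) a

/-- absolute value -/
noncomputable def absI (z : ℤ) : ℕ :=
  Int.rec (motive := fun _ => ℕ) (fun n => n) (fun n => Nat.succ n) z

/-- sum of the absolute values of the leaves -/
noncomputable def absT (t : Tr) : ℕ :=
  Tr.rec (motive := fun _ => ℕ) (nat_lit 0) (fun z => absI z) (fun _ _ il ir => Nat.add il ir) t

/-- the final test -/
noncomputable def finT (M : ℕ) (t : Tr) : Bool := Bool.and (good t (nat_lit 16)) (Nat.ble (absT t) M)

end Pool.Agent.H58.BJ
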