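import Pool.Agent.H58.BJ.Def
import Pool.Agent.H58.BJ.Chk

set_option autoImplicit false

namespace Pool.Agent.H58.BJ

open Complex Metric Set
open scoped Real ComplexConjugate

/-! ## Values of polynomials, tries and blocks -/

/-- completely multiplicative functions -/
def Mult (χ : ℕ → ℂ) : Prop := χ 1 = 1 ∧ ∀ m n, χ (m * n) = χ m * χ n

/-- value of a polynomial -/
noncomputable def evP (χ : ℕ → ℂ) (p : Pol) : ℂ := (p.map fun x => (x.2 : ℂ) * χ x.1).sum

/-- value of a trie -/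
noncomputable def evT : Tr → (ℕ → ℝ) → ℝ
  | Tr.e, _ => 0
  | Tr.lf z, F => (z : ℝ) * F 0
  | Tr.nd l r, F => evT l (fun k => F (2 * k)) + evT r (fun k => F (2 * k + 1))

/-- the weights of the positions -/
noncomputable def FF (χ : ℕ → ℂ) (k : ℕ) : ℝ := (χ (k / 256) * conj (χ (k % 256))).re

/-- value of a group of terms of a block -/
noncomputable def WS (χ : ℕ → ℂ) (ws : List ℤ) (p0 p1 : List Pol) (a b : ℂ) : ℝ :=
  ∑ w ∈ Finset.range ws.length,
    ((ws.getD w 0 : ℤ) : ℝ) * ‖a * evP χ (nth p0 w) + b * evP χ (nth p1 w)‖ ^ 2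

/-- the `k`-th linear combination of the rows with tag `s` -/
noncomputable def lam (χ : ℕ → ℂ) (s : Bool) (k : ℕ) (l : List (Row × List ℤ)) : ℂ :=
  (l.map fun r => if r.1.2.2 = s then ((r.2.getD k 0 : ℤ) : ℂ) * (χ r.1.1 * conj (χ r.1.2.1))
    else 0).sum

/-- sum over the pairs `X, Y` -/
noncomputable def gS (χ : ℕ → ℂ) (bn bd : ℤ) (tab : List (List ℕ × Ent)) (l : List YRow) : ℝ :=
  (l.map fun y => (evP χ (zP bn bd y.2.2.1 tab y.2.2.2) * conj (evP χ y.2.1)).re).sum

end Pool.Agent.H58.BJ
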