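import Pool.Agent.H58.BJ.Def
import Pool.Agent.H58.BJ.Chk
import Pool.Agent.H58.BJ.CDef

/-!
# Project BJ, row C5: tries
-/

set_option autoImplicit false

namespace Pool.Agent.H58.BJ

open Complex Metric Set
open scoped Real ComplexConjugate

theorem c5_fN {A : Type} (n : ℕ) (k : ℕ → A) : fN n k = k n := by
  cases n <;> rfl

theorem c5_fI {A : Type} (z : ℤ) (k : ℤ → A) : fI z k = k z := by
  cases z with
  | ofNat n => exact c5_fN n fun n' => k (Int.ofNat n')
  | negSucc n => exact c5_fN n fun n' => k (Int.negSucc n')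

theorem c5_fT (t : Tr) (k : Tr → Tr) : fT t k = k t := by
  cases t <;> rfl

theorem c5_upd_zero_e (k : ℕ) (z : ℤ) : upd 0 k z Tr.e = Tr.lf z := rfl

theorem c5_upd_zero_lf (k : ℕ) (z v : ℤ) : upd 0 k z (Tr.lf v) = Tr.lf (v + z) :=
  c5_fI (Int.add v z) Tr.lf

theorem c5_upd_zero_nd (k : ℕ) (z : ℤ) (l r : Tr) : upd 0 k z (Tr.nd l r) = Tr.nd l r := rfl

theorem c5_upd_even_e {d k : ℕ} (z : ℤ) (h : Nat.beq (k % 2) 0 = true) :
    upd (d + 1) k z Tr.e = Tr.nd (upd d (k / 2) z Tr.e) Tr.e := by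
  have h1 : upd (d + 1) k z Tr.e = Bool.rec (motive := fun _ => Tr)
      (fT (upd d (Nat.div k 2) z Tr.e) fun r' => Tr.nd Tr.e r')
      (fT (upd d (Nat.div k 2) z Tr.e) fun l' => Tr.nd l' Tr.e) (Nat.beq (k % 2) 0) := rfl
  rw [h1, h, c5_fT, c5_fT]
  rfl

theorem c5_upd_odd_e {d k : ℕ} (z : ℤ) (h : Nat.beq (k % 2) 0 = false) :
    upd (d + 1) k z Tr.e = Tr.nd Tr.e (upd d (k / 2) z Tr.e) := by
  have h1 : upd (d + 1) k z Tr.e = Bool.rec (motive := fun _ => Tr)
      (fT (upd d (Nat.div k 2) z Tr.e) fun r' => Tr.nd Tr.e r')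
      (fT (upd d (Nat.div k 2) z Tr.e) fun l' => Tr.nd l' Tr.e) (Nat.beq (k % 2) 0) := rfl
  rw [h1, h, c5_fT, c5_fT]
  rfl

theorem c5_upd_lf (d k : ℕ) (z v : ℤ) : upd (d + 1) k z (Tr.lf v) = Tr.lf v := by
  have h1 : upd (d + 1) k z (Tr.lf v) = Bool.rec (motive := fun _ => Tr)
      (Tr.lf v) (Tr.lf v) (Nat.beq (k % 2) 0) := rfl
  rw [h1]
  cases Nat.beq (k % 2) 0 <;> rfl

theorem c5_upd_even_nd {d k : ℕ} (z : ℤ) (l r : Tr) (h : Nat.beq (k % 2) 0 = true) :
    upd (d + 1) k z (Tr.nd l r) = Tr.nd (upd d (k / 2) z l) r := by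
  have h1 : upd (d + 1) k z (Tr.nd l r) = Bool.rec (motive := fun _ => Tr)
      (fT (upd d (Nat.div k 2) z r) fun r' => Tr.nd l r')
      (fT (upd d (Nat.div k 2) z l) fun l' => Tr.nd l' r) (Nat.beq (k % 2) 0) := rfl
  rw [h1, h, c5_fT, c5_fT]
  rfl

theorem c5_upd_odd_nd {d k : ℕ} (z : ℤ) (l r : Tr) (h : Nat.beq (k % 2) 0 = false) :
    upd (d + 1) k z (Tr.nd l r) = Tr.nd l (upd d (k / 2) z r) := by
  have h1 : upd (d + 1) k z (Tr.nd l r) = Bool.rec (motive := fun _ => Tr)
      (fT (upd d (Nat.div k 2) z r) fun r' => Tr.nd l r')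
      (fT (upd d (Nat.div k 2) z l) fun l' => Tr.nd l' r) (Nat.beq (k % 2) 0) := rfl
  rw [h1, h, c5_fT, c5_fT]
  rfl

theorem c5_good_e (d : ℕ) : good Tr.e d = true := rfl

theorem c5_good_lf (z : ℤ) (d : ℕ) : good (Tr.lf z) d = Nat.beq d 0 := rfl

theorem c5_good_nd_zero (l r : Tr) : good (Tr.nd l r) 0 = false := rfl

theorem c5_good_nd_succ (l r : Tr) (d : ℕ) :
    good (Tr.nd l r) (d + 1) = (good l d && good r d) := rfl

theorem c5_upd (d : ℕ) : ∀ (k : ℕ) (z : ℤ) (t : Tr) (F : ℕ → ℝ), k < 2 ^ d →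
    good (upd d k z t) d = true →
    good t d = true ∧ evT (upd d k z t) F = evT t F + z * F k := by
  induction d with
  | zero =>
    intro k z t F hk h
    have hk0 : k = 0 := by simpa using hk
    subst hk0
    cases t with
    | e =>
      refine ⟨rfl, ?_⟩
      rw [c5_upd_zero_e]
      simp [evT]
    | lf v =>
      refine ⟨rfl, ?_⟩
      rw [c5_upd_zero_lf]
      simp only [evT]
      push_cast
      ring
    | nd l r =>
      rw [c5_upd_zero_nd, c5_good_nd_zero] at h
      exact absurd h Bool.false_ne_true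
  | succ d ih =>
    intro k z t F hk h
    have hk2 : k / 2 < 2 ^ d := by
      rw [pow_succ] at hk
      omega
    cases hb : Nat.beq (k % 2) 0 with
    | true =>
      have hm : k % 2 = 0 := Nat.eq_of_beq_eq_true hb
      have hk' : 2 * (k / 2) = k := by omega
      cases t with
      | e =>
        rw [c5_upd_even_e z hb, c5_good_nd_succ, Bool.and_eq_true] at h
        obtain ⟨h1, h2⟩ := ih (k / 2) z Tr.e (fun j => F (2 * j)) hk2 h.1
        refine ⟨rfl, ?_⟩
        rw [c5_upd_even_e z hb]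
        simp only [evT] at h2 ⊢
        rw [h2, hk']
        ring
      | lf v =>
        rw [c5_upd_lf, c5_good_lf] at h
        exact absurd h (by simp)
      | nd l r =>
        rw [c5_upd_even_nd z l r hb, c5_good_nd_succ, Bool.and_eq_true] at h
        obtain ⟨h1, h2⟩ := ih (k / 2) z l (fun j => F (2 * j)) hk2 h.1
        refine ⟨?_, ?_⟩
        · rw [c5_good_nd_succ, Bool.and_eq_true]
          exact ⟨h1, h.2⟩
        · rw [c5_upd_even_nd z l r hb]
          simp only [evT]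
          rw [h2, hk']
          ring
    | false =>
      have hm : k % 2 = 1 := by
        have h1 : k % 2 ≠ 0 := by
          intro h0
          rw [h0] at hb
          exact absurd hb (by simp)
        omega
      have hk' : 2 * (k / 2) + 1 = k := by omega
      cases t with
      | e =>
        rw [c5_upd_odd_e z hb, c5_good_nd_succ, Bool.and_eq_true] at h
        obtain ⟨h1, h2⟩ := ih (k / 2) z Tr.e (fun j => F (2 * j + 1)) hk2 h.2
        refine ⟨rfl, ?_⟩
        rw [c5_upd_odd_e z hb]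
        simp only [evT] at h2 ⊢
        rw [h2, hk']
        ring
      | lf v =>
        rw [c5_upd_lf, c5_good_lf] at h
        exact absurd h (by simp)
      | nd l r =>
        rw [c5_upd_odd_nd z l r hb, c5_good_nd_succ, Bool.and_eq_true] at h
        obtain ⟨h1, h2⟩ := ih (k / 2) z r (fun j => F (2 * j + 1)) hk2 h.2
        refine ⟨?_, ?_⟩
        · rw [c5_good_nd_succ, Bool.and_eq_true]
          exact ⟨h.1, h1⟩
        · rw [c5_upd_odd_nd z l r hb]
          simp only [evT]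
          rw [h2, hk']
          ring

theorem c5_FF (χ : ℕ → ℂ) {u v : ℕ} (hv : v ≤ 255) :
    FF χ (u * 256 + v) = (χ u * conj (χ v)).re := by
  unfold FF
  have h1 : (u * 256 + v) / 256 = u := by omega
  have h2 : (u * 256 + v) % 256 = v := by omega
  rw [h1, h2]

theorem ins_ev (χ : ℕ → ℂ) (u v : ℕ) (z : ℤ) (t : Tr) (h : good (ins u v z t) 16 = true) :
    good t 16 = true ∧
      evT (ins u v z t) (FF χ) = evT t (FF χ) + z * (χ u * conj (χ v)).re := by
  have h0 : ins u v z t = Bool.rec (motive := fun _ => Tr) (Tr.lf 0)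
    (Bool.rec (motive := fun _ => Tr) (upd 16 (v * 256 + u) z t) (upd 16 (u * 256 + v) z t)
      (Nat.ble u v)) (Nat.ble u 255 && Nat.ble v 255) := rfl
  cases hb : (Nat.ble u 255 && Nat.ble v 255) with
  | false =>
    rw [h0, hb] at h
    exact absurd h Bool.false_ne_true
  | true =>
    rw [Bool.and_eq_true] at hb
    have hu : u ≤ 255 := Nat.le_of_ble_eq_true hb.1
    have hv : v ≤ 255 := Nat.le_of_ble_eq_true hb.2
    have hb' : (Nat.ble u 255 && Nat.ble v 255) = true := by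
      rw [Bool.and_eq_true]
      exact hb
    rw [hb'] at h0
    cases hc : Nat.ble u v with
    | false =>
      rw [hc] at h0
      have h1 : ins u v z t = upd 16 (v * 256 + u) z t := h0
      rw [h1] at h ⊢
      obtain ⟨h2, h3⟩ := c5_upd 16 (v * 256 + u) z t (FF χ) (by omega) h
      refine ⟨h2, ?_⟩
      rw [h3, c5_FF χ hu]
      congr 2
      simp only [mul_re, conj_re, conj_im]
      ring
    | true =>
      rw [hc] at h0
      have h1 : ins u v z t = upd 16 (u * 256 + v) z t := h0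
      rw [h1] at h ⊢
      obtain ⟨h2, h3⟩ := c5_upd 16 (u * 256 + v) z t (FF χ) (by omega) h
      refine ⟨h2, ?_⟩
      rw [h3, c5_FF χ hv]

theorem c5_absI (z : ℤ) : |(z : ℝ)| = (absI z : ℝ) := by
  cases z with
  | ofNat n =>
    show |((Int.ofNat n : ℤ) : ℝ)| = (n : ℝ)
    simp
  | negSucc n =>
    show |((Int.negSucc n : ℤ) : ℝ)| = ((n.succ : ℕ) : ℝ)
    rw [Int.cast_negSucc, abs_neg, Nat.abs_cast]

theorem evT_le {F : ℕ → ℝ} (hF : ∀ k, |F k| ≤ 1) (t : Tr) : |evT t F| ≤ absT t := by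
  induction t generalizing F with
  | e =>
    show |(0 : ℝ)| ≤ ((0 : ℕ) : ℝ)
    simp
  | lf z =>
    show |(z : ℝ) * F 0| ≤ (absI z : ℝ)
    rw [abs_mul, c5_absI]
    calc (absI z : ℝ) * |F 0| ≤ absI z * 1 :=
          mul_le_mul_of_nonneg_left (hF 0) (Nat.cast_nonneg _)
      _ = absI z := mul_one _
  | nd l r ihl ihr =>
    show |evT l (fun k => F (2 * k)) + evT r (fun k => F (2 * k + 1))| ≤
      ((absT l + absT r : ℕ) : ℝ)
    push_cast
    exact (abs_add_le _ _).trans (add_le_add (ihl fun k => hF _) (ihr fun k => hF _))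

end Pool.Agent.H58.BJ
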