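import Pool.Agent.H58.BJ.C0
import Pool.Agent.H58.BJ.C5

/-! # Project BJ, row C6: outer products -/

set_option autoImplicit false

namespace Pool.Agent.H58.BJ

open Complex Metric Set
open scoped Real ComplexConjugate

theorem c6_insQ_cons (u v : ℕ) (z : ℤ) (x : ℕ × ℤ) (q : Pol) (t : Tr) :
    insQ u v z (x :: q) t = insQ u v z q (ins u (v * x.1) (z * x.2) t) := by
  show fN (Nat.mul v x.1) (fun v' => fI (Int.mul z x.2) fun z' =>
      fT (ins u v' z' t) (insQ u v z q)) = _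
  rw [fN_eq, fI_eq, fT_eq]
  rfl

theorem c6_insO_cons (u v : ℕ) (z : ℤ) (s : ℕ × ℤ) (p q : Pol) (t : Tr) :
    insO u v z (s :: p) q t = insO u v z p q (insQ (u * s.1) v (z * s.2) q t) := by
  show fN (Nat.mul u s.1) (fun u' => fI (Int.mul z s.2) fun z' =>
      fT (insQ u' v z' q t) (insO u v z p q)) = _
  rw [fN_eq, fI_eq, fT_eq]
  rfl

theorem c6_evP_cons (χ : ℕ → ℂ) (x : ℕ × ℤ) (q : Pol) :
    evP χ (x :: q) = (x.2 : ℂ) * χ x.1 + evP χ q := by
  simp [evP]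

theorem c6_insQ_ev {χ : ℕ → ℂ} (hχ : Mult χ) (u v : ℕ) (z : ℤ) (q : Pol) :
    ∀ t : Tr, good (insQ u v z q t) 16 = true →
    good t 16 = true ∧ evT (insQ u v z q t) (FF χ) =
      evT t (FF χ) + z * (χ u * conj (χ v * evP χ q)).re := by
  induction q with
  | nil =>
    intro t h
    refine ⟨h, ?_⟩
    show evT t (FF χ) = _
    rw [evP_nil]
    simp
  | cons x q ih =>
    intro t h
    rw [c6_insQ_cons] at h ⊢
    obtain ⟨h1, h2⟩ := ih _ h
    obtain ⟨h3, h4⟩ := ins_ev χ _ _ _ _ h1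
    refine ⟨h3, ?_⟩
    rw [h2, h4, c6_evP_cons, hχ.2]
    have e : χ u * conj (χ v * ((x.2 : ℂ) * χ x.1 + evP χ q)) =
        ((x.2 : ℝ) : ℂ) * (χ u * conj (χ v * χ x.1)) + χ u * conj (χ v * evP χ q) := by
      simp only [map_mul, map_add, map_intCast]
      push_cast
      ring
    rw [e, add_re, re_ofReal_mul]
    push_cast
    ring

theorem insO_ev {χ : ℕ → ℂ} (hχ : Mult χ) (u v : ℕ) (z : ℤ) (p q : Pol) (t : Tr)
    (h : good (insO u v z p q t) 16 = true) :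
    good t 16 = true ∧ evT (insO u v z p q t) (FF χ) =
      evT t (FF χ) + z * (χ u * evP χ p * conj (χ v * evP χ q)).re := by
  induction p generalizing t with
  | nil =>
    refine ⟨h, ?_⟩
    show evT t (FF χ) = _
    rw [evP_nil]
    simp
  | cons s p ih =>
    rw [c6_insO_cons] at h ⊢
    obtain ⟨h1, h2⟩ := ih _ h
    obtain ⟨h3, h4⟩ := c6_insQ_ev hχ _ _ _ _ _ h1
    refine ⟨h3, ?_⟩
    rw [h2, h4, c6_evP_cons, hχ.2]
    have e : χ u * ((s.2 : ℂ) * χ s.1 + evP χ p) * conj (χ v * evP χ q) =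
        ((s.2 : ℝ) : ℂ) * (χ u * χ s.1 * conj (χ v * evP χ q)) +
          χ u * evP χ p * conj (χ v * evP χ q) := by
      push_cast
      ring
    rw [e, add_re, re_ofReal_mul]
    push_cast
    ring

theorem c6_gIns_cons (bn bd : ℤ) (tab : List (List ℕ × Ent)) (y : YRow) (l : List YRow) (t : Tr) :
    gIns bn bd tab (y :: l) t =
      gIns bn bd tab l (insO 1 1 (-2) (zP bn bd y.2.2.1 tab y.2.2.2) y.2.1 t) := by
  show fT (insO (nat_lit 1) (nat_lit 1) (Int.negSucc (nat_lit 1))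
      (zP bn bd y.2.2.1 tab y.2.2.2) y.2.1 t) (gIns bn bd tab l) = _
  rw [fT_eq]
  rfl

theorem gIns_ev {χ : ℕ → ℂ} (hχ : Mult χ) (bn bd : ℤ) (tab : List (List ℕ × Ent))
    (l : List YRow) (t : Tr) (h : good (gIns bn bd tab l t) 16 = true) :
    good t 16 = true ∧ evT (gIns bn bd tab l t) (FF χ) =
      evT t (FF χ) - 2 * gS χ bn bd tab l := by
  induction l generalizing t with
  | nil =>
    refine ⟨h, ?_⟩
    show evT t (FF χ) = _
    simp [gS]
  | cons y l ih =>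
    rw [c6_gIns_cons] at h ⊢
    obtain ⟨h1, h2⟩ := ih _ h
    obtain ⟨h3, h4⟩ := insO_ev hχ _ _ _ _ _ _ h1
    refine ⟨h3, ?_⟩
    have e : gS χ bn bd tab (y :: l) =
        (evP χ (zP bn bd y.2.2.1 tab y.2.2.2) * conj (evP χ y.2.1)).re + gS χ bn bd tab l := by
      simp [gS]
    rw [h2, h4, e, hχ.1, one_mul, one_mul]
    push_cast
    ring

end Pool.Agent.H58.BJ
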