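import Pool.Agent.H58.BJ.Def

/-! # Project BJ, row A7: bounds for the coefficients and the jets -/

set_option autoImplicit false

namespace Pool.Agent.H58.BJ

open Complex Metric Set MeasureTheory
open scoped Real ComplexConjugate

theorem c_le {c : ℕ → ℂ} (h0 : c 0 = 1) (hs : Slack c) (n : ℕ) : ‖c n‖ ≤ 1 := by
  rcases n with _ | m
  · rw [h0, norm_one]
  · have h := hs 1 0 (m + 1)
    simp only [one_mul, zero_mul, add_zero, norm_zero, h0, norm_one] at h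
    have h1 : (2 * (m : ℝ) + 1) * ‖c (m + 1)‖ ^ 2 ≤
        ∑ n ∈ Finset.range (m + 1), (2 * (n : ℝ) + 1) * ‖c (n + 1)‖ ^ 2 :=
      Finset.single_le_sum (f := fun n : ℕ => (2 * (n : ℝ) + 1) * ‖c (n + 1)‖ ^ 2)
        (fun i _ => by positivity) (Finset.mem_range.2 (Nat.lt_succ_self m))
    have h2 : ‖c (m + 1)‖ ^ 2 ≤ (2 * (m : ℝ) + 1) * ‖c (m + 1)‖ ^ 2 := by
      have : (0 : ℝ) ≤ m := Nat.cast_nonneg m
      nlinarith [sq_nonneg ‖c (m + 1)‖]
    have h3 : ‖c (m + 1)‖ ^ 2 ≤ 1 := by linarith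
    exact (sq_le_one_iff₀ (norm_nonneg _)).1 h3

theorem a7_vv {c : ℕ → ℂ} (hc : ∀ n, ‖c n‖ ≤ 1) (n : ℕ) : ‖vv c n‖ ≤ 2 * (n : ℝ) + 1 := by
  unfold vv
  rw [norm_mul]
  have h1 : ‖(1 - 2 * (n : ℂ))‖ ≤ 2 * (n : ℝ) + 1 := by
    refine (norm_sub_le _ _).trans ?_
    rw [norm_mul, norm_one, Complex.norm_natCast]
    norm_num
    linarith
  calc ‖(1 - 2 * (n : ℂ))‖ * ‖c n‖ ≤ (2 * (n : ℝ) + 1) * 1 :=
        mul_le_mul h1 (hc n) (norm_nonneg _) (by positivity)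
    _ = _ := mul_one _

theorem a7_S {c : ℕ → ℂ} (hc : ∀ n, ‖c n‖ ≤ 1) (j : ℕ) :
    ‖∑ i ∈ Finset.range (j + 1), c i * vv c (j - i)‖ ≤ ((j : ℝ) + 1) * (2 * (j : ℝ) + 1) := by
  have h1 : ∀ i ∈ Finset.range (j + 1), ‖c i * vv c (j - i)‖ ≤ 2 * (j : ℝ) + 1 := by
    intro i _
    rw [norm_mul]
    have h2 := a7_vv hc (j - i)
    have h3 : ((j - i : ℕ) : ℝ) ≤ j := by exact_mod_cast Nat.sub_le j i
    calc ‖c i‖ * ‖vv c (j - i)‖ ≤ 1 * (2 * (j : ℝ) + 1) :=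
          mul_le_mul (hc i) (h2.trans (by linarith)) (norm_nonneg _) zero_le_one
      _ = _ := one_mul _
  refine (norm_sum_le_of_le _ h1).trans ?_
  simp only [Finset.sum_const, Finset.card_range, nsmul_eq_mul, Nat.cast_add, Nat.cast_one]
  exact le_rfl

/-- the right side of `RelR` -/
theorem a7_T {c : ℕ → ℂ} (hc : ∀ n, ‖c n‖ ≤ 1) (n : ℕ) :
    ‖∑ i ∈ Finset.range (n + 1), (-3 * ((i : ℂ) + 1) * c (i + 1) * vv c (n - i) +
      (((n - i : ℕ) : ℂ) + 1) * c i * vv c (n - i + 1))‖ ≤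
      ((n : ℝ) + 1) * (3 * ((n : ℝ) + 1) * (2 * n + 1) + ((n : ℝ) + 1) * (2 * n + 3)) := by
  have h1 : ∀ i ∈ Finset.range (n + 1), ‖(-3 * ((i : ℂ) + 1) * c (i + 1) * vv c (n - i) +
      (((n - i : ℕ) : ℂ) + 1) * c i * vv c (n - i + 1))‖ ≤
      3 * ((n : ℝ) + 1) * (2 * n + 1) + ((n : ℝ) + 1) * (2 * n + 3) := by
    intro i hi
    have hin : (i : ℝ) ≤ n := by exact_mod_cast Nat.lt_succ_iff.1 (Finset.mem_range.1 hi)
    have h3 : ((n - i : ℕ) : ℝ) ≤ n := by exact_mod_cast Nat.sub_le n i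
    have hi0 : (0 : ℝ) ≤ i := Nat.cast_nonneg i
    have hni0 : (0 : ℝ) ≤ ((n - i : ℕ) : ℝ) := Nat.cast_nonneg _
    have e1 : ‖((i : ℂ) + 1)‖ = (i : ℝ) + 1 := by
      have : ((i : ℂ) + 1) = ((i + 1 : ℕ) : ℂ) := by push_cast; ring
      rw [this, Complex.norm_natCast]
      push_cast
      ring
    have e2 : ‖(((n - i : ℕ) : ℂ) + 1)‖ = ((n - i : ℕ) : ℝ) + 1 := by
      have : (((n - i : ℕ) : ℂ) + 1) = (((n - i) + 1 : ℕ) : ℂ) := by push_cast; ring
      rw [this, Complex.norm_natCast]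
      push_cast
      ring
    refine (norm_add_le _ _).trans (add_le_add ?_ ?_)
    · rw [norm_mul, norm_mul, norm_mul, e1]
      have e3 : ‖(-3 : ℂ)‖ = 3 := by simp
      rw [e3]
      have h4 := a7_vv hc (n - i)
      have h5 : 3 * ((i : ℝ) + 1) * ‖c (i + 1)‖ ≤ 3 * ((n : ℝ) + 1) := by
        calc 3 * ((i : ℝ) + 1) * ‖c (i + 1)‖ ≤ 3 * ((i : ℝ) + 1) * 1 :=
              mul_le_mul_of_nonneg_left (hc _) (by positivity)
          _ ≤ _ := by linarith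
      exact mul_le_mul h5 (h4.trans (by linarith)) (norm_nonneg _) (by positivity)
    · rw [norm_mul, norm_mul, e2]
      have h4 := a7_vv hc (n - i + 1)
      have h6 : 2 * ((n - i + 1 : ℕ) : ℝ) + 1 ≤ 2 * n + 3 := by
        push_cast
        linarith
      have h5 : (((n - i : ℕ) : ℝ) + 1) * ‖c i‖ ≤ (n : ℝ) + 1 := by
        calc (((n - i : ℕ) : ℝ) + 1) * ‖c i‖ ≤ (((n - i : ℕ) : ℝ) + 1) * 1 :=
              mul_le_mul_of_nonneg_left (hc _) (by positivity)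
          _ ≤ _ := by linarith
      exact mul_le_mul h5 (h4.trans h6) (norm_nonneg _) (by positivity)
  refine (norm_sum_le_of_le _ h1).trans ?_
  simp only [Finset.sum_const, Finset.card_range, nsmul_eq_mul, Nat.cast_add, Nat.cast_one]
  exact le_rfl

theorem a7_r (N : ℕ) : ∃ R : ℝ, 0 ≤ R ∧ ∀ (c r : ℕ → ℂ), c 0 = 1 → Slack c → RelR c r →
    ∀ n < N, ‖r n‖ ≤ R := by
  induction N with
  | zero => exact ⟨0, le_rfl, fun _ _ _ _ _ n hn => absurd hn (Nat.not_lt_zero n)⟩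
  | succ N ih =>
    obtain ⟨R, hR, h⟩ := ih
    refine ⟨R + (((N : ℝ) + 1) * (3 * ((N : ℝ) + 1) * (2 * N + 1) + ((N : ℝ) + 1) * (2 * N + 3)) +
      N * (R * (((N : ℝ) + 1) * (2 * (N : ℝ) + 1)))), by positivity, ?_⟩
    intro c r h0 hs hr n hn
    rcases Nat.lt_succ_iff_lt_or_eq.1 hn with hn | rfl
    · refine (h c r h0 hs hr n hn).trans ?_
      have : (0 : ℝ) ≤ (((N : ℝ) + 1) * (3 * ((N : ℝ) + 1) * (2 * N + 1) +
        ((N : ℝ) + 1) * (2 * N + 3)) + N * (R * (((N : ℝ) + 1) * (2 * (N : ℝ) + 1)))) := by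
        positivity
      linarith
    · have hc := c_le h0 hs
      have e := hr n
      rw [Finset.sum_range_succ] at e
      have e0 : (∑ i ∈ Finset.range (n - n + 1), c i * vv c (n - n - i)) = 1 := by
        simp [vv, h0]
      rw [e0, mul_one] at e
      have e1 : r n = (∑ i ∈ Finset.range (n + 1), (-3 * ((i : ℂ) + 1) * c (i + 1) * vv c (n - i) +
          (((n - i : ℕ) : ℂ) + 1) * c i * vv c (n - i + 1))) -
          ∑ k ∈ Finset.range n, r k * ∑ i ∈ Finset.range (n - k + 1), c i * vv c (n - k - i) := by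
        rw [← e]
        ring
      rw [e1]
      refine (norm_sub_le _ _).trans ?_
      have h1 := a7_T hc n
      have h2 : ‖∑ k ∈ Finset.range n, r k *
          ∑ i ∈ Finset.range (n - k + 1), c i * vv c (n - k - i)‖ ≤
          n * (R * (((n : ℝ) + 1) * (2 * (n : ℝ) + 1))) := by
        have h3 : ∀ k ∈ Finset.range n, ‖r k *
            ∑ i ∈ Finset.range (n - k + 1), c i * vv c (n - k - i)‖ ≤
            R * (((n : ℝ) + 1) * (2 * (n : ℝ) + 1)) := by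
          intro k hk
          rw [norm_mul]
          have h4 := a7_S hc (n - k)
          have h5 : ((n - k : ℕ) : ℝ) ≤ n := by exact_mod_cast Nat.sub_le n k
          have h6 : (0 : ℝ) ≤ ((n - k : ℕ) : ℝ) := Nat.cast_nonneg _
          have h7 : (((n - k : ℕ) : ℝ) + 1) * (2 * ((n - k : ℕ) : ℝ) + 1) ≤
              ((n : ℝ) + 1) * (2 * (n : ℝ) + 1) :=
            mul_le_mul (by linarith) (by linarith) (by positivity) (by positivity)
          exact mul_le_mul (h c r h0 hs hr k (Finset.mem_range.1 hk)) (h4.trans h7)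
            (norm_nonneg _) hR
        refine (norm_sum_le_of_le _ h3).trans ?_
        simp only [Finset.sum_const, Finset.card_range, nsmul_eq_mul]
        exact le_rfl
      linarith

theorem a7_choose (n k : ℕ) : ‖((n.choose k : ℕ) : ℂ)‖ ≤ (2 : ℝ) ^ n := by
  rw [Complex.norm_natCast]
  exact_mod_cast Nat.choose_le_two_pow n k

theorem a7_solve {ρ : ℝ} {r η : ℕ → ℂ} (h : RelY ρ r η) (n : ℕ) :
    η n = r n - 2 * (ρ : ℂ) ^ (n + 1) -
      ∑ k ∈ Finset.range n, ((n + 1).choose (k + 1) : ℂ) * (ρ : ℂ) ^ (n - k) * η k := by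
  have e := h n
  rw [Finset.sum_range_succ] at e
  simp only [Nat.choose_self, Nat.cast_one, one_mul, Nat.sub_self, pow_zero] at e
  rw [e]
  ring

theorem a7_eta (N : ℕ) : ∃ B : ℝ, 0 ≤ B ∧ ∀ (c r η : ℕ → ℂ) (ρ : ℝ), c 0 = 1 → Slack c →
    0 ≤ ρ → ρ ≤ 1 → RelR c r → RelY ρ r η → ∀ k < N, ‖η k‖ ≤ B := by
  induction N with
  | zero => exact ⟨0, le_rfl, fun _ _ _ _ _ _ _ _ _ _ n hn => absurd hn (Nat.not_lt_zero n)⟩
  | succ N ih =>
    obtain ⟨B, hB, h⟩ := ih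
    obtain ⟨R, hR, h'⟩ := a7_r (N + 1)
    refine ⟨B + (R + 2 + N * (2 ^ (N + 1) * B)), by positivity, ?_⟩
    intro c r η ρ h0 hs hρ hρ1 hr hy n hn
    rcases Nat.lt_succ_iff_lt_or_eq.1 hn with hn' | rfl
    · refine (h c r η ρ h0 hs hρ hρ1 hr hy n hn').trans ?_
      have : (0 : ℝ) ≤ (R + 2 + N * (2 ^ (N + 1) * B)) := by positivity
      linarith
    · rw [a7_solve hy n]
      have hp : ∀ j : ℕ, ‖(ρ : ℂ) ^ j‖ ≤ 1 := by
        intro j
        rw [norm_pow, Complex.norm_real, Real.norm_of_nonneg hρ]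
        exact pow_le_one₀ hρ hρ1
      have h1 : ‖r n‖ ≤ R := h' c r h0 hs hr n hn
      have h2 : ‖2 * (ρ : ℂ) ^ (n + 1)‖ ≤ 2 := by
        rw [norm_mul]
        have e3 : ‖(2 : ℂ)‖ = 2 := by simp
        rw [e3]
        have := hp (n + 1)
        linarith
      have h3 : ‖∑ k ∈ Finset.range n, ((n + 1).choose (k + 1) : ℂ) * (ρ : ℂ) ^ (n - k) * η k‖ ≤
          n * (2 ^ (n + 1) * B) := by
        have h4 : ∀ k ∈ Finset.range n,
            ‖((n + 1).choose (k + 1) : ℂ) * (ρ : ℂ) ^ (n - k) * η k‖ ≤ 2 ^ (n + 1) * B := by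
          intro k hk
          rw [norm_mul, norm_mul]
          have h5 := a7_choose (n + 1) (k + 1)
          have h6 := hp (n - k)
          have h7 := h c r η ρ h0 hs hρ hρ1 hr hy k (Finset.mem_range.1 hk)
          refine mul_le_mul ?_ h7 (norm_nonneg _) (by positivity)
          calc ‖((n + 1).choose (k + 1) : ℂ)‖ * ‖(ρ : ℂ) ^ (n - k)‖ ≤ 2 ^ (n + 1) * 1 :=
                mul_le_mul h5 h6 (norm_nonneg _) (by positivity)
            _ = _ := mul_one _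
        refine (norm_sum_le_of_le _ h4).trans ?_
        simp only [Finset.sum_const, Finset.card_range, nsmul_eq_mul]
        exact le_rfl
      have h8 := norm_sub_le (r n - 2 * (ρ : ℂ) ^ (n + 1))
        (∑ k ∈ Finset.range n, ((n + 1).choose (k + 1) : ℂ) * (ρ : ℂ) ^ (n - k) * η k)
      have h9 := norm_sub_le (r n) (2 * (ρ : ℂ) ^ (n + 1))
      linarith

theorem eta_bound (K : ℕ) : ∃ B : ℝ, 0 < B ∧ ∀ (c r η : ℕ → ℂ) (ρ : ℝ), c 0 = 1 → Slack c →
    0 ≤ ρ → ρ ≤ 1 → RelR c r → RelY ρ r η → ∀ k ≤ K, ‖η k‖ ≤ B := by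
  obtain ⟨B, hB, h⟩ := a7_eta (K + 1)
  refine ⟨B + 1, by linarith, ?_⟩
  intro c r η ρ h0 hs hρ hρ1 hr hy k hk
  have := h c r η ρ h0 hs hρ hρ1 hr hy k (Nat.lt_succ_of_le hk)
  linarith

/-- the jets for `ρ = 1` -/
noncomputable def a7_jet (r : ℕ → ℂ) : ℕ → ℂ
  | n => r n - 2 - ∑ k : Fin n, ((n + 1).choose ((k : ℕ) + 1) : ℂ) * a7_jet r k
decreasing_by exact k.2

theorem a7_jet_eq (r : ℕ → ℂ) (n : ℕ) : a7_jet r n =
    r n - 2 - ∑ k ∈ Finset.range n, ((n + 1).choose (k + 1) : ℂ) * a7_jet r k := by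
  rw [a7_jet, Finset.sum_range (fun k => ((n + 1).choose (k + 1) : ℂ) * a7_jet r k)]

theorem a7_rel (r : ℕ → ℂ) : RelY 1 r (a7_jet r) := by
  intro n
  rw [Finset.sum_range_succ]
  simp only [Complex.ofReal_one, one_pow, mul_one, Nat.choose_self, Nat.cast_one, one_mul]
  have := a7_jet_eq r n
  rw [this]
  ring

theorem a7_bern {ρ : ℝ} (h0 : 0 ≤ ρ) (j : ℕ) : 1 - ρ ^ j ≤ j * (1 - ρ) := by
  have h := one_add_mul_le_pow (a := ρ - 1) (by linarith) j
  have e : (1 + (ρ - 1)) = ρ := by ring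
  rw [e] at h
  linarith

theorem a7_near (B : ℝ) (hB : 0 ≤ B) (N : ℕ) : ∃ C : ℝ, 0 ≤ C ∧ ∀ (r η : ℕ → ℂ) (ρ : ℝ),
    0 ≤ ρ → ρ ≤ 1 → RelY ρ r η → (∀ k < N, ‖η k‖ ≤ B) →
      ∀ k < N, ‖η k - a7_jet r k‖ ≤ C * (1 - ρ) := by
  induction N with
  | zero => exact ⟨0, le_rfl, fun _ _ _ _ _ _ _ n hn => absurd hn (Nat.not_lt_zero n)⟩
  | succ N ih =>
    obtain ⟨C, hC, h⟩ := ih
    refine ⟨C + (2 * ((N : ℝ) + 1) + N * (2 ^ (N + 1) * (C + N * B))), by positivity, ?_⟩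
    intro r η ρ hρ hρ1 hy hb n hn
    have hb' : ∀ k < N, ‖η k‖ ≤ B := fun k hk => hb k (Nat.lt_succ_of_lt hk)
    have hρ' : 0 ≤ 1 - ρ := by linarith
    rcases Nat.lt_succ_iff_lt_or_eq.1 hn with hn' | rfl
    · refine (h r η ρ hρ hρ1 hy hb' n hn').trans ?_
      refine mul_le_mul_of_nonneg_right ?_ hρ'
      have : (0 : ℝ) ≤ (2 * ((N : ℝ) + 1) + N * (2 ^ (N + 1) * (C + N * B))) := by positivity
      linarith
    · have e : η n - a7_jet r n = 2 * (1 - (ρ : ℂ) ^ (n + 1)) +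
          ∑ k ∈ Finset.range n, ((n + 1).choose (k + 1) : ℂ) *
            ((1 - (ρ : ℂ) ^ (n - k)) * η k - (η k - a7_jet r k)) := by
        rw [a7_solve hy n, a7_jet_eq r n]
        have e2 : ∑ k ∈ Finset.range n, ((n + 1).choose (k + 1) : ℂ) *
            ((1 - (ρ : ℂ) ^ (n - k)) * η k - (η k - a7_jet r k)) =
            (∑ k ∈ Finset.range n, ((n + 1).choose (k + 1) : ℂ) * a7_jet r k) -
            ∑ k ∈ Finset.range n, ((n + 1).choose (k + 1) : ℂ) * (ρ : ℂ) ^ (n - k) * η k := by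
          rw [← Finset.sum_sub_distrib]
          refine Finset.sum_congr rfl fun k _ => ?_
          ring
        rw [e2]
        ring
      have hq : ∀ j : ℕ, ‖(1 - (ρ : ℂ) ^ j)‖ ≤ j * (1 - ρ) := by
        intro j
        have e3 : (1 - (ρ : ℂ) ^ j) = ((1 - ρ ^ j : ℝ) : ℂ) := by push_cast; ring
        have h4 : 0 ≤ 1 - ρ ^ j := by
          have := pow_le_one₀ (n := j) hρ hρ1
          linarith
        rw [e3, Complex.norm_real, Real.norm_of_nonneg h4]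
        exact a7_bern hρ j
      have h2 : ‖2 * (1 - (ρ : ℂ) ^ (n + 1))‖ ≤ 2 * ((n : ℝ) + 1) * (1 - ρ) := by
        rw [norm_mul]
        have e3 : ‖(2 : ℂ)‖ = 2 := by simp
        rw [e3]
        have := hq (n + 1)
        push_cast at this
        linarith
      have h3 : ‖∑ k ∈ Finset.range n, ((n + 1).choose (k + 1) : ℂ) *
            ((1 - (ρ : ℂ) ^ (n - k)) * η k - (η k - a7_jet r k))‖ ≤
          n * (2 ^ (n + 1) * ((C + n * B) * (1 - ρ))) := by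
        have h4 : ∀ k ∈ Finset.range n, ‖((n + 1).choose (k + 1) : ℂ) *
            ((1 - (ρ : ℂ) ^ (n - k)) * η k - (η k - a7_jet r k))‖ ≤
            2 ^ (n + 1) * ((C + n * B) * (1 - ρ)) := by
          intro k hk
          have hk' := Finset.mem_range.1 hk
          rw [norm_mul]
          have h5 := a7_choose (n + 1) (k + 1)
          have h6 := hq (n - k)
          have h7 := h r η ρ hρ hρ1 hy hb' k hk'
          have h8 := hb' k hk'
          have h9 : ((n - k : ℕ) : ℝ) ≤ n := by exact_mod_cast Nat.sub_le n k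
          refine mul_le_mul h5 ?_ (norm_nonneg _) (by positivity)
          refine (norm_sub_le _ _).trans ?_
          rw [norm_mul]
          have h10 : ‖(1 - (ρ : ℂ) ^ (n - k))‖ * ‖η k‖ ≤ (n * (1 - ρ)) * B := by
            refine mul_le_mul (h6.trans ?_) h8 (norm_nonneg _) (by positivity)
            exact mul_le_mul_of_nonneg_right h9 hρ'
          nlinarith [h10, h7]
        refine (norm_sum_le_of_le _ h4).trans ?_
        simp only [Finset.sum_const, Finset.card_range, nsmul_eq_mul]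
        exact le_rfl
      rw [e]
      refine (norm_add_le _ _).trans ?_
      have h11 : (0 : ℝ) ≤ C * (1 - ρ) := mul_nonneg hC hρ'
      calc ‖2 * (1 - (ρ : ℂ) ^ (n + 1))‖ + ‖∑ k ∈ Finset.range n, ((n + 1).choose (k + 1) : ℂ) *
            ((1 - (ρ : ℂ) ^ (n - k)) * η k - (η k - a7_jet r k))‖
          ≤ 2 * ((n : ℝ) + 1) * (1 - ρ) + n * (2 ^ (n + 1) * ((C + n * B) * (1 - ρ))) :=
            add_le_add h2 h3
        _ ≤ C * (1 - ρ) + (2 * ((n : ℝ) + 1) * (1 - ρ) +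
            n * (2 ^ (n + 1) * ((C + n * B) * (1 - ρ)))) := by linarith
        _ = _ := by ring

theorem jet_near (K : ℕ) : ∃ C : ℝ, 0 ≤ C ∧ ∀ (c r η : ℕ → ℂ) (ρ : ℝ), c 0 = 1 → Slack c →
    0 ≤ ρ → ρ ≤ 1 → RelR c r → RelY ρ r η →
      ∃ η' : ℕ → ℂ, RelY 1 r η' ∧ ∀ k ≤ K, ‖η k - η' k‖ ≤ C * (1 - ρ) := by
  obtain ⟨B, hB, hb⟩ := a7_eta (K + 1)
  obtain ⟨C, hC, h⟩ := a7_near B hB (K + 1)
  refine ⟨C, hC, ?_⟩
  intro c r η ρ h0 hs hρ hρ1 hr hy
  exact ⟨a7_jet r, a7_rel r, fun k hk =>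
    h r η ρ hρ hρ1 hy (hb c r η ρ h0 hs hρ hρ1 hr hy) k (Nat.lt_succ_of_le hk)⟩

end Pool.Agent.H58.BJ
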