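import Pool.Agent.H58.BJ.Def
import Pool.Agent.H58.BJ.Chk
import Pool.Agent.H58.BJ.CDef

/-!
# BJ-C0: removing the forcing, values of polynomials (MP_f801da_an)
-/

set_option autoImplicit false

namespace Pool.Agent.H58.BJ

open Complex Metric Set
open scoped Real ComplexConjugate

theorem fN_eq {A : Type} (n : ℕ) (k : ℕ → A) : fN n k = k n := by
  cases n <;> rfl

theorem fI_eq {A : Type} (z : ℤ) (k : ℤ → A) : fI z k = k z := by
  cases z with
  | ofNat n => exact fN_eq n fun n' => k (Int.ofNat n')
  | negSucc n => exact fN_eq n fun n' => k (Int.negSucc n')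

theorem fT_eq (t : Tr) (k : Tr → Tr) : fT t k = k t := by
  cases t <;> rfl

theorem fL_eq {A B : Type} (l : List A) (k : List A → B) : fL l k = k l := by
  cases l <;> rfl

theorem eqI_eq {a b : ℤ} (h : eqI a b = true) : a = b := by
  cases a with
  | ofNat m =>
    cases b with
    | ofNat n => exact congrArg Int.ofNat (Nat.eq_of_beq_eq_true h)
    | negSucc n => exact absurd h (by simp [eqI])
  | negSucc m =>
    cases b with
    | ofNat n => exact absurd h (by simp [eqI])
    | negSucc n => exact congrArg Int.negSucc (Nat.eq_of_beq_eq_true h)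

theorem c0_and {a b : Bool} (h : Bool.and a b = true) : a = true ∧ b = true := by
  cases a <;> cases b <;> simp_all [Bool.and]

theorem eqP_eq {p q : Pol} (h : eqP p q = true) : p = q := by
  induction p generalizing q with
  | nil =>
    cases q with
    | nil => rfl
    | cons y q' => exact absurd h (by simp [eqP])
  | cons x p ih =>
    cases q with
    | nil => exact absurd h (by simp [eqP])
    | cons y q' =>
      have h1 : Bool.and (Nat.beq x.1 y.1) (Bool.and (eqI x.2 y.2) (eqP p q')) = true := h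
      obtain ⟨h2, h3⟩ := c0_and h1
      obtain ⟨h4, h5⟩ := c0_and h3
      rw [ih h5]
      congr 1
      exact Prod.ext (Nat.eq_of_beq_eq_true h2) (eqI_eq h4)

theorem eqT_eq {a b : Tr} (h : eqT a b = true) : a = b := by
  induction a generalizing b with
  | e =>
    cases b with
    | e => rfl
    | lf z => exact absurd h (by simp [eqT])
    | nd l r => exact absurd h (by simp [eqT])
  | lf z =>
    cases b with
    | e => exact absurd h (by simp [eqT])
    | lf z' => exact congrArg Tr.lf (eqI_eq h)
    | nd l r => exact absurd h (by simp [eqT])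
  | nd l r ihl ihr =>
    cases b with
    | e => exact absurd h (by simp [eqT])
    | lf z => exact absurd h (by simp [eqT])
    | nd l' r' =>
      have h1 : Bool.and (eqT l l') (eqT r r') = true := h
      obtain ⟨h2, h3⟩ := c0_and h1
      rw [ihl h2, ihr h3]

theorem wtL_eq (m : List ℕ) : wtL m = wt m := by
  induction m with
  | nil => rfl
  | cons k m ih =>
    have h1 : wtL (k :: m) = (k + 1) + wtL m := rfl
    rw [h1, ih]
    simp [wt]

theorem c0_wB_succ (n : ℕ) (z : ℤ) : wB (n + 1) z = z :: wB n (z - 2) := by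
  have h1 : wB (n + 1) z = fI z fun z' => fL (wB n (Int.sub z' (Int.ofNat (nat_lit 2)))) fun r =>
      z' :: r := rfl
  rw [h1, fI_eq, fL_eq]
  rfl

theorem c0_wB_length (n : ℕ) (z : ℤ) : (wB n z).length = n := by
  induction n generalizing z with
  | zero => rfl
  | succ n ih => rw [c0_wB_succ, List.length_cons, ih]

theorem wA_length (n : ℕ) : (wA n).length = n := c0_wB_length n _

theorem c0_wB_getD {n w : ℕ} (h : w < n) (z : ℤ) : (wB n z).getD w 0 = z - 2 * (w : ℤ) := by
  induction n generalizing w z with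
  | zero => omega
  | succ n ih =>
    rw [c0_wB_succ]
    cases w with
    | zero => simp
    | succ w =>
      rw [List.getD_cons_succ, ih (by omega)]
      push_cast
      ring

theorem wA_getD {n w : ℕ} (h : w < n) : (wA n).getD w 0 = 3 - 2 * (w : ℤ) := by
  have h1 := c0_wB_getD h 3
  exact h1

/-! ### Values of polynomials -/

theorem evP_nil (χ : ℕ → ℂ) : evP χ [] = 0 := rfl

theorem c0_cons (χ : ℕ → ℂ) (x : ℕ × ℤ) (p : Pol) :
    evP χ (x :: p) = (x.2 : ℂ) * χ x.1 + evP χ p := by
  simp [evP]

theorem evP_app (χ : ℕ → ℂ) (p q : Pol) : evP χ (app p q) = evP χ p + evP χ q := by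
  induction p with
  | nil =>
    show evP χ q = evP χ [] + evP χ q
    rw [evP_nil, zero_add]
  | cons x p ih =>
    have h1 : app (x :: p) q = x :: app p q := rfl
    rw [h1, c0_cons, c0_cons, ih]
    ring

theorem c0_beq {a b : ℕ} (h : a = b) : Nat.beq a b = true := by
  subst h
  exact Nat.beq_refl a

theorem c0_insP_cons (k : ℕ) (z : ℤ) (h : ℕ × ℤ) (t : Pol) : insP k z (h :: t) =
    if h.1 + 1 ≤ k then h :: insP k z t else if h.1 = k then (h.1, h.2 + z) :: t else
      (k, z) :: h :: t := by
  have h1 : insP k z (h :: t) = Bool.rec (motive := fun _ => Pol)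
      (Bool.rec (motive := fun _ => Pol) ((k, z) :: h :: t)
        ((h.1, Int.add h.2 z) :: t) (Nat.beq h.1 k)) (h :: insP k z t)
      (Nat.ble (Nat.succ h.1) k) := rfl
  rw [h1]
  by_cases h2 : h.1 + 1 ≤ k
  · rw [if_pos h2, Nat.ble_eq_true_of_le h2]
  · have h3 : Nat.ble (Nat.succ h.1) k = false := by
      cases h4 : Nat.ble (Nat.succ h.1) k with
      | false => rfl
      | true => exact absurd (Nat.le_of_ble_eq_true h4) h2
    rw [if_neg h2, h3]
    by_cases h5 : h.1 = k
    · rw [if_pos h5, c0_beq h5]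
      rfl
    · have h6 : Nat.beq h.1 k = false := by
        cases h7 : Nat.beq h.1 k with
        | false => rfl
        | true => exact absurd (Nat.eq_of_beq_eq_true h7) h5
      rw [if_neg h5, h6]

theorem c0_insP (χ : ℕ → ℂ) (k : ℕ) (z : ℤ) (p : Pol) :
    evP χ (insP k z p) = (z : ℂ) * χ k + evP χ p := by
  induction p with
  | nil =>
    have h1 : insP k z [] = [(k, z)] := rfl
    rw [h1, c0_cons]
  | cons h t ih =>
    rw [c0_insP_cons]
    by_cases h2 : h.1 + 1 ≤ k
    · rw [if_pos h2, c0_cons, c0_cons, ih]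
      ring
    · rw [if_neg h2]
      by_cases h5 : h.1 = k
      · rw [if_pos h5, c0_cons, c0_cons, h5]
        push_cast
        ring
      · rw [if_neg h5, c0_cons, c0_cons]

theorem evP_norP (χ : ℕ → ℂ) (p : Pol) : evP χ (norP p) = evP χ p := by
  induction p with
  | nil => rfl
  | cons h p ih =>
    have h1 : norP (h :: p) = insP h.1 h.2 (norP p) := rfl
    rw [h1, c0_insP, ih, c0_cons]

theorem evP_mon1 {χ : ℕ → ℂ} (h : Mult χ) (k : ℕ) (z : ℤ) (q : Pol) :
    evP χ (mon1 k z q) = (z : ℂ) * χ k * evP χ q := by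
  induction q with
  | nil =>
    show evP χ [] = _
    rw [evP_nil, mul_zero]
  | cons t q ih =>
    have h1 : mon1 k z (t :: q) = (k * t.1, z * t.2) :: mon1 k z q := rfl
    rw [h1, c0_cons, c0_cons, ih, h.2]
    push_cast
    ring

theorem evP_mulP {χ : ℕ → ℂ} (h : Mult χ) (p q : Pol) :
    evP χ (mulP p q) = evP χ p * evP χ q := by
  induction p with
  | nil =>
    show evP χ [] = evP χ [] * _
    rw [evP_nil, zero_mul]
  | cons s p ih =>
    have h1 : mulP (s :: p) q = app (mon1 s.1 s.2 q) (mulP p q) := rfl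
    rw [h1, evP_app, evP_mon1 h, ih, c0_cons]
    ring

theorem evP_smulP {χ : ℕ → ℂ} (h : Mult χ) (a : ℤ) (q : Pol) :
    evP χ (smulP a q) = (a : ℂ) * evP χ q := by
  have h1 : smulP a q = mon1 1 a q := rfl
  rw [h1, evP_mon1 h, h.1, mul_one]

theorem evP_sumP (χ : ℕ → ℂ) (n : ℕ) (g : ℕ → Pol) :
    evP χ (sumP n g) = ∑ i ∈ Finset.range n, evP χ (g i) := by
  induction n with
  | zero => rfl
  | succ n ih =>
    have h1 : sumP (n + 1) g = app (g n) (sumP n g) := rfl
    rw [h1, evP_app, ih, Finset.sum_range_succ, add_comm]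

theorem c0_axpy_nil (a : ℤ) (x : ℕ × ℤ) (p : Pol) :
    axpy a (x :: p) [] = (x.1, a * x.2) :: axpy a p [] := by
  have h1 : axpy a (x :: p) [] = fI (Int.mul a x.2) fun z => fL (axpy a p []) fun r =>
    (x.1, z) :: r := rfl
  rw [h1, fI_eq, fL_eq]
  rfl

theorem c0_axpy_cons (a : ℤ) (x y : ℕ × ℤ) (p q : Pol) :
    axpy a (x :: p) (y :: q) = if y.1 + 1 ≤ x.1 then y :: axpy a (x :: p) q else
      if x.1 = y.1 then (y.1, a * x.2 + y.2) :: axpy a p q else
        (x.1, a * x.2) :: axpy a p (y :: q) := by
  have h1 : axpy a (x :: p) (y :: q) = Bool.rec (motive := fun _ => Pol)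
        (Bool.rec (motive := fun _ => Pol)
          (fI (Int.mul a x.2) fun z => fL (axpy a p (y :: q)) fun r => (x.1, z) :: r)
          (fI (Int.add (Int.mul a x.2) y.2) fun z => fL (axpy a p q) fun r => (y.1, z) :: r)
          (Nat.beq x.1 y.1))
        (fL (axpy a (x :: p) q) fun r => y :: r)
        (Nat.ble (Nat.succ y.1) x.1) := rfl
  rw [h1]
  by_cases h2 : y.1 + 1 ≤ x.1
  · rw [if_pos h2, Nat.ble_eq_true_of_le h2, fL_eq]
  · have h3 : Nat.ble (Nat.succ y.1) x.1 = false := by
      cases h4 : Nat.ble (Nat.succ y.1) x.1 with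
      | false => rfl
      | true => exact absurd (Nat.le_of_ble_eq_true h4) h2
    rw [if_neg h2, h3]
    by_cases h5 : x.1 = y.1
    · rw [if_pos h5, c0_beq h5]
      simp only
      rw [fI_eq, fL_eq]
      rfl
    · have h6 : Nat.beq x.1 y.1 = false := by
        cases h7 : Nat.beq x.1 y.1 with
        | false => rfl
        | true => exact absurd (Nat.eq_of_beq_eq_true h7) h5
      rw [if_neg h5, h6]
      simp only
      rw [fI_eq, fL_eq]
      rfl

theorem evP_axpy (χ : ℕ → ℂ) (a : ℤ) (p q : Pol) :
    evP χ (axpy a p q) = (a : ℂ) * evP χ p + evP χ q := by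
  induction p generalizing q with
  | nil =>
    show evP χ q = _
    rw [evP_nil, mul_zero, zero_add]
  | cons x p ih =>
    induction q with
    | nil =>
      rw [c0_axpy_nil, c0_cons, c0_cons, ih]
      push_cast
      ring
    | cons y q ihq =>
      rw [c0_axpy_cons]
      by_cases h2 : y.1 + 1 ≤ x.1
      · rw [if_pos h2, c0_cons, ihq, c0_cons χ y q]
        ring
      · rw [if_neg h2]
        by_cases h5 : x.1 = y.1
        · rw [if_pos h5, c0_cons, c0_cons, c0_cons, ih, h5]
          push_cast
          ring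
        · rw [if_neg h5, c0_cons, ih, c0_cons χ x p]
          push_cast
          ring

end Pool.Agent.H58.BJ
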