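import Pool.Agent.H58.BJ.CDef

set_option autoImplicit false

namespace Pool.Agent.H58.BJ

open Complex Metric Set
open scoped Real ComplexConjugate

/-! ### C1: a multiplicative function with given values -/

/-- the multiplicative function with value `c (i+1)` at the prime `ck (i+1)`, `i < 8`, and value
`1` at all other primes -/
noncomputable def c1_chi (c : ℕ → ℂ) (n : ℕ) : ℂ :=
  if n = 0 then 0 else ∏ i ∈ Finset.range 8, c (i + 1) ^ n.factorization (ck (i + 1))

theorem c1_mult (c : ℕ → ℂ) : Mult (c1_chi c) := by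
  constructor
  · simp [c1_chi]
  · intro m n
    by_cases hm : m = 0
    · subst hm; simp [c1_chi]
    by_cases hn : n = 0
    · subst hn; simp [c1_chi]
    have hmn : m * n ≠ 0 := Nat.mul_ne_zero hm hn
    simp only [c1_chi, if_neg hm, if_neg hn, if_neg hmn]
    rw [← Finset.prod_mul_distrib]
    refine Finset.prod_congr rfl fun i _ => ?_
    rw [Nat.factorization_mul hm hn, Finsupp.add_apply, pow_add]

theorem c1_val (c : ℕ → ℂ) (h0 : c 0 = 1) : ∀ n ≤ 8, c1_chi c (ck n) = c n := by
  intro n hn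
  have h2 : Nat.Prime 2 := by norm_num
  have h3 : Nat.Prime 3 := by norm_num
  have h5 : Nat.Prime 5 := by norm_num
  have h7 : Nat.Prime 7 := by norm_num
  have h11 : Nat.Prime 11 := by norm_num
  have h13 : Nat.Prime 13 := by norm_num
  have h17 : Nat.Prime 17 := by norm_num
  have h19 : Nat.Prime 19 := by norm_num
  have k0 : ck 0 = 1 := rfl
  have k1 : ck 1 = 2 := rfl
  have k2 : ck 2 = 3 := rfl
  have k3 : ck 3 = 5 := rfl
  have k4 : ck 4 = 7 := rfl
  have k5 : ck 5 = 11 := rfl
  have k6 : ck 6 = 13 := rfl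
  have k7 : ck 7 = 17 := rfl
  have k8 : ck 8 = 19 := rfl
  interval_cases n
  · simp [c1_chi, k0, h0]
  · simp [c1_chi, k1, k2, k3, k4, k5, k6, k7, k8, Finset.prod_range_succ, h2.factorization]
  · simp [c1_chi, k1, k2, k3, k4, k5, k6, k7, k8, Finset.prod_range_succ, h3.factorization]
  · simp [c1_chi, k1, k2, k3, k4, k5, k6, k7, k8, Finset.prod_range_succ, h5.factorization]
  · simp [c1_chi, k1, k2, k3, k4, k5, k6, k7, k8, Finset.prod_range_succ, h7.factorization]
  · simp [c1_chi, k1, k2, k3, k4, k5, k6, k7, k8, Finset.prod_range_succ, h11.factorization]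
  · simp [c1_chi, k1, k2, k3, k4, k5, k6, k7, k8, Finset.prod_range_succ, h13.factorization]
  · simp [c1_chi, k1, k2, k3, k4, k5, k6, k7, k8, Finset.prod_range_succ, h17.factorization]
  · simp [c1_chi, k1, k2, k3, k4, k5, k6, k7, k8, Finset.prod_range_succ, h19.factorization]

theorem chi_exists (c : ℕ → ℂ) (h0 : c 0 = 1) :
    ∃ χ : ℕ → ℂ, Mult χ ∧ (∀ n ≤ 8, χ (ck n) = c n) ∧
      ((∀ n, ‖c n‖ ≤ 1) → ∀ n, ‖χ n‖ ≤ 1) := by
  refine ⟨c1_chi c, c1_mult c, c1_val c h0, fun h n => ?_⟩
  by_cases hn : n = 0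
  · simp [c1_chi, hn]
  · simp only [c1_chi, if_neg hn]
    rw [norm_prod]
    refine Finset.prod_le_one (fun i _ => norm_nonneg _) fun i _ => ?_
    rw [norm_pow]
    exact pow_le_one₀ (norm_nonneg _) (h _)

end Pool.Agent.H58.BJ
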