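import Pool.Agent.H58.BJ.C0

/-! # BJ-C3: soundness of the recursions of the certificate -/

set_option autoImplicit false

namespace Pool.Agent.H58.BJ

open Complex Metric Set
open scoped Real ComplexConjugate

private theorem c3_single (χ : ℕ → ℂ) (k : ℕ) (z : ℤ) : evP χ [(k, z)] = (z : ℂ) * χ k := by
  simp [evP]

private theorem c3_cons (χ : ℕ → ℂ) (x : ℕ × ℤ) (p : Pol) :
    evP χ (x :: p) = (x.2 : ℂ) * χ x.1 + evP χ p := by
  simp [evP]

private theorem c3_cP {χ : ℕ → ℂ} {c : ℕ → ℂ} (hc : ∀ n ≤ 8, χ (ck n) = c n) {n : ℕ}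
    (hn : n ≤ 8) : evP χ (cP n) = c n := by
  unfold cP
  rw [c3_single, hc n hn]
  simp

private theorem c3_vP {χ : ℕ → ℂ} {c : ℕ → ℂ} (hc : ∀ n ≤ 8, χ (ck n) = c n) {n : ℕ}
    (hn : n ≤ 8) : evP χ (vP n) = vv c n := by
  unfold vP vv
  rw [c3_single, hc n hn]
  push_cast
  rfl

private theorem c3_cvP {χ : ℕ → ℂ} (hχ : Mult χ) {c : ℕ → ℂ} (hc : ∀ n ≤ 8, χ (ck n) = c n)
    {n : ℕ} (hn : n ≤ 8) :
    evP χ (cvP n) = ∑ i ∈ Finset.range (n + 1), c i * vv c (n - i) := by
  unfold cvP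
  rw [evP_norP, evP_sumP]
  refine Finset.sum_congr rfl fun i hi => ?_
  have hi' : i < n + 1 := Finset.mem_range.1 hi
  rw [evP_mulP hχ, c3_cP hc (by omega), c3_vP hc (by omega)]

private theorem c3_rhP {χ : ℕ → ℂ} (hχ : Mult χ) {c : ℕ → ℂ} (hc : ∀ n ≤ 8, χ (ck n) = c n)
    {n : ℕ} (hn : n < 8) :
    evP χ (rhP n) = ∑ i ∈ Finset.range (n + 1), (-3 * ((i : ℂ) + 1) * c (i + 1) * vv c (n - i) +
      (((n - i : ℕ) : ℂ) + 1) * c i * vv c (n - i + 1)) := by
  unfold rhP
  rw [evP_norP, evP_sumP]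
  refine Finset.sum_congr rfl fun i hi => ?_
  have hi' : i < n + 1 := Finset.mem_range.1 hi
  rw [evP_app, evP_smulP hχ, evP_smulP hχ, evP_mulP hχ, evP_mulP hχ, c3_cP hc (by omega),
    c3_vP hc (by omega), c3_cP hc (by omega), c3_vP hc (by omega)]
  push_cast
  ring

private theorem c3_recOK {rs es : List Pol} {N : ℕ} (hok : recOK rs es N = true) :
    ∀ k < N, nth rs k = rStep rs k ∧ nth es k = eStep rs es k := by
  induction N with
  | zero =>
    intro k hk
    omega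
  | succ N ih =>
    have h1 : (recOK rs es N && (eqP (nth rs N) (rStep rs N) &&
        eqP (nth es N) (eStep rs es N))) = true := hok
    rw [Bool.and_eq_true, Bool.and_eq_true] at h1
    intro k hk
    rcases Nat.lt_succ_iff_lt_or_eq.1 hk with h | h
    · exact ih h1.1 k h
    · rw [h]
      exact ⟨eqP_eq h1.2.1, eqP_eq h1.2.2⟩

private theorem c3_dOK {dd : List Pol} {N : ℕ} (hok : dOK dd N = true) :
    ∀ k < N, nth dd k = dPol k := by
  induction N with
  | zero =>
    intro k hk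
    omega
  | succ N ih =>
    have h1 : (dOK dd N && eqP (nth dd N) (dPol N)) = true := hok
    rw [Bool.and_eq_true] at h1
    intro k hk
    rcases Nat.lt_succ_iff_lt_or_eq.1 hk with h | h
    · exact ih h1.1 k h
    · rw [h]
      exact eqP_eq h1.2

theorem rec_sound {χ : ℕ → ℂ} (hχ : Mult χ) {c r η : ℕ → ℂ} (h0 : c 0 = 1)
    (hc : ∀ n ≤ 8, χ (ck n) = c n) (hr : RelR c r) (hy : RelY 1 r η) {N : ℕ} (hN : N ≤ 8)
    {rs es : List Pol} (hok : recOK rs es N = true) :
    ∀ k < N, evP χ (nth rs k) = r k ∧ evP χ (nth es k) = η k := by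
  intro k
  induction k using Nat.strong_induction_on with
  | _ k ih =>
    intro hk
    obtain ⟨h1, h2⟩ := c3_recOK hok k hk
    have hrk : evP χ (nth rs k) = r k := by
      rw [h1]
      unfold rStep
      rw [evP_norP, evP_app, c3_rhP hχ hc (by omega), evP_sumP, ← hr k, Finset.sum_range_succ]
      have h3 : ∑ i ∈ Finset.range (k - k + 1), c i * vv c (k - k - i) = 1 := by
        simp [vv, h0]
      rw [h3, mul_one]
      have h4 : ∑ i ∈ Finset.range k, evP χ (smulP (-1) (mulP (nth rs i) (cvP (k - i)))) =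
          -∑ x ∈ Finset.range k, r x * ∑ i ∈ Finset.range (k - x + 1), c i * vv c (k - x - i) := by
        rw [← Finset.sum_neg_distrib]
        refine Finset.sum_congr rfl fun i hi => ?_
        have hi' : i < k := Finset.mem_range.1 hi
        rw [evP_smulP hχ, evP_mulP hχ, (ih i hi' (by omega)).1, c3_cvP hχ hc (by omega)]
        push_cast
        ring
      rw [h4]
      ring
    refine ⟨hrk, ?_⟩
    rw [h2]
    unfold eStep
    rw [evP_norP, evP_app, hrk, c3_cons, evP_sumP, hy k, Finset.sum_range_succ]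
    have h4 : ∑ i ∈ Finset.range k, evP χ (smulP (-(((k + 1).choose (i + 1) : ℕ) : ℤ)) (nth es i)) =
        -∑ x ∈ Finset.range k, ((k + 1).choose (x + 1) : ℂ) * ((1 : ℝ) : ℂ) ^ (k - x) * η x := by
      rw [← Finset.sum_neg_distrib]
      refine Finset.sum_congr rfl fun i hi => ?_
      have hi' : i < k := Finset.mem_range.1 hi
      rw [evP_smulP hχ, (ih i hi' (by omega)).2]
      push_cast
      simp
    rw [h4, hχ.1]
    simp only [Complex.ofReal_one, one_pow, mul_one, Nat.choose_self, Nat.cast_one, one_mul]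
    push_cast
    ring

theorem dd_sound {χ : ℕ → ℂ} (hχ : Mult χ) {c : ℕ → ℂ} (hc : ∀ n ≤ 8, χ (ck n) = c n) {N : ℕ}
    (hN : N ≤ 9) {dd : List Pol} (hok : dOK dd N = true) :
    ∀ k < N, evP χ (nth dd k) = dc c k := by
  intro k hk
  rw [c3_dOK hok k hk]
  unfold dPol dc
  rw [evP_norP, evP_sumP]
  refine Finset.sum_congr rfl fun i hi => ?_
  have hi' : i < k + 1 := Finset.mem_range.1 hi
  rw [evP_mulP hχ, c3_cP hc (by omega), evP_sumP]
  congr 1
  refine Finset.sum_congr rfl fun j hj => ?_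
  have hj' : j < k - i + 1 := Finset.mem_range.1 hj
  rw [evP_mulP hχ, c3_cP hc (by omega), c3_cP hc (by omega)]

theorem qc_sound {χ : ℕ → ℂ} {c : ℕ → ℂ} (hc : ∀ n ≤ 8, χ (ck n) = c n) :
    evP χ (nth qc 0) = 0 ∧ ∀ n ≤ 8, evP χ (nth qc (n + 1)) = c n := by
  refine ⟨rfl, fun n hn => ?_⟩
  rw [← c3_cP hc hn]
  interval_cases n <;> rfl

end Pool.Agent.H58.BJ
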