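import Pool.Agent.H58.BJ.Def
import Pool.Agent.H58.BJ.Chk
import Pool.Agent.H58.BJ.CDef
import Pool.Agent.H58.BJ.C0

set_option autoImplicit false

namespace Pool.Agent.H58.BJ

open Complex Metric Set
open scoped Real ComplexConjugate

theorem c4_wt_cons (k : ℕ) (m : List ℕ) : wt (k :: m) = (k + 1) + wt m := by
  simp [wt]

theorem c4_X_cons (η : ℕ → ℂ) (k : ℕ) (m : List ℕ) : X η (k :: m) = η k * X η m := by
  simp [X]

theorem c4_monP {χ : ℕ → ℂ} (hχ : Mult χ) {η : ℕ → ℂ} {N : ℕ} {es : List Pol}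
    (he : ∀ k < N, evP χ (nth es k) = η k) (m : List ℕ) (hm : wt m ≤ N) :
    evP χ (monP es m) = X η m := by
  induction m with
  | nil =>
    have h1 : monP es [] = [(1, 1)] := rfl
    rw [h1]
    simp [evP, X, hχ.1]
  | cons k m ih =>
    have h1 : monP es (k :: m) = norP (mulP (nth es k) (monP es m)) := rfl
    rw [c4_wt_cons] at hm
    rw [h1, evP_norP, evP_mulP hχ, he k (by omega), ih (by omega), c4_X_cons]

theorem c4_dP {χ : ℕ → ℂ} (hχ : Mult χ) {η : ℕ → ℂ} {N : ℕ} {es : List Pol}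
    (he : ∀ k < N, evP χ (nth es k) = η k) (m : List ℕ) (hm : wt m < N) :
    evP χ (dP es m) = dX η m := by
  induction m with
  | nil =>
    have h1 : dP es [] = [] := rfl
    rw [h1, evP_nil]
    rfl
  | cons k m ih =>
    have h1 : dP es (k :: m) = norP (app (mulP (smulP ((k : ℤ) + 1) (nth es (k + 1)))
      (monP es m)) (mulP (nth es k) (dP es m))) := rfl
    rw [c4_wt_cons] at hm
    rw [h1, evP_norP, evP_app, evP_mulP hχ, evP_mulP hχ, evP_smulP hχ, he k (by omega),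
      he (k + 1) (by omega), ih (by omega), c4_monP hχ he m (by omega)]
    simp only [dX]
    push_cast
    ring

theorem c4_DP {χ : ℕ → ℂ} (hχ : Mult χ) {η : ℕ → ℂ} {N : ℕ} {es : List Pol}
    (he : ∀ k < N, evP χ (nth es k) = η k) (m : List ℕ) (hm : wt m < N) :
    evP χ (DP es m) = DX η m := by
  unfold DP DX
  rw [evP_norP, evP_app, evP_smulP hχ, evP_mulP hχ, he 0 (by omega), c4_dP hχ he m hm,
    c4_monP hχ he m hm.le]
  push_cast
  ring

theorem tab_sound {χ : ℕ → ℂ} (hχ : Mult χ) {η : ℕ → ℂ} {N : ℕ} {es : List Pol}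
    (he : ∀ k < N, evP χ (nth es k) = η k) {l : List (List ℕ × Ent)}
    (hok : tabOK N es l = true) :
    ∀ x ∈ l, evP χ x.2.1 = DX η x.1 ∧ evP χ x.2.2.1 = X η x.1 ∧ x.2.2.2 = wt x.1 := by
  induction l with
  | nil => intro x hx; simp at hx
  | cons y l ih =>
    have h1 : tabOK N es (y :: l) = Bool.and
      (Bool.and (Nat.ble (Nat.succ (wtL y.1)) N) (Bool.and (eqP y.2.1 (DP es y.1))
        (Bool.and (eqP y.2.2.1 (monP es y.1)) (Nat.beq y.2.2.2 (wtL y.1))))) (tabOK N es l) := rfl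
    rw [h1] at hok
    obtain ⟨ha, hb⟩ := (Bool.and_eq_true_iff).1 hok
    obtain ⟨hw, ha⟩ := (Bool.and_eq_true_iff).1 ha
    obtain ⟨hd, ha⟩ := (Bool.and_eq_true_iff).1 ha
    obtain ⟨hm, hv⟩ := (Bool.and_eq_true_iff).1 ha
    have hw' : wt y.1 < N := by
      rw [← wtL_eq]; exact Nat.le_of_ble_eq_true hw
    have hd' := eqP_eq hd
    have hm' := eqP_eq hm
    have hv' : y.2.2.2 = wt y.1 := by
      rw [← wtL_eq]; exact Nat.eq_of_beq_eq_true hv
    intro x hx
    rcases List.mem_cons.1 hx with rfl | hx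
    · refine ⟨?_, ?_, hv'⟩
      · rw [hd', c4_DP hχ he _ hw']
      · rw [hm', c4_monP hχ he _ hw'.le]
    · exact ih hb x hx

theorem y_sound {χ : ℕ → ℂ} (hχ : Mult χ) {η : ℕ → ℂ} {N : ℕ} {es : List Pol}
    (he : ∀ k < N, evP χ (nth es k) = η k) {l : List YRow} (hok : yOK N es l = true) :
    ∀ x ∈ l, evP χ x.2.1 = X η x.1 ∧ x.2.2.1 = wt x.1 := by
  induction l with
  | nil => intro x hx; simp at hx
  | cons y l ih =>
    have h1 : yOK N es (y :: l) = Bool.and
      (Bool.and (Nat.ble (wtL y.1) N) (Bool.and (eqP y.2.1 (monP es y.1))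
        (Nat.beq y.2.2.1 (wtL y.1)))) (yOK N es l) := rfl
    rw [h1] at hok
    obtain ⟨ha, hb⟩ := (Bool.and_eq_true_iff).1 hok
    obtain ⟨hw, ha⟩ := (Bool.and_eq_true_iff).1 ha
    obtain ⟨hm, hv⟩ := (Bool.and_eq_true_iff).1 ha
    have hw' : wt y.1 ≤ N := by
      rw [← wtL_eq]; exact Nat.le_of_ble_eq_true hw
    have hm' := eqP_eq hm
    have hv' : y.2.2.1 = wt y.1 := by
      rw [← wtL_eq]; exact Nat.eq_of_beq_eq_true hv
    intro x hx
    rcases List.mem_cons.1 hx with rfl | hx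
    · refine ⟨?_, hv'⟩
      rw [hm', c4_monP hχ he _ hw']
    · exact ih hb x hx

theorem zP_ev (χ : ℕ → ℂ) (bn bd : ℤ) (w : ℕ) (tab : List (List ℕ × Ent)) (mu : List ℤ) :
    evP χ (zP bn bd w tab mu) = ((tab.zip mu).map fun x => (x.2 : ℂ) * ((bd : ℂ) * evP χ x.1.2.1 +
      ((bd : ℂ) * ((x.1.2.2.2 : ℂ) + w) + bn) * evP χ x.1.2.2.1)).sum := by
  induction tab generalizing mu with
  | nil =>
    have h1 : zP bn bd w [] mu = [] := rfl
    rw [h1, evP_nil]
    simp
  | cons x tab ih =>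
    cases mu with
    | nil =>
      have h1 : zP bn bd w (x :: tab) [] = [] := rfl
      rw [h1, evP_nil]
      simp
    | cons a mu =>
      have h1 : zP bn bd w (x :: tab) (a :: mu) = fL (zP bn bd w tab mu) fun r =>
        fI (Int.mul a bd) fun a1 =>
        fI (Int.mul a (Int.add (Int.mul bd (Int.ofNat (Nat.add x.2.2.2 w))) bn)) fun a2 =>
        fL (axpy a2 x.2.2.1 r) fun r2 => axpy a1 x.2.1 r2 := rfl
      rw [h1, fL_eq, fI_eq, fI_eq, fL_eq, evP_axpy, evP_axpy, ih]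
      have e1 : (Int.mul a bd : ℤ) = a * bd := rfl
      have e2 : (Int.mul a (Int.add (Int.mul bd (Int.ofNat (Nat.add x.2.2.2 w))) bn) : ℤ) =
        a * (bd * (((x.2.2.2 + w : ℕ) : ℤ)) + bn) := rfl
      rw [e1, e2]
      simp only [List.zip_cons_cons, List.map_cons, List.sum_cons]
      push_cast
      ring

end Pool.Agent.H58.BJ
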