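import Pool.Agent.H58.BJ.C0
import Pool.Agent.H58.BJ.CDef
import Pool.Agent.H58.BJ.C6

set_option autoImplicit false

namespace Pool.Agent.H58.BJ

open Complex Metric Set
open scoped Real ComplexConjugate

/-! ### C7: blocks -/

theorem c7_evP_nil (χ : ℕ → ℂ) : evP χ [] = 0 := by simp [evP]

theorem c7_nth_nil (n : ℕ) : nth [] n = [] := rfl

theorem c7_nth_zero (h : Pol) (l : List Pol) : nth (h :: l) 0 = h := rfl

theorem c7_nth_succ (h : Pol) (l : List Pol) (n : ℕ) : nth (h :: l) (n + 1) = nth l n := rfl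

theorem c7_insW {χ : ℕ → ℂ} (hχ : Mult χ) (u v : ℕ) (z : ℤ) (ws : List ℤ) :
    ∀ (ps qs : List Pol) (t : Tr), good (insW u v z ws ps qs t) 16 = true →
      good t 16 = true ∧ evT (insW u v z ws ps qs t) (FF χ) = evT t (FF χ) +
        z * ∑ w ∈ Finset.range ws.length, ((ws.getD w 0 : ℤ) : ℝ) *
          (χ u * evP χ (nth ps w) * conj (χ v * evP χ (nth qs w))).re := by
  induction ws with
  | nil =>
    intro ps qs t h
    exact ⟨h, by simp [insW]⟩
  | cons w ws ih =>
    intro ps qs t h
    cases ps with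
    | nil =>
      refine ⟨h, ?_⟩
      have h1 : insW u v z (w :: ws) [] qs t = t := rfl
      rw [h1, Finset.sum_eq_zero (fun i _ => by rw [c7_nth_nil, c7_evP_nil]; simp)]
      simp
    | cons p ps =>
      cases qs with
      | nil =>
        refine ⟨h, ?_⟩
        have h1 : insW u v z (w :: ws) (p :: ps) [] t = t := rfl
        rw [h1, Finset.sum_eq_zero (fun i _ => by rw [c7_nth_nil, c7_evP_nil]; simp)]
        simp
      | cons q qs =>
        have h1 : insW u v z (w :: ws) (p :: ps) (q :: qs) t =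
            insW u v z ws ps qs (insO u v (Int.mul z w) p q t) :=
          fT_eq (insO u v (Int.mul z w) p q t) (insW u v z ws ps qs)
        rw [h1] at h ⊢
        obtain ⟨h2, h3⟩ := ih ps qs _ h
        obtain ⟨h4, h5⟩ := insO_ev hχ u v (Int.mul z w) p q t h2
        refine ⟨h4, ?_⟩
        rw [h3, h5, List.length_cons, Finset.sum_range_succ']
        simp only [c7_nth_zero, c7_nth_succ, List.getD_cons_zero, List.getD_cons_succ]
        have h6 : ((Int.mul z w : ℤ) : ℝ) = (z : ℝ) * w := by
          rw [show Int.mul z w = z * w from rfl]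
          push_cast
          ring
        rw [h6]
        ring

theorem insPair_ev {χ : ℕ → ℂ} (hχ : Mult χ) (ws : List ℤ) (p0 p1 : List Pol) (r c : Row) (z : ℤ)
    (t : Tr) (h : good (insPair ws p0 p1 r c z t) 16 = true) :
    good t 16 = true ∧ evT (insPair ws p0 p1 r c z t) (FF χ) = evT t (FF χ) +
      z * ∑ w ∈ Finset.range ws.length, ((ws.getD w 0 : ℤ) : ℝ) *
        (χ r.1 * conj (χ r.2.1) * evP χ (nth (sel p0 p1 r.2.2) w) *
          conj (χ c.1 * conj (χ c.2.1) * evP χ (nth (sel p0 p1 c.2.2) w))).re := by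
  have h1 : insPair ws p0 p1 r c z t = insW (r.1 * c.2.1) (r.2.1 * c.1) z ws
      (sel p0 p1 r.2.2) (sel p0 p1 c.2.2) t := by
    unfold insPair
    rw [fN_eq, fN_eq, fI_eq]
    rfl
  rw [h1] at h ⊢
  obtain ⟨h2, h3⟩ := c7_insW hχ _ _ _ _ _ _ _ h
  refine ⟨h2, ?_⟩
  rw [h3]
  congr 2
  refine Finset.sum_congr rfl fun w _ => ?_
  rw [hχ.2, hχ.2]
  congr 2
  simp only [map_mul, conj_conj]
  ring

theorem dot_eq (l m : List ℤ) {K : ℕ} (h : l.length ≤ K) :
    dot l m = ∑ k ∈ Finset.range K, l.getD k 0 * m.getD k 0 := by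
  induction l generalizing m K with
  | nil =>
    simp [dot]
  | cons a l ih =>
    obtain ⟨K, rfl⟩ : ∃ K', K = K' + 1 := ⟨K - 1, by rw [List.length_cons] at h; omega⟩
    cases m with
    | nil => simp [dot]
    | cons b m =>
      have h1 : dot (a :: l) (b :: m) = a * b + dot l m := rfl
      rw [h1, ih m (K := K) (by rw [List.length_cons] at h; omega), Finset.sum_range_succ']
      simp only [List.getD_cons_zero, List.getD_cons_succ]
      ring

end Pool.Agent.H58.BJ
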