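import Pool.Agent.H58.BJ.Def
import Pool.Agent.H58.BJ.Chk
import Pool.Agent.H58.BJ.CDef
import Pool.Agent.H58.BJ.C0
import Pool.Agent.H58.BJ.C7

/-!
# BJ-C8: the value of a block (MP_f801da_an)
-/

set_option autoImplicit false

namespace Pool.Agent.H58.BJ

open Complex Metric Set
open scoped Real ComplexConjugate

/-- the vector of a row -/
noncomputable def c8_V (χ : ℕ → ℂ) (p0 p1 : List Pol) (r : Row) (w : ℕ) : ℂ :=
  χ r.1 * conj (χ r.2.1) * evP χ (nth (sel p0 p1 r.2.2) w)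

/-- the combination of the rows -/
noncomputable def c8_A (χ : ℕ → ℂ) (p0 p1 : List Pol) (k : ℕ) (l : List (Row × List ℤ)) (w : ℕ) :
    ℂ :=
  lam χ false k l * evP χ (nth p0 w) + lam χ true k l * evP χ (nth p1 w)

theorem c8_lam_cons (χ : ℕ → ℂ) (s : Bool) (k : ℕ) (r : Row × List ℤ) (l : List (Row × List ℤ)) :
    lam χ s k (r :: l) = (if r.1.2.2 = s then ((r.2.getD k 0 : ℤ) : ℂ) *
      (χ r.1.1 * conj (χ r.1.2.1)) else 0) + lam χ s k l := by
  simp [lam]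

theorem c8_A_nil (χ : ℕ → ℂ) (p0 p1 : List Pol) (k w : ℕ) : c8_A χ p0 p1 k [] w = 0 := by
  simp [c8_A, lam]

theorem c8_A_cons (χ : ℕ → ℂ) (p0 p1 : List Pol) (k w : ℕ) (r : Row × List ℤ)
    (l : List (Row × List ℤ)) :
    c8_A χ p0 p1 k (r :: l) w = ((r.2.getD k 0 : ℤ) : ℂ) * c8_V χ p0 p1 r.1 w +
      c8_A χ p0 p1 k l w := by
  unfold c8_A c8_V
  rw [c8_lam_cons, c8_lam_cons]
  cases hb : r.1.2.2 with
  | false =>
    have h1 : sel p0 p1 false = p0 := rfl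
    rw [h1]
    simp only [if_true, Bool.false_eq_true, if_false]
    ring
  | true =>
    have h1 : sel p0 p1 true = p1 := rfl
    rw [h1]
    simp only [if_true, Bool.true_eq_false, if_false]
    ring

theorem c8_row_cons (ws : List ℤ) (p0 p1 : List Pol) (f : ℤ) (r : Row) (lr : List ℤ)
    (c : Row × List ℤ) (l : List (Row × List ℤ)) (t : Tr) :
    rowIns ws p0 p1 f r lr (c :: l) t =
      rowIns ws p0 p1 f r lr l (insPair ws p0 p1 r c.1 (f * (2 * dot lr c.2)) t) := by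
  have h1 : rowIns ws p0 p1 f r lr (c :: l) t =
      fT (insPair ws p0 p1 r c.1 (Int.mul f (Int.mul (Int.ofNat (nat_lit 2))
      (dot lr c.2))) t) (rowIns ws p0 p1 f r lr l) := rfl
  rw [h1, fT_eq]
  rfl

theorem c8_blk_cons (ws : List ℤ) (p0 p1 : List Pol) (f : ℤ)
    (r : Row × List ℤ) (l : List (Row × List ℤ)) (t : Tr) :
    blkIns ws p0 p1 f (r :: l) t = blkIns ws p0 p1 f l
      (rowIns ws p0 p1 f r.1 r.2 l (insPair ws p0 p1 r.1 r.1 (f * dot r.2 r.2) t)) := by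
  have h1 : blkIns ws p0 p1 f (r :: l) t =
      fT (insPair ws p0 p1 r.1 r.1 (Int.mul f (dot r.2 r.2)) t) fun t1 =>
      fT (rowIns ws p0 p1 f r.1 r.2 l t1) (blkIns ws p0 p1 f l) := rfl
  rw [h1, fT_eq, fT_eq]
  rfl

theorem c8_row {χ : ℕ → ℂ} (hχ : Mult χ) (ws : List ℤ) (p0 p1 : List Pol) (f : ℤ) (r : Row)
    (lr : List ℤ) {K : ℕ} (hK : lr.length ≤ K) (l : List (Row × List ℤ)) :
    ∀ t : Tr, good (rowIns ws p0 p1 f r lr l t) 16 = true →
    good t 16 = true ∧ evT (rowIns ws p0 p1 f r lr l t) (FF χ) = evT t (FF χ) +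
      f * ∑ k ∈ Finset.range K, ∑ w ∈ Finset.range ws.length, ((ws.getD w 0 : ℤ) : ℝ) *
        (2 * (((lr.getD k 0 : ℤ) : ℂ) * c8_V χ p0 p1 r w * conj (c8_A χ p0 p1 k l w)).re) := by
  induction l with
  | nil =>
    intro t h
    refine ⟨h, ?_⟩
    have h1 : rowIns ws p0 p1 f r lr [] t = t := rfl
    rw [h1]
    simp [c8_A_nil]
  | cons c l ih =>
    intro t h
    rw [c8_row_cons] at h ⊢
    obtain ⟨h1, h2⟩ := ih _ h
    obtain ⟨h3, h4⟩ := insPair_ev hχ ws p0 p1 r c.1 _ t h1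
    refine ⟨h3, ?_⟩
    rw [h2, h4, dot_eq lr c.2 hK, add_assoc]
    congr 1
    push_cast
    rw [mul_assoc, ← mul_add]
    congr 1
    have e0 : ∀ (x : ℕ → ℝ) (s : ℝ), (2 * ∑ k ∈ Finset.range K, x k) * s =
        ∑ k ∈ Finset.range K, 2 * x k * s := fun x s => by rw [Finset.mul_sum, Finset.sum_mul]
    rw [e0, ← Finset.sum_add_distrib]
    refine Finset.sum_congr rfl fun k _ => ?_
    rw [Finset.mul_sum, ← Finset.sum_add_distrib]
    refine Finset.sum_congr rfl fun w _ => ?_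
    rw [c8_A_cons]
    have e1 : (χ r.1 * conj (χ r.2.1) * evP χ (nth (sel p0 p1 r.2.2) w) *
          conj (χ c.1.1 * conj (χ c.1.2.1) * evP χ (nth (sel p0 p1 c.1.2.2) w))).re =
        (c8_V χ p0 p1 r w * conj (c8_V χ p0 p1 c.1 w)).re := rfl
    rw [e1]
    have e2 : (((lr.getD k 0 : ℤ) : ℂ) * c8_V χ p0 p1 r w *
        conj (((c.2.getD k 0 : ℤ) : ℂ) * c8_V χ p0 p1 c.1 w + c8_A χ p0 p1 k l w)).re =
        (((lr.getD k 0 : ℤ) : ℝ) * ((c.2.getD k 0 : ℤ) : ℝ)) *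
          (c8_V χ p0 p1 r w * conj (c8_V χ p0 p1 c.1 w)).re +
        (((lr.getD k 0 : ℤ) : ℂ) * c8_V χ p0 p1 r w * conj (c8_A χ p0 p1 k l w)).re := by
      rw [map_add, mul_add, add_re]
      congr 1
      rw [map_mul, map_intCast]
      have e3 : ((lr.getD k 0 : ℤ) : ℂ) * c8_V χ p0 p1 r w *
          (((c.2.getD k 0 : ℤ) : ℂ) * conj (c8_V χ p0 p1 c.1 w)) =
          (((((lr.getD k 0 : ℤ) : ℝ) * ((c.2.getD k 0 : ℤ) : ℝ)) : ℝ) : ℂ) *
            (c8_V χ p0 p1 r w * conj (c8_V χ p0 p1 c.1 w)) := by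
        push_cast
        ring
      rw [e3, Complex.re_ofReal_mul]
    rw [e2]
    ring

theorem c8_sq (x : ℤ) (v a : ℂ) : ‖(x : ℂ) * v + a‖ ^ 2 =
    ((x : ℝ) * (x : ℝ)) * (v * conj v).re + (2 * ((x : ℂ) * v * conj a).re) + ‖a‖ ^ 2 := by
  rw [← Complex.normSq_eq_norm_sq, ← Complex.normSq_eq_norm_sq, Complex.normSq_add]
  have h1 : (v * conj v).re = Complex.normSq v := by
    rw [Complex.mul_conj, Complex.ofReal_re]
  rw [h1, Complex.normSq_mul, Complex.normSq_intCast]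
  ring

theorem c8_blk {χ : ℕ → ℂ} (hχ : Mult χ) (ws : List ℤ) (p0 p1 : List Pol) (f : ℤ) {K : ℕ}
    (l : List (Row × List ℤ)) (hK : ∀ r ∈ l, r.2.length ≤ K) :
    ∀ t : Tr, good (blkIns ws p0 p1 f l t) 16 = true →
    good t 16 = true ∧ evT (blkIns ws p0 p1 f l t) (FF χ) = evT t (FF χ) +
      f * ∑ k ∈ Finset.range K, WS χ ws p0 p1 (lam χ false k l) (lam χ true k l) := by
  induction l with
  | nil =>
    intro t h
    refine ⟨h, ?_⟩
    have h1 : blkIns ws p0 p1 f [] t = t := rfl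
    rw [h1]
    simp [WS, lam]
  | cons r l ih =>
    intro t h
    rw [c8_blk_cons] at h ⊢
    obtain ⟨h1, h2⟩ := ih (fun r' hr' => hK r' (List.mem_cons_of_mem _ hr')) _ h
    have hr : r.2.length ≤ K := hK r List.mem_cons_self
    obtain ⟨h3, h4⟩ := c8_row hχ ws p0 p1 f r.1 r.2 hr l _ h1
    obtain ⟨h5, h6⟩ := insPair_ev hχ ws p0 p1 r.1 r.1 _ t h3
    refine ⟨h5, ?_⟩
    rw [h2, h4, h6, dot_eq r.2 r.2 hr, add_assoc, add_assoc]
    congr 1
    push_cast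
    rw [mul_assoc, ← mul_add, ← mul_add]
    congr 1
    rw [Finset.sum_mul, ← Finset.sum_add_distrib, ← Finset.sum_add_distrib]
    refine Finset.sum_congr rfl fun k _ => ?_
    unfold WS
    rw [Finset.mul_sum, ← Finset.sum_add_distrib, ← Finset.sum_add_distrib]
    refine Finset.sum_congr rfl fun w _ => ?_
    have e1 : (χ r.1.1 * conj (χ r.1.2.1) * evP χ (nth (sel p0 p1 r.1.2.2) w) *
          conj (χ r.1.1 * conj (χ r.1.2.1) * evP χ (nth (sel p0 p1 r.1.2.2) w))).re =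
        (c8_V χ p0 p1 r.1 w * conj (c8_V χ p0 p1 r.1 w)).re := rfl
    have e2 : lam χ false k (r :: l) * evP χ (nth p0 w) + lam χ true k (r :: l) *
        evP χ (nth p1 w) = c8_A χ p0 p1 k (r :: l) w := rfl
    have e3 : lam χ false k l * evP χ (nth p0 w) + lam χ true k l *
        evP χ (nth p1 w) = c8_A χ p0 p1 k l w := rfl
    rw [e1, e2, e3, c8_A_cons, c8_sq]
    ring

theorem c8_bound (l : List (Row × List ℤ)) : ∃ K : ℕ, ∀ r ∈ l, r.2.length ≤ K := by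
  induction l with
  | nil => exact ⟨0, fun r hr => absurd hr List.not_mem_nil⟩
  | cons a l ih =>
    obtain ⟨K, hK⟩ := ih
    refine ⟨max a.2.length K, fun r hr => ?_⟩
    rcases List.mem_cons.1 hr with h1 | h1
    · rw [h1]
      exact le_max_left _ _
    · exact (hK r h1).trans (le_max_right _ _)

/-- the value of a block -/
theorem blkIns_ev {χ : ℕ → ℂ} (hχ : Mult χ) (ws : List ℤ) (p0 p1 : List Pol) (f : ℤ)
    (l : List (Row × List ℤ)) (t : Tr) (h : good (blkIns ws p0 p1 f l t) 16 = true) :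
    good t 16 = true ∧ ∃ K : ℕ, evT (blkIns ws p0 p1 f l t) (FF χ) = evT t (FF χ) +
      f * ∑ k ∈ Finset.range K, WS χ ws p0 p1 (lam χ false k l) (lam χ true k l) := by
  obtain ⟨K, hK⟩ := c8_bound l
  obtain ⟨h1, h2⟩ := c8_blk hχ ws p0 p1 f l hK t h
  exact ⟨h1, K, h2⟩

end Pool.Agent.H58.BJ
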