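import Pool.Agent.H58.BJ.Def
import Pool.Agent.H58.BJ.Chk
import Pool.Agent.H58.BJ.CDef

/-!
# Project BJ, row C9: the groups of terms of the two kinds of blocks are nonnegative
-/

set_option autoImplicit false

namespace Pool.Agent.H58.BJ

open Complex Metric Set
open scoped Real ComplexConjugate

theorem c9_fN {A : Type} (n : ℕ) (k : ℕ → A) : fN n k = k n := by
  cases n <;> rfl

theorem c9_fI {A : Type} (z : ℤ) (k : ℤ → A) : fI z k = k z := by
  cases z with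
  | ofNat n => exact c9_fN n fun n' => k (Int.ofNat n')
  | negSucc n => exact c9_fN n fun n' => k (Int.negSucc n')

theorem c9_fL {A B : Type} (l : List A) (k : List A → B) : fL l k = k l := by
  cases l <;> rfl

theorem c9_wB_zero (z : ℤ) : wB 0 z = [] := rfl

theorem c9_wB_succ (n : ℕ) (z : ℤ) : wB (n + 1) z = z :: wB n (z - 2) := by
  have h1 : wB (n + 1) z = fI z fun z' => fL (wB n (Int.sub z' (Int.ofNat 2))) fun r =>
      z' :: r := rfl
  rw [h1, c9_fI, c9_fL]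
  rfl

theorem c9_wB_length (n : ℕ) : ∀ z : ℤ, (wB n z).length = n := by
  induction n with
  | zero => intro z; rfl
  | succ n ih => intro z; rw [c9_wB_succ, List.length_cons, ih]

theorem c9_wB_getD (n : ℕ) : ∀ (z : ℤ) (w : ℕ), w < n → (wB n z).getD w 0 = z - 2 * (w : ℤ) := by
  induction n with
  | zero => intro z w hw; omega
  | succ n ih =>
    intro z w hw
    rw [c9_wB_succ]
    cases w with
    | zero => simp
    | succ w =>
      rw [List.getD_cons_succ, ih (z - 2) w (by omega)]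
      push_cast
      ring

theorem c9_wA_length (n : ℕ) : (wA n).length = n := c9_wB_length n _

theorem c9_wA_getD {n w : ℕ} (h : w < n) : (wA n).getD w 0 = 3 - 2 * (w : ℤ) :=
  c9_wB_getD n 3 w h

theorem c9_ev1 (χ : ℕ → ℂ) (k : ℕ) : evP χ [(k, 1)] = χ k := by
  simp [evP]

theorem c9_qc_zero (χ : ℕ → ℂ) : evP χ (nth qc 0) = 0 := by
  have h : nth qc 0 = [] := rfl
  rw [h]
  simp [evP]

theorem c9_qc_succ {χ : ℕ → ℂ} {c : ℕ → ℂ} (hc : ∀ n ≤ 8, χ (ck n) = c n) (n : ℕ) (hn : n ≤ 8) :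
    evP χ (nth qc (n + 1)) = c n := by
  have h : nth qc (n + 1) = [(ck n, 1)] := by
    interval_cases n <;> rfl
  rw [h, c9_ev1, hc n hn]

theorem WS_nonneg_m (χ : ℕ → ℂ) (w : ℕ) (p0 p1 : List Pol) (a b : ℂ) :
    0 ≤ WS χ [Int.ofNat w] p0 p1 a b := by
  unfold WS
  apply Finset.sum_nonneg
  intro i hi
  have hi0 : i = 0 := by
    simp only [List.length_singleton, Finset.mem_range] at hi
    omega
  subst hi0
  apply mul_nonneg _ (by positivity)
  simp

theorem WS_nonneg_a {χ : ℕ → ℂ} (hχ : Mult χ) {c : ℕ → ℂ} (h0 : c 0 = 1)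
    (hc : ∀ n ≤ 8, χ (ck n) = c n) (hs : Slack c) {dd : List Pol} {n : ℕ} (hn : n ≤ 9)
    (hn2 : 2 ≤ n) (hd : ∀ k < n, evP χ (nth dd k) = dc c k) (a b : ℂ) :
    0 ≤ WS χ (wA n) qc dd a b := by
  obtain ⟨m, rfl⟩ : ∃ m, n = m + 2 := ⟨n - 2, by omega⟩
  have h1 := hs a b m
  unfold WS
  rw [c9_wA_length, Finset.sum_range_succ', Finset.sum_range_succ']
  have h2 : ∑ k ∈ Finset.range m, (((wA (m + 2)).getD (k + 1 + 1) 0 : ℤ) : ℝ) *
      ‖a * evP χ (nth qc (k + 1 + 1)) + b * evP χ (nth dd (k + 1 + 1))‖ ^ 2 =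
      -∑ k ∈ Finset.range m, (2 * (k : ℝ) + 1) * ‖a * c (k + 1) + b * dc c (k + 2)‖ ^ 2 := by
    rw [← Finset.sum_neg_distrib]
    refine Finset.sum_congr rfl fun k hk => ?_
    have hk' : k < m := Finset.mem_range.mp hk
    rw [c9_wA_getD (by omega : k + 1 + 1 < m + 2), c9_qc_succ hc (k + 1) (by omega),
      hd (k + 1 + 1) (by omega)]
    push_cast
    ring
  have h3 : (((wA (m + 2)).getD (0 + 1) 0 : ℤ) : ℝ) *
      ‖a * evP χ (nth qc (0 + 1)) + b * evP χ (nth dd (0 + 1))‖ ^ 2 =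
      ‖a * c 0 + b * dc c 1‖ ^ 2 := by
    rw [c9_wA_getD (by omega : 0 + 1 < m + 2), c9_qc_succ hc 0 (by omega), hd (0 + 1) (by omega)]
    norm_num
  have h4 : (((wA (m + 2)).getD 0 0 : ℤ) : ℝ) *
      ‖a * evP χ (nth qc 0) + b * evP χ (nth dd 0)‖ ^ 2 = 3 * ‖b * dc c 0‖ ^ 2 := by
    rw [c9_wA_getD (by omega : 0 < m + 2), c9_qc_zero, hd 0 (by omega)]
    norm_num
  rw [h2, h3, h4]
  linarith

end Pool.Agent.H58.BJ
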