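import Pool.Agent.H58.BJ.COk
import Pool.Agent.H58.BJ.Bd
import Pool.Agent.H58.BJ.C0
import Pool.Agent.H58.BJ.C1
import Pool.Agent.H58.BJ.C3
import Pool.Agent.H58.BJ.C4
import Pool.Agent.H58.BJ.C5
import Pool.Agent.H58.BJ.C6
import Pool.Agent.H58.BJ.C8
import Pool.Agent.H58.BJ.C9

/-!
# Soundness of the certificate (project BJ)
-/

set_option autoImplicit false

namespace Pool.Agent.H58.BJ

open Complex Metric Set
open scoped Real ComplexConjugate

/-- the terms of `G` of a list of rows -/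
noncomputable def gMu (tab : List (List ℕ × Ent)) (l : List YRow) : Mu :=
  l.flatMap fun y => (tab.zip y.2.2.2).map fun x => (x.1.1, y.1, ((x.2 : ℤ) : ℝ))

/-- the terms of `G` of a command -/
noncomputable def cmdMu (tab : List (List ℕ × Ent)) : Cmd → Mu
  | Cmd.g l => gMu tab l
  | Cmd.a _ _ _ => []
  | Cmd.m _ _ _ => []

/-- the contribution of a command -/
noncomputable def cmdS (χ : ℕ → ℂ) (bn bd : ℤ) (tab : List (List ℕ × Ent)) : Cmd → ℝ
  | Cmd.g l => gS χ bn bd tab l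
  | Cmd.a _ _ _ => 0
  | Cmd.m _ _ _ => 0

theorem okL_mem {N : ℕ} {es : List Pol} {l : List Cmd} (h : okL N es l = true) :
    ∀ c ∈ l, okC N es c = true := by
  induction l with
  | nil => intro c hc; simp at hc
  | cons a l ih =>
    have h' : (okC N es a && okL N es l) = true := h
    rw [Bool.and_eq_true] at h'
    intro c hc
    rcases List.mem_cons.1 hc with rfl | hc
    · exact h'.1
    · exact ih h'.2 c hc

theorem okL_append {N : ℕ} {es : List Pol} {l l' : List Cmd} (h : okL N es l = true)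
    (h' : okL N es l' = true) : okL N es (l ++ l') = true := by
  induction l with
  | nil => exact h'
  | cons a l ih =>
    have h1 : (okC N es a && okL N es l) = true := h
    rw [Bool.and_eq_true] at h1
    show (okC N es a && okL N es (l ++ l')) = true
    rw [Bool.and_eq_true]
    exact ⟨h1.1, ih h1.2⟩

theorem run_append (bn bd : ℤ) (tab : List (List ℕ × Ent)) (dd : List Pol) (l l' : List Cmd)
    (t : Tr) : run bn bd tab dd (l ++ l') t = run bn bd tab dd l' (run bn bd tab dd l t) := by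
  induction l generalizing t with
  | nil => rfl
  | cons a l ih =>
    show fT (step bn bd tab dd a t) (run bn bd tab dd (l ++ l')) =
      run bn bd tab dd l' (fT (step bn bd tab dd a t) (run bn bd tab dd l))
    rw [fT_eq, fT_eq, ih]

section
variable {χ : ℕ → ℂ} (hχ : Mult χ) {c : ℕ → ℂ} (h0 : c 0 = 1) (hc : ∀ n ≤ 8, χ (ck n) = c n)
  (hs : Slack c) {N : ℕ} (hN : N ≤ 7) {es dd : List Pol} {tab : List (List ℕ × Ent)}
  (hd : ∀ k < N + 2, evP χ (nth dd k) = dc c k) (bn bd : ℤ)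

include hχ h0 hc hs hN hd in
theorem step_ev (cmd : Cmd) (hok : okC N es cmd = true) (t : Tr)
    (h : good (step bn bd tab dd cmd t) 16 = true) :
    good t 16 = true ∧ evT (step bn bd tab dd cmd t) (FF χ) ≤
      evT t (FF χ) - 2 * cmdS χ bn bd tab cmd := by
  cases cmd with
  | g l =>
    have := gIns_ev hχ bn bd tab l t h
    exact ⟨this.1, this.2.le⟩
  | a n f l =>
    have hok' : (Nat.ble 2 n && Nat.ble n (N + 2)) = true := hok
    rw [Bool.and_eq_true, Nat.ble_eq, Nat.ble_eq] at hok'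
    have e : step bn bd tab dd (Cmd.a n f l) t =
        blkIns (wA n) qc dd (Int.neg (Int.ofNat f)) l t := by
      show fL (wA n) (fun ws => fI (Int.neg (Int.ofNat f)) fun f' => blkIns ws qc dd f' l t) = _
      rw [fL_eq, fI_eq]
    rw [e] at h ⊢
    obtain ⟨h1, K, h2⟩ := blkIns_ev hχ (wA n) qc dd _ l t h
    refine ⟨h1, ?_⟩
    rw [h2]
    have h3 : 0 ≤ ∑ k ∈ Finset.range K, WS χ (wA n) qc dd (lam χ false k l) (lam χ true k l) :=
      Finset.sum_nonneg fun k _ => WS_nonneg_a hχ h0 hc hs (by omega) hok'.1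
        (fun k hk => hd k (by omega)) _ _
    have h4 : ((Int.neg (Int.ofNat f) : ℤ) : ℝ) = -(f : ℝ) := by
      show ((-(f : ℤ) : ℤ) : ℝ) = _
      push_cast
      rfl
    rw [h4]
    have h5 : (0 : ℝ) ≤ f := Nat.cast_nonneg f
    show _ ≤ evT t (FF χ) - 2 * 0
    nlinarith [mul_nonneg h5 h3]
  | m w f l =>
    have e : step bn bd tab dd (Cmd.m w f l) t =
        blkIns [Int.ofNat w] q1 q1 (Int.neg (Int.ofNat f)) l t := by
      show fI (Int.neg (Int.ofNat f)) (fun f' => blkIns [Int.ofNat w] q1 q1 f' l t) = _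
      rw [fI_eq]
    rw [e] at h ⊢
    obtain ⟨h1, K, h2⟩ := blkIns_ev hχ [Int.ofNat w] q1 q1 _ l t h
    refine ⟨h1, ?_⟩
    rw [h2]
    have h3 : 0 ≤ ∑ k ∈ Finset.range K, WS χ [Int.ofNat w] q1 q1 (lam χ false k l)
        (lam χ true k l) := Finset.sum_nonneg fun k _ => WS_nonneg_m χ w q1 q1 _ _
    have h4 : ((Int.neg (Int.ofNat f) : ℤ) : ℝ) = -(f : ℝ) := by
      show ((-(f : ℤ) : ℤ) : ℝ) = _
      push_cast
      rfl
    rw [h4]
    have h5 : (0 : ℝ) ≤ f := Nat.cast_nonneg f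
    show _ ≤ evT t (FF χ) - 2 * 0
    nlinarith [mul_nonneg h5 h3]

include hχ h0 hc hs hN hd in
theorem run_ev (l : List Cmd) (hok : ∀ cmd ∈ l, okC N es cmd = true) (t : Tr)
    (h : good (run bn bd tab dd l t) 16 = true) :
    good t 16 = true ∧ evT (run bn bd tab dd l t) (FF χ) ≤
      evT t (FF χ) - 2 * (l.map (cmdS χ bn bd tab)).sum := by
  induction l generalizing t with
  | nil =>
    refine ⟨h, ?_⟩
    show evT t (FF χ) ≤ evT t (FF χ) - 2 * 0
    linarith
  | cons a l ih =>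
    have e : run bn bd tab dd (a :: l) t = run bn bd tab dd l (step bn bd tab dd a t) := by
      show fT (step bn bd tab dd a t) (run bn bd tab dd l) = _
      rw [fT_eq]
    rw [e] at h ⊢
    obtain ⟨h1, h2⟩ := ih (fun cmd hcmd => hok cmd (List.mem_cons_of_mem _ hcmd)) _ h
    obtain ⟨h3, h4⟩ := step_ev hχ h0 hc hs hN hd bn bd a
      (hok a List.mem_cons_self) t h1
    refine ⟨h3, ?_⟩
    rw [List.map_cons, List.sum_cons]
    linarith
end

theorem re_list_sum {α : Type} (l : List α) (F : α → ℂ) :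
    ((l.map F).sum).re = (l.map fun x => (F x).re).sum := by
  induction l with
  | nil => simp
  | cons a l ih => simp [ih]

theorem G_append (β : ℝ) (μ ν : Mu) (η : ℕ → ℂ) : G β (μ ++ ν) η = G β μ η + G β ν η := by
  unfold G
  rw [List.map_append, List.sum_append]

theorem G_nil (β : ℝ) (η : ℕ → ℂ) : G β [] η = 0 := rfl

theorem row_eq {χ : ℕ → ℂ} {η : ℕ → ℂ} {bn bd : ℤ} (hbd : 0 < bd)
    {tab : List (List ℕ × Ent)}
    (ht : ∀ x ∈ tab, evP χ x.2.1 = DX η x.1 ∧ evP χ x.2.2.1 = X η x.1 ∧ x.2.2.2 = wt x.1)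
    (y : YRow) (hy : evP χ y.2.1 = X η y.1 ∧ y.2.2.1 = wt y.1) :
    (bd : ℂ) * G ((bn : ℝ) / bd) ((tab.zip y.2.2.2).map fun x => (x.1.1, y.1, ((x.2 : ℤ) : ℝ))) η =
      evP χ (zP bn bd y.2.2.1 tab y.2.2.2) * conj (evP χ y.2.1) := by
  rw [zP_ev, hy.1, hy.2]
  generalize y.2.2.2 = mu
  have hbd' : (bd : ℂ) ≠ 0 := by exact_mod_cast hbd.ne'
  unfold G
  rw [List.map_map]
  induction tab generalizing mu with
  | nil => simp
  | cons x tab ih =>
    cases mu with
    | nil => simp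
    | cons a mu =>
      rw [List.zip_cons_cons, List.map_cons, List.map_cons, List.sum_cons, List.sum_cons, mul_add,
        add_mul, ih (fun x hx => ht x (List.mem_cons_of_mem _ hx)) mu]
      congr 1
      obtain ⟨e1, e2, e3⟩ := ht x List.mem_cons_self
      rw [e1, e2, e3]
      simp only [Function.comp]
      push_cast
      field_simp

theorem gS_eq {χ : ℕ → ℂ} {η : ℕ → ℂ} {bn bd : ℤ} (hbd : 0 < bd)
    {tab : List (List ℕ × Ent)}
    (ht : ∀ x ∈ tab, evP χ x.2.1 = DX η x.1 ∧ evP χ x.2.2.1 = X η x.1 ∧ x.2.2.2 = wt x.1)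
    (l : List YRow) (hy : ∀ y ∈ l, evP χ y.2.1 = X η y.1 ∧ y.2.2.1 = wt y.1) :
    (bd : ℝ) * (G ((bn : ℝ) / bd) (gMu tab l) η).re = gS χ bn bd tab l := by
  have key : ∀ z : ℂ, (bd : ℝ) * z.re = ((bd : ℂ) * z).re := by
    intro z
    rw [show ((bd : ℤ) : ℂ) = (((bd : ℤ) : ℝ) : ℂ) by push_cast; rfl, Complex.re_ofReal_mul]
  rw [key]
  unfold gS gMu
  induction l with
  | nil =>
    show ((bd : ℂ) * G _ [] η).re = 0
    rw [G_nil]; simp
  | cons y l ih =>
    rw [List.flatMap_cons, G_append, mul_add, Complex.add_re, List.map_cons, List.sum_cons,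
      ih (fun y hy' => hy y (List.mem_cons_of_mem _ hy')),
      row_eq hbd ht y (hy y List.mem_cons_self)]

theorem cmds_eq {χ : ℕ → ℂ} (hχ : Mult χ) {η : ℕ → ℂ} {bn bd : ℤ} (hbd : 0 < bd) {N : ℕ}
    {es : List Pol} (he : ∀ k < N, evP χ (nth es k) = η k)
    {tab : List (List ℕ × Ent)}
    (ht : ∀ x ∈ tab, evP χ x.2.1 = DX η x.1 ∧ evP χ x.2.2.1 = X η x.1 ∧ x.2.2.2 = wt x.1)
    (l : List Cmd) (hok : ∀ cmd ∈ l, okC N es cmd = true) :
    (bd : ℝ) * (G ((bn : ℝ) / bd) (l.flatMap (cmdMu tab)) η).re =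
      (l.map (cmdS χ bn bd tab)).sum := by
  induction l with
  | nil => simp [G_nil]
  | cons a l ih =>
    rw [List.flatMap_cons, G_append, Complex.add_re, mul_add, List.map_cons, List.sum_cons,
      ih (fun cmd hcmd => hok cmd (List.mem_cons_of_mem _ hcmd))]
    congr 1
    have ha := hok a List.mem_cons_self
    cases a with
    | g l => exact gS_eq hbd ht l (y_sound hχ he ha)
    | a n f l =>
      show (bd : ℝ) * (G _ [] η).re = 0
      rw [G_nil]; simp
    | m w f l =>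
      show (bd : ℝ) * (G _ [] η).re = 0
      rw [G_nil]; simp

/-- **Soundness of the certificate.** -/
theorem cert_sound {N : ℕ} (hN : N ≤ 7) {bn bd : ℤ} (hbd : 0 < bd) {rs es dd : List Pol}
    {tab : List (List ℕ × Ent)} {cmds : List Cmd} {z : ℤ} {M : ℕ} (hM : (M : ℤ) < -z)
    (h1 : recOK rs es N = true) (h2 : tabOK N es tab = true) (h3 : dOK dd (N + 2) = true)
    (h4 : okL N es cmds = true)
    (h5 : finT M (run bn bd tab dd cmds (ins 1 1 z Tr.e)) = true) :
    ∃ κ : ℝ, 0 < κ ∧ ∀ c r η : ℕ → ℂ, c 0 = 1 → Slack c → RelR c r → RelY 1 r η →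
      (G ((bn : ℝ) / bd) (cmds.flatMap (cmdMu tab)) η).re ≤ -κ := by
  have hbd' : (0 : ℝ) < bd := by exact_mod_cast hbd
  have hM' : (M : ℝ) < -(z : ℝ) := by exact_mod_cast hM
  refine ⟨(-(z : ℝ) - M) / (2 * bd), div_pos (by linarith) (by linarith), ?_⟩
  intro c r η h0 hs hr hy
  obtain ⟨χ, hχ, hc, hle⟩ := chi_exists c h0
  have hχ1 := hle (c_le h0 hs)
  have hrec := rec_sound hχ h0 hc hr hy (by omega) h1
  have he : ∀ k < N, evP χ (nth es k) = η k := fun k hk => (hrec k hk).2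
  have ht := tab_sound hχ he h2
  have hd := dd_sound hχ hc (by omega) h3
  have h5' : (good (run bn bd tab dd cmds (ins 1 1 z Tr.e)) 16 &&
      Nat.ble (absT (run bn bd tab dd cmds (ins 1 1 z Tr.e))) M) = true := h5
  rw [Bool.and_eq_true, Nat.ble_eq] at h5'
  obtain ⟨g1, g2⟩ := run_ev hχ h0 hc hs hN hd bn bd cmds (okL_mem h4) _ h5'.1
  obtain ⟨g3, g4⟩ := ins_ev χ 1 1 z Tr.e g1
  have hF : ∀ k, |FF χ k| ≤ 1 := by
    intro k
    unfold FF
    refine (Complex.abs_re_le_norm _).trans ?_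
    rw [norm_mul, Complex.norm_conj]
    exact mul_le_one₀ (hχ1 _) (norm_nonneg _) (hχ1 _)
  have g5 := evT_le hF (run bn bd tab dd cmds (ins 1 1 z Tr.e))
  have g6 : (absT (run bn bd tab dd cmds (ins 1 1 z Tr.e)) : ℝ) ≤ M := by exact_mod_cast h5'.2
  rw [abs_le] at g5
  rw [← cmds_eq hχ hbd he ht cmds (okL_mem h4)] at g2
  have g7 : (χ 1 * conj (χ 1)).re = 1 := by
    rw [hχ.1]; simp
  rw [g7] at g4
  have g8 : evT Tr.e (FF χ) = 0 := rfl
  rw [g8] at g4
  rw [g4] at g2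
  have g9 : 2 * ((bd : ℝ) * (G ((bn : ℝ) / bd) (cmds.flatMap (cmdMu tab)) η).re) ≤ z + M := by
    linarith [g5.1]
  rw [le_neg, div_le_iff₀ (by linarith)]
  linarith

end Pool.Agent.H58.BJ
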