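import Pool.Agent.H58.BJ.Def
import Pool.Agent.H58.BR.Koe

/-!
# Project BJ, row A9: a rough distortion bound on every smaller disc
-/

set_option autoImplicit false

namespace Pool.Agent.H58.BJ

open Complex Metric Set

theorem a9_mem {t : ℝ} (ht : t < 1) {z w : ℂ} (hz : ‖z‖ ≤ t) (hw : w ∈ ball (0 : ℂ) 1) :
    z + ((1 - t : ℝ) : ℂ) * w ∈ ball (0 : ℂ) 1 := by
  rw [mem_ball_zero_iff] at hw ⊢
  have hs : 0 < 1 - t := by linarith
  have h1 : ‖((1 - t : ℝ) : ℂ)‖ = 1 - t := by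
    rw [Complex.norm_real, Real.norm_of_nonneg hs.le]
  calc ‖z + ((1 - t : ℝ) : ℂ) * w‖ ≤ ‖z‖ + ‖((1 - t : ℝ) : ℂ) * w‖ := norm_add_le _ _
    _ = ‖z‖ + (1 - t) * ‖w‖ := by rw [norm_mul, h1]
    _ < 1 := by nlinarith

theorem a9_pre {t : ℝ} (ht : t < 1) {f : ℂ → ℂ} (hf : DifferentiableOn ℂ f (ball 0 1))
    (hi : InjOn f (ball 0 1)) {z : ℂ} (hz : ‖z‖ ≤ t) :
    (1 - t) * ‖deriv (deriv f) z‖ ≤ 4 * ‖deriv f z‖ := by
  have hs : 0 < 1 - t := by linarith
  set s : ℂ := ((1 - t : ℝ) : ℂ) with hsdef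
  have hn : ‖s‖ = 1 - t := by
    rw [hsdef, Complex.norm_real, Real.norm_of_nonneg hs.le]
  have hs0 : s ≠ 0 := by
    rw [← norm_pos_iff, hn]; exact hs
  set g : ℂ → ℂ := fun w => f (z + s * w) with hg
  have hgd : DifferentiableOn ℂ g (ball 0 1) := by
    apply hf.comp
    · exact (differentiableOn_const _).add ((differentiableOn_const _).mul differentiableOn_id)
    · intro w hw
      exact a9_mem ht hz hw
  have hgi : InjOn g (ball 0 1) := by
    intro w hw v hv h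
    have h2 := hi (a9_mem ht hz hw) (a9_mem ht hz hv) h
    have h3 := add_left_cancel h2
    exact mul_left_cancel₀ hs0 h3
  have hd1 : deriv g = fun w => s * deriv f (z + s * w) := by
    funext w
    have h1 := deriv_comp_mul_left s (fun v => f (z + v)) w
    have h2 := deriv_comp_const_add (f := f) z (s * w)
    rw [h2, smul_eq_mul] at h1
    exact h1
  have hd2 : deriv (deriv g) 0 = s * (s * deriv (deriv f) z) := by
    rw [hd1]
    have h3 : deriv (fun w => s * deriv f (z + s * w)) 0 =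
        s * deriv (fun w => deriv f (z + s * w)) 0 :=
      deriv_const_mul_field _
    have h1 := deriv_comp_mul_left s (fun v => deriv f (z + v)) 0
    have h2 := deriv_comp_const_add (f := deriv f) z (s * 0)
    rw [h2, smul_eq_mul, mul_zero, add_zero] at h1
    rw [h3]
    congr 1
  have h := Pool.Agent.H58.BR.br8_second hgd hgi
  rw [hd2, hd1] at h
  simp only [mul_zero, add_zero, norm_mul, hn] at h
  have h2 : (1 - t) * ((1 - t) * ‖deriv (deriv f) z‖) ≤ (1 - t) * (4 * ‖deriv f z‖) := by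
    linarith
  exact le_of_mul_le_mul_left h2 hs

theorem distort {t : ℝ} (ht : t < 1) : ∃ C : ℝ, 0 < C ∧ ∀ f : ℂ → ℂ, Univ f →
    ∀ z : ℂ, ‖z‖ ≤ t → ‖deriv f 0‖ ≤ C * ‖deriv f z‖ := by
  have hs : 0 < 1 - t := by linarith
  refine ⟨Real.exp (4 / (1 - t) * t), Real.exp_pos _, ?_⟩
  rintro f ⟨hd, hi⟩ z hz
  have ht0 : 0 ≤ t := (norm_nonneg z).trans hz
  have hdd : DifferentiableOn ℂ (deriv f) (ball 0 1) := hd.deriv isOpen_ball
  have hsub : closedBall (0 : ℂ) t ⊆ ball (0 : ℂ) 1 := closedBall_subset_ball ht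
  have hne : ∀ z ∈ ball (0 : ℂ) 1, deriv f z ≠ 0 := fun z hz =>
    Pool.Agent.H83.Lo.deriv_ne_zero isOpen_ball hd hi hz
  obtain ⟨L, hL, hL2⟩ :=
    Pool.Agent.H83.Lo.exists_log_convex isOpen_ball (convex_ball (0 : ℂ) 1) hdd hne
  have hLd : ∀ z ∈ closedBall (0 : ℂ) t, ‖deriv L z‖ ≤ 4 / (1 - t) := by
    intro z hz
    have hzb := hsub hz
    have h2 : HasDerivAt L (deriv L z) z :=
      (hL.differentiableAt (isOpen_ball.mem_nhds hzb)).hasDerivAt
    have h3 : HasDerivAt (fun z => Complex.exp (L z)) (Complex.exp (L z) * deriv L z) z := h2.cexp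
    have h4 : (fun z => Complex.exp (L z)) =ᶠ[nhds z] deriv f := by
      filter_upwards [isOpen_ball.mem_nhds hzb] with w hw
      exact hL2 w hw
    have h5 := (h3.congr_of_eventuallyEq h4.symm).deriv
    have h6 := a9_pre ht hd hi (mem_closedBall_zero_iff.1 hz)
    rw [h5, hL2 z hzb, norm_mul] at h6
    have h7 : 0 < ‖deriv f z‖ := norm_pos_iff.2 (hne z hzb)
    rw [le_div_iff₀ hs]
    have h8 : ‖deriv f z‖ * (‖deriv L z‖ * (1 - t)) ≤ ‖deriv f z‖ * 4 := by linarith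
    exact le_of_mul_le_mul_left h8 h7
  have hc0 : (0 : ℂ) ∈ closedBall (0 : ℂ) t := mem_closedBall_self ht0
  have hzc : z ∈ closedBall (0 : ℂ) t := mem_closedBall_zero_iff.2 hz
  have hLz : ‖L 0 - L z‖ ≤ 4 / (1 - t) * t := by
    have h2 := Convex.norm_image_sub_le_of_norm_deriv_le (𝕜 := ℂ) (f := L) (C := 4 / (1 - t))
      (fun w hw => hL.differentiableAt (isOpen_ball.mem_nhds (hsub hw))) hLd
      (convex_closedBall (0 : ℂ) t) hzc hc0
    rw [zero_sub, norm_neg] at h2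
    exact h2.trans (mul_le_mul_of_nonneg_left hz (by positivity))
  have h9 : ‖deriv f 0‖ = Real.exp ((L 0 - L z).re) * ‖deriv f z‖ := by
    rw [← hL2 0 (hsub hc0), ← hL2 z (hsub hzc), Complex.norm_exp, Complex.norm_exp,
      ← Real.exp_add, Complex.sub_re]
    congr 1
    ring
  rw [h9]
  apply mul_le_mul_of_nonneg_right _ (norm_nonneg _)
  apply Real.exp_le_exp.2
  exact (Complex.re_le_norm _).trans hLz

end Pool.Agent.H58.BJ
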