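import Pool.Agent.H58.BJ.Def

set_option autoImplicit false

namespace Pool.Agent.H58.BJ

open Complex Metric Set MeasureTheory
open scoped Real ComplexConjugate

theorem a6_sub {R : ℝ} (hR : 1 < R) : closedBall (0 : ℂ) 1 ⊆ ball (0 : ℂ) R :=
  closedBall_subset_ball hR

theorem a6_P_diff {R : ℝ} {f : ℂ → ℂ} (hf : DifferentiableOn ℂ f (ball 0 R))
    (hne : ∀ z ∈ ball (0 : ℂ) R, deriv f z ≠ 0) (k : ℕ) :
    DifferentiableOn ℂ (jP f k) (ball 0 R) := by
  have h1 : DifferentiableOn ℂ (deriv f) (ball 0 R) := hf.deriv isOpen_ball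
  have h2 : DifferentiableOn ℂ (deriv (deriv f)) (ball 0 R) := h1.deriv isOpen_ball
  induction k with
  | zero =>
    have : jP f 0 = fun z => deriv (deriv f) z / deriv f z := by
      unfold jP; exact iteratedDeriv_zero
    rw [this]
    exact h2.div h1 hne
  | succ k ih =>
    have : jP f (k + 1) = deriv (jP f k) := by
      unfold jP; exact iteratedDeriv_succ
    rw [this]
    exact ih.deriv isOpen_ball

theorem qf_cont {R : ℝ} (hR : 1 < R) {f : ℂ → ℂ} (hf : DifferentiableOn ℂ f (ball 0 R))
    (hne : ∀ z ∈ ball (0 : ℂ) R, deriv f z ≠ 0) : ContinuousOn (qf f) (closedBall 0 1) := by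
  have h1 : ContinuousOn (deriv f) (closedBall 0 1) :=
    ((hf.deriv isOpen_ball).continuousOn).mono (a6_sub hR)
  unfold qf
  refine ContinuousOn.inv₀ (h1.norm.pow 2) ?_
  intro z hz
  have := hne z (a6_sub hR hz)
  positivity

theorem eta_cont {R : ℝ} (hR : 1 < R) {f : ℂ → ℂ} (hf : DifferentiableOn ℂ f (ball 0 R))
    (hne : ∀ z ∈ ball (0 : ℂ) R, deriv f z ≠ 0) (k : ℕ) :
    ContinuousOn (fun z => eta f z k) (closedBall 0 1) := by
  have h1 : ContinuousOn (jP f k) (closedBall 0 1) :=
    (a6_P_diff hf hne k).continuousOn.mono (a6_sub hR)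
  unfold eta
  refine ContinuousOn.mul ?_ (h1.div_const _)
  exact (Continuous.continuousOn (by fun_prop))

theorem ww_cont {s : ℝ} (hs : 0 < s) : ContinuousOn (ww s) (closedBall 0 1) := by
  unfold ww
  have h : Continuous fun z : ℂ => 1 - ‖z‖ ^ 2 := by fun_prop
  exact (h.rpow_const fun z => Or.inr hs.le).continuousOn

theorem X_cont {A : Set ℂ} {η : ℂ → ℕ → ℂ} (h : ∀ k, ContinuousOn (fun z => η z k) A)
    (m : List ℕ) : ContinuousOn (fun z => X (η z) m) A := by
  induction m with
  | nil => simpa [X] using (continuousOn_const (c := (1 : ℂ)))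
  | cons k m ih =>
    have : (fun z => X (η z) (k :: m)) = fun z => η z k * X (η z) m := by
      funext z; simp [X]
    rw [this]
    exact (h k).mul ih

theorem DX_cont {A : Set ℂ} {η : ℂ → ℕ → ℂ} (h : ∀ k, ContinuousOn (fun z => η z k) A)
    (m : List ℕ) : ContinuousOn (fun z => DX (η z) m) A := by
  have hd : ContinuousOn (fun z => dX (η z) m) A := by
    induction m with
    | nil => simpa [dX] using (continuousOn_const (c := (0 : ℂ)))
    | cons k m ih =>
      have : (fun z => dX (η z) (k :: m)) =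
          fun z => ((k : ℂ) + 1) * η z (k + 1) * X (η z) m + η z k * dX (η z) m := by
        funext z; rfl
      rw [this]
      exact ((continuousOn_const.mul (h (k + 1))).mul (X_cont h m)).add ((h k).mul ih)
  unfold DX
  exact (((h 0).mul (X_cont h m)).neg).add hd

end Pool.Agent.H58.BJ
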