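import Pool.Agent.H58.BJ.Def

/-!
# Row BJ-A3: the functions `H_m` and their derivatives
-/

set_option autoImplicit false

namespace Pool.Agent.H58.BJ

open Complex Metric Set MeasureTheory
open scoped Real ComplexConjugate

theorem jP_diff {R : ℝ} {f : ℂ → ℂ} (hf : DifferentiableOn ℂ f (ball 0 R))
    (hne : ∀ z ∈ ball (0 : ℂ) R, deriv f z ≠ 0) (k : ℕ) :
    DifferentiableOn ℂ (jP f k) (ball 0 R) := by
  have h1 : DifferentiableOn ℂ (deriv f) (ball 0 R) := hf.deriv isOpen_ball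
  have h2 : DifferentiableOn ℂ (deriv (deriv f)) (ball 0 R) := h1.deriv isOpen_ball
  induction k with
  | zero =>
    have h3 : jP f 0 = fun z => deriv (deriv f) z / deriv f z := by
      unfold jP
      exact iteratedDeriv_zero
    rw [h3]
    exact h2.div h1 hne
  | succ k ih =>
    have h3 : jP f (k + 1) = deriv (jP f k) := by
      unfold jP
      exact iteratedDeriv_succ
    rw [h3]
    exact ih.deriv isOpen_ball

private theorem a3_p {R : ℝ} {f : ℂ → ℂ} (hf : DifferentiableOn ℂ f (ball 0 R))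
    (hne : ∀ z ∈ ball (0 : ℂ) R, deriv f z ≠ 0) (k : ℕ) {z : ℂ} (hz : z ∈ ball (0 : ℂ) R) :
    HasDerivAt (fun z => jP f k z / (k.factorial : ℂ))
      (((k : ℂ) + 1) * (jP f (k + 1) z / ((k + 1).factorial : ℂ))) z := by
  have h3 : jP f (k + 1) = deriv (jP f k) := by
    unfold jP
    exact iteratedDeriv_succ
  have h4 : HasDerivAt (jP f k) (deriv (jP f k) z) z :=
    ((jP_diff hf hne k).differentiableAt (isOpen_ball.mem_nhds hz)).hasDerivAt
  have h5 := h4.div_const (k.factorial : ℂ)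
  have hk : ((k.factorial : ℕ) : ℂ) ≠ 0 := Nat.cast_ne_zero.mpr k.factorial_ne_zero
  have hk1 : ((k : ℂ) + 1) ≠ 0 := Nat.cast_add_one_ne_zero k
  have h6 : ((k : ℂ) + 1) * (jP f (k + 1) z / ((k + 1).factorial : ℂ)) =
      deriv (jP f k) z / (k.factorial : ℂ) := by
    rw [h3, Nat.factorial_succ]
    push_cast
    field_simp
  rw [h6]
  exact h5

private theorem a3_X {R : ℝ} {f : ℂ → ℂ} (hf : DifferentiableOn ℂ f (ball 0 R))
    (hne : ∀ z ∈ ball (0 : ℂ) R, deriv f z ≠ 0) (m : List ℕ) {z : ℂ} (hz : z ∈ ball (0 : ℂ) R) :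
    HasDerivAt (fun z => X (fun k => jP f k z / (k.factorial : ℂ)) m)
      (dX (fun k => jP f k z / (k.factorial : ℂ)) m) z := by
  induction m with
  | nil =>
    simp only [X, dX, List.map_nil, List.prod_nil]
    exact hasDerivAt_const z (1 : ℂ)
  | cons k m ih =>
    have h1 := (a3_p hf hne k hz).mul ih
    have h2 : (fun z => X (fun k => jP f k z / (k.factorial : ℂ)) (k :: m)) =
        (fun z => jP f k z / (k.factorial : ℂ)) *
          (fun z => X (fun k => jP f k z / (k.factorial : ℂ)) m) := by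
      funext w
      simp only [X, List.map_cons, List.prod_cons, Pi.mul_apply]
    rw [h2]
    exact h1

private theorem a3_inv {R : ℝ} {f : ℂ → ℂ} (hf : DifferentiableOn ℂ f (ball 0 R))
    (hne : ∀ z ∈ ball (0 : ℂ) R, deriv f z ≠ 0) {z : ℂ} (hz : z ∈ ball (0 : ℂ) R) :
    HasDerivAt (fun z => (deriv f z)⁻¹)
      (-(jP f 0 z * (deriv f z)⁻¹)) z := by
  have h1 : DifferentiableOn ℂ (deriv f) (ball 0 R) := hf.deriv isOpen_ball
  have h2 : HasDerivAt (deriv f) (deriv (deriv f) z) z :=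
    (h1.differentiableAt (isOpen_ball.mem_nhds hz)).hasDerivAt
  have h3 := h2.inv (hne z hz)
  have h4 : jP f 0 z = deriv (deriv f) z / deriv f z := by
    unfold jP
    rw [iteratedDeriv_zero]
  have h5 : -(jP f 0 z * (deriv f z)⁻¹) = -deriv (deriv f) z / deriv f z ^ 2 := by
    rw [h4]
    have := hne z hz
    field_simp
  rw [h5]
  exact h3

private theorem a3_pow (w : ℕ) (z : ℂ) :
    HasDerivAt (fun z : ℂ => (-z) ^ w) ((w : ℂ) * (-z) ^ (w - 1) * (-1)) z := by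
  have h1 : HasDerivAt (fun z : ℂ => -z) (-1) z := (hasDerivAt_id z).neg
  exact h1.pow w

private theorem a3_H {R : ℝ} {f : ℂ → ℂ} (hf : DifferentiableOn ℂ f (ball 0 R))
    (hne : ∀ z ∈ ball (0 : ℂ) R, deriv f z ≠ 0) (m : List ℕ) {z : ℂ} (hz : z ∈ ball (0 : ℂ) R) :
    HasDerivAt (hH f m)
      ((((wt m : ℕ) : ℂ) * (-z) ^ (wt m - 1) * (-1) * (deriv f z)⁻¹ +
        (-z) ^ wt m * (-(jP f 0 z * (deriv f z)⁻¹))) *
          X (fun k => jP f k z / (k.factorial : ℂ)) m +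
        (-z) ^ wt m * (deriv f z)⁻¹ * dX (fun k => jP f k z / (k.factorial : ℂ)) m) z := by
  exact ((a3_pow (wt m) z).mul (a3_inv hf hne hz)).mul (a3_X hf hne m hz)

theorem hH_diff {R : ℝ} {f : ℂ → ℂ} (hf : DifferentiableOn ℂ f (ball 0 R))
    (hne : ∀ z ∈ ball (0 : ℂ) R, deriv f z ≠ 0) (m : List ℕ) :
    DifferentiableOn ℂ (hH f m) (ball 0 R) :=
  fun _ hz => (a3_H hf hne m hz).differentiableAt.differentiableWithinAt

theorem hH_deriv {R : ℝ} {f : ℂ → ℂ} (hf : DifferentiableOn ℂ f (ball 0 R))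
    (hne : ∀ z ∈ ball (0 : ℂ) R, deriv f z ≠ 0) (m : List ℕ) {z : ℂ} (hz : z ∈ ball (0 : ℂ) R) :
    z * deriv (hH f m) z = (wt m : ℂ) * hH f m z - hD f m z := by
  rw [(a3_H hf hne m hz).deriv]
  have h1 : z * (((wt m : ℕ) : ℂ) * (-z) ^ (wt m - 1) * (-1)) = ((wt m : ℕ) : ℂ) * (-z) ^ wt m := by
    rcases Nat.eq_zero_or_pos (wt m) with h | h
    · rw [h]
      simp
    · obtain ⟨w, hw⟩ : ∃ w, wt m = w + 1 := ⟨wt m - 1, by omega⟩
      rw [hw, Nat.add_sub_cancel, pow_succ]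
      ring
  have h2 : hD f m z = (-z) ^ wt m * (-z) * (deriv f z)⁻¹ *
      (-(jP f 0 z * X (fun k => jP f k z / (k.factorial : ℂ)) m) +
        dX (fun k => jP f k z / (k.factorial : ℂ)) m) := by
    unfold hD DX
    rw [pow_succ]
    simp only [Nat.factorial_zero, Nat.cast_one, div_one]
  rw [h2]
  unfold hH
  have h3 : z * ((((wt m : ℕ) : ℂ) * (-z) ^ (wt m - 1) * (-1) * (deriv f z)⁻¹ +
        (-z) ^ wt m * (-(jP f 0 z * (deriv f z)⁻¹))) *
          X (fun k => jP f k z / (k.factorial : ℂ)) m +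
        (-z) ^ wt m * (deriv f z)⁻¹ * dX (fun k => jP f k z / (k.factorial : ℂ)) m) =
      (z * (((wt m : ℕ) : ℂ) * (-z) ^ (wt m - 1) * (-1))) * (deriv f z)⁻¹ *
          X (fun k => jP f k z / (k.factorial : ℂ)) m +
        z * (-z) ^ wt m * (-(jP f 0 z * (deriv f z)⁻¹)) *
          X (fun k => jP f k z / (k.factorial : ℂ)) m +
        z * (-z) ^ wt m * (deriv f z)⁻¹ * dX (fun k => jP f k z / (k.factorial : ℂ)) m := by
    ring
  rw [h3, h1]
  ring

end Pool.Agent.H58.BJ
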