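import Pool.Agent.H58.BJ.Def

/-!
# Row BJ-A4: products of the functions `H_m`
-/

set_option autoImplicit false

namespace Pool.Agent.H58.BJ

open Complex Metric Set MeasureTheory
open scoped Real ComplexConjugate

private theorem a4_wt_cons (k : ℕ) (m : List ℕ) : wt (k :: m) = (k + 1) + wt m := by
  simp [wt]

private theorem a4_X_cons (η : ℕ → ℂ) (k : ℕ) (m : List ℕ) : X η (k :: m) = η k * X η m := by
  simp [X]

private theorem a4_X (a : ℂ) (p : ℕ → ℂ) (m : List ℕ) :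
    X (fun k => a ^ (k + 1) * p k) m = a ^ wt m * X p m := by
  induction m with
  | nil => simp [X, wt]
  | cons k m ih =>
    rw [a4_X_cons, a4_X_cons, ih, a4_wt_cons, pow_add]
    ring

private theorem a4_dX (a : ℂ) (p : ℕ → ℂ) (m : List ℕ) :
    dX (fun k => a ^ (k + 1) * p k) m = a ^ (wt m + 1) * dX p m := by
  induction m with
  | nil => simp [dX]
  | cons k m ih =>
    rw [dX, dX, ih, a4_X, a4_wt_cons]
    ring

private theorem a4_DX (a : ℂ) (p : ℕ → ℂ) (m : List ℕ) :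
    DX (fun k => a ^ (k + 1) * p k) m = a ^ (wt m + 1) * DX p m := by
  rw [DX, DX, a4_dX, a4_X]
  ring

private theorem a4_eta (f : ℂ → ℂ) (z : ℂ) :
    eta f z = fun k => (-z * ((1 - ‖z‖ ^ 2 : ℝ) : ℂ)) ^ (k + 1) *
      (jP f k z / (k.factorial : ℂ)) := by
  funext k
  rw [eta, neg_mul]

private theorem a4_qf (f : ℂ → ℂ) (z : ℂ) :
    ((qf f z : ℝ) : ℂ) = (deriv f z)⁻¹ * conj (deriv f z)⁻¹ := by
  rw [map_inv₀, ← mul_inv, Complex.mul_conj, Complex.normSq_eq_norm_sq, qf]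
  push_cast
  rfl

private theorem a4_ww (s : ℝ) {z : ℂ} (hz : ‖z‖ < 1) (i j : ℕ) :
    ww (s + i + j) z = ww s z * ((1 - ‖z‖ ^ 2) ^ i * (1 - ‖z‖ ^ 2) ^ j) := by
  have hw : 0 < 1 - ‖z‖ ^ 2 := by nlinarith [norm_nonneg z]
  rw [ww, ww, Real.rpow_add hw, Real.rpow_add hw, Real.rpow_natCast, Real.rpow_natCast]
  ring

private theorem a4_ww1 (s : ℝ) {z : ℂ} (hz : ‖z‖ < 1) (i j : ℕ) :
    ww (s + i + j + 1) z = ww s z * ((1 - ‖z‖ ^ 2) ^ (i + 1) * (1 - ‖z‖ ^ 2) ^ j) := by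
  rw [← a4_ww s hz (i + 1) j]
  congr 1
  push_cast
  ring

theorem hH_mul (f : ℂ → ℂ) (m n : List ℕ) (s : ℝ) {z : ℂ} (hz : ‖z‖ < 1) :
    ((qf f z * ww s z : ℝ) : ℂ) * (X (eta f z) m * conj (X (eta f z) n)) =
      hH f m z * conj (hH f n z) * ((ww (s + wt m + wt n) z : ℝ) : ℂ) := by
  rw [a4_eta, a4_X, a4_X, a4_ww s hz, hH, hH, Complex.ofReal_mul, a4_qf]
  simp only [map_mul, map_pow, Complex.conj_ofReal, Complex.ofReal_mul, Complex.ofReal_pow,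
    mul_pow]
  ring

theorem hD_mul (f : ℂ → ℂ) (m n : List ℕ) (s : ℝ) {z : ℂ} (hz : ‖z‖ < 1) :
    ((qf f z * ww s z : ℝ) : ℂ) * (DX (eta f z) m * conj (X (eta f z) n)) =
      hD f m z * conj (hH f n z) * ((ww (s + wt m + wt n + 1) z : ℝ) : ℂ) := by
  rw [a4_eta, a4_DX, a4_X, a4_ww1 s hz, hD, hH, Complex.ofReal_mul, a4_qf]
  simp only [map_mul, map_pow, Complex.conj_ofReal, Complex.ofReal_mul, Complex.ofReal_pow,
    mul_pow]
  ring

end Pool.Agent.H58.BJ
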