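import Pool.Agent.H58.BJ.Def

/-!
# Project BJ, row A2: integration by parts in the disc
-/

set_option autoImplicit false

namespace Pool.Agent.H58.BJ

open Complex Metric Set MeasureTheory
open scoped Real ComplexConjugate

theorem a2_mem {r : ℝ} (hr : r ∈ Icc (0 : ℝ) 1) (θ : ℝ) :
    circleMap 0 r θ ∈ closedBall (0 : ℂ) 1 := by
  rw [mem_closedBall_zero_iff, norm_circleMap_zero, abs_of_nonneg hr.1]
  exact hr.2

theorem a2_in {h : ℂ → ℂ} (hc : ContinuousOn h (closedBall 0 1)) {r : ℝ}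
    (hr : r ∈ Icc (0 : ℝ) 1) : Continuous fun θ => h (circleMap 0 r θ) :=
  hc.comp_continuous (continuous_circleMap 0 r) fun θ => a2_mem hr θ

theorem a2_out {h : ℂ → ℂ} (hc : ContinuousOn h (closedBall 0 1)) :
    ContinuousOn (fun r : ℝ => ∫ θ in (0 : ℝ)..(2 * π), h (circleMap 0 r θ)) (Icc 0 1) := by
  have h1 : Continuous (fun p : ℝ × ℝ => h (circleMap 0 (max 0 (min 1 p.1)) p.2)) := by
    refine hc.comp_continuous ?_ fun p => ?_
    · unfold circleMap
      fun_prop
    · exact a2_mem ⟨le_max_left _ _, max_le zero_le_one (min_le_left _ _)⟩ _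
  have h2 : Continuous fun r : ℝ =>
      ∫ θ in (0 : ℝ)..(2 * π), h (circleMap 0 (max 0 (min 1 r)) θ) :=
    intervalIntegral.continuous_parametric_intervalIntegral_of_continuous'
      (f := fun r θ => h (circleMap 0 (max 0 (min 1 r)) θ)) h1 _ _
  refine h2.continuousOn.congr fun r hr => ?_
  simp only [min_eq_right hr.2, max_eq_right hr.1]

theorem a2_ww (s r θ : ℝ) : ww s (circleMap 0 r θ) = (1 - r ^ 2) ^ s := by
  unfold ww
  rw [norm_circleMap_zero, sq_abs]

theorem a2_AI (h : ℂ → ℂ) (s : ℝ) :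
    AI (fun z => h z * ((ww s z : ℝ) : ℂ)) =
      ∫ r in (0 : ℝ)..1, (r : ℂ) * (∫ θ in (0 : ℝ)..(2 * π), h (circleMap 0 r θ)) *
        (((1 - r ^ 2) ^ s : ℝ) : ℂ) := by
  unfold AI
  refine intervalIntegral.integral_congr fun r _ => ?_
  show r • _ = _
  simp only [a2_ww]
  rw [intervalIntegral.integral_mul_const, Complex.real_smul]
  ring

/-- derivative in the radial direction -/
theorem a2_rad {R : ℝ} {H : ℂ → ℂ} (hH : DifferentiableOn ℂ H (ball 0 R)) {r : ℝ} (θ : ℝ)
    (hr : circleMap 0 r θ ∈ ball (0 : ℂ) R) :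
    HasDerivAt (fun r : ℝ => H (circleMap 0 r θ))
      (deriv H (circleMap 0 r θ) * exp (θ * I)) r := by
  have h1 : HasDerivAt H (deriv H (circleMap 0 r θ)) (circleMap 0 r θ) :=
    (hH.differentiableAt (isOpen_ball.mem_nhds hr)).hasDerivAt
  have h2 : HasDerivAt (fun r : ℝ => circleMap 0 r θ) (exp (θ * I)) r := by
    have h3 : HasDerivAt (fun r : ℝ => (r : ℂ) * exp (θ * I)) (1 * exp (θ * I)) r :=
      (Complex.ofRealCLM.hasDerivAt (x := r)).mul_const _
    rw [one_mul] at h3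
    refine h3.congr_of_eventuallyEq (Filter.Eventually.of_forall fun x => ?_)
    simp [circleMap]
  exact h1.comp r h2

/-- derivative in the angular direction -/
theorem a2_ang {R : ℝ} {H : ℂ → ℂ} (hH : DifferentiableOn ℂ H (ball 0 R)) {r : ℝ} (θ : ℝ)
    (hr : circleMap 0 r θ ∈ ball (0 : ℂ) R) :
    HasDerivAt (fun θ : ℝ => H (circleMap 0 r θ))
      (deriv H (circleMap 0 r θ) * (circleMap 0 r θ * I)) θ := by
  have h1 : HasDerivAt H (deriv H (circleMap 0 r θ)) (circleMap 0 r θ) :=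
    (hH.differentiableAt (isOpen_ball.mem_nhds hr)).hasDerivAt
  exact h1.comp θ (hasDerivAt_circleMap 0 r θ)

theorem a2_conj {f : ℝ → ℂ} {f' : ℂ} {x : ℝ} (h : HasDerivAt f f' x) :
    HasDerivAt (fun t => conj (f t)) (conj f') x := by
  have := (Complex.conjCLE.toContinuousLinearMap.hasFDerivAt (x := f x)).comp_hasDerivAt x h
  exact this

section

variable {R : ℝ} (hR : 1 < R) {H K : ℂ → ℂ} (hH : DifferentiableOn ℂ H (ball 0 R))
    (hK : DifferentiableOn ℂ K (ball 0 R))

include hR hH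

theorem a2_cc : ContinuousOn H (closedBall 0 1) :=
  hH.continuousOn.mono (closedBall_subset_ball hR)

theorem a2_cd : ContinuousOn (deriv H) (closedBall 0 1) :=
  (hH.deriv isOpen_ball).continuousOn.mono (closedBall_subset_ball hR)

include hK

/-- the two angular integrals agree -/
theorem a2_swap {r : ℝ} (hr : r ∈ Icc (0 : ℝ) 1) :
    ∫ θ in (0 : ℝ)..(2 * π), (circleMap 0 r θ * deriv H (circleMap 0 r θ) *
        conj (K (circleMap 0 r θ))) =
      ∫ θ in (0 : ℝ)..(2 * π), (H (circleMap 0 r θ) *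
        conj (circleMap 0 r θ * deriv K (circleMap 0 r θ))) := by
  have hHc := a2_cc hR hH
  have hKc := a2_cc hR hK
  have hHd := a2_cd hR hH
  have hKd := a2_cd hR hK
  have c1 : Continuous fun θ => circleMap 0 r θ * deriv H (circleMap 0 r θ) *
      conj (K (circleMap 0 r θ)) :=
    ((continuous_circleMap 0 r).mul (a2_in hHd hr)).mul (continuous_conj.comp (a2_in hKc hr))
  have c2 : Continuous fun θ => H (circleMap 0 r θ) *
      conj (circleMap 0 r θ * deriv K (circleMap 0 r θ)) :=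
    (a2_in hHc hr).mul (continuous_conj.comp ((continuous_circleMap 0 r).mul (a2_in hKd hr)))
  have hd : ∀ θ : ℝ, HasDerivAt (fun θ : ℝ => H (circleMap 0 r θ) * conj (K (circleMap 0 r θ)))
      (I * (circleMap 0 r θ * deriv H (circleMap 0 r θ) * conj (K (circleMap 0 r θ)) -
        H (circleMap 0 r θ) * conj (circleMap 0 r θ * deriv K (circleMap 0 r θ)))) θ := by
    intro θ
    have hm : circleMap 0 r θ ∈ ball (0 : ℂ) R := closedBall_subset_ball hR (a2_mem hr θ)
    refine ((a2_ang hH θ hm).mul (a2_conj (a2_ang hK θ hm))).congr_deriv ?_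
    simp only [map_mul, Complex.conj_I]
    ring
  have h0 := intervalIntegral.integral_eq_sub_of_hasDerivAt (a := 0) (b := 2 * π)
    (fun θ _ => hd θ) ((continuous_const.mul (c1.sub c2)).intervalIntegrable _ _)
  have h1 : circleMap 0 r (2 * π) = circleMap 0 r 0 := by
    have := periodic_circleMap 0 r 0
    rwa [zero_add] at this
  rw [h1, sub_self, intervalIntegral.integral_const_mul,
    intervalIntegral.integral_sub (c1.intervalIntegrable _ _) (c2.intervalIntegrable _ _)] at h0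
  rcases mul_eq_zero.1 h0 with h | h
  · exact absurd h I_ne_zero
  · exact sub_eq_zero.1 h

/-- radial derivative of the angular integral -/
theorem a2_deriv {r : ℝ} (hr : r ∈ Ioo (0 : ℝ) 1) :
    ∃ A' : ℂ, HasDerivAt (fun r : ℝ => ∫ θ in (0 : ℝ)..(2 * π),
        H (circleMap 0 r θ) * conj (K (circleMap 0 r θ))) A' r ∧
      (r : ℂ) * A' = 2 * ∫ θ in (0 : ℝ)..(2 * π), (circleMap 0 r θ * deriv H (circleMap 0 r θ) *
        conj (K (circleMap 0 r θ))) := by
  have hHc := a2_cc hR hH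
  have hKc := a2_cc hR hK
  have hHd := a2_cd hR hH
  have hKd := a2_cd hR hK
  have hcpt : IsCompact (closedBall (0 : ℂ) 1) := isCompact_closedBall 0 1
  obtain ⟨C1, hC1⟩ := hcpt.exists_bound_of_continuousOn hHc
  obtain ⟨C2, hC2⟩ := hcpt.exists_bound_of_continuousOn hKc
  obtain ⟨C3, hC3⟩ := hcpt.exists_bound_of_continuousOn hHd
  obtain ⟨C4, hC4⟩ := hcpt.exists_bound_of_continuousOn hKd
  have hr' : r ∈ Icc (0 : ℝ) 1 := ⟨hr.1.le, hr.2.le⟩
  have hexp : Continuous fun θ : ℝ => exp (θ * I) := by fun_prop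
  have cF : ∀ x ∈ Icc (0 : ℝ) 1, Continuous fun θ => H (circleMap 0 x θ) *
      conj (K (circleMap 0 x θ)) := fun x hx =>
    (a2_in hHc hx).mul (continuous_conj.comp (a2_in hKc hx))
  have c1 : Continuous fun θ => circleMap 0 r θ * deriv H (circleMap 0 r θ) *
      conj (K (circleMap 0 r θ)) :=
    ((continuous_circleMap 0 r).mul (a2_in hHd hr')).mul (continuous_conj.comp (a2_in hKc hr'))
  have c2 : Continuous fun θ => H (circleMap 0 r θ) *
      conj (circleMap 0 r θ * deriv K (circleMap 0 r θ)) :=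
    (a2_in hHc hr').mul (continuous_conj.comp ((continuous_circleMap 0 r).mul (a2_in hKd hr')))
  have cF' : Continuous fun θ : ℝ => deriv H (circleMap 0 r θ) * exp (θ * I) *
      conj (K (circleMap 0 r θ)) + H (circleMap 0 r θ) *
        conj (deriv K (circleMap 0 r θ) * exp (θ * I)) :=
    (((a2_in hHd hr').mul hexp).mul (continuous_conj.comp (a2_in hKc hr'))).add
      ((a2_in hHc hr').mul (continuous_conj.comp ((a2_in hKd hr').mul hexp)))
  have key := intervalIntegral.hasDerivAt_integral_of_dominated_loc_of_deriv_le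
    (μ := volume) (a := 0) (b := 2 * π) (x₀ := r) (s := Ioo (0 : ℝ) 1)
    (F := fun x θ => H (circleMap 0 x θ) * conj (K (circleMap 0 x θ)))
    (F' := fun x θ => deriv H (circleMap 0 x θ) * exp (θ * I) *
      conj (K (circleMap 0 x θ)) + H (circleMap 0 x θ) *
        conj (deriv K (circleMap 0 x θ) * exp (θ * I)))
    (bound := fun _ => C3 * C2 + C1 * C4)
    (isOpen_Ioo.mem_nhds hr)
    (Filter.eventually_of_mem (isOpen_Ioo.mem_nhds hr) fun x hx =>
      (cF x ⟨hx.1.le, hx.2.le⟩).aestronglyMeasurable)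
    ((cF r hr').intervalIntegrable _ _)
    cF'.aestronglyMeasurable
    (Filter.Eventually.of_forall fun θ _ x hx => by
      have hm := a2_mem (r := x) ⟨hx.1.le, hx.2.le⟩ θ
      have he : ‖exp (θ * I)‖ = 1 := norm_exp_ofReal_mul_I θ
      have p1 := hC1 _ hm
      have p2 := hC2 _ hm
      have p3 := hC3 _ hm
      have p4 := hC4 _ hm
      refine (norm_add_le _ _).trans (add_le_add ?_ ?_)
      · rw [norm_mul, norm_mul, he, mul_one, Complex.norm_conj]
        exact mul_le_mul p3 p2 (norm_nonneg _) ((norm_nonneg _).trans p3)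
      · rw [norm_mul, Complex.norm_conj, norm_mul, he, mul_one]
        exact mul_le_mul p1 p4 (norm_nonneg _) ((norm_nonneg _).trans p1))
    intervalIntegrable_const
    (Filter.Eventually.of_forall fun θ _ x hx => by
      have hm : circleMap 0 x θ ∈ ball (0 : ℂ) R :=
        closedBall_subset_ball hR (a2_mem (r := x) ⟨hx.1.le, hx.2.le⟩ θ)
      exact (a2_rad hH θ hm).mul (a2_conj (a2_rad hK θ hm)))
  refine ⟨_, key.2, ?_⟩
  rw [← intervalIntegral.integral_const_mul]
  have h1 : ∀ θ : ℝ, (r : ℂ) * (deriv H (circleMap 0 r θ) * exp (θ * I) *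
      conj (K (circleMap 0 r θ)) + H (circleMap 0 r θ) *
        conj (deriv K (circleMap 0 r θ) * exp (θ * I))) =
      circleMap 0 r θ * deriv H (circleMap 0 r θ) * conj (K (circleMap 0 r θ)) +
        H (circleMap 0 r θ) * conj (circleMap 0 r θ * deriv K (circleMap 0 r θ)) := by
    intro θ
    have hz : circleMap 0 r θ = (r : ℂ) * exp (θ * I) := by simp [circleMap]
    have hz' : conj (circleMap 0 r θ) = (r : ℂ) * conj (exp (θ * I)) := by
      rw [hz, map_mul, Complex.conj_ofReal]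
    rw [map_mul, map_mul (starRingEnd ℂ) (circleMap 0 r θ), hz']
    generalize deriv H (circleMap 0 r θ) = a
    generalize deriv K (circleMap 0 r θ) = b
    generalize H (circleMap 0 r θ) = c
    generalize K (circleMap 0 r θ) = d
    rw [hz]
    ring
  simp only [h1]
  rw [intervalIntegral.integral_add (c1.intervalIntegrable _ _) (c2.intervalIntegrable _ _),
    ← a2_swap hR hH hK hr']
  ring

end

theorem ibp {R : ℝ} (hR : 1 < R) {H K : ℂ → ℂ} (hH : DifferentiableOn ℂ H (ball 0 R))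
    (hK : DifferentiableOn ℂ K (ball 0 R)) {s : ℝ} (hs : 0 < s) :
    AI (fun z => z * deriv H z * conj (K z) * ((ww (s + 1) z : ℝ) : ℂ)) =
      ((s + 1 : ℝ) : ℂ) * AI (fun z => H z * conj (K z) * ((ww s z : ℝ) : ℂ)) -
        ((s + 2 : ℝ) : ℂ) * AI (fun z => H z * conj (K z) * ((ww (s + 1) z : ℝ) : ℂ)) := by
  have hHc := a2_cc hR hH
  have hKc := a2_cc hR hK
  have hHd := a2_cd hR hH
  rw [a2_AI (fun z => z * deriv H z * conj (K z)), a2_AI (fun z => H z * conj (K z)),
    a2_AI (fun z => H z * conj (K z))]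
  set A : ℝ → ℂ := fun r => ∫ θ in (0 : ℝ)..(2 * π), H (circleMap 0 r θ) *
    conj (K (circleMap 0 r θ)) with hA
  set B : ℝ → ℂ := fun r => ∫ θ in (0 : ℝ)..(2 * π), (circleMap 0 r θ *
    deriv H (circleMap 0 r θ) * conj (K (circleMap 0 r θ))) with hB
  have cA : ContinuousOn A (Icc 0 1) :=
    a2_out (h := fun z => H z * conj (K z)) (hHc.mul (continuous_conj.comp_continuousOn hKc))
  have cB : ContinuousOn B (Icc 0 1) :=
    a2_out (h := fun z => z * deriv H z * conj (K z))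
      ((continuousOn_id.mul hHd).mul (continuous_conj.comp_continuousOn hKc))
  have cW : ∀ t : ℝ, 0 < t → Continuous fun r : ℝ => ((1 - r ^ 2) ^ t : ℝ) := fun t ht =>
    (continuous_const.sub (continuous_pow 2)).rpow_const fun _ => Or.inr ht.le
  have cWC : ∀ t : ℝ, 0 < t → ContinuousOn (fun r : ℝ => (((1 - r ^ 2) ^ t : ℝ) : ℂ)) (Icc 0 1) :=
    fun t ht => (Complex.continuous_ofReal.comp (cW t ht)).continuousOn
  have cr : ContinuousOn (fun r : ℝ => (r : ℂ)) (Icc 0 1) :=
    Complex.continuous_ofReal.continuousOn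
  have i1 : IntervalIntegrable (fun r : ℝ => (r : ℂ) * B r * (((1 - r ^ 2) ^ (s + 1) : ℝ) : ℂ))
      volume 0 1 := by
    refine ContinuousOn.intervalIntegrable ?_
    rw [uIcc_of_le zero_le_one]
    exact (cr.mul cB).mul (cWC _ (by linarith))
  have i2 : IntervalIntegrable (fun r : ℝ => (r : ℂ) * A r * (((1 - r ^ 2) ^ s : ℝ) : ℂ))
      volume 0 1 := by
    refine ContinuousOn.intervalIntegrable ?_
    rw [uIcc_of_le zero_le_one]
    exact (cr.mul cA).mul (cWC _ hs)
  have i3 : IntervalIntegrable (fun r : ℝ => (r : ℂ) * A r * (((1 - r ^ 2) ^ (s + 1) : ℝ) : ℂ))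
      volume 0 1 := by
    refine ContinuousOn.intervalIntegrable ?_
    rw [uIcc_of_le zero_le_one]
    exact (cr.mul cA).mul (cWC _ (by linarith))
  -- the primitive
  have cg : ContinuousOn (fun r : ℝ => (r : ℂ) ^ 2 * A r * (((1 - r ^ 2) ^ (s + 1) : ℝ) : ℂ))
      (Icc 0 1) := ((cr.pow 2).mul cA).mul (cWC _ (by linarith))
  have dg : ∀ r ∈ Ioo (0 : ℝ) 1,
      HasDerivAt (fun r : ℝ => (r : ℂ) ^ 2 * A r * (((1 - r ^ 2) ^ (s + 1) : ℝ) : ℂ))
        (2 * ((r : ℂ) * B r * (((1 - r ^ 2) ^ (s + 1) : ℝ) : ℂ)) -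
          2 * ((s + 1 : ℝ) : ℂ) * ((r : ℂ) * A r * (((1 - r ^ 2) ^ s : ℝ) : ℂ)) +
          2 * ((s + 2 : ℝ) : ℂ) * ((r : ℂ) * A r * (((1 - r ^ 2) ^ (s + 1) : ℝ) : ℂ))) r := by
    intro r hr
    obtain ⟨A', hA', hrA⟩ := a2_deriv hR hH hK hr
    have hpos : 0 < 1 - r ^ 2 := by nlinarith [hr.1, hr.2]
    have d1 : HasDerivAt (fun r : ℝ => (r : ℂ) ^ 2) (2 * (r : ℂ)) r := by
      have h3 := (Complex.ofRealCLM.hasDerivAt (x := r)).pow 2
      refine h3.congr_deriv ?_
      simp
    have d2 : HasDerivAt (fun r : ℝ => (1 - r ^ 2 : ℝ) ^ (s + 1))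
        (-(2 * r) * (s + 1) * (1 - r ^ 2) ^ s) r := by
      have h4 : HasDerivAt (fun r : ℝ => 1 - r ^ 2) (-(2 * r)) r := by
        have h5 := ((hasDerivAt_id r).pow 2).const_sub 1
        refine h5.congr_deriv ?_
        simp
      have h6 := h4.rpow_const (p := s + 1) (Or.inl hpos.ne')
      refine h6.congr_deriv ?_
      rw [add_sub_cancel_right]
    have d3 := (d1.mul hA').mul d2.ofReal_comp
    refine d3.congr_deriv ?_
    have hW : (((1 - r ^ 2) ^ (s + 1) : ℝ) : ℂ) =
        (((1 - r ^ 2) ^ s : ℝ) : ℂ) * (1 - (r : ℂ) ^ 2) := by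
      rw [Real.rpow_add_one hpos.ne']
      push_cast
      ring
    change (2 * (r : ℂ) * A r + (r : ℂ) ^ 2 * A') * (((1 - r ^ 2) ^ (s + 1) : ℝ) : ℂ) +
      (r : ℂ) ^ 2 * A r * ((-(2 * r) * (s + 1) * (1 - r ^ 2) ^ s : ℝ) : ℂ) = _
    change (r : ℂ) * A' = 2 * B r at hrA
    rw [hW]
    push_cast
    generalize ((((1 - r ^ 2) ^ s : ℝ)) : ℂ) = W
    linear_combination (r : ℂ) * W * (1 - (r : ℂ) ^ 2) * hrA
  have i4 := ((i1.const_mul 2).sub (i2.const_mul (2 * ((s + 1 : ℝ) : ℂ)))).add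
    (i3.const_mul (2 * ((s + 2 : ℝ) : ℂ)))
  have h0 := intervalIntegral.integral_eq_sub_of_hasDerivAt_of_le zero_le_one cg dg i4
  rw [intervalIntegral.integral_add ((i1.const_mul 2).sub (i2.const_mul (2 * ((s + 1 : ℝ) : ℂ))))
      (i3.const_mul (2 * ((s + 2 : ℝ) : ℂ))),
    intervalIntegral.integral_sub (i1.const_mul 2) (i2.const_mul (2 * ((s + 1 : ℝ) : ℂ))),
    intervalIntegral.integral_const_mul, intervalIntegral.integral_const_mul,
    intervalIntegral.integral_const_mul] at h0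
  have h1 : ((1 - (1 : ℝ) ^ 2) ^ (s + 1) : ℝ) = 0 := by
    rw [one_pow, sub_self, Real.zero_rpow (by linarith)]
  rw [h1] at h0
  simp only [Complex.ofReal_zero, mul_zero, ne_eq, OfNat.ofNat_ne_zero, not_false_eq_true,
    zero_pow, zero_mul, sub_zero] at h0
  linear_combination (1 / 2 : ℂ) * h0

end Pool.Agent.H58.BJ
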