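import Pool.Agent.H58.BJ.AI
import Pool.Agent.H58.BJ.Ibp
import Pool.Agent.H58.BJ.Hm
import Pool.Agent.H58.BJ.Hmul
import Pool.Agent.H58.BJ.Cont

/-!
# Row BJ-A5: the jets identity
-/

set_option autoImplicit false

namespace Pool.Agent.H58.BJ

open Complex Metric Set MeasureTheory
open scoped Real ComplexConjugate

private theorem a5_wc {s : ℝ} (hs : 0 < s) :
    ContinuousOn (fun z : ℂ => ((ww s z : ℝ) : ℂ)) (closedBall 0 1) :=
  Complex.continuous_ofReal.comp_continuousOn (ww_cont hs)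

private theorem a5_hD {R : ℝ} {f : ℂ → ℂ} (hf : DifferentiableOn ℂ f (ball 0 R))
    (hne : ∀ z ∈ ball (0 : ℂ) R, deriv f z ≠ 0) (m : List ℕ) {z : ℂ} (hz : z ∈ ball (0 : ℂ) R) :
    hD f m z = (wt m : ℂ) * hH f m z - z * deriv (hH f m) z := by
  rw [hH_deriv hf hne m hz]
  ring

theorem jets_identity {R : ℝ} (hR : 1 < R) {f : ℂ → ℂ} (hf : DifferentiableOn ℂ f (ball 0 R))
    (hne : ∀ z ∈ ball (0 : ℂ) R, deriv f z ≠ 0) {β : ℝ} (hβ : 1 < β) (m n : List ℕ) :
    AI (fun z => ((qf f z * ww (β - 1) z : ℝ) : ℂ) * (DX (eta f z) m * conj (X (eta f z) n) +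
        (((wt m : ℝ) + wt n + β : ℝ) : ℂ) * (X (eta f z) m * conj (X (eta f z) n)))) =
      ((β + 1 + 2 * wt m + wt n : ℝ) : ℂ) *
        AI (fun z => ((qf f z * ww β z : ℝ) : ℂ) * (X (eta f z) m * conj (X (eta f z) n))) := by
  have hsub : closedBall (0 : ℂ) 1 ⊆ ball (0 : ℂ) R := closedBall_subset_ball hR
  set H : ℂ → ℂ := hH f m with hHdef
  set K : ℂ → ℂ := hH f n with hKdef
  have hHd : DifferentiableOn ℂ H (ball 0 R) := hH_diff hf hne m
  have hKd : DifferentiableOn ℂ K (ball 0 R) := hH_diff hf hne n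
  have hHc : ContinuousOn H (closedBall 0 1) := hHd.continuousOn.mono hsub
  have hKc : ContinuousOn K (closedBall 0 1) := hKd.continuousOn.mono hsub
  have hKc' : ContinuousOn (fun z => conj (K z)) (closedBall 0 1) :=
    Complex.continuous_conj.comp_continuousOn hKc
  have hDc : ContinuousOn (deriv H) (closedBall 0 1) :=
    (hHd.deriv isOpen_ball).continuousOn.mono hsub
  set s : ℝ := β - 1 + wt m + wt n with hsdef
  have hs : 0 < s := by
    have h1 : (0 : ℝ) ≤ (wt m : ℝ) := Nat.cast_nonneg _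
    have h2 : (0 : ℝ) ≤ (wt n : ℝ) := Nat.cast_nonneg _
    rw [hsdef]; linarith
  have hw1 := a5_wc (s := s + 1) (by linarith)
  have hw0 := a5_wc (s := s) hs
  -- the three integrands
  have hF1 : ContinuousOn (fun z => H z * conj (K z) * ((ww (s + 1) z : ℝ) : ℂ))
      (closedBall 0 1) := (hHc.mul hKc').mul hw1
  have hF0 : ContinuousOn (fun z => H z * conj (K z) * ((ww s z : ℝ) : ℂ))
      (closedBall 0 1) := (hHc.mul hKc').mul hw0
  have hF2 : ContinuousOn (fun z => z * deriv H z * conj (K z) * ((ww (s + 1) z : ℝ) : ℂ))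
      (closedBall 0 1) := (((continuousOn_id.mul hDc).mul hKc').mul hw1)
  have hR' : AI (fun z => ((qf f z * ww β z : ℝ) : ℂ) *
        (X (eta f z) m * conj (X (eta f z) n))) =
      AI (fun z => H z * conj (K z) * ((ww (s + 1) z : ℝ) : ℂ)) := by
    apply AI_congr
    intro z hz
    rw [hH_mul f m n β hz]
    have : β + wt m + wt n = s + 1 := by rw [hsdef]; ring
    rw [this]
  have hL : AI (fun z => ((qf f z * ww (β - 1) z : ℝ) : ℂ) *
        (DX (eta f z) m * conj (X (eta f z) n) +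
        (((wt m : ℝ) + wt n + β : ℝ) : ℂ) * (X (eta f z) m * conj (X (eta f z) n)))) =
      AI (fun z => (wt m : ℂ) * (H z * conj (K z) * ((ww (s + 1) z : ℝ) : ℂ)) +
        ((-1 : ℂ) * (z * deriv H z * conj (K z) * ((ww (s + 1) z : ℝ) : ℂ)) +
          ((s + 1 : ℝ) : ℂ) * (H z * conj (K z) * ((ww s z : ℝ) : ℂ)))) := by
    apply AI_congr
    intro z hz
    have hzR : z ∈ ball (0 : ℂ) R := hsub (by
      rw [mem_closedBall, dist_zero_right]; exact hz.le)
    have e1 := hD_mul f m n (β - 1) hz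
    have e2 := hH_mul f m n (β - 1) hz
    have e3 : (wt m : ℝ) + wt n + β = s + 1 := by rw [hsdef]; ring
    rw [← hsdef] at e1 e2
    rw [a5_hD hf hne m hzR] at e1
    rw [e3, mul_add, e1, mul_left_comm, e2]
    simp only [← hHdef, ← hKdef]
    ring
  have hb := ibp hR hHd hKd hs
  have k1 : ContinuousOn (fun z => (wt m : ℂ) * (H z * conj (K z) * ((ww (s + 1) z : ℝ) : ℂ)))
      (closedBall 0 1) := continuousOn_const.mul hF1
  have k2 : ContinuousOn (fun z => (-1 : ℂ) * (z * deriv H z * conj (K z) *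
      ((ww (s + 1) z : ℝ) : ℂ))) (closedBall 0 1) := continuousOn_const.mul hF2
  have k0 : ContinuousOn (fun z => ((s + 1 : ℝ) : ℂ) * (H z * conj (K z) *
      ((ww s z : ℝ) : ℂ))) (closedBall 0 1) := continuousOn_const.mul hF0
  have a1 := AI_add k1 (k2.add k0)
  have a2 := AI_add k2 k0
  simp only [Pi.add_apply] at a1
  have a2' : AI ((fun z => (-1 : ℂ) * (z * deriv H z * conj (K z) *
      ((ww (s + 1) z : ℝ) : ℂ))) + fun z => ((s + 1 : ℝ) : ℂ) * (H z * conj (K z) *
      ((ww s z : ℝ) : ℂ))) = _ := a2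
  rw [hR', hL, a1, a2', AI_smul, AI_smul, AI_smul, hb]
  rw [hsdef]
  push_cast
  ring

end Pool.Agent.H58.BJ
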