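import Pool.Agent.H58.BJ.Def
import Pool.Agent.H83.Lo.Gen
import Pool.Agent.H83.Lo.Inj

/-!
# Project BJ, row A20: properties of the Koebe transform and the square root
-/

set_option autoImplicit false

namespace Pool.Agent.H58.BJ

open Complex Metric Set MeasureTheory
open scoped Real ComplexConjugate

theorem a20_norm_sq (w : ℂ) : ‖w‖ ^ 2 = w.re ^ 2 + w.im ^ 2 := by
  rw [← Complex.normSq_eq_norm_sq, Complex.normSq_apply]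
  ring

/-- the denominator of the disc automorphism -/
theorem a20_den {z ζ : ℂ} (hz : ‖z‖ < 1) (hζ : ‖ζ‖ < 1) :
    1 - ((‖z‖ ^ 2 : ℝ) : ℂ) * ζ ≠ 0 := by
  intro h
  have h1 : ((‖z‖ ^ 2 : ℝ) : ℂ) * ζ = 1 := (sub_eq_zero.mp h).symm
  have h2 : ‖((‖z‖ ^ 2 : ℝ) : ℂ) * ζ‖ = 1 := by rw [h1, norm_one]
  rw [norm_mul, Complex.norm_real, Real.norm_eq_abs, abs_of_nonneg (sq_nonneg _)] at h2
  have h3 : ‖z‖ ^ 2 ≤ 1 := by nlinarith [norm_nonneg z]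
  nlinarith [norm_nonneg z, norm_nonneg ζ, sq_nonneg ‖z‖]

/-- the disc automorphism maps the disc into itself -/
theorem a20_mem {z ζ : ℂ} (hz : ‖z‖ < 1) (hζ : ‖ζ‖ < 1) :
    z * (1 - ζ) / (1 - ((‖z‖ ^ 2 : ℝ) : ℂ) * ζ) ∈ ball (0 : ℂ) 1 := by
  have hd := a20_den hz hζ
  rw [mem_ball_zero_iff, norm_div, div_lt_one (norm_pos_iff.2 hd)]
  set ρ : ℝ := ‖z‖ ^ 2 with hρ
  have hρ1 : ρ < 1 := by
    rw [hρ]
    nlinarith [norm_nonneg z]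
  have hρ0 : 0 ≤ ρ := sq_nonneg _
  have h1 : ‖z * (1 - ζ)‖ ^ 2 = ρ * ((1 - ζ.re) ^ 2 + ζ.im ^ 2) := by
    rw [norm_mul, mul_pow, a20_norm_sq (1 - ζ)]
    simp only [sub_re, one_re, sub_im, one_im]
    ring
  have h2 : ‖1 - ((ρ : ℝ) : ℂ) * ζ‖ ^ 2 = (1 - ρ * ζ.re) ^ 2 + (ρ * ζ.im) ^ 2 := by
    rw [a20_norm_sq]
    simp only [sub_re, one_re, sub_im, one_im, mul_re, mul_im, ofReal_re, ofReal_im]
    ring
  have h3 : ζ.re ^ 2 + ζ.im ^ 2 < 1 := by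
    rw [← a20_norm_sq]
    nlinarith [norm_nonneg ζ]
  have h4 : ‖z * (1 - ζ)‖ ^ 2 < ‖1 - ((ρ : ℝ) : ℂ) * ζ‖ ^ 2 := by
    rw [h1, h2]
    have h5 : (1 - ρ * ζ.re) ^ 2 + (ρ * ζ.im) ^ 2 - ρ * ((1 - ζ.re) ^ 2 + ζ.im ^ 2) =
        (1 - ρ) * (1 - ρ * (ζ.re ^ 2 + ζ.im ^ 2)) := by ring
    have h6 : 0 < (1 - ρ) * (1 - ρ * (ζ.re ^ 2 + ζ.im ^ 2)) := by
      apply mul_pos (by linarith)
      nlinarith [sq_nonneg ζ.re, sq_nonneg ζ.im]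
    linarith
  exact lt_of_pow_lt_pow_left₀ 2 (norm_nonneg _) h4

theorem a20_inj {z : ℂ} (hz : ‖z‖ < 1) (hz0 : z ≠ 0) :
    InjOn (fun ζ => z * (1 - ζ) / (1 - ((‖z‖ ^ 2 : ℝ) : ℂ) * ζ)) (ball (0 : ℂ) 1) := by
  intro a ha b hb hab
  rw [mem_ball_zero_iff] at ha hb
  simp only at hab
  rw [div_eq_div_iff (a20_den hz ha) (a20_den hz hb)] at hab
  have h1 : z * ((1 - ((‖z‖ ^ 2 : ℝ) : ℂ)) * (b - a)) = 0 := by linear_combination hab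
  have h2 : (1 - ((‖z‖ ^ 2 : ℝ) : ℂ)) ≠ 0 := by
    intro h
    have h3 : ((‖z‖ ^ 2 : ℝ) : ℂ) = ((1 : ℝ) : ℂ) := by
      rw [sub_eq_zero] at h
      rw [← h]
      norm_num
    have h4 : ‖z‖ ^ 2 = 1 := Complex.ofReal_injective h3
    nlinarith [norm_nonneg z]
  rcases mul_eq_zero.mp h1 with h3 | h3
  · exact absurd h3 hz0
  · rcases mul_eq_zero.mp h3 with h4 | h4
    · exact absurd h4 h2
    · exact (sub_eq_zero.mp h4).symm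

theorem a20_hasDeriv {z ζ : ℂ} (hz : ‖z‖ < 1) (hζ : ‖ζ‖ < 1) :
    HasDerivAt (fun ζ => z * (1 - ζ) / (1 - ((‖z‖ ^ 2 : ℝ) : ℂ) * ζ))
      ((z * (-1) * (1 - ((‖z‖ ^ 2 : ℝ) : ℂ) * ζ) -
        z * (1 - ζ) * (-(((‖z‖ ^ 2 : ℝ) : ℂ) * 1))) / (1 - ((‖z‖ ^ 2 : ℝ) : ℂ) * ζ) ^ 2) ζ := by
  have h1 : HasDerivAt (fun ζ : ℂ => z * (1 - ζ)) (z * (-1)) ζ :=
    ((hasDerivAt_id ζ).const_sub 1).const_mul z
  have h2 : HasDerivAt (fun ζ : ℂ => 1 - ((‖z‖ ^ 2 : ℝ) : ℂ) * ζ)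
      (-(((‖z‖ ^ 2 : ℝ) : ℂ) * 1)) ζ :=
    ((hasDerivAt_id ζ).const_mul _).const_sub 1
  exact h1.div h2 (a20_den hz hζ)

theorem kt_props {f : ℂ → ℂ} (hf : Univ f) {z : ℂ} (hz : ‖z‖ < 1) (hz0 : z ≠ 0) :
    Univ (Kt f z) ∧ Kt f z 0 = 0 ∧ deriv (Kt f z) 0 = 1 := by
  have hzb : z ∈ ball (0 : ℂ) 1 := mem_ball_zero_iff.2 hz
  have hdf : deriv f z ≠ 0 := Pool.Agent.H83.Lo.deriv_ne_zero isOpen_ball hf.1 hf.2 hzb
  have hw : ((1 - ‖z‖ ^ 2 : ℝ) : ℂ) ≠ 0 := by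
    have : (1 - ‖z‖ ^ 2 : ℝ) ≠ 0 := by nlinarith [norm_nonneg z]
    exact_mod_cast this
  have hden : -(z * ((1 - ‖z‖ ^ 2 : ℝ) : ℂ)) * deriv f z ≠ 0 :=
    mul_ne_zero (neg_ne_zero.2 (mul_ne_zero hz0 hw)) hdf
  refine ⟨⟨?_, ?_⟩, ?_, ?_⟩
  · intro ζ hζ
    have hζ' : ‖ζ‖ < 1 := mem_ball_zero_iff.1 hζ
    have h1 := (a20_hasDeriv hz hζ').differentiableAt
    have h2 : DifferentiableAt ℂ f (z * (1 - ζ) / (1 - ((‖z‖ ^ 2 : ℝ) : ℂ) * ζ)) :=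
      hf.1.differentiableAt (isOpen_ball.mem_nhds (a20_mem hz hζ'))
    have h3 : DifferentiableAt ℂ
        (fun ζ => f (z * (1 - ζ) / (1 - ((‖z‖ ^ 2 : ℝ) : ℂ) * ζ))) ζ :=
      DifferentiableAt.comp ζ h2 h1
    exact ((h3.sub_const _).div_const _).differentiableWithinAt
  · intro a ha b hb hab
    have ha' : ‖a‖ < 1 := mem_ball_zero_iff.1 ha
    have hb' : ‖b‖ < 1 := mem_ball_zero_iff.1 hb
    simp only [Kt] at hab
    rw [div_left_inj' hden] at hab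
    exact a20_inj hz hz0 ha hb (hf.2 (a20_mem hz ha') (a20_mem hz hb') (sub_left_inj.1 hab))
  · simp [Kt]
  · have h0 : ‖(0 : ℂ)‖ < 1 := by simp
    have h1 := a20_hasDeriv hz h0
    have e0 : z * (1 - 0) / (1 - ((‖z‖ ^ 2 : ℝ) : ℂ) * 0) = z := by simp
    have h2 : HasDerivAt f (deriv f z) (z * (1 - 0) / (1 - ((‖z‖ ^ 2 : ℝ) : ℂ) * 0)) := by
      rw [e0]
      exact (hf.1.differentiableAt (isOpen_ball.mem_nhds hzb)).hasDerivAt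
    have h3 := h2.comp (0 : ℂ) h1
    have h4 := ((h3.sub_const (f z)).div_const (-(z * ((1 - ‖z‖ ^ 2 : ℝ) : ℂ)) * deriv f z))
    have h5 : HasDerivAt (Kt f z) _ 0 := h4
    rw [h5.deriv, div_eq_one_iff_eq hden]
    push_cast
    ring

theorem root_exists {Φ : ℂ → ℂ} (hΦ : Univ Φ) (h0 : Φ 0 = 0) (h1 : deriv Φ 0 = 1) :
    ∃ u : ℂ → ℂ, DifferentiableOn ℂ u (ball 0 1) ∧ u 0 = 1 ∧ (∀ z ∈ ball (0 : ℂ) 1, u z ≠ 0) ∧
      ∀ z ∈ ball (0 : ℂ) 1, u z ^ 2 * Φ z = z := by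
  have hb0 : (0 : ℂ) ∈ ball (0 : ℂ) 1 := by simp
  have hg : DifferentiableOn ℂ (dslope Φ 0) (ball 0 1) :=
    (Complex.differentiableOn_dslope (isOpen_ball.mem_nhds hb0)).2 hΦ.1
  have hne : ∀ z ∈ ball (0 : ℂ) 1, dslope Φ 0 z ≠ 0 := by
    intro z hz
    rcases eq_or_ne z 0 with rfl | hz0
    · rw [dslope_same, h1]
      exact one_ne_zero
    · rw [dslope_of_ne _ hz0, slope_def_field, h0, sub_zero, sub_zero]
      refine div_ne_zero ?_ hz0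
      intro h
      exact hz0 (hΦ.2 hz hb0 (by rw [h, h0]))
  obtain ⟨L, hL, hLe⟩ := Pool.Agent.H83.Lo.exists_log_convex isOpen_ball (convex_ball _ _) hg hne
  have hL0 : Complex.exp (L 0) = 1 := by
    rw [hLe 0 hb0, dslope_same, h1]
  refine ⟨fun z => Complex.exp (-(L z - L 0) / 2), ?_, ?_, fun z _ => Complex.exp_ne_zero _, ?_⟩
  · intro z hz
    have h2 : DifferentiableAt ℂ L z := hL.differentiableAt (isOpen_ball.mem_nhds hz)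
    exact (((h2.sub_const _).neg.div_const _).cexp).differentiableWithinAt
  · simp
  · intro z hz
    have h2 : Complex.exp (-(L z - L 0) / 2) ^ 2 = (dslope Φ 0 z)⁻¹ := by
      rw [← Complex.exp_nat_mul]
      have e : ((2 : ℕ) : ℂ) * (-(L z - L 0) / 2) = -(L z) + L 0 := by
        push_cast
        ring
      rw [e, Complex.exp_add, hL0, mul_one, Complex.exp_neg, hLe z hz]
    simp only
    rw [h2]
    rcases eq_or_ne z 0 with rfl | hz0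
    · rw [h0, mul_zero]
    · have h3 : dslope Φ 0 z = Φ z / z := by
        rw [dslope_of_ne _ hz0, slope_def_field, h0, sub_zero, sub_zero]
      have h4 : Φ z ≠ 0 := by
        intro h
        exact hz0 (hΦ.2 hz hb0 (by rw [h, h0]))
      rw [h3, inv_div, div_mul_cancel₀ _ h4]

end Pool.Agent.H58.BJ
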