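import Pool.Agent.H58.BJ.Def

/-!
# Project BJ, row A8: the monomials and the form `G` are bounded and Lipschitz in the jets
-/

set_option autoImplicit false

namespace Pool.Agent.H58.BJ

open Complex Metric Set MeasureTheory
open scoped Real ComplexConjugate

/-- functions of finitely many jets which are bounded and Lipschitz on bounded sets -/
def a8_P (F : (ℕ → ℂ) → ℂ) : Prop :=
  ∃ K : ℕ, ∀ B : ℝ, ∃ L : ℝ, 0 ≤ L ∧ ∀ (η η' : ℕ → ℂ) (ε : ℝ),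
    (∀ k ≤ K, ‖η k‖ ≤ B ∧ ‖η' k‖ ≤ B ∧ ‖η k - η' k‖ ≤ ε) →
      ‖F η‖ ≤ L ∧ ‖F η - F η'‖ ≤ L * ε

theorem a8_const (c : ℂ) : a8_P (fun _ => c) := by
  refine ⟨0, fun B => ⟨‖c‖, norm_nonneg _, fun η η' ε h => ⟨le_rfl, ?_⟩⟩⟩
  have h1 : 0 ≤ ε := (norm_nonneg _).trans (h 0 le_rfl).2.2
  simpa using mul_nonneg (norm_nonneg c) h1

theorem a8_proj (k : ℕ) : a8_P (fun η => η k) := by
  refine ⟨k, fun B => ⟨max B 1, le_trans zero_le_one (le_max_right _ _),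
    fun η η' ε h => ⟨(h k le_rfl).1.trans (le_max_left _ _), ?_⟩⟩⟩
  have h1 : 0 ≤ ε := (norm_nonneg _).trans (h k le_rfl).2.2
  calc ‖η k - η' k‖ ≤ ε := (h k le_rfl).2.2
    _ = 1 * ε := (one_mul _).symm
    _ ≤ max B 1 * ε := mul_le_mul_of_nonneg_right (le_max_right _ _) h1

theorem a8_add {F F' : (ℕ → ℂ) → ℂ} (h : a8_P F) (h' : a8_P F') :
    a8_P (fun η => F η + F' η) := by
  obtain ⟨K, hK⟩ := h
  obtain ⟨K', hK'⟩ := h'
  refine ⟨max K K', fun B => ?_⟩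
  obtain ⟨L, hL, h1⟩ := hK B
  obtain ⟨L', hL', h1'⟩ := hK' B
  refine ⟨L + L', add_nonneg hL hL', fun η η' ε hη => ?_⟩
  obtain ⟨a1, a2⟩ := h1 η η' ε fun k hk => hη k (hk.trans (le_max_left _ _))
  obtain ⟨b1, b2⟩ := h1' η η' ε fun k hk => hη k (hk.trans (le_max_right _ _))
  refine ⟨(norm_add_le _ _).trans (add_le_add a1 b1), ?_⟩
  rw [show F η + F' η - (F η' + F' η') = (F η - F η') + (F' η - F' η') by ring, add_mul]
  exact (norm_add_le _ _).trans (add_le_add a2 b2)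

theorem a8_mul {F F' : (ℕ → ℂ) → ℂ} (h : a8_P F) (h' : a8_P F') :
    a8_P (fun η => F η * F' η) := by
  obtain ⟨K, hK⟩ := h
  obtain ⟨K', hK'⟩ := h'
  refine ⟨max K K', fun B => ?_⟩
  obtain ⟨L, hL, h1⟩ := hK B
  obtain ⟨L', hL', h1'⟩ := hK' B
  refine ⟨2 * (L * L'), by positivity, fun η η' ε hη => ?_⟩
  obtain ⟨a1, a2⟩ := h1 η η' ε fun k hk => hη k (hk.trans (le_max_left _ _))
  obtain ⟨b1, b2⟩ := h1' η η' ε fun k hk => hη k (hk.trans (le_max_right _ _))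
  obtain ⟨c1, -⟩ := h1' η' η ε fun k hk => by
    obtain ⟨x, y, z⟩ := hη k (hk.trans (le_max_right _ _))
    exact ⟨y, x, by rwa [norm_sub_rev]⟩
  have hε : 0 ≤ ε := (norm_nonneg _).trans (hη 0 (Nat.zero_le _)).2.2
  have hm : ‖F η‖ * ‖F' η‖ ≤ L * L' := mul_le_mul a1 b1 (norm_nonneg _) hL
  have hLL : 0 ≤ L * L' := mul_nonneg hL hL'
  refine ⟨by rw [norm_mul]; linarith, ?_⟩
  rw [show F η * F' η - F η' * F' η' = F η * (F' η - F' η') + (F η - F η') * F' η' by ring]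
  have e1 : ‖F η * (F' η - F' η')‖ ≤ L * (L' * ε) := by
    rw [norm_mul]
    exact mul_le_mul a1 b2 (norm_nonneg _) hL
  have e2 : ‖(F η - F η') * F' η'‖ ≤ L * ε * L' := by
    rw [norm_mul]
    exact mul_le_mul a2 c1 (norm_nonneg _) (mul_nonneg hL hε)
  calc _ ≤ L * (L' * ε) + L * ε * L' := (norm_add_le _ _).trans (add_le_add e1 e2)
    _ = 2 * (L * L') * ε := by ring

theorem a8_neg {F : (ℕ → ℂ) → ℂ} (h : a8_P F) : a8_P (fun η => -(F η)) := by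
  obtain ⟨K, hK⟩ := h
  refine ⟨K, fun B => ?_⟩
  obtain ⟨L, hL, h1⟩ := hK B
  refine ⟨L, hL, fun η η' ε hη => ?_⟩
  obtain ⟨a1, a2⟩ := h1 η η' ε hη
  refine ⟨by rwa [norm_neg], ?_⟩
  rwa [show -(F η) - -(F η') = -(F η - F η') by ring, norm_neg]

theorem a8_conj {F : (ℕ → ℂ) → ℂ} (h : a8_P F) : a8_P (fun η => conj (F η)) := by
  obtain ⟨K, hK⟩ := h
  refine ⟨K, fun B => ?_⟩
  obtain ⟨L, hL, h1⟩ := hK B
  refine ⟨L, hL, fun η η' ε hη => ?_⟩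
  obtain ⟨a1, a2⟩ := h1 η η' ε hη
  refine ⟨by rwa [RCLike.norm_conj], ?_⟩
  rwa [← map_sub, RCLike.norm_conj]

theorem a8_X (m : List ℕ) : a8_P (fun η => X η m) := by
  induction m with
  | nil => simpa [X] using a8_const 1
  | cons k m ih =>
    have h : (fun η : ℕ → ℂ => X η (k :: m)) = fun η => η k * X η m := by
      funext η; simp [X]
    rw [h]
    exact a8_mul (a8_proj k) ih

theorem a8_dX (m : List ℕ) : a8_P (fun η => dX η m) := by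
  induction m with
  | nil => exact a8_const 0
  | cons k m ih =>
    exact a8_add (a8_mul (a8_mul (a8_const _) (a8_proj (k + 1))) (a8_X m))
      (a8_mul (a8_proj k) ih)

theorem a8_DX (m : List ℕ) : a8_P (fun η => DX η m) :=
  a8_add (a8_neg (a8_mul (a8_proj 0) (a8_X m))) (a8_dX m)

theorem a8_G (β : ℝ) (μ : Mu) : a8_P (fun η => G β μ η) := by
  induction μ with
  | nil => simpa [G] using a8_const 0
  | cons t μ ih =>
    have h : (fun η : ℕ → ℂ => G β (t :: μ) η) = fun η =>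
        (t.2.2 : ℂ) * (DX η t.1 * conj (X η t.2.1) +
    (((wt t.1 : ℝ) + wt t.2.1 + β : ℝ) : ℂ) * (X η t.1 * conj (X η t.2.1))) + G β μ η := by
      funext η; simp [G]
    rw [h]
    exact a8_add (a8_mul (a8_const _) (a8_add (a8_mul (a8_DX _) (a8_conj (a8_X _)))
      (a8_mul (a8_const _) (a8_mul (a8_X _) (a8_conj (a8_X _)))))) ih

theorem X_lip (m : List ℕ) : ∃ K : ℕ, ∀ B : ℝ, ∃ L : ℝ, 0 ≤ L ∧ ∀ (η η' : ℕ → ℂ) (ε : ℝ),
    (∀ k ≤ K, ‖η k‖ ≤ B ∧ ‖η' k‖ ≤ B ∧ ‖η k - η' k‖ ≤ ε) →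
      ‖X η m‖ ≤ L ∧ ‖DX η m‖ ≤ L ∧ ‖X η m - X η' m‖ ≤ L * ε ∧ ‖DX η m - DX η' m‖ ≤ L * ε := by
  obtain ⟨K, hK⟩ := a8_X m
  obtain ⟨K', hK'⟩ := a8_DX m
  refine ⟨max K K', fun B => ?_⟩
  obtain ⟨L, hL, h1⟩ := hK B
  obtain ⟨L', hL', h1'⟩ := hK' B
  refine ⟨L + L', add_nonneg hL hL', fun η η' ε hη => ?_⟩
  obtain ⟨a1, a2⟩ := h1 η η' ε fun k hk => hη k (hk.trans (le_max_left _ _))
  obtain ⟨b1, b2⟩ := h1' η η' ε fun k hk => hη k (hk.trans (le_max_right _ _))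
  have hε : 0 ≤ ε := (norm_nonneg _).trans (hη 0 (Nat.zero_le _)).2.2
  have c1 : 0 ≤ L * ε := mul_nonneg hL hε
  have c2 : 0 ≤ L' * ε := mul_nonneg hL' hε
  refine ⟨by linarith, by linarith, ?_, ?_⟩
  · rw [add_mul]; linarith
  · rw [add_mul]; linarith

theorem G_lip (β : ℝ) (μ : Mu) : ∃ K : ℕ, ∀ B : ℝ, ∃ L : ℝ, 0 ≤ L ∧ ∀ (η η' : ℕ → ℂ) (ε : ℝ),
    (∀ k ≤ K, ‖η k‖ ≤ B ∧ ‖η' k‖ ≤ B ∧ ‖η k - η' k‖ ≤ ε) →
      ‖G β μ η‖ ≤ L ∧ ‖G β μ η - G β μ η'‖ ≤ L * ε := a8_G β μ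

end Pool.Agent.H58.BJ
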