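import Pool.Agent.H58.BJ.Def

/-!
# Project BJ, row A10: circle means
-/

set_option autoImplicit false

namespace Pool.Agent.H58.BJ

open Complex Metric Set MeasureTheory Filter
open scoped Real ComplexConjugate Topology

private lemma a10_summ (b : ℕ → ℂ) (M : ℝ) (hb : ∀ n, ‖b n‖ ≤ M) (z : ℂ) (hz : ‖z‖ < 1) :
    Summable (fun n => b n * z ^ n) := by
  apply Summable.of_norm_bounded (g := fun n => M * ‖z‖ ^ n)
  · exact (summable_geometric_of_lt_one (norm_nonneg _) hz).mul_left M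
  · intro n
    rw [norm_mul, norm_pow]
    gcongr
    exact hb n

private lemma a10_part (b : ℕ → ℂ) (M : ℝ) (hb : ∀ n, ‖b n‖ ≤ M) (r : ℝ) (hr0 : 0 ≤ r)
    (hr1 : r < 1) (z : ℂ) (hz : ‖z‖ ≤ r) (N : ℕ) :
    ‖∑ n ∈ Finset.range N, b n * z ^ n‖ ≤ M * (1 - r)⁻¹ := by
  have hM : 0 ≤ M := le_trans (norm_nonneg _) (hb 0)
  calc ‖∑ n ∈ Finset.range N, b n * z ^ n‖ ≤ ∑ n ∈ Finset.range N, ‖b n * z ^ n‖ := norm_sum_le _ _
    _ ≤ ∑ n ∈ Finset.range N, M * r ^ n := by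
        apply Finset.sum_le_sum
        intro n _
        rw [norm_mul, norm_pow]
        gcongr
        exact hb n
    _ = M * ∑ n ∈ Finset.range N, r ^ n := by rw [Finset.mul_sum]
    _ ≤ M * (1 - r)⁻¹ := by
        gcongr
        rw [← tsum_geometric_of_lt_one hr0 hr1]
        exact (summable_geometric_of_lt_one hr0 hr1).sum_le_tsum _ (fun i _ => by positivity)

private lemma a10_pp (b : ℕ → ℂ) (r : ℝ) (hr0 : 0 ≤ r) (N : ℕ) :
    ∑ n ∈ Finset.range N, ‖b n‖ ^ 2 * r ^ (2 * n) =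
      Real.circleAverage (fun z => ‖∑ n ∈ Finset.range N, b n * (r * z) ^ n‖ ^ 2) 0 1 := by
  set p : Polynomial ℂ := ∑ n ∈ Finset.range N, Polynomial.monomial n (b n * r ^ n) with hp
  have h1 := p.sum_sq_norm_coeff_eq_circleAverage
  have h2 : (fun z : ℂ => ‖p.eval z‖ ^ 2)
      = fun z : ℂ => ‖∑ n ∈ Finset.range N, b n * (r * z) ^ n‖ ^ 2 := by
    funext z
    rw [hp, Polynomial.eval_finsetSum]
    congr 2
    apply Finset.sum_congr rfl
    intro n _
    rw [Polynomial.eval_monomial, mul_pow]; ring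
  rw [h2] at h1
  rw [← h1]
  have hcoeff : ∀ i, p.coeff i = if i < N then b i * r ^ i else 0 := by
    intro i
    rw [hp, Polynomial.finsetSum_coeff]
    simp [Polynomial.coeff_monomial]
  have h3 : ∑ i ∈ p.support, ‖p.coeff i‖ ^ 2 = ∑ i ∈ Finset.range N, ‖p.coeff i‖ ^ 2 := by
    apply Finset.sum_subset
    · intro i hi
      rw [Polynomial.mem_support_iff, hcoeff] at hi
      simp only [ne_eq, ite_eq_right_iff, Classical.not_imp] at hi
      simpa using hi.1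
    · intro i _ hi
      rw [Polynomial.notMem_support_iff] at hi
      rw [hi]; simp
  rw [h3]
  apply Finset.sum_congr rfl
  intro i hi
  rw [hcoeff, if_pos (by simpa using hi), norm_mul, norm_pow, Complex.norm_real,
    Real.norm_of_nonneg hr0, mul_pow, ← pow_mul, mul_comm i 2]

private lemma a10_pt (b : ℕ → ℂ) (M : ℝ) (hb : ∀ n, ‖b n‖ ≤ M) (r : ℝ) (hr0 : 0 ≤ r)
    (hr1 : r < 1) :
    Tendsto (fun N => ∑ n ∈ Finset.range N, ‖b n‖ ^ 2 * r ^ (2 * n)) atTop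
      (𝓝 (Real.circleAverage (fun z => ‖∑' n, b n * (r * z) ^ n‖ ^ 2) 0 1)) := by
  have hM : 0 ≤ M := le_trans (norm_nonneg _) (hb 0)
  have h0 : (fun N => ∑ n ∈ Finset.range N, ‖b n‖ ^ 2 * r ^ (2 * n)) = fun N =>
      Real.circleAverage (fun z => ‖∑ n ∈ Finset.range N, b n * (r * z) ^ n‖ ^ 2) 0 1 := by
    funext N; exact a10_pp b r hr0 N
  rw [h0]
  simp only [Real.circleAverage_def]
  apply Tendsto.const_smul
  have hnorm : ∀ θ : ℝ, ‖(r : ℂ) * circleMap 0 1 θ‖ = r := by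
    intro θ
    rw [norm_mul, Complex.norm_real, Real.norm_of_nonneg hr0, norm_circleMap_zero]
    simp
  apply intervalIntegral.tendsto_integral_filter_of_dominated_convergence
    (fun _ => (M * (1 - r)⁻¹) ^ 2)
  · refine Eventually.of_forall (fun N => ?_)
    apply Continuous.aestronglyMeasurable
    have : Continuous (circleMap 0 1) := continuous_circleMap 0 1
    fun_prop
  · refine Eventually.of_forall (fun N => ?_)
    refine Eventually.of_forall (fun θ _ => ?_)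
    rw [norm_pow, norm_norm]
    have h1 := a10_part b M hb r hr0 hr1 (r * circleMap 0 1 θ) (hnorm θ).le N
    gcongr
  · exact intervalIntegrable_const
  · refine Eventually.of_forall (fun θ _ => ?_)
    have h1 := (a10_summ b M hb (r * circleMap 0 1 θ)
      (by rw [hnorm]; exact hr1)).hasSum.tendsto_sum_nat
    exact (h1.norm.pow 2)

/-- Taylor coefficients with a bound -/
private lemma a10_ser {R : ℝ} {g : ℂ → ℂ} (hg : DifferentiableOn ℂ g (ball 0 R)) {T : ℝ}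
    (hT : 0 < T) (hTR : T < R) : ∃ (b : ℕ → ℂ) (M : ℝ), (∀ n, ‖b n‖ ≤ M) ∧
      ∀ z : ℂ, ‖z‖ < 1 → g (T * z) = ∑' n, b n * z ^ n := by
  obtain ⟨T', rfl⟩ : ∃ T' : NNReal, (T' : ℝ) = T := ⟨⟨T, hT.le⟩, rfl⟩
  have hd : DifferentiableOn ℂ g (closedBall 0 (T' : ℝ)) :=
    hg.mono (closedBall_subset_ball hTR)
  have hps := DifferentiableOn.hasFPowerSeriesOnBall (R := T') hd hT
  refine ⟨fun n => (cauchyPowerSeries g 0 (T' : ℝ)).coeff n * ((T' : ℝ) : ℂ) ^ n,
    (2 * π)⁻¹ * ∫ θ in (0 : ℝ)..2 * π, ‖g (circleMap 0 (T' : ℝ) θ)‖, ?_, ?_⟩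
  · intro n
    rw [norm_mul, norm_pow, Complex.norm_real, Real.norm_of_nonneg hT.le]
    have h1 := norm_cauchyPowerSeries_le g 0 (T' : ℝ) n
    rw [abs_of_pos hT] at h1
    have h2 : ‖(cauchyPowerSeries g 0 (T' : ℝ)).coeff n‖ ≤ ‖cauchyPowerSeries g 0 (T' : ℝ) n‖ := by
      rw [FormalMultilinearSeries.norm_apply_eq_norm_coef]
    have h3 : (T' : ℝ)⁻¹ ^ n * (T' : ℝ) ^ n = 1 := by
      rw [← mul_pow, inv_mul_cancel₀ hT.ne', one_pow]
    calc ‖(cauchyPowerSeries g 0 (T' : ℝ)).coeff n‖ * (T' : ℝ) ^ n ≤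
        (((2 * π)⁻¹ * ∫ θ in (0 : ℝ)..2 * π, ‖g (circleMap 0 (T' : ℝ) θ)‖) * (T' : ℝ)⁻¹ ^ n) *
          (T' : ℝ) ^ n := by
          gcongr
          exact h2.trans h1
      _ = _ := by rw [mul_assoc, h3, mul_one]
  · intro z hz
    have hmem : ((T' : ℝ) : ℂ) * z ∈ Metric.eball (0 : ℂ) (T' : ENNReal) := by
      rw [Metric.eball_coe, mem_ball_zero_iff, norm_mul, Complex.norm_real,
        Real.norm_of_nonneg hT.le]
      nlinarith
    have h1 := (hps.hasSum hmem).tsum_eq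
    rw [zero_add] at h1
    rw [← h1]
    refine tsum_congr fun n => ?_
    rw [FormalMultilinearSeries.apply_eq_pow_smul_coeff, smul_eq_mul, mul_pow]
    ring

theorem mean_mono {R : ℝ} {g : ℂ → ℂ} (hg : DifferentiableOn ℂ g (ball 0 R)) {r s : ℝ}
    (hr : 0 ≤ r) (hrs : r ≤ s) (hs : s < R) :
    ∫ θ in (0 : ℝ)..(2 * π), ‖g (circleMap 0 r θ)‖ ^ 2 ≤
      ∫ θ in (0 : ℝ)..(2 * π), ‖g (circleMap 0 s θ)‖ ^ 2 := by
  obtain ⟨T, hsT, hTR⟩ := exists_between hs
  have hT : 0 < T := lt_of_le_of_lt (hr.trans hrs) hsT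
  obtain ⟨b, M, hb, hser⟩ := a10_ser hg hT hTR
  have key : ∀ ρ : ℝ, 0 ≤ ρ → ρ < T → Tendsto
      (fun N => ∑ n ∈ Finset.range N, ‖b n‖ ^ 2 * (ρ / T) ^ (2 * n)) atTop
      (𝓝 ((2 * π)⁻¹ * ∫ θ in (0 : ℝ)..(2 * π), ‖g (circleMap 0 ρ θ)‖ ^ 2)) := by
    intro ρ h0 h1
    have h2 := a10_pt b M hb (ρ / T) (by positivity) ((div_lt_one hT).2 h1)
    have h3 : Real.circleAverage (fun z => ‖∑' n, b n * (((ρ / T : ℝ) : ℂ) * z) ^ n‖ ^ 2) 0 1 =
        (2 * π)⁻¹ * ∫ θ in (0 : ℝ)..(2 * π), ‖g (circleMap 0 ρ θ)‖ ^ 2 := by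
      rw [Real.circleAverage_def, smul_eq_mul]
      congr 1
      refine intervalIntegral.integral_congr fun θ _ => ?_
      have h4 : ‖((ρ / T : ℝ) : ℂ) * circleMap 0 1 θ‖ < 1 := by
        rw [norm_mul, Complex.norm_real, norm_circleMap_zero, Real.norm_of_nonneg (by positivity),
          abs_one, mul_one]
        exact (div_lt_one hT).2 h1
      have h5 := hser _ h4
      rw [← h5]
      congr 3
      rw [circleMap_zero, circleMap_zero]
      have hTc : (T : ℂ) ≠ 0 := by exact_mod_cast hT.ne'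
      push_cast
      field_simp
    rw [h3] at h2
    exact h2
  have h1 := key r hr (lt_of_le_of_lt hrs hsT)
  have h2 := key s (hr.trans hrs) hsT
  have h3 := le_of_tendsto_of_tendsto' h1 h2 (fun N => by
    refine Finset.sum_le_sum fun n _ => ?_
    gcongr)
  have hpi : 0 < (2 * π)⁻¹ := by positivity
  exact le_of_mul_le_mul_left h3 hpi

theorem mean_le {R : ℝ} (hR : 1 < R) {f : ℂ → ℂ} (hf : DifferentiableOn ℂ f (ball 0 R))
    (hne : ∀ z ∈ ball (0 : ℂ) R, deriv f z ≠ 0) {β : ℝ} (hβ : 1 < β) {r : ℝ} (hr : 0 < r)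
    (hr1 : r < 1) :
    (∫ θ in (0 : ℝ)..(2 * π), qf f (circleMap 0 r θ)) * (1 - r) ^ β ≤
      2 * β * AI (fun z => qf f z * ww (β - 1) z) := by
  have hdf : DifferentiableOn ℂ (deriv f) (ball 0 R) := hf.deriv isOpen_ball
  have hg : DifferentiableOn ℂ (fun z => (deriv f z)⁻¹) (ball 0 R) := hdf.inv hne
  set Mf : ℝ → ℝ := fun ρ => ∫ θ in (0 : ℝ)..(2 * π), qf f (circleMap 0 ρ θ) with hMf
  have hq : ∀ z, qf f z = ‖(deriv f z)⁻¹‖ ^ 2 := by
    intro z
    unfold qf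
    rw [norm_inv, inv_pow]
  have hmono : ∀ ρ σ : ℝ, 0 ≤ ρ → ρ ≤ σ → σ ≤ 1 → Mf ρ ≤ Mf σ := by
    intro ρ σ h0 h1 h2
    have := mean_mono hg h0 h1 (lt_of_le_of_lt h2 hR)
    simp only [hMf, hq]
    exact this
  have hM0 : ∀ ρ, 0 ≤ Mf ρ := by
    intro ρ
    refine intervalIntegral.integral_nonneg (by positivity) fun θ _ => ?_
    rw [hq]; positivity
  set W : ℝ → ℝ := fun ρ => ρ * (1 - ρ ^ 2) ^ (β - 1) with hW
  have hWc : Continuous W := by
    refine continuous_id.mul (Continuous.rpow_const (by fun_prop) fun x => Or.inr (by linarith))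
  have hAI : AI (fun z => qf f z * ww (β - 1) z) = ∫ ρ in (0 : ℝ)..1, W ρ * Mf ρ := by
    unfold AI
    refine intervalIntegral.integral_congr fun ρ hρ => ?_
    rw [uIcc_of_le zero_le_one] at hρ
    have h1 : ∀ θ : ℝ, qf f (circleMap 0 ρ θ) * ww (β - 1) (circleMap 0 ρ θ) =
        (1 - ρ ^ 2) ^ (β - 1) * qf f (circleMap 0 ρ θ) := by
      intro θ
      unfold ww
      rw [norm_circleMap_zero, sq_abs, mul_comm]
    simp only [h1, smul_eq_mul, hW, hMf]
    rw [intervalIntegral.integral_const_mul]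
    ring
  have hint : ∀ a b : ℝ, 0 ≤ a → a ≤ b → b ≤ 1 →
      IntervalIntegrable (fun ρ => W ρ * Mf ρ) volume a b := by
    intro a b h0 hab h1
    have hm : MonotoneOn Mf (uIcc a b) := by
      rw [uIcc_of_le hab]
      intro x hx y hy hxy
      exact hmono x y (h0.trans hx.1) hxy (hy.2.trans h1)
    exact hm.intervalIntegrable.continuousOn_mul hWc.continuousOn
  have hsplit := intervalIntegral.integral_add_adjacent_intervals
    (hint 0 r le_rfl hr.le hr1.le) (hint r 1 hr.le hr1.le le_rfl)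
  have hW0 : ∀ ρ, 0 ≤ ρ → ρ ≤ 1 → 0 ≤ W ρ := by
    intro ρ h0 h1
    have : 0 ≤ 1 - ρ ^ 2 := by nlinarith
    exact mul_nonneg h0 (Real.rpow_nonneg this _)
  have hfirst : 0 ≤ ∫ ρ in (0 : ℝ)..r, W ρ * Mf ρ := by
    refine intervalIntegral.integral_nonneg hr.le fun ρ hρ => ?_
    exact mul_nonneg (hW0 ρ hρ.1 (hρ.2.trans hr1.le)) (hM0 ρ)
  have hsec : (∫ ρ in r..1, W ρ) * Mf r ≤ ∫ ρ in r..1, W ρ * Mf ρ := by
    rw [← intervalIntegral.integral_mul_const]
    refine intervalIntegral.integral_mono_on hr1.le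
      ((hWc.mul continuous_const).intervalIntegrable _ _) (hint r 1 hr.le hr1.le le_rfl) ?_
    intro ρ hρ
    exact mul_le_mul_of_nonneg_left (hmono r ρ hr.le hρ.1 hρ.2) (hW0 ρ (hr.le.trans hρ.1) hρ.2)
  have hFTC : ∫ ρ in r..1, W ρ = (1 - r ^ 2) ^ β / (2 * β) := by
    have hder : ∀ ρ ∈ uIcc r 1, HasDerivAt (fun ρ : ℝ => -((1 - ρ ^ 2) ^ β / (2 * β))) (W ρ) ρ := by
      intro ρ _
      have h1 : HasDerivAt (fun ρ : ℝ => 1 - ρ ^ 2) (-(2 * ρ)) ρ := by
        have := (hasDerivAt_pow 2 ρ).const_sub 1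
        simpa using this
      have h2 := (h1.rpow_const (p := β) (Or.inr hβ.le)).div_const (2 * β)
      refine h2.neg.congr_deriv ?_
      simp only [hW]
      have : β ≠ 0 := by linarith
      field_simp
    rw [intervalIntegral.integral_eq_sub_of_hasDerivAt hder (hWc.intervalIntegrable _ _)]
    have : (1 : ℝ) - 1 ^ 2 = 0 := by norm_num
    rw [this, Real.zero_rpow (by linarith)]
    ring
  have hpow : (1 - r) ^ β ≤ (1 - r ^ 2) ^ β := by
    refine Real.rpow_le_rpow (by linarith) (by nlinarith) (by linarith)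
  have hb0 : 0 < 2 * β := by linarith
  have hfin : Mf r * (1 - r) ^ β ≤ 2 * β * ((∫ ρ in r..1, W ρ) * Mf r) := by
    rw [hFTC]
    have : 2 * β * ((1 - r ^ 2) ^ β / (2 * β) * Mf r) = Mf r * (1 - r ^ 2) ^ β := by
      field_simp
    rw [this]
    exact mul_le_mul_of_nonneg_left hpow (hM0 r)
  rw [hAI, ← hsplit]
  refine hfin.trans ?_
  refine mul_le_mul_of_nonneg_left ?_ hb0.le
  linarith

end Pool.Agent.H58.BJ
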