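import Pool.Agent.H58.BJ.Def

/-!
# Project BJ, row A17: Taylor coefficients of products and derivatives
-/

set_option autoImplicit false

namespace Pool.Agent.H58.BJ

open Complex Metric Set MeasureTheory
open scoped Real ComplexConjugate

private theorem a17_cda {F : ℂ → ℂ} (hF : DifferentiableOn ℂ F (ball 0 1)) (n : ℕ) :
    ContDiffAt ℂ n F 0 := by
  have h0 : ball (0 : ℂ) 1 ∈ nhds (0 : ℂ) := isOpen_ball.mem_nhds (mem_ball_self one_pos)
  exact (hF.analyticAt h0).contDiffAt

theorem co_mul {F H : ℂ → ℂ} (hF : DifferentiableOn ℂ F (ball 0 1))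
    (hH : DifferentiableOn ℂ H (ball 0 1)) (n : ℕ) :
    co (fun z => F z * H z) n = ∑ i ∈ Finset.range (n + 1), co F i * co H (n - i) := by
  unfold co
  rw [iteratedDeriv_fun_mul (a17_cda hF n) (a17_cda hH n), Finset.sum_div]
  refine Finset.sum_congr rfl fun i hi => ?_
  have hin : i ≤ n := Nat.lt_succ_iff.mp (Finset.mem_range.mp hi)
  rw [Nat.cast_choose ℂ hin]
  have h1 : (n.factorial : ℂ) ≠ 0 := by exact_mod_cast Nat.factorial_ne_zero n
  have h2 : (i.factorial : ℂ) ≠ 0 := by exact_mod_cast Nat.factorial_ne_zero i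
  have h3 : ((n - i).factorial : ℂ) ≠ 0 := by exact_mod_cast Nat.factorial_ne_zero (n - i)
  field_simp

theorem co_deriv (F : ℂ → ℂ) (n : ℕ) : co (deriv F) n = ((n : ℂ) + 1) * co F (n + 1) := by
  unfold co
  rw [iteratedDeriv_succ', Nat.factorial_succ]
  have h1 : (n.factorial : ℂ) ≠ 0 := by exact_mod_cast Nat.factorial_ne_zero n
  have h2 : ((n : ℂ) + 1) ≠ 0 := by exact_mod_cast Nat.succ_ne_zero n
  push_cast
  field_simp

theorem co_id_mul {F : ℂ → ℂ} (hF : DifferentiableOn ℂ F (ball 0 1)) (n : ℕ) :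
    co (fun z => z * F z) (n + 1) = co F n ∧ co (fun z => z * F z) 0 = 0 := by
  have hid : DifferentiableOn ℂ (fun z : ℂ => z) (ball 0 1) := differentiableOn_id
  have hc0 : co (fun z : ℂ => z) 0 = 0 := by
    simp [co]
  have hc1 : co (fun z : ℂ => z) 1 = 1 := by
    have h1 : deriv (fun z : ℂ => z) 0 = 1 := (hasDerivAt_id (0 : ℂ)).deriv
    simp [co, iteratedDeriv_one, h1]
  have hc2 : ∀ k : ℕ, co (fun z : ℂ => z) (k + 2) = 0 := by
    intro k
    have h1 : deriv (fun z : ℂ => z) = fun _ => 1 := deriv_id'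
    simp [co, iteratedDeriv_succ', h1]
  constructor
  · rw [co_mul hid hF]
    rw [Finset.sum_eq_single 1]
    · rw [hc1, one_mul, Nat.add_sub_cancel]
    · intro i _ hi
      rcases i with _ | _ | i
      · rw [hc0, zero_mul]
      · exact absurd rfl hi
      · rw [hc2, zero_mul]
    · intro h
      exact absurd (Finset.mem_range.mpr (by omega)) h
  · simp [co]

end Pool.Agent.H58.BJ
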