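import Pool.Agent.H58.BJ.Def
import Pool.Agent.H58.BJ.Co

/-!
# Project BJ, row A18: the relation between the coefficients of `u` and those of `Φ''/Φ'`
-/

set_option autoImplicit false

namespace Pool.Agent.H58.BJ

open Complex Metric Set MeasureTheory
open scoped Real ComplexConjugate

private theorem a18_congr {F H : ℂ → ℂ} (h : ∀ z ∈ ball (0 : ℂ) 1, F z = H z) (n : ℕ) :
    co F n = co H n := by
  have h0 : ball (0 : ℂ) 1 ∈ nhds (0 : ℂ) := isOpen_ball.mem_nhds (mem_ball_self one_pos)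
  have h1 : F =ᶠ[nhds 0] H := Filter.eventuallyEq_of_mem h0 h
  unfold co
  rw [h1.iteratedDeriv_eq]

private theorem a18_cda {F : ℂ → ℂ} (hF : DifferentiableOn ℂ F (ball 0 1)) (n : ℕ) :
    ContDiffAt ℂ n F 0 := by
  have h0 : ball (0 : ℂ) 1 ∈ nhds (0 : ℂ) := isOpen_ball.mem_nhds (mem_ball_self one_pos)
  exact (hF.analyticAt h0).contDiffAt

private theorem a18_add {F H : ℂ → ℂ} (hF : DifferentiableOn ℂ F (ball 0 1))
    (hH : DifferentiableOn ℂ H (ball 0 1)) (n : ℕ) :
    co (fun z => F z + H z) n = co F n + co H n := by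
  unfold co
  rw [iteratedDeriv_fun_add (a18_cda hF n) (a18_cda hH n), add_div]

private theorem a18_smul {F : ℂ → ℂ} (hF : DifferentiableOn ℂ F (ball 0 1)) (c : ℂ) (n : ℕ) :
    co (fun z => c * F z) n = c * co F n := by
  have hc : DifferentiableOn ℂ (fun _ : ℂ => c) (ball 0 1) := differentiableOn_const c
  rw [co_mul hc hF, Finset.sum_eq_single 0]
  · simp [co]
  · intro i _ hi
    obtain ⟨k, rfl⟩ := Nat.exists_eq_succ_of_ne_zero hi
    have : co (fun _ : ℂ => c) (k + 1) = 0 := by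
      simp [co, iteratedDeriv_const]
    rw [Nat.succ_eq_add_one, this, zero_mul]
  · intro h
    exact absurd (Finset.mem_range.mpr (Nat.succ_pos n)) h

private theorem a18_deriv {F : ℂ → ℂ} (hF : DifferentiableOn ℂ F (ball 0 1)) :
    DifferentiableOn ℂ (deriv F) (ball 0 1) := hF.deriv isOpen_ball

theorem relR {Φ u : ℂ → ℂ} (hΦ : DifferentiableOn ℂ Φ (ball 0 1))
    (hu : DifferentiableOn ℂ u (ball 0 1)) (hrel : ∀ z ∈ ball (0 : ℂ) 1, u z ^ 2 * Φ z = z)
    (hd : ∀ z ∈ ball (0 : ℂ) 1, deriv Φ z ≠ 0) (hne : ∀ z ∈ ball (0 : ℂ) 1, u z ≠ 0) :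
    RelR (co u) (co (fun z => deriv (deriv Φ) z / deriv Φ z)) := by
  have hu' := a18_deriv hu
  have hΦ' := a18_deriv hΦ
  have hΦ'' := a18_deriv hΦ'
  have hzu' : DifferentiableOn ℂ (fun z => z * deriv u z) (ball 0 1) :=
    differentiableOn_id.mul hu'
  set v : ℂ → ℂ := fun z => u z + (-2) * (z * deriv u z) with hv
  have hvd : DifferentiableOn ℂ v (ball 0 1) := hu.add (hzu'.const_mul _)
  have hvd' := a18_deriv hvd
  set R : ℂ → ℂ := fun z => deriv (deriv Φ) z / deriv Φ z with hR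
  have hRd : DifferentiableOn ℂ R (ball 0 1) := hΦ''.div hΦ' hd
  -- coefficients of v
  have hcv : ∀ n, co v n = vv (co u) n := by
    intro n
    rw [hv, a18_add hu (hzu'.const_mul _), a18_smul hzu']
    unfold vv
    rcases n with _ | n
    · rw [(co_id_mul hu' 0).2]
      push_cast
      ring
    · rw [(co_id_mul hu' n).1, co_deriv]
      push_cast
      ring
  -- first identity
  have hnb : ∀ {z : ℂ}, z ∈ ball (0 : ℂ) 1 → ball (0 : ℂ) 1 ∈ nhds z :=
    fun hz => isOpen_ball.mem_nhds hz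
  have h1 : ∀ z ∈ ball (0 : ℂ) 1, u z ^ 3 * deriv Φ z = v z := by
    intro z hz
    have a1 : HasDerivAt u (deriv u z) z := (hu.differentiableAt (hnb hz)).hasDerivAt
    have a2 : HasDerivAt Φ (deriv Φ z) z := (hΦ.differentiableAt (hnb hz)).hasDerivAt
    have a3 : HasDerivAt (fun z => u z ^ 2 * Φ z)
        ((2 : ℕ) * u z ^ (2 - 1) * deriv u z * Φ z + u z ^ 2 * deriv Φ z) z := (a1.pow 2).mul a2
    have a4 : HasDerivAt (fun z : ℂ => z) 1 z := hasDerivAt_id z
    have a5 : (fun z => u z ^ 2 * Φ z) =ᶠ[nhds z] fun z => z :=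
      Filter.eventuallyEq_of_mem (hnb hz) hrel
    have a6 := a3.unique (a4.congr_of_eventuallyEq a5)
    have a7 := hrel z hz
    simp only [hv]
    push_cast at a6
    linear_combination u z * a6 - 2 * deriv u z * a7
  have h2 : ∀ z ∈ ball (0 : ℂ) 1, R z * (u z * v z) =
      (-3) * (deriv u z * v z) + u z * deriv v z := by
    intro z hz
    have a1 : HasDerivAt u (deriv u z) z := (hu.differentiableAt (hnb hz)).hasDerivAt
    have a2 : HasDerivAt (deriv Φ) (deriv (deriv Φ) z) z :=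
      (hΦ'.differentiableAt (hnb hz)).hasDerivAt
    have a3 : HasDerivAt (fun z => u z ^ 3 * deriv Φ z)
        ((3 : ℕ) * u z ^ (3 - 1) * deriv u z * deriv Φ z + u z ^ 3 * deriv (deriv Φ) z) z :=
      (a1.pow 3).mul a2
    have a4 : HasDerivAt v (deriv v z) z := (hvd.differentiableAt (hnb hz)).hasDerivAt
    have a5 : (fun z => u z ^ 3 * deriv Φ z) =ᶠ[nhds z] v :=
      Filter.eventuallyEq_of_mem (hnb hz) h1
    have a6 := a3.unique (a4.congr_of_eventuallyEq a5)
    have a7 := h1 z hz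
    have a8 : R z * deriv Φ z = deriv (deriv Φ) z := by
      rw [hR]
      exact div_mul_cancel₀ _ (hd z hz)
    push_cast at a6
    rw [← a7, ← a6]
    rw [← a8]
    ring
  -- coefficients
  have g1 : DifferentiableOn ℂ (fun z => u z * v z) (ball 0 1) := hu.mul hvd
  have g2 : DifferentiableOn ℂ (fun z => deriv u z * v z) (ball 0 1) := hu'.mul hvd
  have g3 : DifferentiableOn ℂ (fun z => u z * deriv v z) (ball 0 1) := hu.mul hvd'
  have g4 : DifferentiableOn ℂ (fun z => (-3) * (deriv u z * v z)) (ball 0 1) := g2.const_mul _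
  intro n
  have e1 : co (fun z => R z * (u z * v z)) n =
      ∑ k ∈ Finset.range (n + 1), co R k *
        ∑ i ∈ Finset.range (n - k + 1), co u i * vv (co u) (n - k - i) := by
    rw [co_mul hRd g1]
    refine Finset.sum_congr rfl fun k _ => ?_
    rw [co_mul hu hvd]
    simp only [hcv]
  have e2 : co (fun z => (-3) * (deriv u z * v z) + u z * deriv v z) n =
      ∑ i ∈ Finset.range (n + 1), (-3 * ((i : ℂ) + 1) * co u (i + 1) * vv (co u) (n - i) +
        (((n - i : ℕ) : ℂ) + 1) * co u i * vv (co u) (n - i + 1)) := by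
    rw [a18_add g4 g3, a18_smul g2,
      co_mul hu' hvd, co_mul hu hvd', Finset.mul_sum, ← Finset.sum_add_distrib]
    refine Finset.sum_congr rfl fun i _ => ?_
    rw [co_deriv, co_deriv, hcv, hcv]
    ring
  rw [← e1, ← e2]
  exact a18_congr h2 n

end Pool.Agent.H58.BJ
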