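import Pool.Agent.H58.BJ.Def
import Pool.Agent.H58.BJ.Hm

/-!
# Row BJ-A19: the coefficients of `Φ''/Φ'` for the Koebe transform and the jets
-/

set_option autoImplicit false

namespace Pool.Agent.H58.BJ

open Complex Metric Set MeasureTheory Filter
open scoped Real ComplexConjugate Topology

/-- the Möbius map of the Koebe transform -/
private noncomputable def a19_A (z ρ ζ : ℂ) : ℂ := z * (1 - ζ) / (1 - ρ * ζ)

private theorem a19_A_deriv {z ρ ζ : ℂ} (h : 1 - ρ * ζ ≠ 0) :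
    HasDerivAt (a19_A z ρ) (-(z * (1 - ρ)) * ((1 - ρ * ζ)⁻¹) ^ 2) ζ := by
  have h1 : HasDerivAt (fun ζ : ℂ => z * (1 - ζ)) (z * (-1)) ζ := by
    have := ((hasDerivAt_id ζ).const_sub 1).const_mul z
    simpa using this
  have h2 : HasDerivAt (fun ζ : ℂ => 1 - ρ * ζ) (-ρ) ζ := by
    have := ((hasDerivAt_id ζ).const_mul ρ).const_sub 1
    simpa using this
  have h3 := h1.fun_div h2 h
  refine h3.congr_deriv ?_
  field_simp
  ring

private theorem a19_psi {ρ ζ : ℂ} (h : 1 - ρ * ζ ≠ 0) (m : ℕ) :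
    HasDerivAt (fun ζ : ℂ => ((1 - ρ * ζ)⁻¹) ^ m) ((m : ℂ) * ρ * ((1 - ρ * ζ)⁻¹) ^ (m + 1)) ζ := by
  have h2 : HasDerivAt (fun ζ : ℂ => 1 - ρ * ζ) (-ρ) ζ := by
    have := ((hasDerivAt_id ζ).const_mul ρ).const_sub 1
    simpa using this
  have h3 := (h2.fun_inv h).fun_pow m
  refine h3.congr_deriv ?_
  have e : -(-ρ) / (1 - ρ * ζ) ^ 2 = ρ * ((1 - ρ * ζ)⁻¹) ^ 2 := by
    rw [neg_neg, div_eq_mul_inv, inv_pow]
  rw [e]
  rcases m with _ | m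
  · simp
  · rw [Nat.add_sub_cancel]
    ring

/-- the neighbourhood on which everything is fine -/
private theorem a19_ev {z ρ : ℂ} (hz : ‖z‖ < 1) :
    ∀ᶠ ζ : ℂ in 𝓝 0, 1 - ρ * ζ ≠ 0 ∧ a19_A z ρ ζ ∈ ball (0 : ℂ) 1 := by
  have h1 : ContinuousAt (fun ζ : ℂ => 1 - ρ * ζ) 0 := by fun_prop
  have h2 : ∀ᶠ ζ : ℂ in 𝓝 0, 1 - ρ * ζ ≠ 0 := h1.eventually_ne (by simp)
  have h3 : ContinuousAt (a19_A z ρ) 0 := (a19_A_deriv (by simp)).continuousAt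
  have h4 : ∀ᶠ ζ : ℂ in 𝓝 0, a19_A z ρ ζ ∈ ball (0 : ℂ) 1 := by
    refine h3.eventually (isOpen_ball.mem_nhds ?_)
    simpa [a19_A] using hz
  exact h2.and h4

/-- the coefficients -/
private noncomputable def a19_a (n k : ℕ) : ℂ :=
  (n.factorial : ℂ) / (k.factorial : ℂ) * ((n + 1).choose (k + 1) : ℂ)

private theorem a19_a_zero (n : ℕ) : a19_a (n + 1) 0 = ((n : ℂ) + 2) * a19_a n 0 := by
  unfold a19_a
  simp only [zero_add, Nat.choose_one_right, Nat.factorial_zero, Nat.factorial_succ]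
  push_cast
  ring

private theorem a19_a_top (n : ℕ) : a19_a n (n + 1) = 0 := by
  unfold a19_a
  rw [Nat.choose_succ_self]
  simp

private theorem a19_a_succ (n k : ℕ) (hk : k ≤ n) :
    a19_a (n + 1) (k + 1) = a19_a n k + ((n : ℂ) + 3 + k) * a19_a n (k + 1) := by
  unfold a19_a
  have h1 : ((n + 1 + 1).choose (k + 1 + 1) : ℂ) =
      ((n + 1).choose (k + 1) : ℂ) + ((n + 1).choose (k + 2) : ℂ) := by
    rw [Nat.choose_succ_succ]
    push_cast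
    rfl
  have h2 : ((n + 1).choose (k + 1 + 1) : ℂ) * ((k : ℂ) + 2) =
      ((n + 1).choose (k + 1) : ℂ) * ((n : ℂ) - k) := by
    have h3 := Nat.choose_succ_right_eq (n + 1) (k + 1)
    have h4 : n + 1 - (k + 1) = n - k := by omega
    rw [h4] at h3
    have h5 : (((n + 1).choose (k + 1 + 1) * (k + 1 + 1) : ℕ) : ℂ) =
      (((n + 1).choose (k + 1) * (n - k) : ℕ) : ℂ) := by rw [h3]
    push_cast [Nat.cast_sub hk] at h5
    rw [← h5]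
    ring
  have hf : ((k.factorial : ℕ) : ℂ) ≠ 0 := by exact_mod_cast k.factorial_ne_zero
  have hk1 : ((k : ℂ) + 1) ≠ 0 := by exact_mod_cast k.succ_ne_zero
  rw [h1, Nat.factorial_succ k, Nat.factorial_succ n]
  push_cast
  have e2 : ((n + 1).choose (k + 2) : ℂ) = ((n + 1).choose (k + 1 + 1) : ℂ) := rfl
  rw [e2]
  field_simp
  linear_combination (-(n.factorial : ℂ)) * h2

/-- the formula for the `n`-th derivative -/
private noncomputable def a19_F (f : ℂ → ℂ) (z ρ : ℂ) (n : ℕ) (ζ : ℂ) : ℂ :=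
  (n.factorial : ℂ) * 2 * ρ ^ (n + 1) * ((1 - ρ * ζ)⁻¹) ^ (n + 1) +
    ∑ k ∈ Finset.range (n + 1), a19_a n k * ρ ^ (n - k) * (-(z * (1 - ρ))) ^ (k + 1) *
      (jP f k (a19_A z ρ ζ) * ((1 - ρ * ζ)⁻¹) ^ (n + 2 + k))

private theorem a19_jP {f : ℂ → ℂ} (hf : DifferentiableOn ℂ f (ball 0 1))
    (hd : ∀ z ∈ ball (0 : ℂ) 1, deriv f z ≠ 0) (k : ℕ) {x : ℂ} (hx : x ∈ ball (0 : ℂ) 1) :
    HasDerivAt (jP f k) (jP f (k + 1) x) x := by
  have h1 : DifferentiableAt ℂ (jP f k) x :=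
    (jP_diff hf hd k).differentiableAt (isOpen_ball.mem_nhds hx)
  have h2 : jP f (k + 1) = deriv (jP f k) := by
    unfold jP
    exact iteratedDeriv_succ
  rw [h2]
  exact h1.hasDerivAt

private theorem a19_step {f : ℂ → ℂ} (hf : DifferentiableOn ℂ f (ball 0 1))
    (hd : ∀ z ∈ ball (0 : ℂ) 1, deriv f z ≠ 0) {z ρ ζ : ℂ} (n : ℕ) (h1 : 1 - ρ * ζ ≠ 0)
    (h2 : a19_A z ρ ζ ∈ ball (0 : ℂ) 1) :
    HasDerivAt (a19_F f z ρ n) (a19_F f z ρ (n + 1) ζ) ζ := by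
  have hA := a19_A_deriv (z := z) h1
  set q : ℂ := -(z * (1 - ρ)) with hq
  set ψ : ℂ := (1 - ρ * ζ)⁻¹ with hψ
  have e1 : HasDerivAt (fun ζ : ℂ => (n.factorial : ℂ) * 2 * ρ ^ (n + 1) *
      ((1 - ρ * ζ)⁻¹) ^ (n + 1))
      ((n.factorial : ℂ) * 2 * ρ ^ (n + 1) * (((n + 1 : ℕ) : ℂ) * ρ * ψ ^ (n + 1 + 1))) ζ :=
    (a19_psi h1 (n + 1)).const_mul _
  have e2 : ∀ k, HasDerivAt (fun ζ : ℂ => jP f k (a19_A z ρ ζ) * ((1 - ρ * ζ)⁻¹) ^ (n + 2 + k))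
      (jP f (k + 1) (a19_A z ρ ζ) * (q * ψ ^ 2) * ψ ^ (n + 2 + k) +
        jP f k (a19_A z ρ ζ) * (((n + 2 + k : ℕ) : ℂ) * ρ * ψ ^ (n + 2 + k + 1))) ζ := by
    intro k
    exact ((a19_jP hf hd k h2).comp ζ hA).mul (a19_psi h1 (n + 2 + k))
  have e3 : HasDerivAt (fun ζ : ℂ => ∑ k ∈ Finset.range (n + 1), a19_a n k * ρ ^ (n - k) *
      q ^ (k + 1) * (jP f k (a19_A z ρ ζ) * ((1 - ρ * ζ)⁻¹) ^ (n + 2 + k)))
      (∑ k ∈ Finset.range (n + 1), a19_a n k * ρ ^ (n - k) * q ^ (k + 1) *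
        (jP f (k + 1) (a19_A z ρ ζ) * (q * ψ ^ 2) * ψ ^ (n + 2 + k) +
        jP f k (a19_A z ρ ζ) * (((n + 2 + k : ℕ) : ℂ) * ρ * ψ ^ (n + 2 + k + 1)))) ζ := by
    refine HasDerivAt.fun_sum fun k _ => ?_
    exact (e2 k).const_mul _
  have e4 := e1.add e3
  have e5 : a19_F f z ρ (n + 1) ζ =
      (n.factorial : ℂ) * 2 * ρ ^ (n + 1) * (((n + 1 : ℕ) : ℂ) * ρ * ψ ^ (n + 1 + 1)) +
      ∑ k ∈ Finset.range (n + 1), a19_a n k * ρ ^ (n - k) * q ^ (k + 1) *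
        (jP f (k + 1) (a19_A z ρ ζ) * (q * ψ ^ 2) * ψ ^ (n + 2 + k) +
        jP f k (a19_A z ρ ζ) * (((n + 2 + k : ℕ) : ℂ) * ρ * ψ ^ (n + 2 + k + 1))) := by
    have s1 : ∑ k ∈ Finset.range (n + 1), a19_a n k * ρ ^ (n - k) * q ^ (k + 1) *
        (jP f (k + 1) (a19_A z ρ ζ) * (q * ψ ^ 2) * ψ ^ (n + 2 + k) +
        jP f k (a19_A z ρ ζ) * (((n + 2 + k : ℕ) : ℂ) * ρ * ψ ^ (n + 2 + k + 1))) =
        ∑ k ∈ Finset.range (n + 1), a19_a n k * (ρ ^ (n + 1 - (k + 1)) * q ^ (k + 1 + 1) *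
          jP f (k + 1) (a19_A z ρ ζ) * ψ ^ (n + 3 + (k + 1))) +
        ∑ k ∈ Finset.range (n + 1), ((n : ℂ) + 2 + k) * a19_a n k * (ρ ^ (n + 1 - k) *
          q ^ (k + 1) * jP f k (a19_A z ρ ζ) * ψ ^ (n + 3 + k)) := by
      rw [← Finset.sum_add_distrib]
      refine Finset.sum_congr rfl fun k hk => ?_
      have hk' : k ≤ n := Nat.lt_succ_iff.mp (Finset.mem_range.mp hk)
      have f1 : n + 1 - (k + 1) = n - k := by omega
      have f2 : ρ ^ (n + 1 - k) = ρ * ρ ^ (n - k) := by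
        rw [Nat.succ_sub hk', pow_succ]
        ring
      rw [f1, f2]
      push_cast
      ring
    have s2 : ∑ k ∈ Finset.range (n + 1), ((n : ℂ) + 2 + k) * a19_a n k * (ρ ^ (n + 1 - k) *
          q ^ (k + 1) * jP f k (a19_A z ρ ζ) * ψ ^ (n + 3 + k)) =
        ∑ k ∈ Finset.range (n + 1), ((n : ℂ) + 3 + k) * a19_a n (k + 1) *
          (ρ ^ (n + 1 - (k + 1)) *
          q ^ (k + 1 + 1) * jP f (k + 1) (a19_A z ρ ζ) * ψ ^ (n + 3 + (k + 1))) +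
        ((n : ℂ) + 2) * a19_a n 0 * (ρ ^ (n + 1) * q * jP f 0 (a19_A z ρ ζ) * ψ ^ (n + 3)) := by
      have t1 := Finset.sum_range_succ (fun k : ℕ => ((n : ℂ) + 2 + k) * a19_a n k *
        (ρ ^ (n + 1 - k) * q ^ (k + 1) * jP f k (a19_A z ρ ζ) * ψ ^ (n + 3 + k))) (n + 1)
      have t2 := Finset.sum_range_succ' (fun k : ℕ => ((n : ℂ) + 2 + k) * a19_a n k *
        (ρ ^ (n + 1 - k) * q ^ (k + 1) * jP f k (a19_A z ρ ζ) * ψ ^ (n + 3 + k))) (n + 1)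
      rw [a19_a_top, mul_zero, zero_mul, add_zero] at t1
      rw [← t1, t2]
      congr 1
      · refine Finset.sum_congr rfl fun k _ => ?_
        push_cast
        ring
      · simp
    rw [s1, s2]
    unfold a19_F
    rw [Finset.sum_range_succ' _ (n + 1), ← add_assoc (∑ k ∈ Finset.range (n + 1), _) _ _,
      ← Finset.sum_add_distrib, a19_a_zero]
    rw [Nat.factorial_succ]
    have t3 : ∑ k ∈ Finset.range (n + 1), a19_a (n + 1) (k + 1) * ρ ^ (n + 1 - (k + 1)) *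
        (-(z * (1 - ρ))) ^ (k + 1 + 1) * (jP f (k + 1) (a19_A z ρ ζ) *
        ((1 - ρ * ζ)⁻¹) ^ (n + 1 + 2 + (k + 1))) =
        ∑ k ∈ Finset.range (n + 1), (a19_a n k * (ρ ^ (n + 1 - (k + 1)) * q ^ (k + 1 + 1) *
          jP f (k + 1) (a19_A z ρ ζ) * ψ ^ (n + 3 + (k + 1))) +
          ((n : ℂ) + 3 + k) * a19_a n (k + 1) * (ρ ^ (n + 1 - (k + 1)) *
          q ^ (k + 1 + 1) * jP f (k + 1) (a19_A z ρ ζ) * ψ ^ (n + 3 + (k + 1)))) := by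
      refine Finset.sum_congr rfl fun k hk => ?_
      have hk' : k ≤ n := Nat.lt_succ_iff.mp (Finset.mem_range.mp hk)
      rw [a19_a_succ n k hk', ← hq, ← hψ]
      ring
    rw [t3, ← hq, ← hψ]
    push_cast
    simp only [pow_one, add_zero]
    ring
  rw [e5]
  exact e4

private theorem a19_iter {f : ℂ → ℂ} (hf : DifferentiableOn ℂ f (ball 0 1))
    (hd : ∀ z ∈ ball (0 : ℂ) 1, deriv f z ≠ 0) {z ρ : ℂ} (hz : ‖z‖ < 1) {R : ℂ → ℂ}
    (hR : R =ᶠ[𝓝 0] a19_F f z ρ 0) (n : ℕ) :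
    iteratedDeriv n R =ᶠ[𝓝 0] a19_F f z ρ n := by
  induction n with
  | zero =>
    rw [iteratedDeriv_zero]
    exact hR
  | succ n ih =>
    rw [iteratedDeriv_succ]
    refine ih.deriv.trans ?_
    filter_upwards [a19_ev (ρ := ρ) hz] with ζ hζ
    exact (a19_step hf hd n hζ.1 hζ.2).deriv

theorem relY {f : ℂ → ℂ} (hf : DifferentiableOn ℂ f (ball 0 1))
    (hd : ∀ z ∈ ball (0 : ℂ) 1, deriv f z ≠ 0) {z : ℂ} (hz : ‖z‖ < 1) (hz0 : z ≠ 0) :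
    RelY (‖z‖ ^ 2) (co (fun ζ => deriv (deriv (Kt f z)) ζ / deriv (Kt f z) ζ)) (eta f z) := by
  set ρ : ℂ := ((‖z‖ ^ 2 : ℝ) : ℂ) with hρ
  have hw : (1 - ρ) ≠ 0 := by
    have h1 : (1 - ‖z‖ ^ 2 : ℝ) ≠ 0 := by
      have := norm_nonneg z
      nlinarith
    rw [hρ]
    exact_mod_cast h1
  have hfz : deriv f z ≠ 0 := hd z (by simpa using hz)
  set q : ℂ := -(z * (1 - ρ)) with hq
  have hq0 : q ≠ 0 := neg_ne_zero.mpr (mul_ne_zero hz0 hw)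
  have hK : ∀ ζ, Kt f z ζ = (f (a19_A z ρ ζ) - f z) / (q * deriv f z) := by
    intro ζ
    unfold Kt a19_A
    rw [hq, hρ]
    push_cast
    rfl
  have hf1 : ∀ x ∈ ball (0 : ℂ) 1, HasDerivAt f (deriv f x) x := fun x hx =>
    (hf.differentiableAt (isOpen_ball.mem_nhds hx)).hasDerivAt
  have hf2 : ∀ x ∈ ball (0 : ℂ) 1, HasDerivAt (deriv f) (deriv (deriv f) x) x := fun x hx =>
    ((hf.deriv isOpen_ball).differentiableAt (isOpen_ball.mem_nhds hx)).hasDerivAt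
  have k1 : deriv (Kt f z) =ᶠ[𝓝 0]
      fun ζ => deriv f (a19_A z ρ ζ) * ((1 - ρ * ζ)⁻¹) ^ 2 / deriv f z := by
    filter_upwards [a19_ev (ρ := ρ) hz] with ζ hζ
    have h1 := ((hf1 _ hζ.2).comp ζ (a19_A_deriv (z := z) hζ.1)).sub_const (f z)
    have h2 := h1.div_const (q * deriv f z)
    have h3 : Kt f z = fun ζ => (f (a19_A z ρ ζ) - f z) / (q * deriv f z) := funext hK
    rw [h3]
    refine (h2.deriv).trans ?_
    rw [← hq]
    field_simp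
  have k2 : deriv (deriv (Kt f z)) =ᶠ[𝓝 0] fun ζ =>
      (deriv (deriv f) (a19_A z ρ ζ) * (q * ((1 - ρ * ζ)⁻¹) ^ 2) * ((1 - ρ * ζ)⁻¹) ^ 2 +
        deriv f (a19_A z ρ ζ) * (2 * ρ * ((1 - ρ * ζ)⁻¹) ^ 3)) / deriv f z := by
    refine k1.deriv.trans ?_
    filter_upwards [a19_ev (ρ := ρ) hz] with ζ hζ
    have h1 := (((hf2 _ hζ.2).comp ζ (a19_A_deriv (z := z) hζ.1)).mul
      (a19_psi hζ.1 2)).div_const (deriv f z)
    refine (h1.deriv).trans ?_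
    rw [← hq]
    push_cast
    rfl
  have k3 : (fun ζ => deriv (deriv (Kt f z)) ζ / deriv (Kt f z) ζ) =ᶠ[𝓝 0] a19_F f z ρ 0 := by
    filter_upwards [a19_ev (ρ := ρ) hz, k1, k2] with ζ hζ h1 h2
    rw [h1, h2]
    have h3 : deriv f (a19_A z ρ ζ) ≠ 0 := hd _ hζ.2
    have h4 : (1 - ρ * ζ)⁻¹ ≠ 0 := inv_ne_zero hζ.1
    unfold a19_F a19_a
    have h5 : jP f 0 (a19_A z ρ ζ) = deriv (deriv f) (a19_A z ρ ζ) / deriv f (a19_A z ρ ζ) := by
      unfold jP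
      rw [iteratedDeriv_zero]
    rw [← hq]
    simp only [zero_add, Finset.sum_range_one, Nat.factorial_zero, Nat.choose_self, h5]
    generalize (1 - ρ * ζ)⁻¹ = ψ at h4 ⊢
    push_cast
    field_simp
    ring
  intro n
  have k4 := (a19_iter hf hd hz k3 n).eq_of_nhds
  have hn : ((n.factorial : ℕ) : ℂ) ≠ 0 := by exact_mod_cast n.factorial_ne_zero
  show iteratedDeriv n (fun ζ => deriv (deriv (Kt f z)) ζ / deriv (Kt f z) ζ) 0 /
    (n.factorial : ℂ) = _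
  rw [k4]
  unfold a19_F
  have hA0 : a19_A z ρ 0 = z := by simp [a19_A]
  rw [hA0, ← hq]
  have hc : ((‖z‖ ^ 2 : ℝ) : ℂ) = ρ := rfl
  rw [hc]
  simp only [mul_zero, sub_zero, inv_one, one_pow, mul_one]
  rw [add_div]
  congr 1
  · field_simp
  · rw [Finset.sum_div]
    refine Finset.sum_congr rfl fun k _ => ?_
    unfold a19_a eta
    have e : -(z * ((1 - ‖z‖ ^ 2 : ℝ) : ℂ)) = q := by
      rw [hq, hρ]
      push_cast
      rfl
    rw [e]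
    field_simp

end Pool.Agent.H58.BJ
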