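import Pool.Agent.H58.BJ.Def

/-!
# Project BJ, row A13: Fubini for the area integral and the null image of the circle
-/

set_option autoImplicit false

namespace Pool.Agent.H58.BJ

open Complex Metric Set MeasureTheory
open scoped Real ComplexConjugate

theorem a13_inv (R : ℝ) : IntegrableOn (fun z : ℂ => ‖z‖⁻¹) (ball 0 R) := by
  rw [integrableOn_fun_norm_addHaar (μ := (volume : Measure ℂ)) (f := fun y : ℝ => y⁻¹)]
  rw [integrableOn_congr_fun (g := fun _ => (1 : ℝ)) _ measurableSet_Ioo]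
  · simp
  · intro x hx
    have : x ≠ 0 := hx.1.ne'
    simp [this]

/-- the truncated kernel -/
noncomputable def a13_I (R : ℝ) : ℂ → ℝ := (ball (0 : ℂ) R).indicator (fun z => ‖z‖⁻¹)

theorem a13_I_int (R : ℝ) : Integrable (a13_I R) := by
  unfold a13_I
  rw [integrable_indicator_iff measurableSet_ball]
  exact a13_inv R

theorem a13_I_nonneg (R : ℝ) (z : ℂ) : 0 ≤ a13_I R z := by
  unfold a13_I
  exact indicator_nonneg (fun z _ => inv_nonneg.2 (norm_nonneg z)) z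

theorem a13_I_eq {R : ℝ} {v w : ℂ} (hv : ‖v‖ < R) (hw : w ∈ ball (0 : ℂ) R) :
    a13_I (2 * R) (v - w) = ‖(v - w)⁻¹‖ := by
  unfold a13_I
  rw [indicator_of_mem, norm_inv]
  rw [mem_ball_zero_iff] at hw ⊢
  calc ‖v - w‖ ≤ ‖v‖ + ‖w‖ := norm_sub_le _ _
    _ < 2 * R := by linarith

theorem a13_one {R : ℝ} {v : ℂ} (hv : ‖v‖ < R) :
    IntegrableOn (fun w : ℂ => (v - w)⁻¹) (ball 0 R) := by
  have h1 : Integrable (fun w : ℂ => a13_I (2 * R) (v - w)) := (a13_I_int (2 * R)).comp_sub_left v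
  refine (h1.integrableOn (s := ball (0 : ℂ) R)).mono' ?_ ?_
  · exact (by fun_prop : Measurable (fun w : ℂ => (v - w)⁻¹)).aestronglyMeasurable
  · filter_upwards [ae_restrict_mem measurableSet_ball] with w hw
    rw [a13_I_eq hv hw]

theorem a13_bd {R : ℝ} {v : ℂ} (hv : ‖v‖ < R) :
    ∫ w in ball (0 : ℂ) R, ‖(v - w)⁻¹‖ ≤ ∫ u, a13_I (2 * R) u := by
  have h1 : Integrable (fun w : ℂ => a13_I (2 * R) (v - w)) := (a13_I_int (2 * R)).comp_sub_left v
  calc ∫ w in ball (0 : ℂ) R, ‖(v - w)⁻¹‖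
      = ∫ w in ball (0 : ℂ) R, a13_I (2 * R) (v - w) :=
        setIntegral_congr_fun measurableSet_ball fun w hw => (a13_I_eq hv hw).symm
    _ ≤ ∫ w, a13_I (2 * R) (v - w) :=
        setIntegral_le_integral h1 (Filter.Eventually.of_forall fun w => a13_I_nonneg _ _)
    _ = ∫ u, a13_I (2 * R) u := integral_sub_left_eq_self _ _ _

theorem a13_int {g : ℝ → ℂ} (hg : Measurable g) {R : ℝ} (hR : ∀ θ, ‖g θ‖ < R) (a b : ℝ) :
    Integrable (fun p : ℂ × ℝ => (g p.2 - p.1)⁻¹)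
      ((volume.restrict (ball (0 : ℂ) R)).prod (volume.restrict (Ioc a b))) := by
  have hm : Measurable (fun p : ℂ × ℝ => (g p.2 - p.1)⁻¹) :=
    ((hg.comp measurable_snd).sub measurable_fst).inv
  rw [integrable_prod_iff' hm.aestronglyMeasurable]
  refine ⟨Filter.Eventually.of_forall fun θ => a13_one (hR θ), ?_⟩
  refine (integrable_const (∫ u, a13_I (2 * R) u)).mono' ?_ ?_
  · exact (hm.norm.stronglyMeasurable.integral_prod_left').aestronglyMeasurable
  · refine Filter.Eventually.of_forall fun θ => ?_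
    rw [Real.norm_of_nonneg (integral_nonneg fun w => norm_nonneg _)]
    exact a13_bd (hR θ)

theorem a13_swap {g k : ℝ → ℂ} (hg : Continuous g) (hk : Continuous k) {R : ℝ}
    (hR : ∀ θ, ‖g θ‖ < R) {q : ℂ → ℂ} (hq : Continuous q) {a b : ℝ} (hab : a ≤ b) :
    ∫ w in ball (0 : ℂ) R, q w * ∫ θ in a..b, k θ * (g θ - w)⁻¹ =
      ∫ θ in a..b, k θ * ∫ w in ball (0 : ℂ) R, q w * (g θ - w)⁻¹ := by
  obtain ⟨M, hM⟩ := (isCompact_closedBall (0 : ℂ) R).exists_bound_of_continuousOn hq.continuousOn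
  obtain ⟨N, hN⟩ := (isCompact_Icc (a := a) (b := b)).exists_bound_of_continuousOn hk.continuousOn
  have hi : Integrable (fun p : ℂ × ℝ => (q p.1 * k p.2) * (g p.2 - p.1)⁻¹)
      ((volume.restrict (ball (0 : ℂ) R)).prod (volume.restrict (Ioc a b))) := by
    refine (a13_int hg.measurable hR a b).bdd_mul (c := M * N) ?_ ?_
    · exact (by fun_prop : Continuous (fun p : ℂ × ℝ => q p.1 * k p.2)).aestronglyMeasurable
    · rw [Measure.prod_restrict]
      filter_upwards [ae_restrict_mem (measurableSet_ball.prod measurableSet_Ioc)] with p hp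
      have h1 := hM p.1 (ball_subset_closedBall hp.1)
      have h2 := hN p.2 (Ioc_subset_Icc_self hp.2)
      rw [norm_mul]
      exact mul_le_mul h1 h2 (norm_nonneg _) ((norm_nonneg _).trans h1)
  have h := integral_integral_swap (f := fun (w : ℂ) (θ : ℝ) => (q w * k θ) * (g θ - w)⁻¹) hi
  simp only [intervalIntegral.integral_of_le hab]
  calc ∫ w in ball (0 : ℂ) R, q w * ∫ θ in Ioc a b, k θ * (g θ - w)⁻¹
      = ∫ w in ball (0 : ℂ) R, ∫ θ in Ioc a b, (q w * k θ) * (g θ - w)⁻¹ := by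
        congr 1; ext w
        rw [← integral_const_mul]
        congr 1; ext θ; ring
    _ = ∫ θ in Ioc a b, ∫ w in ball (0 : ℂ) R, (q w * k θ) * (g θ - w)⁻¹ := h
    _ = ∫ θ in Ioc a b, k θ * ∫ w in ball (0 : ℂ) R, q w * (g θ - w)⁻¹ := by
        congr 1; ext θ
        rw [← integral_const_mul]
        congr 1; ext w; ring

theorem a13_diff {V : ℂ → ℂ} (hV : DifferentiableOn ℂ V (ball 0 1)) :
    DifferentiableOn ℂ (fun ζ => V ζ / ζ) (ball 0 1 ∩ {0}ᶜ) :=
  (hV.mono inter_subset_left).div differentiableOn_id fun _ h => h.2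

theorem a13_open : IsOpen (ball (0 : ℂ) 1 ∩ {0}ᶜ) := isOpen_ball.inter isOpen_compl_singleton

theorem a13_mem {r : ℝ} (hr : 0 < r) (hr1 : r < 1) {ζ : ℂ} (hζ : ‖ζ‖ = r) :
    ζ ∈ ball (0 : ℂ) 1 ∩ {0}ᶜ := by
  refine ⟨by rw [mem_ball_zero_iff]; linarith, ?_⟩
  rw [mem_compl_singleton_iff, ← norm_pos_iff]
  linarith

theorem a13_circ {r : ℝ} (hr : 0 < r) (θ : ℝ) : ‖circleMap 0 r θ‖ = r := by
  rw [norm_circleMap_zero, abs_of_pos hr]

theorem area_int {V : ℂ → ℂ} (hV : DifferentiableOn ℂ V (ball 0 1)) {r : ℝ} (hr : 0 < r)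
    (hr1 : r < 1) {R0 : ℝ} (hR0 : ∀ ζ, ‖ζ‖ = r → ‖V ζ / ζ‖ < R0) {q : ℂ → ℂ}
    (hq : Continuous q) :
    ∫ w in ball (0 : ℂ) R0, q w *
        ∮ ζ in C(0, r), deriv (fun ζ => V ζ / ζ) ζ / (V ζ / ζ - w) =
      ∮ ζ in C(0, r), deriv (fun ζ => V ζ / ζ) ζ *
        ∫ w in ball (0 : ℂ) R0, q w / (V ζ / ζ - w) := by
  have hW := a13_diff hV
  have hmem : ∀ θ : ℝ, circleMap 0 r θ ∈ ball (0 : ℂ) 1 ∩ {0}ᶜ := fun θ =>
    a13_mem hr hr1 (a13_circ hr θ)
  have hg : Continuous (fun θ : ℝ => V (circleMap 0 r θ) / circleMap 0 r θ) :=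
    hW.continuousOn.comp_continuous (continuous_circleMap 0 r) hmem
  have hd : Continuous (fun θ : ℝ => deriv (fun ζ => V ζ / ζ) (circleMap 0 r θ)) :=
    (hW.deriv a13_open).continuousOn.comp_continuous (continuous_circleMap 0 r) hmem
  have hk : Continuous (fun θ : ℝ => deriv (circleMap 0 r) θ *
      deriv (fun ζ => V ζ / ζ) (circleMap 0 r θ)) := by
    refine Continuous.mul ?_ hd
    have : deriv (circleMap 0 r) = fun θ => circleMap 0 r θ * I := by
      ext θ; rw [deriv_circleMap]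
    rw [this]
    exact (continuous_circleMap 0 r).mul continuous_const
  have h := a13_swap hg hk (fun θ => hR0 _ (a13_circ hr θ)) hq
    (a := 0) (b := 2 * π) (by positivity)
  calc ∫ w in ball (0 : ℂ) R0, q w *
        ∮ ζ in C(0, r), deriv (fun ζ => V ζ / ζ) ζ / (V ζ / ζ - w)
      = ∫ w in ball (0 : ℂ) R0, q w * ∫ θ in (0 : ℝ)..2 * π,
          (deriv (circleMap 0 r) θ * deriv (fun ζ => V ζ / ζ) (circleMap 0 r θ)) *
            (V (circleMap 0 r θ) / circleMap 0 r θ - w)⁻¹ := by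
        congr 1; ext w
        congr 1
        unfold circleIntegral
        congr 1; ext θ
        rw [smul_eq_mul, mul_assoc]
        simp only [div_eq_mul_inv]
    _ = _ := h
    _ = _ := by
        unfold circleIntegral
        congr 1; ext θ
        rw [smul_eq_mul, mul_assoc]
        simp only [div_eq_mul_inv]

theorem null_curve {V : ℂ → ℂ} (hV : DifferentiableOn ℂ V (ball 0 1)) {r : ℝ} (hr : 0 < r)
    (hr1 : r < 1) : volume ((fun ζ => V ζ / ζ) '' sphere (0 : ℂ) r) = 0 := by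
  have hW := a13_diff hV
  have hs : sphere (0 : ℂ) r ⊆ ball (0 : ℂ) 1 ∩ {0}ᶜ := fun ζ hζ =>
    a13_mem hr hr1 (mem_sphere_zero_iff_norm.1 hζ)
  exact addHaar_image_eq_zero_of_differentiableOn_of_addHaar_eq_zero volume
    ((hW.mono hs).restrictScalars ℝ) (Measure.addHaar_sphere volume 0 r)

end Pool.Agent.H58.BJ
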