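import Pool.Agent.H58.BJ.Def

/-! # Project BJ, row A12: the Cauchy transform of `w^a conj w^b` over a disc -/

set_option autoImplicit false

namespace Pool.Agent.H58.BJ

open Complex Metric Set MeasureTheory
open scoped Real ComplexConjugate ENNReal

theorem a12_target : (Complex.polarCoord.target : Set (ℝ × ℝ)) = Ioi 0 ×ˢ Ioo (-π) π := rfl

theorem a12_symm (p : ℝ × ℝ) : Complex.polarCoord.symm p = circleMap 0 p.1 p.2 := by
  rw [Complex.polarCoord_symm_apply, circleMap, zero_add]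
  rw [Complex.exp_mul_I, Complex.ofReal_cos, Complex.ofReal_sin]

/-- the integral of `1/‖w‖` over a disc -/
theorem a12_fin0 (R : ℝ) : ∫⁻ w in ball (0 : ℂ) R, ‖w⁻¹‖ₑ < ∞ := by
  rw [← lintegral_indicator measurableSet_ball, ← Complex.lintegral_comp_polarCoord_symm]
  have h1 : ∀ p ∈ (polarCoord.target : Set (ℝ × ℝ)),
      ENNReal.ofReal p.1 • (ball (0 : ℂ) R).indicator (fun w => ‖w⁻¹‖ₑ) (Complex.polarCoord.symm p) ≤
        (Ioo (0 : ℝ) R ×ˢ Ioo (-π) π).indicator (fun _ => (1 : ℝ≥0∞)) p := by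
    intro p hp
    have hp1 : 0 < p.1 := (show p.1 ∈ Ioi (0 : ℝ) from hp.1)
    have hn : ‖Complex.polarCoord.symm p‖ = p.1 := by
      rw [Complex.norm_polarCoord_symm, abs_of_pos hp1]
    by_cases hR : p.1 < R
    · have h2 : Complex.polarCoord.symm p ∈ ball (0 : ℂ) R := by
        rw [mem_ball_zero_iff, hn]
        exact hR
      have h3 : p ∈ Ioo (0 : ℝ) R ×ˢ Ioo (-π) π := ⟨⟨hp1, hR⟩, hp.2⟩
      rw [indicator_of_mem h2, indicator_of_mem h3, smul_eq_mul, ← ofReal_norm, norm_inv, hn,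
        ← ENNReal.ofReal_mul hp1.le, mul_inv_cancel₀ hp1.ne', ENNReal.ofReal_one]
    · have h2 : Complex.polarCoord.symm p ∉ ball (0 : ℂ) R := by
        rw [mem_ball_zero_iff, hn]
        exact hR
      rw [indicator_of_notMem h2, smul_zero]
      exact zero_le
  refine lt_of_le_of_lt (setLIntegral_mono' (measurableSet_Ioi.prod measurableSet_Ioo) h1) ?_
  refine lt_of_le_of_lt (setLIntegral_le_lintegral _ _) ?_
  rw [lintegral_indicator (measurableSet_Ioo.prod measurableSet_Ioo), lintegral_one,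
    Measure.restrict_apply_univ, Measure.volume_eq_prod, Measure.prod_prod]
  exact ENNReal.mul_lt_top (by simp) (by simp)

theorem a12_fin (v : ℂ) (R : ℝ) : ∫⁻ w in ball (0 : ℂ) R, ‖(v - w)⁻¹‖ₑ < ∞ := by
  have h1 : ∫⁻ w in ball (0 : ℂ) R, ‖(v - w)⁻¹‖ₑ =
      ∫⁻ w, (ball (0 : ℂ) R).indicator (fun w => ‖(v - w)⁻¹‖ₑ) w :=
    (lintegral_indicator measurableSet_ball _).symm
  have h2 : ∫⁻ w, (ball (0 : ℂ) R).indicator (fun w => ‖(v - w)⁻¹‖ₑ) w =
      ∫⁻ w, (ball (0 : ℂ) R).indicator (fun w => ‖(v - w)⁻¹‖ₑ) (v - w) :=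
    (lintegral_sub_left_eq_self _ v).symm
  rw [h1, h2]
  refine lt_of_le_of_lt ?_ (a12_fin0 (‖v‖ + R))
  rw [← lintegral_indicator measurableSet_ball]
  refine lintegral_mono fun w => ?_
  by_cases h3 : v - w ∈ ball (0 : ℂ) R
  · have h4 : w ∈ ball (0 : ℂ) (‖v‖ + R) := by
      rw [mem_ball_zero_iff] at h3 ⊢
      have h5 : ‖w‖ = ‖v - (v - w)‖ := by rw [sub_sub_cancel]
      rw [h5]
      exact lt_of_le_of_lt (norm_sub_le _ _) (by linarith)
    show (ball (0 : ℂ) R).indicator (fun w => ‖(v - w)⁻¹‖ₑ) (v - w) ≤ _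
    rw [indicator_of_mem h3, indicator_of_mem h4, sub_sub_cancel]
  · show (ball (0 : ℂ) R).indicator (fun w => ‖(v - w)⁻¹‖ₑ) (v - w) ≤ _
    rw [indicator_of_notMem h3]
    exact zero_le

/-- the integrand -/
noncomputable def a12g (a b : ℕ) (v w : ℂ) : ℂ := w ^ a * conj w ^ b / (v - w)

theorem a12_meas (a b : ℕ) (v : ℂ) : Measurable (a12g a b v) := by
  unfold a12g
  have h1 : Measurable (fun w : ℂ => conj w) := Complex.continuous_conj.measurable
  exact ((measurable_id.pow_const a).mul (h1.pow_const b)).div (measurable_const.sub measurable_id)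

theorem a12_int (a b : ℕ) (v : ℂ) {R : ℝ} (hR : 0 < R) : IntegrableOn (a12g a b v) (ball (0 : ℂ) R) := by
  refine ⟨(a12_meas a b v).aestronglyMeasurable, ?_⟩
  show ∫⁻ w in ball (0 : ℂ) R, ‖a12g a b v w‖ₑ < ∞
  have h1 : ∀ w ∈ ball (0 : ℂ) R, ‖a12g a b v w‖ₑ ≤
      ENNReal.ofReal (R ^ (a + b)) * ‖(v - w)⁻¹‖ₑ := by
    intro w hw
    rw [mem_ball_zero_iff] at hw
    rw [a12g, div_eq_mul_inv, enorm_mul]
    gcongr
    rw [← ofReal_norm]
    apply ENNReal.ofReal_le_ofReal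
    rw [norm_mul, norm_pow, norm_pow, RCLike.norm_conj, ← pow_add]
    gcongr
  refine lt_of_le_of_lt (setLIntegral_mono' measurableSet_ball h1) ?_
  rw [lintegral_const_mul' _ _ ENNReal.ofReal_ne_top]
  exact ENNReal.mul_lt_top ENNReal.ofReal_lt_top (a12_fin v R)

/-- polar coordinates -/
theorem a12_polar {g : ℂ → ℂ} (hg : Measurable g) {R : ℝ} (hR : 0 < R)
    (hi : IntegrableOn g (ball (0 : ℂ) R)) :
    ∫ w in ball (0 : ℂ) R, g w =
      ∫ r in (0 : ℝ)..R, (r : ℂ) * ∫ θ in (0 : ℝ)..2 * π, g (circleMap 0 r θ) := by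
  set f : ℂ → ℂ := (ball (0 : ℂ) R).indicator g with hf
  have hfm : Measurable f := hg.indicator measurableSet_ball
  have hfi : Integrable f := (integrable_indicator_iff measurableSet_ball).2 hi
  have hsm : Measurable (fun p : ℝ × ℝ => Complex.polarCoord.symm p) := by
    have h1 : (fun p : ℝ × ℝ => Complex.polarCoord.symm p) = fun p => circleMap 0 p.1 p.2 :=
      funext a12_symm
    rw [h1]
    unfold circleMap
    fun_prop
  have hFi : IntegrableOn (fun p : ℝ × ℝ => p.1 • f (Complex.polarCoord.symm p))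
      (Ioi (0 : ℝ) ×ˢ Ioo (-π) π) := by
    refine ⟨(measurable_fst.smul (hfm.comp hsm)).aestronglyMeasurable, ?_⟩
    have h2 := Complex.lintegral_comp_polarCoord_symm (fun w => ‖f w‖ₑ)
    have h3 : ∫⁻ p in Ioi (0 : ℝ) ×ˢ Ioo (-π) π, ‖p.1 • f (Complex.polarCoord.symm p)‖ₑ =
        ∫⁻ p in polarCoord.target, ENNReal.ofReal p.1 • ‖f (Complex.polarCoord.symm p)‖ₑ := by
      refine setLIntegral_congr_fun (measurableSet_Ioi.prod measurableSet_Ioo) ?_
      intro p hp
      have hp1 : 0 < p.1 := (show p.1 ∈ Ioi (0 : ℝ) from hp.1)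
      show ‖p.1 • f (Complex.polarCoord.symm p)‖ₑ =
        ENNReal.ofReal p.1 • ‖f (Complex.polarCoord.symm p)‖ₑ
      rw [enorm_smul, smul_eq_mul]
      congr 1
      rw [← ofReal_norm, Real.norm_of_nonneg hp1.le]
    show ∫⁻ p in Ioi (0 : ℝ) ×ˢ Ioo (-π) π, ‖p.1 • f (Complex.polarCoord.symm p)‖ₑ < ∞
    rw [h3, h2]
    exact hfi.2
  rw [← integral_indicator measurableSet_ball, ← hf, ← Complex.integral_comp_polarCoord_symm f]
  show ∫ p in Ioi (0 : ℝ) ×ˢ Ioo (-π) π, p.1 • f (Complex.polarCoord.symm p) = _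
  rw [Measure.volume_eq_prod, setIntegral_prod _ hFi]
  have h4 : ∀ r ∈ Ioi (0 : ℝ), ∫ θ in Ioo (-π) π, r • f (Complex.polarCoord.symm (r, θ)) =
      (Ioo (0 : ℝ) R).indicator
        (fun r => (r : ℂ) * ∫ θ in (0 : ℝ)..2 * π, g (circleMap 0 r θ)) r := by
    intro r hr
    have hr0 : 0 < r := hr
    by_cases hrR : r < R
    · rw [indicator_of_mem (show r ∈ Ioo (0 : ℝ) R from ⟨hr0, hrR⟩)]
      have h5 : ∀ θ : ℝ, r • f (Complex.polarCoord.symm (r, θ)) = (r : ℂ) * g (circleMap 0 r θ) := by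
        intro θ
        rw [a12_symm, hf, indicator_of_mem]
        · rfl
        · rw [mem_ball_zero_iff, norm_circleMap_zero, abs_of_pos hr0]
          exact hrR
      simp only [h5]
      rw [← integral_Ioc_eq_integral_Ioo, ← intervalIntegral.integral_of_le (by linarith [Real.pi_pos]),
        intervalIntegral.integral_const_mul]
      congr 1
      have h6 : Function.Periodic (fun θ : ℝ => g (circleMap 0 r θ)) (2 * π) := by
        intro θ
        show g (circleMap 0 r (θ + 2 * π)) = g (circleMap 0 r θ)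
        rw [periodic_circleMap 0 r θ]
      have h7 := h6.intervalIntegral_add_eq (-π) 0
      rw [show -π + 2 * π = π by ring, zero_add] at h7
      exact h7
    · rw [indicator_of_notMem (fun h => hrR h.2)]
      have h5 : ∀ θ : ℝ, r • f (Complex.polarCoord.symm (r, θ)) = 0 := by
        intro θ
        rw [a12_symm, hf, indicator_of_notMem, smul_zero]
        rw [mem_ball_zero_iff, norm_circleMap_zero, abs_of_pos hr0]
        exact hrR
      simp only [h5, integral_zero]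
  rw [setIntegral_congr_fun measurableSet_Ioi h4, setIntegral_indicator measurableSet_Ioo,
    intervalIntegral.integral_of_le hR.le, integral_Ioc_eq_integral_Ioo]
  congr 2
  ext r
  simp

/-- the circle integrals `∮ w^m / (v - w)` -/
noncomputable def a12K (r : ℝ) (v : ℂ) (m : ℤ) : ℂ := ∮ w in C(0, r), w ^ m * (v - w)⁻¹

theorem a12_ci {r : ℝ} (hr : 0 < r) {v : ℂ} (hv : r ≠ ‖v‖) (m : ℤ) :
    CircleIntegrable (fun w => w ^ m * (v - w)⁻¹) 0 r := by
  apply ContinuousOn.circleIntegrable hr.le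
  intro w hw
  have hwr : ‖w‖ = r := by rwa [mem_sphere_zero_iff_norm] at hw
  have hw0 : w ≠ 0 := by
    rintro rfl
    rw [norm_zero] at hwr
    exact hr.ne hwr
  have hvw : v - w ≠ 0 := by
    intro h
    rw [sub_eq_zero] at h
    rw [h] at hv
    exact hv hwr.symm
  exact ((continuousAt_zpow₀ w m (Or.inl hw0)).mul
    ((continuousAt_const.sub continuousAt_id).inv₀ hvw)).continuousWithinAt

theorem a12_ciz {r : ℝ} (hr : 0 < r) (m : ℤ) : CircleIntegrable (fun w => w ^ m) 0 r := by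
  apply ContinuousOn.circleIntegrable hr.le
  intro w hw
  have hwr : ‖w‖ = r := by rwa [mem_sphere_zero_iff_norm] at hw
  have hw0 : w ≠ 0 := by
    rintro rfl
    rw [norm_zero] at hwr
    exact hr.ne hwr
  exact (continuousAt_zpow₀ w m (Or.inl hw0)).continuousWithinAt

theorem a12_rec {r : ℝ} (hr : 0 < r) {v : ℂ} (hv : r ≠ ‖v‖) (m : ℤ) :
    v * a12K r v (m - 1) = a12K r v m + ∮ w in C(0, r), w ^ (m - 1) := by
  rw [a12K, a12K, ← circleIntegral.integral_const_mul,
    ← circleIntegral.integral_add (a12_ci hr hv m) (a12_ciz hr (m - 1))]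
  apply circleIntegral.integral_congr hr.le
  intro w hw
  have hwr : ‖w‖ = r := by rwa [mem_sphere_zero_iff_norm] at hw
  have hw0 : w ≠ 0 := by
    rintro rfl
    rw [norm_zero] at hwr
    exact hr.ne hwr
  have hvw : v - w ≠ 0 := by
    intro h
    rw [sub_eq_zero] at h
    rw [h] at hv
    exact hv hwr.symm
  show v * (w ^ (m - 1) * (v - w)⁻¹) = w ^ m * (v - w)⁻¹ + w ^ (m - 1)
  have h1 : w ^ m = w ^ (m - 1) * w := by
    rw [← zpow_add_one₀ hw0, sub_add_cancel]
  rw [h1]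
  field_simp
  ring

theorem a12_pw {r : ℝ} (hr : 0 < r) (m : ℤ) (hm : m ≠ -1) : ∮ w in C(0, r), (w : ℂ) ^ m = 0 := by
  have h := circleIntegral.integral_sub_zpow_of_ne hm 0 0 r
  simpa using h

theorem a12_pw1 {r : ℝ} (hr : 0 < r) : ∮ w in C(0, r), (w : ℂ) ^ (-1 : ℤ) = 2 * π * I := by
  have h := circleIntegral.integral_sub_center_inv 0 hr.ne'
  simpa using h

/-- the value for `m = 0` -/
theorem a12_K0out {r : ℝ} (hr : 0 < r) {v : ℂ} (hv : r < ‖v‖) : a12K r v 0 = 0 := by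
  unfold a12K
  have h1 : DifferentiableOn ℂ (fun w => w ^ (0 : ℤ) * (v - w)⁻¹) (closedBall 0 r) := by
    intro w hw
    rw [mem_closedBall_zero_iff] at hw
    have hvw : v - w ≠ 0 := by
      intro h
      rw [sub_eq_zero] at h
      rw [h] at hv
      linarith
    simp only [zpow_zero, one_mul]
    exact ((differentiableAt_const v).sub differentiableAt_id).inv hvw |>.differentiableWithinAt
  exact DiffContOnCl.circleIntegral_eq_zero hr.le (h1.mono (by rw [closure_ball 0 hr.ne'])).diffContOnCl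

theorem a12_K0in {r : ℝ} (hr : 0 < r) {v : ℂ} (hv : ‖v‖ < r) : a12K r v 0 = -(2 * π * I) := by
  have h1 : v ∈ ball (0 : ℂ) r := by rwa [mem_ball_zero_iff]
  have h2 := circleIntegral.integral_sub_inv_of_mem_ball h1
  rw [a12K, ← h2, ← neg_one_mul, ← circleIntegral.integral_const_mul]
  apply circleIntegral.integral_congr hr.le
  intro w _
  show w ^ (0 : ℤ) * (v - w)⁻¹ = -1 * (w - v)⁻¹
  rw [zpow_zero, one_mul, neg_one_mul, ← inv_neg, neg_sub]

theorem a12_Kup {r : ℝ} (hr : 0 < r) {v : ℂ} (hv : r ≠ ‖v‖) (n : ℕ) :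
    a12K r v n = v ^ n * a12K r v 0 := by
  induction n with
  | zero => simp
  | succ n ih =>
    have h1 := a12_rec hr hv ((n + 1 : ℕ) : ℤ)
    rw [show (((n + 1 : ℕ) : ℤ) - 1) = (n : ℤ) by push_cast; ring, a12_pw hr (n : ℤ) (by omega),
      add_zero] at h1
    rw [← h1, ih, pow_succ]
    ring

theorem a12_Kdn {r : ℝ} (hr : 0 < r) {v : ℂ} (hv : r ≠ ‖v‖) (n : ℕ) :
    v ^ (n + 1) * a12K r v (-(n : ℤ) - 1) = a12K r v 0 + 2 * π * I := by
  induction n with
  | zero =>
    have h1 := a12_rec hr hv 0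
    rw [show ((0 : ℤ) - 1) = -1 by ring, a12_pw1 hr] at h1
    rw [← h1]
    simp
  | succ n ih =>
    have h1 := a12_rec hr hv (-(n : ℤ) - 1)
    rw [a12_pw hr (-(n : ℤ) - 1 - 1) (by omega), add_zero] at h1
    rw [← ih, ← h1, show (-((n + 1 : ℕ) : ℤ) - 1) = -(n : ℤ) - 1 - 1 by push_cast; ring]
    ring

theorem a12_circ (a b : ℕ) {r : ℝ} (hr : 0 < r) (v : ℂ) :
    ∫ θ in (0 : ℝ)..2 * π, a12g a b v (circleMap 0 r θ) =
      I⁻¹ * (r : ℂ) ^ (2 * b) * a12K r v ((a : ℤ) - b - 1) := by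
  rw [a12K, ← circleIntegral.integral_const_mul, circleIntegral]
  apply intervalIntegral.integral_congr
  intro θ _
  show a12g a b v (circleMap 0 r θ) = deriv (circleMap 0 r) θ •
    (I⁻¹ * (r : ℂ) ^ (2 * b) * (circleMap 0 r θ ^ ((a : ℤ) - b - 1) * (v - circleMap 0 r θ)⁻¹))
  rw [deriv_circleMap, smul_eq_mul]
  set w := circleMap 0 r θ with hw
  have hwr : ‖w‖ = r := by rw [hw, norm_circleMap_zero, abs_of_pos hr]
  have hw0 : w ≠ 0 := by
    intro h
    rw [h, norm_zero] at hwr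
    exact hr.ne hwr
  have h1 : conj w = (r : ℂ) ^ 2 * w⁻¹ := by
    rw [eq_mul_inv_iff_mul_eq₀ hw0, ← hwr, Complex.conj_mul', hwr]
  have h2 : w ^ ((a : ℤ) - b - 1) = w ^ a * (w⁻¹) ^ b * w⁻¹ := by
    rw [zpow_sub_one₀ hw0, zpow_sub₀ hw0, zpow_natCast, zpow_natCast, inv_pow, div_eq_mul_inv]
  rw [a12g, h1, h2, div_eq_mul_inv, mul_pow, ← pow_mul]
  have hI : I ≠ 0 := I_ne_zero
  field_simp

theorem a12_norm (v : ℂ) (b : ℕ) : ((‖v‖ : ℝ) : ℂ) ^ (2 * b + 2) = v ^ (b + 1) * conj v ^ (b + 1) := by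
  rw [show 2 * b + 2 = 2 * (b + 1) by ring, pow_mul, ← Complex.mul_conj', mul_pow]

theorem a12_pint (b : ℕ) (s t : ℝ) (c : ℂ) :
    ∫ r in s..t, (r : ℂ) * ((r : ℂ) ^ (2 * b) * c) =
      ((t : ℂ) ^ (2 * b + 2) - (s : ℂ) ^ (2 * b + 2)) / (2 * (b : ℂ) + 2) * c := by
  have h1 : ∀ r : ℝ, (r : ℂ) * ((r : ℂ) ^ (2 * b) * c) = ((r ^ (2 * b + 1) : ℝ) : ℂ) * c := by
    intro r
    push_cast
    ring
  simp only [h1]
  rw [intervalIntegral.integral_mul_const, intervalIntegral.integral_ofReal, integral_pow]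
  push_cast
  ring

/-- integral of a function which is given by two formulas -/
theorem a12_two (b : ℕ) {s t : ℝ} (hs : 0 ≤ s) (hst : s < t) {F : ℝ → ℂ} {c1 c2 : ℂ}
    (h1 : ∀ r, 0 < r → r < s → F r = (r : ℂ) * ((r : ℂ) ^ (2 * b) * c1))
    (h2 : ∀ r, s < r → r < t → F r = (r : ℂ) * ((r : ℂ) ^ (2 * b) * c2)) :
    ∫ r in (0 : ℝ)..t, F r =
      (s : ℂ) ^ (2 * b + 2) / (2 * (b : ℂ) + 2) * c1 +
        ((t : ℂ) ^ (2 * b + 2) - (s : ℂ) ^ (2 * b + 2)) / (2 * (b : ℂ) + 2) * c2 := by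
  have hne : ∀ u : ℝ, ∀ᵐ r : ℝ, r ≠ u := fun u => compl_mem_ae_iff.mpr (measure_singleton u)
  have hc : ∀ c : ℂ, Continuous (fun r : ℝ => (r : ℂ) * ((r : ℂ) ^ (2 * b) * c)) := by
    intro c
    fun_prop
  have e1 : ∀ᵐ r : ℝ, r ∈ Set.uIoc (0 : ℝ) s → F r = (r : ℂ) * ((r : ℂ) ^ (2 * b) * c1) := by
    filter_upwards [hne s] with r hr hm
    rw [uIoc_of_le hs] at hm
    exact h1 r hm.1 (lt_of_le_of_ne hm.2 hr)
  have e2 : ∀ᵐ r : ℝ, r ∈ Set.uIoc s t → F r = (r : ℂ) * ((r : ℂ) ^ (2 * b) * c2) := by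
    filter_upwards [hne t] with r hr hm
    rw [uIoc_of_le hst.le] at hm
    exact h2 r hm.1 (lt_of_le_of_ne hm.2 hr)
  have i1 : IntervalIntegrable F volume 0 s := by
    refine ((hc c1).intervalIntegrable 0 s).congr_ae ?_
    rw [Filter.EventuallyEq, ae_restrict_iff' measurableSet_uIoc]
    filter_upwards [e1] with r hr hm
    exact (hr hm).symm
  have i2 : IntervalIntegrable F volume s t := by
    refine ((hc c2).intervalIntegrable s t).congr_ae ?_
    rw [Filter.EventuallyEq, ae_restrict_iff' measurableSet_uIoc]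
    filter_upwards [e2] with r hr hm
    exact (hr hm).symm
  rw [← intervalIntegral.integral_add_adjacent_intervals i1 i2,
    intervalIntegral.integral_congr_ae e1, intervalIntegral.integral_congr_ae e2, a12_pint, a12_pint]
  congr 1
  push_cast
  ring

theorem cauchy_mono (a b : ℕ) {R0 : ℝ} {v : ℂ} (hv : ‖v‖ < R0) :
    ∫ w in ball (0 : ℂ) R0, w ^ a * conj w ^ b / (v - w) =
      π / ((b : ℂ) + 1) * (v ^ a * conj v ^ (b + 1) -
        if b + 1 ≤ a then (R0 : ℂ) ^ (2 * b + 2) * v ^ (a - b - 1) else 0) := by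
  have hR : 0 < R0 := lt_of_le_of_lt (norm_nonneg v) hv
  have hb : (2 * (b : ℂ) + 2) ≠ 0 := by
    have : ((2 * b + 2 : ℕ) : ℂ) ≠ 0 := Nat.cast_ne_zero.mpr (by omega)
    push_cast at this
    exact this
  have hb1 : ((b : ℂ) + 1) ≠ 0 := Nat.cast_add_one_ne_zero b
  have hI : I ≠ 0 := I_ne_zero
  show ∫ w in ball (0 : ℂ) R0, a12g a b v w = _
  rw [a12_polar (a12_meas a b v) hR (a12_int a b v hR)]
  by_cases hab : b + 1 ≤ a
  · rw [if_pos hab]
    obtain ⟨n, rfl⟩ : ∃ n, a = b + 1 + n := ⟨a - (b + 1), by omega⟩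
    have hn : b + 1 + n - b - 1 = n := by omega
    have hz : ((b + 1 + n : ℕ) : ℤ) - b - 1 = (n : ℤ) := by push_cast; ring
    rw [a12_two b (norm_nonneg v) hv (c1 := 0) (c2 := -(2 * π * v ^ n)), hn]
    · rw [a12_norm, pow_add v (b + 1) n]
      field_simp
      ring
    · intro r hr hrv
      rw [a12_circ _ _ hr, hz, a12_Kup hr hrv.ne, a12_K0out hr hrv]
      ring
    · intro r hr hrR
      have hr0 : 0 < r := lt_of_le_of_lt (norm_nonneg v) hr
      rw [a12_circ _ _ hr0, hz, a12_Kup hr0 hr.ne', a12_K0in hr0 hr]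
      field_simp
  · rw [if_neg hab, sub_zero]
    obtain ⟨n, rfl⟩ : ∃ n, b = a + n := ⟨b - a, by omega⟩
    have hz : (a : ℤ) - ((a + n : ℕ) : ℤ) - 1 = -(n : ℤ) - 1 := by push_cast; ring
    by_cases hv0 : v = 0
    · subst hv0
      rw [a12_two (a + n) le_rfl hR (c1 := 0) (c2 := 0)]
      · rw [map_zero, zero_pow (Nat.succ_ne_zero _)]
        ring
      · intro r h1 h2
        linarith
      · intro r hr hrR
        rw [a12_circ _ _ hr, hz]
        have h3 : a12K r 0 (-(n : ℤ) - 1) = 0 := by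
          have h4 := a12_pw hr (-(n : ℤ) - 2) (by omega)
          rw [a12K]
          have h5 : ∮ w in C(0, r), (w : ℂ) ^ (-(n : ℤ) - 1) * (0 - w)⁻¹ =
              ∮ w in C(0, r), -1 * (w : ℂ) ^ (-(n : ℤ) - 2) := by
            apply circleIntegral.integral_congr hr.le
            intro w hw
            have hwr : ‖w‖ = r := by rwa [mem_sphere_zero_iff_norm] at hw
            have hw0 : w ≠ 0 := by
              rintro rfl
              rw [norm_zero] at hwr
              exact hr.ne hwr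
            show w ^ (-(n : ℤ) - 1) * (0 - w)⁻¹ = -1 * w ^ (-(n : ℤ) - 2)
            rw [show (-(n : ℤ) - 2) = (-(n : ℤ) - 1) - 1 by ring, zpow_sub_one₀ hw0 (-(n : ℤ) - 1),
              zero_sub, inv_neg]
            ring
          rw [h5, circleIntegral.integral_const_mul, h4, mul_zero]
        rw [h3]
        ring
    · have hvp : v ^ (n + 1) ≠ 0 := pow_ne_zero _ hv0
      rw [a12_two (a + n) (norm_nonneg v) hv (c1 := 2 * π / v ^ (n + 1)) (c2 := 0)]
      · rw [a12_norm, show a + n + 1 = a + (n + 1) by ring, pow_add v a (n + 1)]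
        push_cast at hb hb1 ⊢
        field_simp
        ring
      · intro r hr hrv
        rw [a12_circ _ _ hr, hz]
        have h3 := a12_Kdn hr hrv.ne n
        rw [a12_K0out hr hrv, zero_add] at h3
        have h4 : a12K r v (-(n : ℤ) - 1) = 2 * π * I / v ^ (n + 1) := by
          rw [← h3]
          field_simp
        rw [h4]
        field_simp
      · intro r hr hrR
        have hr0 : 0 < r := lt_of_le_of_lt (norm_nonneg v) hr
        rw [a12_circ _ _ hr0, hz]
        have h3 := a12_Kdn hr0 hr.ne' n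
        rw [a12_K0in hr0 hr, neg_add_cancel] at h3
        have h4 : a12K r v (-(n : ℤ) - 1) = 0 := by
          rcases mul_eq_zero.1 h3 with h | h
          · exact absurd h hvp
          · exact h
        rw [h4]
        ring

end Pool.Agent.H58.BJ
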