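import Pool.Agent.H58.BJ.Wind
import Pool.Agent.H58.BJ.CaMo
import Pool.Agent.H58.BJ.ArInt

/-!
# Project BJ, row A14: Green's formula for the image of a circle under `V/ζ`
-/

set_option autoImplicit false

namespace Pool.Agent.H58.BJ

open Complex Metric Set MeasureTheory
open scoped Real ComplexConjugate

theorem a14_d (p : Polynomial ℂ) (N : ℕ) (hN : p.natDegree < N) (w : ℂ) :
    p.derivative.eval w = ∑ a ∈ Finset.range N, (((a : ℂ) + 1) * p.coeff (a + 1)) * w ^ a := by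
  rw [Polynomial.eval_eq_sum_range' (n := N)
    (lt_of_le_of_lt (Polynomial.natDegree_derivative_le p) (by omega))]
  refine Finset.sum_congr rfl fun a _ => ?_
  rw [Polynomial.coeff_derivative]
  ring

theorem a14_p (p : Polynomial ℂ) (N : ℕ) (hN : p.natDegree < N) (w : ℂ) :
    p.eval w - p.eval 0 = ∑ b ∈ Finset.range N, p.coeff (b + 1) * w ^ (b + 1) := by
  rw [Polynomial.eval_eq_sum_range' (n := N + 1) (by omega) w, Finset.sum_range_succ',
    ← Polynomial.coeff_zero_eq_eval_zero]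
  simp

theorem a14_sum (p : Polynomial ℂ) {R0 : ℝ} (hR0 : 0 < R0) : ∃ Q : Polynomial ℂ, ∀ v : ℂ,
    ‖v‖ < R0 →
    ∫ w in ball (0 : ℂ) R0, (p.derivative.eval w * conj (p.derivative.eval w)) / (v - w) =
      π * (p.derivative.eval v * conj (p.eval v - p.eval 0)) - Q.eval v := by
  set N := p.natDegree + 1 with hNdef
  have hN : p.natDegree < N := by omega
  set c : ℕ → ℂ := fun b => p.coeff (b + 1) with hc
  refine ⟨∑ a ∈ Finset.range N, ∑ b ∈ Finset.range N,
    Polynomial.C ((((a : ℂ) + 1) * c a) * conj (((b : ℂ) + 1) * c b) * (π / ((b : ℂ) + 1))) *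
      (if b + 1 ≤ a then Polynomial.C ((R0 : ℂ) ^ (2 * b + 2)) * Polynomial.X ^ (a - b - 1)
        else 0), fun v hv => ?_⟩
  have h1 : ∀ w : ℂ, (p.derivative.eval w * conj (p.derivative.eval w)) / (v - w) =
      ∑ a ∈ Finset.range N, ∑ b ∈ Finset.range N,
        ((((a : ℂ) + 1) * c a) * conj (((b : ℂ) + 1) * c b)) * a12g a b v w := by
    intro w
    rw [a14_d p N hN w, map_sum, Finset.sum_mul_sum, Finset.sum_div]
    refine Finset.sum_congr rfl fun a _ => ?_
    rw [Finset.sum_div]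
    refine Finset.sum_congr rfl fun b _ => ?_
    simp only [a12g, map_mul, map_pow, hc]
    ring
  simp_rw [h1]
  have hint : ∀ a b : ℕ, Integrable (fun w => ((((a : ℂ) + 1) * c a) *
      conj (((b : ℂ) + 1) * c b)) * a12g a b v w) (volume.restrict (ball (0 : ℂ) R0)) :=
    fun a b => (a12_int a b v hR0).const_mul _
  rw [integral_finsetSum _ (fun a _ => integrable_finsetSum _ fun b _ => hint a b)]
  have h2 : ∀ a ∈ Finset.range N, ∫ w in ball (0 : ℂ) R0, ∑ b ∈ Finset.range N,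
      ((((a : ℂ) + 1) * c a) * conj (((b : ℂ) + 1) * c b)) * a12g a b v w =
      ∑ b ∈ Finset.range N, ((((a : ℂ) + 1) * c a) * conj (((b : ℂ) + 1) * c b)) *
        (π / ((b : ℂ) + 1) * (v ^ a * conj v ^ (b + 1) -
        if b + 1 ≤ a then (R0 : ℂ) ^ (2 * b + 2) * v ^ (a - b - 1) else 0)) := by
    intro a _
    rw [integral_finsetSum _ fun b _ => hint a b]
    refine Finset.sum_congr rfl fun b _ => ?_
    rw [integral_const_mul]
    congr 1
    exact cauchy_mono a b hv
  rw [Finset.sum_congr rfl h2, a14_d p N hN v, a14_p p N hN v, map_sum, Finset.sum_mul_sum,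
    Finset.mul_sum, Polynomial.eval_finsetSum, ← Finset.sum_sub_distrib]
  refine Finset.sum_congr rfl fun a _ => ?_
  rw [Finset.mul_sum, Polynomial.eval_finsetSum, ← Finset.sum_sub_distrib]
  refine Finset.sum_congr rfl fun b _ => ?_
  have hb : ((b : ℂ) + 1) ≠ 0 := by
    have := Nat.cast_add_one_ne_zero (R := ℂ) b
    exact this
  have hcb : conj ((b : ℂ) + 1) = (b : ℂ) + 1 := by
    rw [map_add, map_one, Complex.conj_natCast]
  have h3 : Polynomial.eval v (if b + 1 ≤ a then Polynomial.C ((R0 : ℂ) ^ (2 * b + 2)) *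
      Polynomial.X ^ (a - b - 1) else 0) =
      if b + 1 ≤ a then (R0 : ℂ) ^ (2 * b + 2) * v ^ (a - b - 1) else 0 := by
    split_ifs <;> simp
  rw [Polynomial.eval_mul, Polynomial.eval_C, h3, map_mul, map_mul, map_pow, hcb]
  generalize (if b + 1 ≤ a then (R0 : ℂ) ^ (2 * b + 2) * v ^ (a - b - 1) else 0) = T
  simp only [hc]
  field_simp

theorem a14_anti (Q : Polynomial ℂ) : ∃ S : Polynomial ℂ, S.derivative = Q := by
  induction Q using Polynomial.induction_on' with
  | add P Q hP hQ =>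
    obtain ⟨S, hS⟩ := hP
    obtain ⟨T, hT⟩ := hQ
    exact ⟨S + T, by rw [Polynomial.derivative_add, hS, hT]⟩
  | monomial k a =>
    refine ⟨Polynomial.monomial (k + 1) (a / ((k : ℂ) + 1)), ?_⟩
    have hk : ((k : ℂ) + 1) ≠ 0 := Nat.cast_add_one_ne_zero k
    rw [Polynomial.derivative_monomial, Nat.add_sub_cancel]
    congr 1
    push_cast
    field_simp

theorem a14_closed {V : ℂ → ℂ} (hV : DifferentiableOn ℂ V (ball 0 1)) {r : ℝ} (hr : 0 < r)
    (hr1 : r < 1) (Q : Polynomial ℂ) :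
    (∮ ζ in C(0, r), deriv (fun ζ => V ζ / ζ) ζ * Q.eval (V ζ / ζ)) = 0 := by
  obtain ⟨S, hS⟩ := a14_anti Q
  have hW := a13_diff hV
  apply circleIntegral.integral_eq_zero_of_hasDerivWithinAt (f := fun ζ => S.eval (V ζ / ζ)) hr.le
  intro ζ hζ
  have hm := a13_mem hr hr1 (ζ := ζ) (by simpa using hζ)
  have h1 : HasDerivAt (fun ζ => V ζ / ζ) (deriv (fun ζ => V ζ / ζ) ζ) ζ :=
    (hW.differentiableAt (a13_open.mem_nhds hm)).hasDerivAt
  have h0 : HasDerivAt (fun x => S.eval x) (Q.eval (V ζ / ζ)) (V ζ / ζ) := by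
    rw [← hS]
    exact S.hasDerivAt _
  have h2 := HasDerivAt.comp (h₂ := fun x => S.eval x) (h := fun ζ => V ζ / ζ) ζ h0 h1
  rw [mul_comm]
  exact h2.hasDerivWithinAt

theorem green {V : ℂ → ℂ} (hV : DifferentiableOn ℂ V (ball 0 1)) (hV0 : V 0 = 1)
    (hi : InjOn (fun ζ => V ζ / ζ) {ζ | 0 < ‖ζ‖ ∧ ‖ζ‖ < 1}) {r : ℝ} (hr : 0 < r) (hr1 : r < 1)
    (p : Polynomial ℂ) :
    (∫ θ in (0 : ℝ)..(2 * π), conj (p.eval (V (circleMap 0 r θ) / circleMap 0 r θ)) *
      (circleMap 0 r θ * (p.derivative.eval (V (circleMap 0 r θ) / circleMap 0 r θ) *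
        deriv (fun ζ => V ζ / ζ) (circleMap 0 r θ)))).re ≤ 0 := by
  have hW := a13_diff hV
  have hmem : ∀ ζ ∈ sphere (0 : ℂ) r, ζ ∈ ball (0 : ℂ) 1 ∩ {0}ᶜ := fun ζ hζ =>
    a13_mem hr hr1 (by simpa using hζ)
  have hWc : ContinuousOn (fun ζ => V ζ / ζ) (sphere (0 : ℂ) r) := hW.continuousOn.mono hmem
  have hdc : ContinuousOn (deriv (fun ζ => V ζ / ζ)) (sphere (0 : ℂ) r) :=
    (hW.deriv a13_open).continuousOn.mono hmem
  obtain ⟨R0, hR0pos, hR0⟩ : ∃ R0 : ℝ, 0 < R0 ∧ ∀ ζ, ‖ζ‖ = r → ‖V ζ / ζ‖ < R0 := by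
    obtain ⟨C, hC⟩ := (isCompact_sphere (0 : ℂ) r).exists_bound_of_continuousOn hWc
    refine ⟨|C| + 1, by positivity, fun ζ hζ => ?_⟩
    have := hC ζ (by simpa using hζ)
    have h2 := le_abs_self C
    linarith
  obtain ⟨Q, hQ⟩ := a14_sum p hR0pos
  have hqc : Continuous (fun w => p.derivative.eval w * conj (p.derivative.eval w)) :=
    p.derivative.continuous.mul (Complex.continuous_conj.comp p.derivative.continuous)
  have h1 := area_int hV hr hr1 hR0 hqc
  -- the left side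
  have h2 : (∫ w in ball (0 : ℂ) R0, (p.derivative.eval w * conj (p.derivative.eval w)) *
      ∮ ζ in C(0, r), deriv (fun ζ => V ζ / ζ) ζ / (V ζ / ζ - w)).im ≤ 0 := by
    by_cases hF : Integrable (fun w => (p.derivative.eval w * conj (p.derivative.eval w)) *
      ∮ ζ in C(0, r), deriv (fun ζ => V ζ / ζ) ζ / (V ζ / ζ - w))
        (volume.restrict (ball (0 : ℂ) R0))
    · have h3 := integral_im hF
      have h4 : (∫ w in ball (0 : ℂ) R0, (p.derivative.eval w *
          conj (p.derivative.eval w)) *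
            ∮ ζ in C(0, r), deriv (fun ζ => V ζ / ζ) ζ / (V ζ / ζ - w)).im =
          ∫ w in ball (0 : ℂ) R0, ((p.derivative.eval w * conj (p.derivative.eval w)) *
            ∮ ζ in C(0, r), deriv (fun ζ => V ζ / ζ) ζ / (V ζ / ζ - w)).im := h3.symm
      rw [h4]
      apply integral_nonpos_of_ae
      have h5 : ∀ᵐ w : ℂ, w ∉ (fun ζ => V ζ / ζ) '' sphere (0 : ℂ) r :=
        measure_eq_zero_iff_ae_notMem.1 (null_curve hV hr hr1)
      filter_upwards [ae_restrict_of_ae h5] with w hw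
      obtain ⟨n, hn, hn2⟩ := wind hV hV0 hi hr hr1 (w := w) (fun ζ hζ hζw =>
        hw ⟨ζ, by simpa using hζ, hζw⟩)
      rw [hn2, Complex.mul_conj]
      have h6 : ((normSq (p.derivative.eval w) : ℝ) : ℂ) * (2 * π * I * n) =
          ((normSq (p.derivative.eval w) * (2 * π) * n : ℝ) : ℂ) * I := by
        push_cast; ring
      rw [h6, Complex.mul_I_im, Complex.ofReal_re]
      have h7 : 0 ≤ normSq (p.derivative.eval w) * (2 * π) :=
        mul_nonneg (normSq_nonneg _) (by positivity)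
      exact mul_nonpos_of_nonneg_of_nonpos h7 hn
    · rw [integral_undef hF]
      simp
  rw [h1] at h2
  -- the right side
  set G : ℂ → ℂ := fun ζ => conj (p.eval (V ζ / ζ)) * (p.derivative.eval (V ζ / ζ) *
    deriv (fun ζ => V ζ / ζ) ζ) with hG
  set Q2 : Polynomial ℂ := Polynomial.C (π * conj (p.eval 0)) * p.derivative + Q with hQ2
  have h3 : (∮ ζ in C(0, r), deriv (fun ζ => V ζ / ζ) ζ *
      ∫ w in ball (0 : ℂ) R0, (p.derivative.eval w * conj (p.derivative.eval w)) /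
        (V ζ / ζ - w)) =
      ∮ ζ in C(0, r), (π * G ζ - deriv (fun ζ => V ζ / ζ) ζ * Q2.eval (V ζ / ζ)) := by
    apply circleIntegral.integral_congr hr.le
    intro ζ hζ
    have hζ' : ‖ζ‖ = r := by simpa using hζ
    simp only
    rw [hQ _ (hR0 ζ hζ'), hG, hQ2, Polynomial.eval_add, Polynomial.eval_mul, Polynomial.eval_C,
      map_sub]
    ring
  have hpc : ContinuousOn (fun ζ => p.eval (V ζ / ζ)) (sphere (0 : ℂ) r) :=
    p.continuous.comp_continuousOn hWc
  have hpd : ContinuousOn (fun ζ => p.derivative.eval (V ζ / ζ)) (sphere (0 : ℂ) r) :=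
    p.derivative.continuous.comp_continuousOn hWc
  have hQ2c : ContinuousOn (fun ζ => Q2.eval (V ζ / ζ)) (sphere (0 : ℂ) r) :=
    Q2.continuous.comp_continuousOn hWc
  have hGc : ContinuousOn G (sphere (0 : ℂ) r) :=
    (Complex.continuous_conj.comp_continuousOn hpc).mul (hpd.mul hdc)
  have h4 : (∮ ζ in C(0, r), (π * G ζ - deriv (fun ζ => V ζ / ζ) ζ * Q2.eval (V ζ / ζ))) =
      π * ∮ ζ in C(0, r), G ζ := by
    have e1 : CircleIntegrable (fun ζ => π * G ζ) 0 r :=
      (continuousOn_const.mul hGc).circleIntegrable hr.le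
    have e2 : CircleIntegrable (fun ζ => deriv (fun ζ => V ζ / ζ) ζ * Q2.eval (V ζ / ζ)) 0 r :=
      (hdc.mul hQ2c).circleIntegrable hr.le
    have e3 := circleIntegral.integral_sub e1 e2
    rw [a14_closed hV hr hr1 Q2, sub_zero] at e3
    rw [e3]
    simp
  have h5 : (∮ ζ in C(0, r), G ζ) = I * ∫ θ in (0 : ℝ)..(2 * π),
      conj (p.eval (V (circleMap 0 r θ) / circleMap 0 r θ)) *
      (circleMap 0 r θ * (p.derivative.eval (V (circleMap 0 r θ) / circleMap 0 r θ) *
        deriv (fun ζ => V ζ / ζ) (circleMap 0 r θ))) := by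
    rw [circleIntegral, ← intervalIntegral.integral_const_mul]
    apply intervalIntegral.integral_congr
    intro θ _
    simp only [deriv_circleMap, smul_eq_mul, hG]
    ring
  rw [h3, h4, h5] at h2
  set J := ∫ θ in (0 : ℝ)..(2 * π),
      conj (p.eval (V (circleMap 0 r θ) / circleMap 0 r θ)) *
      (circleMap 0 r θ * (p.derivative.eval (V (circleMap 0 r θ) / circleMap 0 r θ) *
        deriv (fun ζ => V ζ / ζ) (circleMap 0 r θ))) with hJ
  have h6 : ((π : ℂ) * (I * J)).im = π * J.re := by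
    simp
  rw [h6] at h2
  by_contra hcon
  push Not at hcon
  have := mul_pos Real.pi_pos hcon
  linarith

end Pool.Agent.H58.BJ
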