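import Pool.Agent.H58.BJ.Def

/-! Project BJ, row A15: Parseval inequality (MP_f801da_an) -/

set_option autoImplicit false

namespace Pool.Agent.H58.BJ

open Complex Metric Set MeasureTheory
open scoped Real ComplexConjugate

theorem a15_trig (k m : ℕ) :
    ∫ θ in (0 : ℝ)..(2 * π), conj (cexp ((m : ℂ) * θ * I)) * cexp ((k : ℂ) * θ * I) =
      if k = m then 2 * (π : ℂ) else 0 := by
  have e1 : ∀ θ : ℝ, conj (cexp ((m : ℂ) * θ * I)) * cexp ((k : ℂ) * θ * I) =
      cexp ((((k : ℂ) - m) * I) * θ) := by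
    intro θ
    rw [← Complex.exp_conj, ← Complex.exp_add]
    congr 1
    simp only [map_mul, Complex.conj_natCast, Complex.conj_ofReal, Complex.conj_I]
    ring
  simp only [e1]
  split_ifs with h
  · subst h
    simp
  · have hc : (((k : ℂ) - m) * I) ≠ 0 := by
      refine mul_ne_zero ?_ I_ne_zero
      rw [sub_ne_zero]
      exact_mod_cast h
    rw [integral_exp_mul_complex hc]
    have h1 : cexp ((((k : ℂ) - m) * I) * ((2 * π : ℝ) : ℂ)) = 1 := by
      have : (((k : ℂ) - m) * I) * ((2 * π : ℝ) : ℂ) = (((k : ℤ) - (m : ℤ) : ℤ) : ℂ) *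
          (2 * π * I) := by push_cast; ring
      rw [this, Complex.exp_int_mul_two_pi_mul_I]
    rw [h1]
    simp

theorem a15_sum {g : ℝ → ℂ} (hg : Continuous g) {K : ℝ} (hK : ∀ θ, ‖g θ‖ ≤ K) {b : ℕ → ℂ}
    (hb : Summable (fun m => ‖b m‖)) {B : ℝ → ℂ}
    (hB : ∀ θ : ℝ, HasSum (fun m : ℕ => b m * cexp ((m : ℂ) * θ * I)) (B θ)) :
    HasSum (fun m : ℕ => ∫ θ in (0 : ℝ)..(2 * π), g θ * (b m * cexp ((m : ℂ) * θ * I)))
      (∫ θ in (0 : ℝ)..(2 * π), g θ * B θ) := by
  refine intervalIntegral.hasSum_integral_of_dominated_convergence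
    (bound := fun m _ => K * ‖b m‖) ?_ ?_ ?_ ?_ ?_
  · intro m
    exact Continuous.aestronglyMeasurable (by fun_prop)
  · intro m
    refine Filter.Eventually.of_forall fun θ _ => ?_
    rw [norm_mul, norm_mul]
    have h1 : ‖cexp ((m : ℂ) * θ * I)‖ = 1 := by
      have : (m : ℂ) * θ * I = ((m * θ : ℝ) : ℂ) * I := by push_cast; ring
      rw [this, Complex.norm_exp_ofReal_mul_I]
    rw [h1, mul_one]
    exact mul_le_mul_of_nonneg_right (hK θ) (norm_nonneg _)
  · exact Filter.Eventually.of_forall fun _ _ => hb.mul_left K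
  · simp only [tsum_mul_left]
    exact intervalIntegrable_const
  · exact Filter.Eventually.of_forall fun θ _ => (hB θ).mul_left (g θ)

theorem a15_norm_exp (m : ℕ) (θ : ℝ) : ‖cexp ((m : ℂ) * θ * I)‖ = 1 := by
  have : (m : ℂ) * θ * I = ((m * θ : ℝ) : ℂ) * I := by push_cast; ring
  rw [this, Complex.norm_exp_ofReal_mul_I]

theorem a15_parseval {a b : ℕ → ℂ} (ha : Summable (fun m => ‖a m‖))
    (hb : Summable (fun m => ‖b m‖)) {A B : ℝ → ℂ} (hAc : Continuous A)
    (hA : ∀ θ : ℝ, HasSum (fun m : ℕ => a m * cexp ((m : ℂ) * θ * I)) (A θ))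
    (hB : ∀ θ : ℝ, HasSum (fun m : ℕ => b m * cexp ((m : ℂ) * θ * I)) (B θ)) :
    HasSum (fun m : ℕ => 2 * (π : ℂ) * (b m * conj (a m)))
      (∫ θ in (0 : ℝ)..(2 * π), conj (A θ) * B θ) := by
  -- the coefficients of A
  have h1 : ∀ m : ℕ, ∫ θ in (0 : ℝ)..(2 * π), conj (cexp ((m : ℂ) * θ * I)) * A θ =
      2 * (π : ℂ) * a m := by
    intro m
    have h2 := a15_sum (g := fun θ => conj (cexp ((m : ℂ) * θ * I))) (by fun_prop) (K := 1)
      (fun θ => by rw [RCLike.norm_conj, a15_norm_exp]) ha hA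
    have h3 : ∀ k : ℕ, ∫ θ in (0 : ℝ)..(2 * π), conj (cexp ((m : ℂ) * θ * I)) *
        (a k * cexp ((k : ℂ) * θ * I)) = if k = m then 2 * (π : ℂ) * a m else 0 := by
      intro k
      have e1 : ∀ θ : ℝ, conj (cexp ((m : ℂ) * θ * I)) * (a k * cexp ((k : ℂ) * θ * I)) =
          a k * (conj (cexp ((m : ℂ) * θ * I)) * cexp ((k : ℂ) * θ * I)) := fun θ => by ring
      simp only [e1]
      rw [intervalIntegral.integral_const_mul, a15_trig]
      split_ifs with h
      · subst h; ring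
      · simp
    simp only [h3] at h2
    exact h2.unique (hasSum_ite_eq m _)
  have hAb : ∀ θ, ‖conj (A θ)‖ ≤ ∑' m, ‖a m‖ := by
    intro θ
    rw [RCLike.norm_conj, ← (hA θ).tsum_eq]
    refine (norm_tsum_le_tsum_norm ?_).trans (le_of_eq ?_)
    · simpa [norm_mul, a15_norm_exp] using ha
    · simp only [norm_mul, a15_norm_exp, mul_one]
  have h4 := a15_sum (g := fun θ => conj (A θ)) (by fun_prop) hAb hb hB
  have h5 : ∀ m : ℕ, ∫ θ in (0 : ℝ)..(2 * π), conj (A θ) * (b m * cexp ((m : ℂ) * θ * I)) =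
      2 * (π : ℂ) * (b m * conj (a m)) := by
    intro m
    have e1 : ∀ θ : ℝ, conj (A θ) * (b m * cexp ((m : ℂ) * θ * I)) =
        b m * conj (conj (cexp ((m : ℂ) * θ * I)) * A θ) := fun θ => by
      rw [map_mul, Complex.conj_conj]; ring
    simp only [e1]
    rw [intervalIntegral.integral_const_mul]
    have e2 : ∫ θ in (0 : ℝ)..(2 * π), conj (conj (cexp ((m : ℂ) * θ * I)) * A θ) =
        conj (∫ θ in (0 : ℝ)..(2 * π), conj (cexp ((m : ℂ) * θ * I)) * A θ) := by
      rw [intervalIntegral.integral_of_le (by positivity),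
        intervalIntegral.integral_of_le (by positivity)]
      exact integral_conj
    rw [e2, h1]
    simp only [map_mul, Complex.conj_ofReal, map_ofNat]
    ring
  simp only [h5] at h4
  exact h4

theorem a15_circ (t θ : ℝ) : circleMap 0 t θ = (t : ℂ) * cexp (θ * I) := by
  simp [circleMap]

theorem a15_pow (t θ : ℝ) (m : ℕ) :
    (circleMap 0 t θ) ^ m = (t : ℂ) ^ m * cexp ((m : ℂ) * θ * I) := by
  rw [a15_circ, mul_pow, ← Complex.exp_nat_mul]
  congr 2
  ring

theorem a15_taylor {q : ℂ → ℂ} (hq : DifferentiableOn ℂ q (ball 0 1)) {z : ℂ}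
    (hz : z ∈ ball (0 : ℂ) 1) : HasSum (fun m : ℕ => co q m * z ^ m) (q z) := by
  have h := Complex.hasSum_taylorSeries_on_ball hq hz
  have e : (fun m : ℕ => co q m * z ^ m) =
      fun n => (n.factorial : ℂ)⁻¹ • (z - 0) ^ n • iteratedDeriv n q 0 := by
    ext n
    unfold co
    simp only [smul_eq_mul, sub_zero]
    ring
  rw [e]
  exact h

theorem a15_taylor' {q : ℂ → ℂ} (hq : DifferentiableOn ℂ q (ball 0 1)) {z : ℂ}
    (hz : z ∈ ball (0 : ℂ) 1) :
    HasSum (fun m : ℕ => (m : ℂ) * co q m * z ^ m) (z * deriv q z) := by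
  have hd : DifferentiableOn ℂ (deriv q) (ball 0 1) := hq.deriv isOpen_ball
  have h := (a15_taylor hd hz).mul_left z
  have e : ∀ n : ℕ, z * (co (deriv q) n * z ^ n) =
      (((n + 1 : ℕ) : ℂ)) * co q (n + 1) * z ^ (n + 1) := by
    intro n
    unfold co
    rw [← iteratedDeriv_succ', Nat.factorial_succ]
    have h1 : ((n : ℂ) + 1) ≠ 0 := by exact_mod_cast Nat.succ_ne_zero n
    have h2 : (n.factorial : ℂ) ≠ 0 := by exact_mod_cast Nat.factorial_ne_zero n
    push_cast
    field_simp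
    ring
  simp only [e] at h
  rw [← hasSum_nat_add_iff' 1]
  simpa using h

theorem parseval_le {q : ℂ → ℂ} (hq : DifferentiableOn ℂ q (ball 0 1)) (c : ℝ)
    {t : ℝ} (ht : 0 < t) (ht1 : t < 1) (N : ℕ) (hN : c ≤ 2 * N) :
    2 * π * ∑ m ∈ Finset.range N, (2 * (m : ℝ) - c) * ‖co q m‖ ^ 2 * t ^ (2 * m) ≤
    (∫ θ in (0 : ℝ)..(2 * π), conj (q (circleMap 0 t θ)) *
      (2 * (circleMap 0 t θ * deriv q (circleMap 0 t θ)) - c * q (circleMap 0 t θ))).re := by
  have hmem : ∀ θ : ℝ, circleMap 0 t θ ∈ ball (0 : ℂ) 1 := by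
    intro θ
    rw [mem_ball_zero_iff, norm_circleMap_zero, abs_of_pos ht]
    exact ht1
  set a : ℕ → ℂ := fun m => co q m * (t : ℂ) ^ m with ha
  set b : ℕ → ℂ := fun m => (2 * (m : ℂ) - c) * co q m * (t : ℂ) ^ m with hb
  have hA : ∀ θ : ℝ, HasSum (fun m : ℕ => a m * cexp ((m : ℂ) * θ * I))
      (q (circleMap 0 t θ)) := by
    intro θ
    have h := a15_taylor hq (hmem θ)
    have e : (fun m : ℕ => co q m * (circleMap 0 t θ) ^ m) =
        fun m : ℕ => a m * cexp ((m : ℂ) * θ * I) := by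
      ext m
      rw [a15_pow, ha]
      ring
    rw [e] at h
    exact h
  have hB : ∀ θ : ℝ, HasSum (fun m : ℕ => b m * cexp ((m : ℂ) * θ * I))
      (2 * (circleMap 0 t θ * deriv q (circleMap 0 t θ)) - c * q (circleMap 0 t θ)) := by
    intro θ
    have h := ((a15_taylor' hq (hmem θ)).mul_left 2).sub ((a15_taylor hq (hmem θ)).mul_left (c : ℂ))
    have e : (fun m : ℕ => 2 * ((m : ℂ) * co q m * (circleMap 0 t θ) ^ m) -
        (c : ℂ) * (co q m * (circleMap 0 t θ) ^ m)) =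
        fun m : ℕ => b m * cexp ((m : ℂ) * θ * I) := by
      ext m
      rw [a15_pow, hb]
      ring
    rw [e] at h
    exact h
  have sa : Summable (fun m => ‖a m‖) := by
    have h := (hA 0).summable.norm
    simpa [norm_mul, a15_norm_exp] using h
  have sb : Summable (fun m => ‖b m‖) := by
    have h := (hB 0).summable.norm
    simpa [norm_mul, a15_norm_exp] using h
  have hc : Continuous (fun θ : ℝ => q (circleMap 0 t θ)) :=
    hq.continuousOn.comp_continuous (continuous_circleMap 0 t) hmem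
  have h := a15_parseval sa sb hc hA hB
  have h2 := Complex.hasSum_re h
  have e : ∀ m : ℕ, (2 * (π : ℂ) * (b m * conj (a m))).re =
      2 * π * ((2 * (m : ℝ) - c) * ‖co q m‖ ^ 2 * t ^ (2 * m)) := by
    intro m
    have e1 : b m * conj (a m) = (((2 * (m : ℝ) - c) * ‖co q m‖ ^ 2 * t ^ (2 * m) : ℝ) : ℂ) := by
      have e2 : co q m * conj (co q m) = ((‖co q m‖ ^ 2 : ℝ) : ℂ) := by
        rw [Complex.mul_conj, Complex.normSq_eq_norm_sq]
      simp only [ha, hb, map_mul, map_pow, Complex.conj_ofReal]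
      calc (2 * (m : ℂ) - c) * co q m * (t : ℂ) ^ m * (conj (co q m) * (t : ℂ) ^ m)
          = (2 * (m : ℂ) - c) * (co q m * conj (co q m)) * (t : ℂ) ^ (2 * m) := by ring
        _ = _ := by rw [e2]; push_cast; ring
    rw [e1]
    have e3 : (2 * (π : ℂ) * (((2 * (m : ℝ) - c) * ‖co q m‖ ^ 2 * t ^ (2 * m) : ℝ) : ℂ)) =
        ((2 * π * ((2 * (m : ℝ) - c) * ‖co q m‖ ^ 2 * t ^ (2 * m)) : ℝ) : ℂ) := by
      push_cast; ring
    rw [e3, Complex.ofReal_re]
  simp only [e] at h2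
  rw [Finset.mul_sum]
  refine sum_le_hasSum _ (fun m hm => ?_) h2
  have hmN : (N : ℝ) ≤ m := by
    have : ¬ m < N := fun hlt => hm (Finset.mem_range.mpr hlt)
    exact_mod_cast not_lt.mp this
  have h3 : 0 ≤ 2 * (m : ℝ) - c := by linarith
  have := Real.pi_pos
  positivity

end Pool.Agent.H58.BJ
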