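import Pool.Agent.H58.BJ.Def
import Pool.Agent.H58.BJ.Pars
import Pool.Agent.H58.BJ.Co
import Pool.Agent.H58.BJ.Green

/-! Project BJ, row A16: the area inequalities (MP_f801da_an) -/

set_option autoImplicit false

namespace Pool.Agent.H58.BJ

open Complex Metric Set MeasureTheory Filter
open scoped Real ComplexConjugate Topology

/-- the polynomial in `u` -/
private noncomputable def a16_q (u : ℂ → ℂ) (a b : ℂ) (s : ℂ) : ℂ :=
  a * (s * u s) + b * (u s * (u s * u s))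

private theorem a16_qdiff {u : ℂ → ℂ} (hu : DifferentiableOn ℂ u (ball 0 1)) (a b : ℂ) :
    DifferentiableOn ℂ (a16_q u a b) (ball 0 1) := by
  unfold a16_q
  exact ((differentiableOn_id.mul hu).const_mul a).add ((hu.mul (hu.mul hu)).const_mul b)

private theorem a16_co_add {F H : ℂ → ℂ} (hF : DifferentiableOn ℂ F (ball 0 1))
    (hH : DifferentiableOn ℂ H (ball 0 1)) (a b : ℂ) (n : ℕ) :
    co (fun z => a * F z + b * H z) n = a * co F n + b * co H n := by
  have h1 : DifferentiableOn ℂ (fun z => a * F z) (ball 0 1) := hF.const_mul a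
  have h2 : DifferentiableOn ℂ (fun z => b * H z) (ball 0 1) := hH.const_mul b
  have hc : ∀ {G : ℂ → ℂ}, DifferentiableOn ℂ G (ball 0 1) → ContDiffAt ℂ n G 0 := fun h =>
    ((h.analyticOnNhd isOpen_ball) 0 (by simp)).contDiffAt
  unfold co
  have e1 : iteratedDeriv n (fun z => a * F z + b * H z) 0 =
      iteratedDeriv n (fun z => a * F z) 0 + iteratedDeriv n (fun z => b * H z) 0 :=
    iteratedDeriv_fun_add (hc h1) (hc h2)
  have e2 : iteratedDeriv n (fun z => a * F z) 0 = a * iteratedDeriv n F 0 := by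
    simp [iteratedDeriv_const_mul a (hc hF)]
  have e3 : iteratedDeriv n (fun z => b * H z) 0 = b * iteratedDeriv n H 0 := by
    simp [iteratedDeriv_const_mul b (hc hH)]
  rw [e1, e2, e3]
  ring

private theorem a16_co_q {u : ℂ → ℂ} (hu : DifferentiableOn ℂ u (ball 0 1)) (a b : ℂ) :
    co (a16_q u a b) 0 = b * dc (co u) 0 ∧
      ∀ n, co (a16_q u a b) (n + 1) = a * co u n + b * dc (co u) (n + 1) := by
  have hid : DifferentiableOn ℂ (fun s => s * u s) (ball 0 1) := differentiableOn_id.mul hu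
  have huu : DifferentiableOn ℂ (fun s => u s * u s) (ball 0 1) := hu.mul hu
  have huuu : DifferentiableOn ℂ (fun s => u s * (u s * u s)) (ball 0 1) := hu.mul huu
  have hq : ∀ n, co (a16_q u a b) n = a * co (fun s => s * u s) n +
      b * co (fun s => u s * (u s * u s)) n := fun n => a16_co_add hid huuu a b n
  have hd : ∀ n, co (fun s => u s * (u s * u s)) n = dc (co u) n := by
    intro n
    rw [co_mul hu huu n]
    unfold dc
    refine Finset.sum_congr rfl fun i _ => ?_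
    rw [co_mul hu hu (n - i)]
  constructor
  · rw [hq, hd, (co_id_mul hu 0).2]
    ring
  · intro n
    rw [hq, hd, (co_id_mul hu n).1]

private theorem a16_double {g : ℝ → ℂ} (hg : Function.Periodic g (2 * π)) (hc : Continuous g) :
    ∫ θ in (0 : ℝ)..(2 * π), g (2 * θ) = ∫ θ in (0 : ℝ)..(2 * π), g θ := by
  have h1 := hg.intervalIntegral_add_zsmul_eq 2 0 (fun t₁ t₂ => hc.intervalIntegrable t₁ t₂)
  have h2 : ∫ θ in (0 : ℝ)..(2 * π), g (2 * θ) =
      (2 : ℝ)⁻¹ • ∫ θ in (2 * 0 : ℝ)..(2 * (2 * π)), g θ :=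
    intervalIntegral.integral_comp_mul_left g two_ne_zero
  have h3 : (0 : ℝ) + (2 : ℤ) • (2 * π) = 2 * (2 * π) := by
    simp
  rw [h3] at h1
  rw [h2, mul_zero, h1, zero_add]
  simp only [zsmul_eq_mul, real_smul]
  push_cast
  ring

/-- the polynomial `a X + b X ^ 3` -/
private noncomputable def a16_p (a b : ℂ) : Polynomial ℂ :=
  Polynomial.C a * Polynomial.X + Polynomial.C b * Polynomial.X ^ 3

private theorem a16_main {u : ℂ → ℂ} (hu : DifferentiableOn ℂ u (ball 0 1)) (hu0 : u 0 = 1)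
    (hne : ∀ z ∈ ball (0 : ℂ) 1, u z ≠ 0)
    (hi : InjOn (fun z => z / u z ^ 2) (ball 0 1)) (a b : ℂ) {r : ℝ} (hr : 0 < r)
    (hr1 : r < 1) :
    (∫ θ in (0 : ℝ)..(2 * π), conj (a16_q u a b (circleMap 0 (r ^ 2) θ)) *
      (2 * (circleMap 0 (r ^ 2) θ * deriv (a16_q u a b) (circleMap 0 (r ^ 2) θ)) -
        ((3 : ℝ) : ℂ) * a16_q u a b (circleMap 0 (r ^ 2) θ))).re ≤ 0 := by
  have hsq : ∀ ζ : ℂ, ‖ζ‖ < 1 → ζ ^ 2 ∈ ball (0 : ℂ) 1 := by
    intro ζ hζ
    rw [mem_ball_zero_iff, norm_pow]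
    exact pow_lt_one₀ (norm_nonneg _) hζ two_ne_zero
  have hV : DifferentiableOn ℂ (fun ζ => u (ζ ^ 2)) (ball 0 1) := by
    refine hu.comp (g := u) (f := fun ζ : ℂ => ζ ^ 2) (differentiableOn_pow 2) ?_
    intro ζ hζ
    exact hsq ζ (by simpa using hζ)
  have hinj : InjOn (fun ζ => (fun ζ => u (ζ ^ 2)) ζ / ζ) {ζ : ℂ | 0 < ‖ζ‖ ∧ ‖ζ‖ < 1} := by
    rintro x ⟨hx0, hx1⟩ y ⟨hy0, hy1⟩ hxy
    have hx0' : x ≠ 0 := norm_pos_iff.1 hx0
    have hy0' : y ≠ 0 := norm_pos_iff.1 hy0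
    simp only at hxy
    have hux := hne _ (hsq x hx1)
    have huy := hne _ (hsq y hy1)
    have h1 : x ^ 2 / u (x ^ 2) ^ 2 = y ^ 2 / u (y ^ 2) ^ 2 := by
      have e : ∀ w v : ℂ, w ^ 2 / v ^ 2 = ((v / w) ^ 2)⁻¹ := by
        intro w v
        rw [div_pow, inv_div]
      rw [e, e, hxy]
    have h2 : x ^ 2 = y ^ 2 := hi (hsq x hx1) (hsq y hy1) h1
    rcases sq_eq_sq_iff_eq_or_eq_neg.1 h2 with h | h
    · exact h
    · exfalso
      rw [h2, h, div_neg, eq_comm, ← sub_eq_zero] at hxy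
      have h3 : 2 * (u (y ^ 2) / y) = 0 := by
        rw [← hxy]; ring
      have h4 : u (y ^ 2) / y ≠ 0 := div_ne_zero huy hy0'
      exact h4 (by simpa using h3)
  have hg := green hV (by simpa using hu0) hinj hr hr1 (a16_p a b)
  have hq := a16_qdiff hu a b
  -- pointwise identity
  have key : ∀ θ : ℝ, conj ((a16_p a b).eval ((fun ζ => u (ζ ^ 2)) (circleMap 0 r θ) /
      circleMap 0 r θ)) * (circleMap 0 r θ * ((a16_p a b).derivative.eval
        ((fun ζ => u (ζ ^ 2)) (circleMap 0 r θ) / circleMap 0 r θ) *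
        deriv (fun ζ => (fun ζ => u (ζ ^ 2)) ζ / ζ) (circleMap 0 r θ))) =
      (((r ^ 6)⁻¹ : ℝ) : ℂ) * (conj (a16_q u a b (circleMap 0 (r ^ 2) (2 * θ))) *
      (2 * (circleMap 0 (r ^ 2) (2 * θ) *
        deriv (a16_q u a b) (circleMap 0 (r ^ 2) (2 * θ))) -
        ((3 : ℝ) : ℂ) * a16_q u a b (circleMap 0 (r ^ 2) (2 * θ)))) := by
    intro θ
    have hs : circleMap 0 (r ^ 2) (2 * θ) = (circleMap 0 r θ) ^ 2 := by
      simp only [circleMap_zero]
      rw [mul_pow, ← Complex.exp_nat_mul]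
      push_cast
      congr 2
      ring
    set ζ := circleMap 0 r θ with hζ
    have hζn : ‖ζ‖ = r := by
      rw [hζ, norm_circleMap_zero, abs_of_pos hr]
    have hζ0 : ζ ≠ 0 := by
      rw [← norm_pos_iff, hζn]; exact hr
    have hζ1 : ‖ζ‖ < 1 := by rw [hζn]; exact hr1
    have hs1 := hsq ζ hζ1
    rw [hs]
    -- derivative of `W`
    have hWd : HasDerivAt (fun ζ => (fun ζ => u (ζ ^ 2)) ζ / ζ)
        ((deriv u (ζ ^ 2) * (2 * ζ) * ζ - u (ζ ^ 2) * 1) / ζ ^ 2) ζ := by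
      have h1 : HasDerivAt u (deriv u (ζ ^ 2)) (ζ ^ 2) :=
        (hu.differentiableAt (isOpen_ball.mem_nhds hs1)).hasDerivAt
      have h2 : HasDerivAt (fun ζ : ℂ => ζ ^ 2) (2 * ζ) ζ := by
        simpa using hasDerivAt_pow 2 ζ
      have h3 : HasDerivAt (fun ζ : ℂ => u (ζ ^ 2)) (deriv u (ζ ^ 2) * (2 * ζ)) ζ :=
        HasDerivAt.comp ζ h1 h2
      exact h3.div (hasDerivAt_id' ζ) hζ0
    have hqd : deriv (a16_q u a b) (ζ ^ 2) = a * (u (ζ ^ 2) + ζ ^ 2 * deriv u (ζ ^ 2)) +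
        b * (3 * u (ζ ^ 2) ^ 2 * deriv u (ζ ^ 2)) := by
      have h1 : HasDerivAt u (deriv u (ζ ^ 2)) (ζ ^ 2) :=
        (hu.differentiableAt (isOpen_ball.mem_nhds hs1)).hasDerivAt
      have h2 := (((hasDerivAt_id' (ζ ^ 2)).mul h1).const_mul a).add
        ((h1.mul (h1.mul h1)).const_mul b)
      have h3 : HasDerivAt (a16_q u a b) _ (ζ ^ 2) := h2
      rw [h3.deriv]
      simp only [Pi.mul_apply]
      ring
    rw [hWd.deriv, hqd]
    have e1 : (a16_p a b).eval (u (ζ ^ 2) / ζ) = (ζ ^ 3)⁻¹ * a16_q u a b (ζ ^ 2) := by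
      unfold a16_p a16_q
      simp only [Polynomial.eval_add, Polynomial.eval_mul, Polynomial.eval_C, Polynomial.eval_X,
        Polynomial.eval_pow]
      field_simp
    have e2 : (a16_p a b).derivative.eval (u (ζ ^ 2) / ζ) =
        a + 3 * b * (u (ζ ^ 2) / ζ) ^ 2 := by
      unfold a16_p
      simp
      ring
    simp only []
    rw [e1, e2, map_mul]
    have e3 : conj ((ζ ^ 3)⁻¹) * (ζ ^ 3)⁻¹ = (((r ^ 6)⁻¹ : ℝ) : ℂ) := by
      rw [map_inv₀, ← mul_inv, mul_comm, Complex.mul_conj, Complex.normSq_eq_norm_sq, norm_pow,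
        hζn]
      push_cast
      ring
    rw [← e3]
    unfold a16_q
    field_simp
    push_cast
    ring
  simp only [key] at hg
  rw [intervalIntegral.integral_const_mul, Complex.re_ofReal_mul] at hg
  have hpos : 0 < (r ^ 6)⁻¹ := by positivity
  have hg2 := nonpos_of_mul_nonpos_right hg hpos
  have hr21 : r ^ 2 < 1 := pow_lt_one₀ hr.le hr1 two_ne_zero
  have hcm : ∀ θ : ℝ, circleMap 0 (r ^ 2) θ ∈ ball (0 : ℂ) 1 := by
    intro θ
    rw [mem_ball_zero_iff, norm_circleMap_zero, abs_of_nonneg (by positivity)]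
    exact hr21
  have hcq : Continuous fun θ : ℝ => a16_q u a b (circleMap 0 (r ^ 2) θ) :=
    hq.continuousOn.comp_continuous (continuous_circleMap 0 (r ^ 2)) hcm
  have hcd : Continuous fun θ : ℝ => deriv (a16_q u a b) (circleMap 0 (r ^ 2) θ) :=
    (hq.deriv isOpen_ball).continuousOn.comp_continuous (continuous_circleMap 0 (r ^ 2)) hcm
  have hper : Function.Periodic (fun θ : ℝ => conj (a16_q u a b (circleMap 0 (r ^ 2) θ)) *
      (2 * (circleMap 0 (r ^ 2) θ * deriv (a16_q u a b) (circleMap 0 (r ^ 2) θ)) -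
        ((3 : ℝ) : ℂ) * a16_q u a b (circleMap 0 (r ^ 2) θ))) (2 * π) := by
    intro θ
    simp only [periodic_circleMap 0 (r ^ 2) θ]
  have hcont : Continuous (fun θ : ℝ => conj (a16_q u a b (circleMap 0 (r ^ 2) θ)) *
      (2 * (circleMap 0 (r ^ 2) θ * deriv (a16_q u a b) (circleMap 0 (r ^ 2) θ)) -
        ((3 : ℝ) : ℂ) * a16_q u a b (circleMap 0 (r ^ 2) θ))) := by
    have h0 := Complex.continuous_conj.comp hcq
    have h1 := continuous_circleMap 0 (r ^ 2)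
    exact h0.mul ((continuous_const.mul (h1.mul hcd)).sub (continuous_const.mul hcq))
  rw [← a16_double hper hcont]
  exact hg2

theorem slack_of {u : ℂ → ℂ} (hu : DifferentiableOn ℂ u (ball 0 1)) (hu0 : u 0 = 1)
    (hne : ∀ z ∈ ball (0 : ℂ) 1, u z ≠ 0)
    (hi : InjOn (fun z => z / u z ^ 2) (ball 0 1)) : Slack (co u) := by
  intro a b K
  have hq := a16_qdiff hu a b
  have hc := a16_co_q hu a b
  have h1 : ∀ t : ℝ, 0 < t → t < 1 →
      ∑ m ∈ Finset.range (K + 2), (2 * (m : ℝ) - 3) * ‖co (a16_q u a b) m‖ ^ 2 *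
        t ^ (2 * m) ≤ 0 := by
    intro t ht ht1
    have hs0 : 0 < Real.sqrt t := Real.sqrt_pos.2 ht
    have hs1 : Real.sqrt t < 1 := by
      rw [Real.sqrt_lt' one_pos]; simpa using ht1
    have h2 := a16_main hu hu0 hne hi a b hs0 hs1
    rw [Real.sq_sqrt ht.le] at h2
    have h3 := parseval_le hq 3 ht ht1 (K + 2) (by push_cast; linarith)
    have h4 := h3.trans h2
    exact nonpos_of_mul_nonpos_right h4 (by positivity)
  have h2 : ∑ m ∈ Finset.range (K + 2), (2 * (m : ℝ) - 3) * ‖co (a16_q u a b) m‖ ^ 2 *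
        (1 : ℝ) ^ (2 * m) ≤ 0 := by
    have hcont : Continuous fun t : ℝ => ∑ m ∈ Finset.range (K + 2),
        (2 * (m : ℝ) - 3) * ‖co (a16_q u a b) m‖ ^ 2 * t ^ (2 * m) := by
      fun_prop
    have ht : Tendsto (fun t : ℝ => ∑ m ∈ Finset.range (K + 2),
        (2 * (m : ℝ) - 3) * ‖co (a16_q u a b) m‖ ^ 2 * t ^ (2 * m)) (𝓝[<] 1)
        (𝓝 (∑ m ∈ Finset.range (K + 2), (2 * (m : ℝ) - 3) * ‖co (a16_q u a b) m‖ ^ 2 *
        (1 : ℝ) ^ (2 * m))) := (hcont.tendsto 1).mono_left nhdsWithin_le_nhds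
    refine le_of_tendsto ht ?_
    have : Ioo (0 : ℝ) 1 ∈ 𝓝[<] (1 : ℝ) := Ioo_mem_nhdsLT one_pos
    filter_upwards [this] with t ht
    exact h1 t ht.1 ht.2
  rw [Finset.sum_range_succ', Finset.sum_range_succ'] at h2
  simp only [one_pow, mul_one, Nat.cast_zero, zero_add, mul_zero, zero_sub] at h2
  rw [hc.1] at h2
  have e1 : co (a16_q u a b) (0 + 1) = a * co u 0 + b * dc (co u) 1 := hc.2 0
  have e2 : ∑ n ∈ Finset.range K, (2 * (n : ℝ) + 1) *
      ‖a * co u (n + 1) + b * dc (co u) (n + 2)‖ ^ 2 =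
      ∑ k ∈ Finset.range K, (2 * ((k + 1 + 1 : ℕ) : ℝ) - 3) *
        ‖co (a16_q u a b) (k + 1 + 1)‖ ^ 2 := by
    refine Finset.sum_congr rfl fun n _ => ?_
    rw [hc.2 (n + 1)]
    push_cast
    ring_nf
  rw [e2]
  simp only [zero_add] at e1
  rw [e1] at h2
  push_cast at h2 ⊢
  linarith

end Pool.Agent.H58.BJ
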