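import Pool.Agent.H58.BJ.AI
import Pool.Agent.H58.BJ.JetId
import Pool.Agent.H58.BJ.Cont
import Pool.Agent.H58.BJ.Bd
import Pool.Agent.H58.BJ.Lip
import Pool.Agent.H58.BJ.Dist
import Pool.Agent.H58.BJ.Mean
import Pool.Agent.H58.BJ.SlackOf
import Pool.Agent.H58.BJ.RelRR
import Pool.Agent.H58.BJ.RelYY
import Pool.Agent.H58.BJ.Ktp
import Pool.Agent.H83.Lo.Inj

/-!
# From the certificate to the bound of the integral means (project BJ)
-/

set_option autoImplicit false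

namespace Pool.Agent.H58.BJ

open Complex Metric Set MeasureTheory Filter Topology
open scoped Real ComplexConjugate

/-- the hypothesis delivered by the certificate -/
def CertOK (β : ℝ) (μ : Mu) (κ : ℝ) : Prop :=
  ∀ c r η : ℕ → ℂ, c 0 = 1 → Slack c → RelR c r → RelY 1 r η → (G β μ η).re ≤ -κ

theorem local_rel {f : ℂ → ℂ} (hf : Univ f) {z : ℂ} (hz : ‖z‖ < 1) (hz0 : z ≠ 0) :
    ∃ c r : ℕ → ℂ, c 0 = 1 ∧ Slack c ∧ RelR c r ∧ RelY (‖z‖ ^ 2) r (eta f z) := by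
  obtain ⟨hU, h0, h1⟩ := kt_props hf hz hz0
  obtain ⟨u, hu, hu0, hne, hrel⟩ := root_exists hU h0 h1
  have hd : ∀ w ∈ ball (0 : ℂ) 1, deriv (Kt f z) w ≠ 0 := fun w hw =>
    Pool.Agent.H83.Lo.deriv_ne_zero isOpen_ball hU.1 hU.2 hw
  have hdf : ∀ w ∈ ball (0 : ℂ) 1, deriv f w ≠ 0 := fun w hw =>
    Pool.Agent.H83.Lo.deriv_ne_zero isOpen_ball hf.1 hf.2 hw
  refine ⟨co u, co (fun ζ => deriv (deriv (Kt f z)) ζ / deriv (Kt f z) ζ), ?_, ?_, ?_, ?_⟩
  · unfold co; simp [hu0]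
  · refine slack_of hu hu0 hne ?_
    refine hU.2.congr ?_
    intro w hw
    show Kt f z w = w / u w ^ 2
    rw [eq_div_iff (pow_ne_zero 2 (hne w hw)), mul_comm]
    exact hrel w hw
  · exact relR hU.1 hu hrel hd hne
  · exact relY hf.1 hdf hz hz0

theorem perturb {β : ℝ} {μ : Mu} {κ : ℝ} (hκ : 0 < κ) (hcert : CertOK β μ κ) :
    ∃ δ : ℝ, 0 < δ ∧ ∀ (c r η : ℕ → ℂ) (ρ : ℝ), c 0 = 1 → Slack c → 0 ≤ ρ → ρ ≤ 1 → 1 - δ ≤ ρ →
      RelR c r → RelY ρ r η → (G β μ η).re ≤ -(κ / 2) := by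
  obtain ⟨K, hK⟩ := G_lip β μ
  obtain ⟨B, hB0, hB⟩ := eta_bound K
  obtain ⟨L, hL0, hL⟩ := hK B
  obtain ⟨C, hC0, hC⟩ := jet_near K
  refine ⟨κ / (2 * (L * C + 1)), by positivity, ?_⟩
  intro c r η ρ h0 hs hρ0 hρ1 hρ hr hy
  obtain ⟨η', hy', hn⟩ := hC c r η ρ h0 hs hρ0 hρ1 hr hy
  have h1 := hB c r η ρ h0 hs hρ0 hρ1 hr hy
  have h2 := hB c r η' 1 h0 hs zero_le_one le_rfl hr hy'
  have h3 := hL η η' (C * (1 - ρ)) fun k hk => ⟨h1 k hk, h2 k hk, hn k hk⟩
  have h4 := hcert c r η' h0 hs hr hy'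
  have h5 : (G β μ η).re - (G β μ η').re ≤ L * (C * (1 - ρ)) := by
    rw [← Complex.sub_re]
    exact ((Complex.re_le_norm _).trans h3.2)
  have h6 : L * (C * (1 - ρ)) ≤ κ / 2 := by
    have h7 : 1 - ρ ≤ κ / (2 * (L * C + 1)) := by linarith
    have h8 : L * (C * (1 - ρ)) ≤ (L * C) * (κ / (2 * (L * C + 1))) := by
      have : 0 ≤ L * C := mul_nonneg hL0 hC0
      nlinarith [mul_le_mul_of_nonneg_left h7 this]
    have h9 : (L * C) * (κ / (2 * (L * C + 1))) ≤ κ / 2 := by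
      have h10 : 0 ≤ L * C := mul_nonneg hL0 hC0
      rw [mul_div_assoc', div_le_div_iff₀ (by positivity) (by norm_num)]
      nlinarith
    linarith
  linarith

/-- pointwise bounds of the normalised jets of univalent functions -/
theorem eta_univ (K : ℕ) : ∃ B : ℝ, 0 < B ∧ ∀ f : ℂ → ℂ, Univ f → ∀ z : ℂ, ‖z‖ < 1 →
    ∀ k ≤ K, ‖eta f z k‖ ≤ B := by
  obtain ⟨B, hB0, hB⟩ := eta_bound K
  refine ⟨B, hB0, ?_⟩
  intro f hf z hz k hk
  by_cases hz0 : z = 0
  · unfold eta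
    rw [hz0]
    simp [hB0.le]
  · obtain ⟨c, r, h0, hs, hr, hy⟩ := local_rel hf hz hz0
    exact hB c r (eta f z) (‖z‖ ^ 2) h0 hs (by positivity)
      (pow_le_one₀ (norm_nonneg _) hz.le) hr hy k hk

/-- pointwise inequality for the form -/
theorem G_point {β : ℝ} {μ : Mu} {κ : ℝ} (hκ : 0 < κ) (hcert : CertOK β μ κ) :
    ∃ C : ℝ, 0 ≤ C ∧ ∀ f : ℂ → ℂ, Univ f → ∀ z : ℂ, ‖z‖ < 1 →
      κ / 2 ≤ -(G β μ (eta f z)).re + C * (1 - ‖z‖ ^ 2) := by
  obtain ⟨δ, hδ0, hδ⟩ := perturb hκ hcert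
  obtain ⟨K, hK⟩ := G_lip β μ
  obtain ⟨B, hB0, hB⟩ := eta_univ K
  obtain ⟨L, hL0, hL⟩ := hK B
  refine ⟨(κ / 2 + L) / min δ 1, by positivity, ?_⟩
  intro f hf z hz
  have hw : 0 < 1 - ‖z‖ ^ 2 := by
    have := norm_nonneg z
    nlinarith
  have hm : 0 < min δ 1 := lt_min hδ0 one_pos
  have hbd : ‖G β μ (eta f z)‖ ≤ L :=
    (hL (eta f z) (eta f z) 0 fun k hk => ⟨hB f hf z hz k hk, hB f hf z hz k hk, by simp⟩).1
  by_cases hc : 1 - ‖z‖ ^ 2 < min δ 1
  · have hz0 : z ≠ 0 := by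
      rintro rfl
      rw [norm_zero] at hc
      have := min_le_right δ 1
      norm_num at hc
    obtain ⟨c, r, h0, hs, hr, hy⟩ := local_rel hf hz hz0
    have h1 := hδ c r (eta f z) (‖z‖ ^ 2) h0 hs (by positivity)
      (pow_le_one₀ (norm_nonneg _) hz.le) (by linarith [min_le_left δ 1]) hr hy
    have h2 : 0 ≤ (κ / 2 + L) / min δ 1 * (1 - ‖z‖ ^ 2) := by positivity
    linarith
  · rw [not_lt] at hc
    have h1 : κ / 2 + L ≤ (κ / 2 + L) / min δ 1 * (1 - ‖z‖ ^ 2) := by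
      rw [div_mul_eq_mul_div, le_div_iff₀ hm]
      exact mul_le_mul_of_nonneg_left hc (by positivity)
    have h2 := (Complex.abs_re_le_norm (G β μ (eta f z))).trans hbd
    rw [abs_le] at h2
    linarith [h2.1, h2.2]

/-- the coefficient on the right side of the integrated identity -/
noncomputable def Wt (β : ℝ) (t : List ℕ × List ℕ × ℝ) : ℝ :=
  t.2.2 * (β + 1 + 2 * wt t.1 + wt t.2.1)

/-- the right side form -/
noncomputable def GR (β : ℝ) (μ : Mu) (η : ℕ → ℂ) : ℂ :=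
  (μ.map fun t => (Wt β t : ℂ) * (X η t.1 * conj (X η t.2.1))).sum

theorem G_cont {A : Set ℂ} {η : ℂ → ℕ → ℂ} (h : ∀ k, ContinuousOn (fun z => η z k) A)
    (β : ℝ) (μ : Mu) : ContinuousOn (fun z => G β μ (η z)) A := by
  unfold G
  induction μ with
  | nil => simp only [List.map_nil, List.sum_nil]; exact continuousOn_const
  | cons t μ ih =>
    simp only [List.map_cons, List.sum_cons]
    refine ContinuousOn.add ?_ ih
    refine continuousOn_const.mul (ContinuousOn.add ?_ ?_)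
    · exact (DX_cont h _).mul (Complex.continuous_conj.comp_continuousOn (X_cont h _))
    · exact continuousOn_const.mul
        ((X_cont h _).mul (Complex.continuous_conj.comp_continuousOn (X_cont h _)))

theorem GR_cont {A : Set ℂ} {η : ℂ → ℕ → ℂ} (h : ∀ k, ContinuousOn (fun z => η z k) A)
    (β : ℝ) (μ : Mu) : ContinuousOn (fun z => GR β μ (η z)) A := by
  unfold GR
  induction μ with
  | nil => simp only [List.map_nil, List.sum_nil]; exact continuousOn_const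
  | cons t μ ih =>
    simp only [List.map_cons, List.sum_cons]
    refine ContinuousOn.add ?_ ih
    exact continuousOn_const.mul
      ((X_cont h _).mul (Complex.continuous_conj.comp_continuousOn (X_cont h _)))

theorem GR_bound (β : ℝ) (μ : Mu) : ∃ C : ℝ, 0 ≤ C ∧ ∀ f : ℂ → ℂ, Univ f → ∀ z : ℂ, ‖z‖ < 1 →
    ‖GR β μ (eta f z)‖ ≤ C := by
  induction μ with
  | nil => exact ⟨0, le_rfl, fun f _ z _ => by simp [GR]⟩
  | cons t μ ih =>
    obtain ⟨C, hC0, hC⟩ := ih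
    obtain ⟨K1, hK1⟩ := X_lip t.1
    obtain ⟨K2, hK2⟩ := X_lip t.2.1
    obtain ⟨B1, hB10, hB1⟩ := eta_univ K1
    obtain ⟨B2, hB20, hB2⟩ := eta_univ K2
    obtain ⟨L1, hL10, hL1⟩ := hK1 B1
    obtain ⟨L2, hL20, hL2⟩ := hK2 B2
    refine ⟨|Wt β t| * (L1 * L2) + C, by positivity, ?_⟩
    intro f hf z hz
    have h1 := (hL1 (eta f z) (eta f z) 0
      fun k hk => ⟨hB1 f hf z hz k hk, hB1 f hf z hz k hk, by simp⟩).1
    have h2 := (hL2 (eta f z) (eta f z) 0
      fun k hk => ⟨hB2 f hf z hz k hk, hB2 f hf z hz k hk, by simp⟩).1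
    have e : GR β (t :: μ) (eta f z) = (Wt β t : ℂ) * (X (eta f z) t.1 * conj (X (eta f z) t.2.1)) +
        GR β μ (eta f z) := by
      unfold GR
      rw [List.map_cons, List.sum_cons]
    rw [e]
    refine (norm_add_le _ _).trans (add_le_add ?_ (hC f hf z hz))
    rw [norm_mul, norm_mul, Complex.norm_conj, Complex.norm_real, Real.norm_eq_abs]
    exact mul_le_mul_of_nonneg_left (mul_le_mul h1 h2 (norm_nonneg _) hL10) (abs_nonneg _)

/-- the integrated identity -/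
theorem G_int {R : ℝ} (hR : 1 < R) {f : ℂ → ℂ} (hf : DifferentiableOn ℂ f (ball 0 R))
    (hne : ∀ z ∈ ball (0 : ℂ) R, deriv f z ≠ 0) {β : ℝ} (hβ : 1 < β) (μ : Mu) :
    AI (fun z => ((qf f z * ww (β - 1) z : ℝ) : ℂ) * G β μ (eta f z)) =
      AI (fun z => ((qf f z * ww β z : ℝ) : ℂ) * GR β μ (eta f z)) := by
  have hη := eta_cont hR hf hne
  have hq := qf_cont hR hf hne
  have hw1 : ContinuousOn (fun z => ((qf f z * ww (β - 1) z : ℝ) : ℂ)) (closedBall 0 1) :=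
    Complex.continuous_ofReal.comp_continuousOn (hq.mul (ww_cont (by linarith)))
  have hw2 : ContinuousOn (fun z => ((qf f z * ww β z : ℝ) : ℂ)) (closedBall 0 1) :=
    Complex.continuous_ofReal.comp_continuousOn (hq.mul (ww_cont (by linarith)))
  induction μ with
  | nil =>
    have h1 : (fun z => ((qf f z * ww (β - 1) z : ℝ) : ℂ) * G β [] (eta f z)) =
        fun z => (0 : ℂ) * (0 : ℂ) := by
      funext z; simp [G]
    have h2 : (fun z => ((qf f z * ww β z : ℝ) : ℂ) * GR β [] (eta f z)) =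
        fun z => (0 : ℂ) * (0 : ℂ) := by
      funext z; simp [GR]
    rw [h1, h2]
  | cons t μ ih =>
    have e1 : (fun z => ((qf f z * ww (β - 1) z : ℝ) : ℂ) * G β (t :: μ) (eta f z)) =
        fun z => (t.2.2 : ℂ) * (((qf f z * ww (β - 1) z : ℝ) : ℂ) *
          (DX (eta f z) t.1 * conj (X (eta f z) t.2.1) +
        (((wt t.1 : ℝ) + wt t.2.1 + β : ℝ) : ℂ) * (X (eta f z) t.1 * conj (X (eta f z) t.2.1)))) +
        ((qf f z * ww (β - 1) z : ℝ) : ℂ) * G β μ (eta f z) := by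
      funext z
      unfold G
      rw [List.map_cons, List.sum_cons]
      ring
    have e2 : (fun z => ((qf f z * ww β z : ℝ) : ℂ) * GR β (t :: μ) (eta f z)) =
        fun z => (t.2.2 : ℂ) * (((β + 1 + 2 * wt t.1 + wt t.2.1 : ℝ) : ℂ) *
          (((qf f z * ww β z : ℝ) : ℂ) * (X (eta f z) t.1 * conj (X (eta f z) t.2.1)))) +
        ((qf f z * ww β z : ℝ) : ℂ) * GR β μ (eta f z) := by
      funext z
      unfold GR Wt
      rw [List.map_cons, List.sum_cons]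
      push_cast
      ring
    have hX1 := X_cont hη t.1
    have hX2 := Complex.continuous_conj.comp_continuousOn (X_cont hη t.2.1)
    have hD1 := DX_cont hη t.1
    rw [e1, e2, AI_add, AI_add, AI_smul, AI_smul, AI_smul, ih, jets_identity hR hf hne hβ]
    · exact continuousOn_const.mul (continuousOn_const.mul (hw2.mul (hX1.mul hX2)))
    · exact hw2.mul (GR_cont hη β μ)
    · exact continuousOn_const.mul (hw1.mul ((hD1.mul hX2).add
        (continuousOn_const.mul (hX1.mul hX2))))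
    · exact hw1.mul (G_cont hη β μ)

theorem ww_pos {z : ℂ} (hz : ‖z‖ < 1) (s : ℝ) : 0 < ww s z := by
  unfold ww
  apply Real.rpow_pos_of_pos
  have := norm_nonneg z
  nlinarith

theorem ww_mul {z : ℂ} (hz : ‖z‖ < 1) (β : ℝ) : ww β z = (1 - ‖z‖ ^ 2) * ww (β - 1) z := by
  unfold ww
  have h : 0 < 1 - ‖z‖ ^ 2 := by
    have := norm_nonneg z
    nlinarith
  rw [show β = 1 + (β - 1) by ring, Real.rpow_add h, Real.rpow_one]
  congr 2
  ring

/-- **The bound in the disc**, for functions univalent in a larger disc. -/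
theorem disc_bound {β : ℝ} (hβ : 1 < β) {μ : Mu} {κ : ℝ} (hκ : 0 < κ) (hcert : CertOK β μ κ) :
    ∃ C : ℝ, 0 ≤ C ∧ ∀ (R : ℝ) (f : ℂ → ℂ), 1 < R → DifferentiableOn ℂ f (ball 0 R) →
      InjOn f (ball 0 R) → AI (fun z => qf f z * ww (β - 1) z) ≤ C * (‖deriv f 0‖ ^ 2)⁻¹ := by
  obtain ⟨C1, hC10, hC1⟩ := G_point hκ hcert
  obtain ⟨C2, hC20, hC2⟩ := GR_bound β μ
  set C3 : ℝ := C1 + C2 + 1 with hC3
  have hC30 : 0 < C3 := by positivity
  set ε : ℝ := min (κ / (4 * C3)) (1 / 2) with hε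
  have hε0 : 0 < ε := lt_min (by positivity) (by norm_num)
  have hε1 : ε ≤ 1 / 2 := min_le_right _ _
  have hεκ : C3 * ε ≤ κ / 4 := by
    have h := min_le_left (κ / (4 * C3)) (1 / 2)
    rw [← hε] at h
    rw [le_div_iff₀ (by positivity)] at h
    linarith
  obtain ⟨D, hD0, hD⟩ := distort (t := Real.sqrt (1 - ε)) (by
    rw [Real.sqrt_lt' one_pos]; linarith)
  refine ⟨4 / κ * (C3 * (D ^ 2 * π)), by positivity, ?_⟩
  intro R f hR hf hinj
  have hsub : ball (0 : ℂ) 1 ⊆ ball 0 R := ball_subset_ball hR.le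
  have hU : Univ f := ⟨hf.mono hsub, hinj.mono hsub⟩
  have hne : ∀ z ∈ ball (0 : ℂ) R, deriv f z ≠ 0 := fun z hz =>
    Pool.Agent.H83.Lo.deriv_ne_zero isOpen_ball hf hinj hz
  have hη := eta_cont hR hf hne
  have hq := qf_cont hR hf hne
  have hw1 : ContinuousOn (ww (β - 1)) (closedBall 0 1) := ww_cont (by linarith)
  have hw2 : ContinuousOn (ww β) (closedBall 0 1) := ww_cont (by linarith)
  have hqw1 : ContinuousOn (fun z => qf f z * ww (β - 1) z) (closedBall 0 1) := hq.mul hw1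
  have hqw2 : ContinuousOn (fun z => qf f z * ww β z) (closedBall 0 1) := hq.mul hw2
  have hcm : ∀ (a : ℝ) (h : ℂ → ℝ), ContinuousOn h (closedBall 0 1) →
      ContinuousOn (fun z => a * h z) (closedBall 0 1) := fun a h hh => continuousOn_const.mul hh
  have hmm : ∀ (g h : ℂ → ℝ), ContinuousOn g (closedBall 0 1) →
      ContinuousOn h (closedBall 0 1) → ContinuousOn (fun z => g z * h z) (closedBall 0 1) :=
    fun g h hg hh => hg.mul hh
  have haa : ∀ (g h : ℂ → ℝ), ContinuousOn g (closedBall 0 1) →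
      ContinuousOn h (closedBall 0 1) → ContinuousOn (fun z => g z + h z) (closedBall 0 1) :=
    fun g h hg hh => hg.add hh
  have hG := G_cont hη β μ
  have hGR := GR_cont hη β μ
  have hd0 : deriv f 0 ≠ 0 := hne 0 (mem_ball_self (by linarith))
  have hd0' : 0 < ‖deriv f 0‖ := norm_pos_iff.2 hd0
  have hqpos : ∀ z, 0 ≤ qf f z := fun z => by unfold qf; positivity
  -- real part of the integrated identity
  have hid := G_int hR hf hne hβ μ
  have hcc : ∀ (g : ℂ → ℝ) (h : ℂ → ℂ), ContinuousOn g (closedBall 0 1) →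
      ContinuousOn h (closedBall 0 1) →
      (AI (fun z => ((g z : ℝ) : ℂ) * h z)).re = AI (fun z => g z * (h z).re) := by
    intro g h hg hh
    have h1 : ContinuousOn (fun z => ((g z : ℝ) : ℂ) * h z) (closedBall 0 1) :=
      (Complex.continuous_ofReal.comp_continuousOn hg).mul hh
    rw [AI_re h1]
    congr 1
    funext z
    rw [Complex.re_ofReal_mul]
  have hre1 := hcc _ _ hqw1 hG
  have hre2 := hcc _ _ hqw2 hGR
  have hGre : ContinuousOn (fun z => (G β μ (eta f z)).re) (closedBall 0 1) :=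
    Complex.continuous_re.comp_continuousOn hG
  have hGRre : ContinuousOn (fun z => (GR β μ (eta f z)).re) (closedBall 0 1) :=
    Complex.continuous_re.comp_continuousOn hGR
  have hI : AI (fun z => (qf f z * ww (β - 1) z) * (G β μ (eta f z)).re) =
      AI (fun z => (qf f z * ww β z) * (GR β μ (eta f z)).re) := by
    rw [← hre1, ← hre2, hid]
  set A1 : ℝ := AI (fun z => qf f z * ww (β - 1) z) with hA1
  set A2 : ℝ := AI (fun z => qf f z * ww β z) with hA2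
  -- lower bound of the right side
  have h1 : -(C2 * A2) ≤ AI (fun z => (qf f z * ww β z) * (GR β μ (eta f z)).re) := by
    have e : -(C2 * A2) = AI (fun z => (-C2) * (qf f z * ww β z)) := by
      rw [AI_smulR, hA2]; ring
    rw [e]
    apply AI_mono (hcm _ _ hqw2) (hmm _ _ hqw2 hGRre)
    intro z hz
    have h2 := (Complex.abs_re_le_norm _).trans (hC2 f hU z hz)
    rw [abs_le] at h2
    have h3 : 0 ≤ qf f z * ww β z := mul_nonneg (hqpos z) (ww_pos hz β).le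
    nlinarith [h2.1]
  -- upper bound of the left side
  have h2 : AI (fun z => (qf f z * ww (β - 1) z) * (G β μ (eta f z)).re) ≤
      C1 * A2 + (-(κ / 2)) * A1 := by
    have e : C1 * A2 + (-(κ / 2)) * A1 =
        AI (fun z => C1 * (qf f z * ww β z) + (-(κ / 2)) * (qf f z * ww (β - 1) z)) := by
      rw [AI_addR (hcm _ _ hqw2) (hcm _ _ hqw1), AI_smulR, AI_smulR]
    rw [e]
    apply AI_mono (hmm _ _ hqw1 hGre) (haa _ _ (hcm _ _ hqw2) (hcm _ _ hqw1))
    intro z hz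
    have h3 := hC1 f hU z hz
    have h4 : 0 ≤ qf f z * ww (β - 1) z := mul_nonneg (hqpos z) (ww_pos hz _).le
    have h5 : qf f z * ww β z = (1 - ‖z‖ ^ 2) * (qf f z * ww (β - 1) z) := by
      rw [ww_mul hz β]; ring
    rw [h5]
    nlinarith [mul_le_mul_of_nonneg_left h3 h4]
  have h3 : κ / 2 * A1 ≤ C3 * A2 := by
    have hA20 : 0 ≤ A2 := by
      have e : (0 : ℝ) = AI (fun z => 0 * (qf f z * ww β z)) := by rw [AI_smulR]; ring
      rw [e, hA2]
      apply AI_mono (hcm _ _ hqw2) hqw2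
      intro z hz
      have : 0 ≤ qf f z * ww β z := mul_nonneg (hqpos z) (ww_pos hz β).le
      linarith
    rw [hC3]
    nlinarith [hI, h1, h2]
  -- absorption
  have h4 : A2 ≤ ε * A1 + D ^ 2 * (‖deriv f 0‖ ^ 2)⁻¹ * π := by
    have e : ε * A1 + D ^ 2 * (‖deriv f 0‖ ^ 2)⁻¹ * π =
        AI (fun z => ε * (qf f z * ww (β - 1) z) + D ^ 2 * (‖deriv f 0‖ ^ 2)⁻¹ * 1) := by
      rw [AI_addR (hcm _ _ hqw1) (hcm _ (fun _ => (1 : ℝ)) continuousOn_const),
        AI_smulR, AI_smulR, AI_one]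
    rw [e, hA2]
    apply AI_mono hqw2 (haa _ _ (hcm _ _ hqw1) (hcm _ (fun _ => (1 : ℝ)) continuousOn_const))
    intro z hz
    have h5 : 0 ≤ qf f z * ww (β - 1) z := mul_nonneg (hqpos z) (ww_pos hz _).le
    have h6 : 0 ≤ D ^ 2 * (‖deriv f 0‖ ^ 2)⁻¹ := by positivity
    have hz2 : 0 < 1 - ‖z‖ ^ 2 := by
      have := norm_nonneg z
      nlinarith
    by_cases hc : 1 - ‖z‖ ^ 2 ≤ ε
    · have h7 : qf f z * ww β z = (1 - ‖z‖ ^ 2) * (qf f z * ww (β - 1) z) := by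
        rw [ww_mul hz β]; ring
      rw [h7]
      nlinarith [mul_le_mul_of_nonneg_right hc h5]
    · rw [not_le] at hc
      have h7 : ‖z‖ ≤ Real.sqrt (1 - ε) := by
        apply Real.le_sqrt_of_sq_le
        linarith
      have h8 := hD f hU z h7
      have hdz : 0 < ‖deriv f z‖ := norm_pos_iff.2 (hne z (hsub (mem_ball_zero_iff.2 hz)))
      have h9 : qf f z ≤ D ^ 2 * (‖deriv f 0‖ ^ 2)⁻¹ := by
        unfold qf
        rw [← div_eq_mul_inv, le_div_iff₀ (by positivity), ← div_eq_inv_mul,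
          div_le_iff₀ (by positivity), ← mul_pow]
        exact pow_le_pow_left₀ (norm_nonneg _) h8 2
      have h10 : ww β z ≤ 1 := by
        unfold ww
        apply Real.rpow_le_one hz2.le _ (by linarith)
        have := sq_nonneg ‖z‖
        linarith
      have h11 : qf f z * ww β z ≤ qf f z * 1 := mul_le_mul_of_nonneg_left h10 (hqpos z)
      have h12 : 0 ≤ ε * (qf f z * ww (β - 1) z) := mul_nonneg hε0.le h5
      linarith
  have hA10 : 0 ≤ A1 := by
    have e : (0 : ℝ) = AI (fun z => 0 * (qf f z * ww (β - 1) z)) := by rw [AI_smulR]; ring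
    rw [e, hA1]
    apply AI_mono (hcm _ _ hqw1) hqw1
    intro z hz
    have : 0 ≤ qf f z * ww (β - 1) z := mul_nonneg (hqpos z) (ww_pos hz _).le
    linarith
  have h13 : κ / 4 * A1 ≤ C3 * (D ^ 2 * (‖deriv f 0‖ ^ 2)⁻¹ * π) := by
    have h14 := mul_le_mul_of_nonneg_left h4 hC30.le
    have h15 : C3 * (ε * A1) ≤ κ / 4 * A1 := by
      rw [← mul_assoc]
      exact mul_le_mul_of_nonneg_right hεκ hA10
    nlinarith
  have h16 : A1 ≤ 4 / κ * (C3 * (D ^ 2 * (‖deriv f 0‖ ^ 2)⁻¹ * π)) := by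
    have h17 := mul_le_mul_of_nonneg_left h13 (show 0 ≤ 4 / κ by positivity)
    have h18 : 4 / κ * (κ / 4 * A1) = A1 := by field_simp
    linarith
  calc A1 ≤ 4 / κ * (C3 * (D ^ 2 * (‖deriv f 0‖ ^ 2)⁻¹ * π)) := h16
    _ = 4 / κ * (C3 * (D ^ 2 * π)) * (‖deriv f 0‖ ^ 2)⁻¹ := by ring

/-- **Means on circles**, for functions univalent in a larger disc. -/
theorem circle_bound {β : ℝ} (hβ : 1 < β) {μ : Mu} {κ : ℝ} (hκ : 0 < κ) (hcert : CertOK β μ κ) :
    ∃ C : ℝ, 0 ≤ C ∧ ∀ (R : ℝ) (f : ℂ → ℂ), 1 < R → DifferentiableOn ℂ f (ball 0 R) →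
      InjOn f (ball 0 R) → ∀ r : ℝ, 0 < r → r < 1 →
      (∫ θ in (0 : ℝ)..(2 * π), qf f (circleMap 0 r θ)) ≤
        C * (‖deriv f 0‖ ^ 2)⁻¹ * (1 - r) ^ (-β) := by
  obtain ⟨C, hC0, hC⟩ := disc_bound hβ hκ hcert
  refine ⟨2 * β * C, by positivity, ?_⟩
  intro R f hR hf hinj r hr hr1
  have hne : ∀ z ∈ ball (0 : ℂ) R, deriv f z ≠ 0 := fun z hz =>
    Pool.Agent.H83.Lo.deriv_ne_zero isOpen_ball hf hinj hz
  have h1 := mean_le hR hf hne hβ hr hr1
  have h2 := hC R f hR hf hinj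
  have h3 : 0 < (1 - r) ^ β := Real.rpow_pos_of_pos (by linarith) _
  rw [Real.rpow_neg (by linarith), ← div_eq_mul_inv, le_div_iff₀ h3]
  refine h1.trans ?_
  have h4 := mul_le_mul_of_nonneg_left h2 (show 0 ≤ 2 * β by positivity)
  linarith

/-- **The bound for all univalent functions in the disc.** -/
theorem all_bound {β : ℝ} (hβ : 1 < β) {μ : Mu} {κ : ℝ} (hκ : 0 < κ) (hcert : CertOK β μ κ) :
    ∃ C : ℝ, 0 ≤ C ∧ ∀ f : ℂ → ℂ, Univ f → ∀ r : ℝ, 0 < r → r < 1 →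
      (∫ θ in (0 : ℝ)..(2 * π), qf f (circleMap 0 r θ)) ≤
        C * (‖deriv f 0‖ ^ 2)⁻¹ * (1 - r) ^ (-β) := by
  obtain ⟨C, hC0, hC⟩ := circle_bound hβ hκ hcert
  refine ⟨C, hC0, ?_⟩
  intro f hf r hr hr1
  -- dilations `f_s(z) = f (s z)`, `r < s < 1`
  have key : ∀ s : ℝ, r < s → s < 1 → (∫ θ in (0 : ℝ)..(2 * π), qf f (circleMap 0 r θ)) ≤
      C * (‖deriv f 0‖ ^ 2)⁻¹ * (1 - r / s) ^ (-β) := by
    intro s hrs hs1
    have hs0 : 0 < s := hr.trans hrs
    have hs' : (s : ℂ) ≠ 0 := by exact_mod_cast hs0.ne'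
    set g : ℂ → ℂ := fun z => f ((s : ℂ) * z) with hg
    have hmaps : ∀ z ∈ ball (0 : ℂ) s⁻¹, (s : ℂ) * z ∈ ball (0 : ℂ) 1 := by
      intro z hz
      rw [mem_ball_zero_iff] at hz ⊢
      rw [norm_mul, Complex.norm_real, Real.norm_of_nonneg hs0.le]
      calc s * ‖z‖ < s * s⁻¹ := mul_lt_mul_of_pos_left hz hs0
        _ = 1 := mul_inv_cancel₀ hs0.ne'
    have hgd : DifferentiableOn ℂ g (ball 0 s⁻¹) :=
      hf.1.comp (differentiableOn_const _ |>.mul differentiableOn_id) hmaps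
    have hgi : InjOn g (ball 0 s⁻¹) := by
      intro z hz w hw h
      exact mul_left_cancel₀ hs' (hf.2 (hmaps z hz) (hmaps w hw) h)
    have hder : ∀ z, deriv g z = (s : ℂ) * deriv f ((s : ℂ) * z) := by
      intro z
      exact deriv_comp_mul_left (s : ℂ) f z
    have h1 := hC s⁻¹ g ((one_lt_inv₀ hs0).2 hs1) hgd hgi (r / s) (by positivity)
      ((div_lt_one hs0).2 hrs)
    have h2 : ∀ θ : ℝ, qf g (circleMap 0 (r / s) θ) = (s ^ 2)⁻¹ * qf f (circleMap 0 r θ) := by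
      intro θ
      unfold qf
      rw [hder, norm_mul, Complex.norm_real, Real.norm_of_nonneg hs0.le, mul_pow, mul_inv]
      have e : (s : ℂ) * circleMap 0 (r / s) θ = circleMap 0 r θ := by
        simp only [circleMap, zero_add]
        push_cast
        field_simp
      rw [e]
    have h3 : ‖deriv g 0‖ ^ 2 = s ^ 2 * ‖deriv f 0‖ ^ 2 := by
      rw [hder, mul_zero, norm_mul, Complex.norm_real, Real.norm_of_nonneg hs0.le, mul_pow]
    simp only [h2] at h1
    rw [intervalIntegral.integral_const_mul, h3, mul_inv] at h1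
    have h4 : 0 < (s ^ 2)⁻¹ := by positivity
    have h5 : (s ^ 2)⁻¹ * (∫ θ in (0 : ℝ)..(2 * π), qf f (circleMap 0 r θ)) ≤
        (s ^ 2)⁻¹ * (C * (‖deriv f 0‖ ^ 2)⁻¹ * (1 - r / s) ^ (-β)) := by
      calc _ ≤ _ := h1
        _ = _ := by ring
    exact le_of_mul_le_mul_left h5 h4
  have hlim : Tendsto (fun s : ℝ => C * (‖deriv f 0‖ ^ 2)⁻¹ * (1 - r / s) ^ (-β)) (𝓝[<] 1)
      (𝓝 (C * (‖deriv f 0‖ ^ 2)⁻¹ * (1 - r / 1) ^ (-β))) := by
    apply Tendsto.mono_left _ nhdsWithin_le_nhds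
    apply ContinuousAt.tendsto
    apply ContinuousAt.mul continuousAt_const
    apply ContinuousAt.rpow_const
    · exact continuousAt_const.sub (continuousAt_const.div continuousAt_id one_ne_zero)
    · left
      rw [div_one]
      linarith
  rw [div_one] at hlim
  refine ge_of_tendsto hlim ?_
  have h6 : Ioo r 1 ∈ 𝓝[<] (1 : ℝ) := Ioo_mem_nhdsLT hr1
  filter_upwards [h6] with s hs
  exact key s hs.1 hs.2

end Pool.Agent.H58.BJ
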