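import Pool.Agent.H58.BJ.Def

/-!
# Project BJ: calculus of the area integral `AI` (row A1)
-/

set_option autoImplicit false

namespace Pool.Agent.H58.BJ

open Complex Metric Set MeasureTheory
open scoped Real ComplexConjugate

/-- the clamped polar coordinates -/
private noncomputable def a1_cm (r θ : ℝ) : ℂ := circleMap 0 (max 0 (min 1 r)) θ

private theorem a1_clamp {r : ℝ} (hr : r ∈ Icc (0 : ℝ) 1) : max 0 (min 1 r) = r := by
  rw [min_eq_right hr.2, max_eq_right hr.1]

private theorem a1_cm_cont : Continuous (fun p : ℝ × ℝ => a1_cm p.1 p.2) := by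
  unfold a1_cm circleMap
  fun_prop

private theorem a1_cm_mem (r θ : ℝ) : a1_cm r θ ∈ closedBall (0 : ℂ) 1 := by
  rw [mem_closedBall_zero_iff]
  unfold a1_cm
  rw [norm_circleMap_zero, abs_of_nonneg (le_max_left _ _)]
  exact max_le zero_le_one (min_le_left _ _)

private theorem a1_cont {E : Type} [NormedAddCommGroup E] [NormedSpace ℝ E] {h : ℂ → E}
    (hc : ContinuousOn h (closedBall 0 1)) : Continuous (fun p : ℝ × ℝ => h (a1_cm p.1 p.2)) :=
  hc.comp_continuous a1_cm_cont fun p => a1_cm_mem p.1 p.2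

private theorem a1_rep {E : Type} [NormedAddCommGroup E] [NormedSpace ℝ E] (h : ℂ → E) :
    AI h = ∫ r in (0 : ℝ)..1, r • ∫ θ in (0 : ℝ)..(2 * π), h (a1_cm r θ) := by
  unfold AI
  refine intervalIntegral.integral_congr fun r hr => ?_
  rw [uIcc_of_le zero_le_one] at hr
  show r • _ = r • _
  unfold a1_cm
  rw [a1_clamp hr]

private theorem a1_in {E : Type} [NormedAddCommGroup E] [NormedSpace ℝ E] {h : ℂ → E}
    (hc : ContinuousOn h (closedBall 0 1)) (r : ℝ) :
    Continuous fun θ => h (a1_cm r θ) :=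
  (a1_cont hc).comp (Continuous.prodMk continuous_const continuous_id)

private theorem a1_out {E : Type} [NormedAddCommGroup E] [NormedSpace ℝ E] {h : ℂ → E}
    (hc : ContinuousOn h (closedBall 0 1)) :
    Continuous fun r : ℝ => r • ∫ θ in (0 : ℝ)..(2 * π), h (a1_cm r θ) := by
  refine continuous_id.smul ?_
  exact intervalIntegral.continuous_parametric_intervalIntegral_of_continuous'
    (f := fun r θ => h (a1_cm r θ)) (a1_cont hc) _ _

theorem AI_congr {E : Type} [NormedAddCommGroup E] [NormedSpace ℝ E] {h h' : ℂ → E}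
    (H : ∀ z, ‖z‖ < 1 → h z = h' z) : AI h = AI h' := by
  unfold AI
  refine intervalIntegral.integral_congr_ae ?_
  have h1 : ∀ᵐ r : ℝ, r ≠ 1 := by
    rw [ae_iff]
    simp
  filter_upwards [h1] with r hr hr'
  rw [uIoc_of_le zero_le_one] at hr'
  have h2 : |r| < 1 := by
    rw [abs_of_pos hr'.1]
    exact lt_of_le_of_ne hr'.2 hr
  congr 1
  refine intervalIntegral.integral_congr fun θ _ => ?_
  refine H _ ?_
  rw [norm_circleMap_zero]
  exact h2

private theorem a1_add {E : Type} [NormedAddCommGroup E] [NormedSpace ℝ E] {h h' : ℂ → E}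
    (hc : ContinuousOn h (closedBall 0 1))
    (hc' : ContinuousOn h' (closedBall 0 1)) : AI (fun z => h z + h' z) = AI h + AI h' := by
  rw [a1_rep, a1_rep h, a1_rep h', ← intervalIntegral.integral_add
    ((a1_out hc).intervalIntegrable _ _) ((a1_out hc').intervalIntegrable _ _)]
  refine intervalIntegral.integral_congr fun r _ => ?_
  show r • _ = r • _ + r • _
  rw [← smul_add, intervalIntegral.integral_add ((a1_in hc r).intervalIntegrable _ _)
    ((a1_in hc' r).intervalIntegrable _ _)]

theorem AI_add {h h' : ℂ → ℂ} (hc : ContinuousOn h (closedBall 0 1))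
    (hc' : ContinuousOn h' (closedBall 0 1)) : AI (fun z => h z + h' z) = AI h + AI h' :=
  a1_add hc hc'

theorem AI_smul (c : ℂ) (h : ℂ → ℂ) : AI (fun z => c * h z) = c * AI h := by
  unfold AI
  rw [← intervalIntegral.integral_const_mul]
  refine intervalIntegral.integral_congr fun r _ => ?_
  show r • _ = c * (r • _)
  rw [intervalIntegral.integral_const_mul, mul_smul_comm]

theorem AI_addR {h h' : ℂ → ℝ} (hc : ContinuousOn h (closedBall 0 1))
    (hc' : ContinuousOn h' (closedBall 0 1)) : AI (fun z => h z + h' z) = AI h + AI h' :=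
  a1_add hc hc'

theorem AI_smulR (c : ℝ) (h : ℂ → ℝ) : AI (fun z => c * h z) = c * AI h := by
  unfold AI
  rw [← intervalIntegral.integral_const_mul]
  refine intervalIntegral.integral_congr fun r _ => ?_
  show r • _ = c * (r • _)
  rw [intervalIntegral.integral_const_mul, mul_smul_comm]

theorem AI_re {h : ℂ → ℂ} (hc : ContinuousOn h (closedBall 0 1)) :
    (AI h).re = AI (fun z => (h z).re) := by
  rw [a1_rep, a1_rep]
  have h1 := ContinuousLinearMap.intervalIntegral_comp_comm (μ := volume) (a := 0) (b := 1)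
    Complex.reCLM ((a1_out hc).intervalIntegrable _ _)
  rw [Complex.reCLM_apply] at h1
  rw [← h1]
  refine intervalIntegral.integral_congr fun r _ => ?_
  have h2 := ContinuousLinearMap.intervalIntegral_comp_comm (μ := volume) (a := 0) (b := 2 * π)
    Complex.reCLM ((a1_in hc r).intervalIntegrable _ _)
  show Complex.reCLM (r • _) = r • _
  rw [map_smul, ← h2]
  rfl

theorem AI_mono {h h' : ℂ → ℝ} (hc : ContinuousOn h (closedBall 0 1))
    (hc' : ContinuousOn h' (closedBall 0 1)) (H : ∀ z, ‖z‖ < 1 → h z ≤ h' z) :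
    AI h ≤ AI h' := by
  rw [a1_rep, a1_rep]
  refine intervalIntegral.integral_mono_on_of_le_Ioo zero_le_one
    ((a1_out hc).intervalIntegrable _ _) ((a1_out hc').intervalIntegrable _ _) fun r hr => ?_
  refine smul_le_smul_of_nonneg_left ?_ hr.1.le
  refine intervalIntegral.integral_mono_on Real.two_pi_pos.le
    ((a1_in hc r).intervalIntegrable _ _) ((a1_in hc' r).intervalIntegrable _ _) fun θ _ => ?_
  refine H _ ?_
  unfold a1_cm
  rw [a1_clamp ⟨hr.1.le, hr.2.le⟩, norm_circleMap_zero, abs_of_pos hr.1]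
  exact hr.2

theorem AI_one : AI (fun _ => (1 : ℝ)) = π := by
  unfold AI
  simp only [intervalIntegral.integral_const, sub_zero, smul_eq_mul, mul_one]
  rw [intervalIntegral.integral_mul_const, integral_id]
  ring

end Pool.Agent.H58.BJ
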