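import Pool.Agent.H58.BJ.Chk

/-!
# Admissible commands (project BJ)
-/

set_option autoImplicit false

namespace Pool.Agent.H58.BJ

/-- admissible commands -/
noncomputable def okC (N : ℕ) (es : List Pol) (c : Cmd) : Bool :=
  Cmd.rec (motive := fun _ => Bool) (fun l => yOK N es l)
    (fun n _ _ => Bool.and (Nat.ble 2 n) (Nat.ble n (N + 2))) (fun _ _ _ => true) c

/-- all commands are admissible -/
noncomputable def okL (N : ℕ) (es : List Pol) (l : List Cmd) : Bool :=
  List.rec (motive := fun _ => Bool) true (fun c _ ih => Bool.and (okC N es c) ih) l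

end Pool.Agent.H58.BJ
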