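import Mathlib

/-!
# Project BJ: definitions

Integral means of `|f'|^{-2}` for univalent functions; the jets of `f''/f'`, the area inequalities
for the Koebe transforms and the quadratic form of the certificate.
-/

set_option autoImplicit false

namespace Pool.Agent.H58.BJ

open Complex Metric
open scoped Real ComplexConjugate

/-- `P_k`, the `k`-th derivative of `f''/f'` -/
noncomputable def jP (f : ℂ → ℂ) (k : ℕ) : ℂ → ℂ :=
  iteratedDeriv k (fun z => deriv (deriv f) z / deriv f z)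

/-- the normalised jets `η_k(z) = (-z (1-|z|²))^{k+1} P_k(z) / k!` -/
noncomputable def eta (f : ℂ → ℂ) (z : ℂ) (k : ℕ) : ℂ :=
  (-(z * ((1 - ‖z‖ ^ 2 : ℝ) : ℂ))) ^ (k + 1) * (jP f k z / (k.factorial : ℂ))

/-- the weight of a monomial `η_{k_1} ⋯ η_{k_s}` -/
def wt (m : List ℕ) : ℕ := (m.map fun k => k + 1).sum

/-- the monomial `η_{k_1} ⋯ η_{k_s}` -/
noncomputable def X (η : ℕ → ℂ) (m : List ℕ) : ℂ := (m.map η).prod

/-- the derivation with `δ η_k = (k+1) η_{k+1}` applied to a monomial -/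
noncomputable def dX (η : ℕ → ℂ) : List ℕ → ℂ
  | [] => 0
  | k :: m => ((k : ℂ) + 1) * η (k + 1) * X η m + η k * dX η m

/-- `D' X = - η_0 X + δ X` -/
noncomputable def DX (η : ℕ → ℂ) (m : List ℕ) : ℂ := -(η 0 * X η m) + dX η m

/-- lists of terms `(X, Y, μ)` -/
abbrev Mu := List (List ℕ × List ℕ × ℝ)

/-- `G = ∑ μ (D'X conj Y + (wt X + wt Y + β) X conj Y)` -/
noncomputable def G (β : ℝ) (μ : Mu) (η : ℕ → ℂ) : ℂ :=
  (μ.map fun t => (t.2.2 : ℂ) * (DX η t.1 * conj (X η t.2.1) +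
    (((wt t.1 : ℝ) + wt t.2.1 + β : ℝ) : ℂ) * (X η t.1 * conj (X η t.2.1)))).sum

/-- `d_m = ∑_{i+j+k=m} c_i c_j c_k` -/
noncomputable def dc (c : ℕ → ℂ) (m : ℕ) : ℂ :=
  ∑ i ∈ Finset.range (m + 1), c i * ∑ j ∈ Finset.range (m - i + 1), c j * c (m - i - j)

/-- the area inequalities -/
def Slack (c : ℕ → ℂ) : Prop :=
  ∀ (a b : ℂ) (K : ℕ),
    ∑ n ∈ Finset.range K, (2 * (n : ℝ) + 1) * ‖a * c (n + 1) + b * dc c (n + 2)‖ ^ 2 ≤
      ‖a * c 0 + b * dc c 1‖ ^ 2 + 3 * ‖b * dc c 0‖ ^ 2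

/-- `v_n = (1 - 2 n) c_n` -/
noncomputable def vv (c : ℕ → ℂ) (n : ℕ) : ℂ := (1 - 2 * (n : ℂ)) * c n

/-- relation between the coefficients `c` of `u`, `u² Φ = ζ`, and the coefficients `r` of
`Φ''/Φ'` -/
def RelR (c r : ℕ → ℂ) : Prop :=
  ∀ n, ∑ k ∈ Finset.range (n + 1), r k * ∑ i ∈ Finset.range (n - k + 1), c i * vv c (n - k - i) =
    ∑ i ∈ Finset.range (n + 1), (-3 * ((i : ℂ) + 1) * c (i + 1) * vv c (n - i) +
      (((n - i : ℕ) : ℂ) + 1) * c i * vv c (n - i + 1))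

/-- relation between the coefficients `r` and the jets, `ρ = |z|²` -/
def RelY (ρ : ℝ) (r η : ℕ → ℂ) : Prop :=
  ∀ n, r n = 2 * (ρ : ℂ) ^ (n + 1) +
    ∑ k ∈ Finset.range (n + 1), ((n + 1).choose (k + 1) : ℂ) * (ρ : ℂ) ^ (n - k) * η k

/-- area integral in polar coordinates -/
noncomputable def AI {E : Type} [NormedAddCommGroup E] [NormedSpace ℝ E] (h : ℂ → E) : E :=
  ∫ r in (0 : ℝ)..1, r • ∫ θ in (0 : ℝ)..(2 * π), h (circleMap 0 r θ)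

/-- `q = |f'|^{-2}` -/
noncomputable def qf (f : ℂ → ℂ) (z : ℂ) : ℝ := (‖deriv f z‖ ^ 2)⁻¹

/-- `w^s`, `w = 1 - |z|²` -/
noncomputable def ww (s : ℝ) (z : ℂ) : ℝ := (1 - ‖z‖ ^ 2) ^ s

/-- the analytic function behind the monomial `X_m`:
`H_m = (-z)^{wt m} (1/f') ∏ P_k / k!` -/
noncomputable def hH (f : ℂ → ℂ) (m : List ℕ) (z : ℂ) : ℂ :=
  (-z) ^ wt m * (deriv f z)⁻¹ * X (fun k => jP f k z / (k.factorial : ℂ)) m

/-- the same for `D' X_m` -/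
noncomputable def hD (f : ℂ → ℂ) (m : List ℕ) (z : ℂ) : ℂ :=
  (-z) ^ (wt m + 1) * (deriv f z)⁻¹ * DX (fun k => jP f k z / (k.factorial : ℂ)) m

/-- Taylor coefficients at `0` -/
noncomputable def co (F : ℂ → ℂ) (n : ℕ) : ℂ := iteratedDeriv n F 0 / (n.factorial : ℂ)

/-- the Koebe transform -/
noncomputable def Kt (f : ℂ → ℂ) (z ζ : ℂ) : ℂ :=
  (f (z * (1 - ζ) / (1 - ((‖z‖ ^ 2 : ℝ) : ℂ) * ζ)) - f z) /
    (-(z * ((1 - ‖z‖ ^ 2 : ℝ) : ℂ)) * deriv f z)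

/-- `f` is univalent in the unit disc -/
def Univ (f : ℂ → ℂ) : Prop := DifferentiableOn ℂ f (ball 0 1) ∧ Set.InjOn f (ball 0 1)

end Pool.Agent.H58.BJ
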