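import Pool.Agent.H58.BJ.Def
import Pool.Agent.H83.Lo.Inj

/-!
# Project BJ, row A11: the winding number of `W - w` is at most `0`
-/

set_option autoImplicit false

namespace Pool.Agent.H58.BJ

open Complex Metric Set MeasureTheory
open scoped Real ComplexConjugate

theorem a11_cont {k : ℂ → ℂ} (hk : DifferentiableOn ℂ k (ball 0 1)) {r : ℝ} (hr1 : r < 1)
    {s : Set ℂ} (hs : s ⊆ closedBall 0 r) (h0 : ∀ ζ ∈ s, k ζ ≠ 0) :
    ContinuousOn (fun ζ => deriv k ζ / k ζ) s := by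
  have hk' : DifferentiableOn ℂ (deriv k) (ball 0 1) := hk.deriv isOpen_ball
  have hsub : s ⊆ ball (0 : ℂ) 1 := hs.trans (closedBall_subset_ball hr1)
  exact ContinuousOn.div (hk'.continuousOn.mono hsub) (hk.continuousOn.mono hsub) h0

theorem a11_zero {k : ℂ → ℂ} (hk : DifferentiableOn ℂ k (ball 0 1)) {r : ℝ} (hr : 0 < r)
    (hr1 : r < 1) (h0 : ∀ ζ ∈ closedBall (0 : ℂ) r, k ζ ≠ 0) :
    (∮ ζ in C(0, r), deriv k ζ / k ζ) = 0 := by
  have hk' : DifferentiableOn ℂ (deriv k) (ball 0 1) := hk.deriv isOpen_ball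
  have hsub : closedBall (0 : ℂ) r ⊆ ball 0 1 := closedBall_subset_ball hr1
  refine Complex.circleIntegral_eq_zero_of_differentiable_on_off_countable hr.le countable_empty
    (a11_cont hk hr1 Subset.rfl h0) ?_
  intro ζ hζ
  have hζ1 : ζ ∈ closedBall (0 : ℂ) r := ball_subset_closedBall hζ.1
  have hζ2 : ball (0 : ℂ) 1 ∈ nhds ζ := isOpen_ball.mem_nhds (hsub hζ1)
  exact (hk'.differentiableAt hζ2).div (hk.differentiableAt hζ2) (h0 ζ hζ1)

theorem wind {V : ℂ → ℂ} (hV : DifferentiableOn ℂ V (ball 0 1)) (hV0 : V 0 = 1)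
    (hi : InjOn (fun ζ => V ζ / ζ) {ζ | 0 < ‖ζ‖ ∧ ‖ζ‖ < 1}) {r : ℝ} (hr : 0 < r) (hr1 : r < 1)
    {w : ℂ} (hw : ∀ ζ, ‖ζ‖ = r → V ζ / ζ ≠ w) :
    ∃ n : ℝ, n ≤ 0 ∧ (∮ ζ in C(0, r), deriv (fun ζ => V ζ / ζ) ζ / (V ζ / ζ - w)) =
      2 * π * I * n := by
  set h : ℂ → ℂ := fun ζ => V ζ - w * ζ with hh
  have hhd : DifferentiableOn ℂ h (ball 0 1) :=
    hV.sub ((differentiable_const w).mul differentiable_id).differentiableOn
  have hh0 : h 0 = 1 := by simp [hh, hV0]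
  have hbn : ∀ ζ : ℂ, ‖ζ‖ < 1 → ball (0 : ℂ) 1 ∈ nhds ζ := fun ζ hζ =>
    isOpen_ball.mem_nhds (by simpa using hζ)
  have hhc : ∀ ζ : ℂ, ‖ζ‖ = r → h ζ ≠ 0 := by
    intro ζ hζ h0
    have hζ0 : ζ ≠ 0 := by
      intro h1
      rw [h1, norm_zero] at hζ
      exact hr.ne hζ
    apply hw ζ hζ
    rw [div_eq_iff hζ0]
    exact sub_eq_zero.1 h0
  have hdh : ∀ ζ : ℂ, ‖ζ‖ < 1 → deriv h ζ = deriv V ζ - w := by
    intro ζ hζ
    have h1 : HasDerivAt h (deriv V ζ - w * 1) ζ :=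
      (hV.differentiableAt (hbn ζ hζ)).hasDerivAt.sub ((hasDerivAt_id ζ).const_mul w)
    rw [h1.deriv, mul_one]
  have hdW : ∀ ζ : ℂ, ζ ≠ 0 → ‖ζ‖ < 1 →
      deriv (fun ζ => V ζ / ζ) ζ = (deriv V ζ * ζ - V ζ) / ζ ^ 2 := by
    intro ζ hζ0 hζ
    have h1 : HasDerivAt (fun ζ => V ζ / ζ) ((deriv V ζ * ζ - V ζ * 1) / ζ ^ 2) ζ :=
      (hV.differentiableAt (hbn ζ hζ)).hasDerivAt.div (hasDerivAt_id ζ) hζ0
    rw [h1.deriv, mul_one]
  -- the zeros of `h`
  have hz : ∀ a b : ℂ, ‖a‖ < 1 → ‖b‖ < 1 → h a = 0 → h b = 0 → a = b := by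
    intro a b ha hb h1 h2
    have ha0 : a ≠ 0 := by
      intro h3
      rw [h3, hh0] at h1
      exact one_ne_zero h1
    have hb0 : b ≠ 0 := by
      intro h3
      rw [h3, hh0] at h2
      exact one_ne_zero h2
    refine hi ⟨norm_pos_iff.2 ha0, ha⟩ ⟨norm_pos_iff.2 hb0, hb⟩ ?_
    show V a / a = V b / b
    rw [sub_eq_zero.1 h1, sub_eq_zero.1 h2, mul_div_cancel_right₀ _ ha0,
      mul_div_cancel_right₀ _ hb0]
  have hint : (∮ ζ in C(0, r), deriv (fun ζ => V ζ / ζ) ζ / (V ζ / ζ - w)) =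
      (∮ ζ in C(0, r), deriv h ζ / h ζ) - ∮ ζ in C(0, r), (ζ - 0)⁻¹ := by
    have hs : sphere (0 : ℂ) r ⊆ closedBall 0 r := sphere_subset_closedBall
    have c1 : CircleIntegrable (fun ζ => deriv h ζ / h ζ) 0 r :=
      (a11_cont hhd hr1 hs (fun ζ hζ => hhc ζ (by simpa using hζ))).circleIntegrable hr.le
    have c2 : CircleIntegrable (fun ζ : ℂ => (ζ - 0)⁻¹) 0 r := by
      refine ContinuousOn.circleIntegrable hr.le ?_
      refine ContinuousOn.inv₀ (continuousOn_id.sub continuousOn_const) ?_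
      intro ζ hζ h1
      have h2 : ‖ζ‖ = r := by simpa using hζ
      rw [sub_zero] at h1
      have h3 : ζ = 0 := h1
      rw [h3, norm_zero] at h2
      exact hr.ne h2
    rw [← circleIntegral.integral_sub c1 c2]
    refine circleIntegral.integral_congr hr.le ?_
    intro ζ hζ
    have h2 : ‖ζ‖ = r := by simpa using hζ
    have hζ0 : ζ ≠ 0 := by
      intro h1
      rw [h1, norm_zero] at h2
      exact hr.ne h2
    have hζ1 : ‖ζ‖ < 1 := h2.trans_lt hr1
    have hne := hhc ζ h2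
    have e1 : V ζ / ζ - w = h ζ / ζ := by
      rw [hh]
      field_simp
    show deriv (fun ζ => V ζ / ζ) ζ / (V ζ / ζ - w) = deriv h ζ / h ζ - (ζ - 0)⁻¹
    rw [e1, hdW ζ hζ0 hζ1, hdh ζ hζ1, sub_zero]
    have e2 : V ζ = h ζ + w * ζ := by rw [hh]; ring
    rw [e2]
    field_simp
    ring
  rw [hint, circleIntegral.integral_sub_inv_of_mem_ball (mem_ball_self hr)]
  by_cases hc : ∃ a : ℂ, ‖a‖ < 1 ∧ ‖a‖ ≤ r ∧ h a = 0
  · obtain ⟨a, ha1, ha, haz⟩ := hc
    have har : ‖a‖ < r := lt_of_le_of_ne ha (fun h1 => hhc a h1 haz)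
    have ha0 : a ≠ 0 := by
      intro h3
      rw [h3, hh0] at haz
      exact one_ne_zero haz
    refine ⟨0, le_rfl, ?_⟩
    -- the derivative at the zero
    have hda : deriv h a ≠ 0 := by
      have hU : IsOpen {ζ : ℂ | 0 < ‖ζ‖ ∧ ‖ζ‖ < 1} :=
        (isOpen_lt continuous_const continuous_norm).inter
          (isOpen_lt continuous_norm continuous_const)
      have hWd : DifferentiableOn ℂ (fun ζ => V ζ / ζ) {ζ : ℂ | 0 < ‖ζ‖ ∧ ‖ζ‖ < 1} := by
        refine (hV.mono ?_).div differentiableOn_id ?_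
        · intro ζ hζ
          simpa using hζ.2
        · intro ζ hζ
          exact norm_pos_iff.1 hζ.1
      have h1 := Pool.Agent.H83.Lo.deriv_ne_zero hU hWd hi
        (z := a) ⟨norm_pos_iff.2 ha0, ha1⟩
      rw [hdW a ha0 ha1] at h1
      rw [hdh a ha1]
      intro h2
      apply h1
      have h3 : deriv V a = w := sub_eq_zero.1 h2
      have h4 : V a = w * a := sub_eq_zero.1 haz
      rw [h3, h4, sub_self, zero_div]
    set k : ℂ → ℂ := dslope h a with hk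
    have hkd : DifferentiableOn ℂ k (ball 0 1) :=
      (Complex.differentiableOn_dslope (hbn a ha1)).2 hhd
    have hhk : ∀ ζ, h ζ = (ζ - a) * k ζ := by
      intro ζ
      have h1 := sub_smul_dslope h a ζ
      rw [haz, sub_zero] at h1
      rw [← h1, smul_eq_mul]
    have hk0 : ∀ ζ ∈ closedBall (0 : ℂ) r, k ζ ≠ 0 := by
      intro ζ hζ h0
      have hζr : ‖ζ‖ ≤ r := by simpa using hζ
      by_cases hza : ζ = a
      · rw [hza, hk, dslope_same] at h0
        exact hda h0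
      · exact hza (hz ζ a (hζr.trans_lt hr1) ha1 (by rw [hhk, h0, mul_zero]) haz)
    have hint2 : (∮ ζ in C(0, r), deriv h ζ / h ζ) =
        (∮ ζ in C(0, r), (ζ - a)⁻¹) + ∮ ζ in C(0, r), deriv k ζ / k ζ := by
      have c1 : CircleIntegrable (fun ζ => deriv k ζ / k ζ) 0 r :=
        (a11_cont hkd hr1 sphere_subset_closedBall
          (fun ζ hζ => hk0 ζ (sphere_subset_closedBall hζ))).circleIntegrable hr.le
      have c2 : CircleIntegrable (fun ζ : ℂ => (ζ - a)⁻¹) 0 r := by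
        refine ContinuousOn.circleIntegrable hr.le ?_
        refine ContinuousOn.inv₀ (continuousOn_id.sub continuousOn_const) ?_
        intro ζ hζ h1
        have h2 : ‖ζ‖ = r := by simpa using hζ
        have h3 : ζ = a := sub_eq_zero.1 h1
        rw [h3] at h2
        exact har.ne h2
      rw [← circleIntegral.integral_add c2 c1]
      refine circleIntegral.integral_congr hr.le ?_
      intro ζ hζ
      have h2 : ‖ζ‖ = r := by simpa using hζ
      have hζ1 : ‖ζ‖ < 1 := h2.trans_lt hr1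
      have hza : ζ - a ≠ 0 := by
        intro h1
        have h3 : ζ = a := sub_eq_zero.1 h1
        rw [h3] at h2
        exact har.ne h2
      have hkz : k ζ ≠ 0 := hk0 ζ (sphere_subset_closedBall hζ)
      have e1 : deriv h ζ = 1 * k ζ + (ζ - a) * deriv k ζ := by
        have h4 : h = fun ζ => (ζ - a) * k ζ := funext hhk
        rw [h4]
        exact (((hasDerivAt_id ζ).sub_const a).mul
          (hkd.differentiableAt (hbn ζ hζ1)).hasDerivAt).deriv
      show deriv h ζ / h ζ = (ζ - a)⁻¹ + deriv k ζ / k ζ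
      rw [e1, hhk ζ]
      field_simp
    rw [hint2, a11_zero hkd hr hr1 hk0,
      circleIntegral.integral_sub_inv_of_mem_ball (by simpa using har)]
    push_cast
    ring
  · refine ⟨-1, by norm_num, ?_⟩
    have h1 : ∀ ζ ∈ closedBall (0 : ℂ) r, h ζ ≠ 0 := by
      intro ζ hζ h0
      have hζr : ‖ζ‖ ≤ r := by simpa using hζ
      exact hc ⟨ζ, hζr.trans_lt hr1, hζr, h0⟩
    rw [a11_zero hhd hr hr1 h1]
    push_cast
    ring

end Pool.Agent.H58.BJ
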